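import Pool.Agent.Helper55.PL.EmbA

/-!
# PL-16: existence of the quadratic extension, of the pairings, of the additive character

Proofs. `exists_E`: `FiniteField.Extension F p 2` (Mathlib.FieldTheory.Finite.Extension) or
`GaloisField p (2 n)`, or `AdjoinRoot` of an irreducible quadratic polynomial.
`exists_CD`: let `g` be a generator of the cyclic group `Eˣ` (order `q² - 1`) and
`w = exp(2 π i / (q² - 1))`. Define `P (g^i) (g^j) = w^(i j)` (for instance: for `μ : Eˣ →* ℂˣ` with
`μ (g) = w` put `P (g^i) = μ^i`; `zpowersMulEquiv`/`monoidHomOfForallMemZpowers`). It is symmetric and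
injective. `nu g` generates `Fˣ` (`iu (nu ζ) = ζ^(q+1)`, so `nu g` has order `q - 1`). Define
`Q ((nu g)^i) ((nu g)^j) = w^((q + 1) i j)`, i.e. `Q ((nu g)^i) = (resc F μ)^i`; symmetric, injective
(`w^(q+1)` is a primitive root of unity of order `q - 1`). `PQ`: `z = (nu g)^j` has
`iu z = g^((q+1) j)`, `a = g^i`: both sides are `w^((q+1) i j)`.
`exists_psi`: `ψ u = exp(2 π i Tr(u) / p)`, `Tr` the trace to `ZMod p` (`ZMod.stdAddChar` composed with
`Algebra.trace (ZMod p) F`); the trace is surjective, so `ψ ≠ 1`, and it is invariant under the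
automorphisms of `F` (`Algebra.trace_eq_of_algEquiv`; every ring automorphism is `ZMod p`-linear).
`exists_nonsq`: `FiniteField.exists_nonsquare`.
-/

open Matrix
open scoped MatrixGroups Classical

set_option linter.unusedSectionVars false

namespace Pool.Agent.Helper55.PL

open Pool.Agent.Helper42.INC Pool.Agent.Helper7.MK

theorem exists_E (F : Type) [Field F] [Fintype F] :
    ∃ (E : Type) (_ : Field E) (_ : Fintype E) (_ : Algebra F E), Module.finrank F E = 2 := by
  have hp : Fact (ringChar F).Prime := ⟨CharP.char_is_prime F _⟩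
  exact ⟨FiniteField.Extension F (ringChar F) 2, inferInstance, Fintype.ofFinite _, inferInstance,
    FiniteField.finrank_extension F (ringChar F) 2⟩

theorem exists_psi (F : Type) [Field F] [Fintype F] :
    ∃ ψ : AddChar F ℂ, ψ ≠ 1 ∧ ∀ (f : F ≃+* F) (u : F), ψ (f u) = ψ u := by
  have hp : Fact (ringChar F).Prime := ⟨CharP.char_is_prime F _⟩
  let _ : Algebra (ZMod (ringChar F)) F := ZMod.algebra F (ringChar F)
  have hne : NeZero (ringChar F) := ⟨hp.out.ne_zero⟩
  refine ⟨(ZMod.stdAddChar : AddChar (ZMod (ringChar F)) ℂ).compAddMonoidHom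
    (Algebra.trace (ZMod (ringChar F)) F).toAddMonoidHom, ?_, ?_⟩
  · intro h
    obtain ⟨b, hb⟩ := FiniteField.trace_to_zmod_nondegenerate F (one_ne_zero (α := F))
    rw [one_mul] at hb
    have h1 := DFunLike.congr_fun h b
    rw [AddChar.compAddMonoidHom_apply, AddChar.one_apply,
      ← AddChar.map_zero_eq_one (ZMod.stdAddChar : AddChar (ZMod (ringChar F)) ℂ)] at h1
    exact hb (ZMod.injective_stdAddChar h1)
  · intro f u
    rw [AddChar.compAddMonoidHom_apply, AddChar.compAddMonoidHom_apply]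
    congr 1
    have h1 : ∀ r : ZMod (ringChar F), f (algebraMap (ZMod (ringChar F)) F r) =
        algebraMap (ZMod (ringChar F)) F r := by
      intro r
      have h2 : (f : F →+* F).comp (algebraMap (ZMod (ringChar F)) F) =
        algebraMap (ZMod (ringChar F)) F := Subsingleton.elim _ _
      exact RingHom.congr_fun h2 r
    exact Algebra.trace_eq_of_algEquiv (AlgEquiv.ofRingEquiv (f := f) h1) u

theorem exists_nonsq {F : Type} [Field F] [Fintype F] (h2 : (2 : F) ≠ 0) :
    ∃ ν : Fˣ, ¬ IsSquare ν := by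
  have h : ringChar F ≠ 2 := by
    intro h
    apply h2
    have h3 : ((ringChar F : ℕ) : F) = 0 := CharP.cast_eq_zero F (ringChar F)
    rw [h] at h3
    exact_mod_cast h3
  obtain ⟨a, ha⟩ := FiniteField.exists_nonsquare h
  have ha0 : a ≠ 0 := by
    rintro rfl
    exact ha ⟨0, by simp⟩
  refine ⟨Units.mk0 a ha0, ?_⟩
  rintro ⟨r, hr⟩
  exact ha ⟨r, by rw [← Units.val_mul, ← hr, Units.val_mk0]⟩

variable {F E : Type} [Field F] [Fintype F] [DecidableEq F] [Field E] [Fintype E] [DecidableEq E]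
  [Algebra F E]

theorem exists_CD (hE : Module.finrank F E = 2) : Nonempty (CD F E) := by
  obtain ⟨g, hg⟩ := IsCyclic.exists_generator (α := Eˣ)
  have hq1 : 1 < Fintype.card F := Fintype.one_lt_card
  have hNE : Fintype.card Eˣ = Fintype.card F ^ 2 - 1 := by
    rw [Fintype.card_units, card_E hE]
  have hNF : Fintype.card Fˣ = Fintype.card F - 1 := Fintype.card_units _
  set q := Fintype.card F with hq
  have hNfac : Fintype.card Eˣ = (q + 1) * (q - 1) := by
    rw [hNE]
    have := Nat.sq_sub_sq q 1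
    simpa using this
  have hog : orderOf g = Fintype.card Eˣ := orderOf_eq_card_of_forall_mem_zpowers hg |>.trans
    (Nat.card_eq_fintype_card)
  have hNpos : Fintype.card Eˣ ≠ 0 := Fintype.card_ne_zero
  have hw := Complex.isPrimitiveRoot_exp (Fintype.card Eˣ) hNpos
  obtain ⟨w, hw'⟩ := hw.isUnit hNpos
  rw [← hw'] at hw
  have hwu : IsPrimitiveRoot w (Fintype.card Eˣ) := IsPrimitiveRoot.coe_units_iff.1 hw
  have hwm : w ∈ rootsOfUnity (Fintype.card Eˣ) ℂ := by
    rw [mem_rootsOfUnity]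
    exact hwu.pow_eq_one
  set μ : MulChar E ℂ := MulChar.ofRootOfUnity hwm hg with hμ
  have hμg : μ g = w := MulChar.ofRootOfUnity_spec hwm hg
  -- powers
  have hpow : ∀ a : Eˣ, ∃ i : ℕ, a = g ^ i := by
    intro a
    obtain ⟨i, hi⟩ := mem_powers_iff_mem_zpowers.2 (hg a)
    exact ⟨i, hi.symm⟩
  have hμpow : ∀ i : ℕ, μ ((g ^ i : Eˣ) : E) = (w : ℂ) ^ i := by
    intro i
    rw [Units.val_pow_eq_pow_val, map_pow, hμg]
  -- the generator of the units of `F`
  set h : Fˣ := nu F E g with hh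
  have hiuinj : Function.Injective (iu F E) := by
    intro a b hab
    apply Units.ext
    apply (algebraMap F E).injective
    rw [← iu_val, ← iu_val, hab]
  have hiuh : iu F E h = g ^ (q + 1) := by
    apply Units.ext
    rw [iu_val, hh, nu_val, norm_eq hE, Units.val_pow_eq_pow_val, pow_succ, mul_comm]
  have hpowF : ∀ z : Fˣ, ∃ j : ℕ, z = h ^ j := by
    intro z
    obtain ⟨i, hi⟩ := hpow (iu F E z)
    have h1 : g ^ (i * (q - 1)) = 1 := by
      rw [pow_mul, ← hi, ← map_pow, ← hNF, pow_card_eq_one, map_one]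
    have h2 : (q + 1) * (q - 1) ∣ i * (q - 1) := by
      rw [← hNfac, ← hog]
      exact orderOf_dvd_of_pow_eq_one h1
    obtain ⟨j, hj⟩ := Nat.dvd_of_mul_dvd_mul_right (by omega) h2
    refine ⟨j, hiuinj ?_⟩
    rw [hi, hj, pow_mul, ← hiuh, map_pow]
  have hhz : ∀ z : Fˣ, z ∈ Subgroup.zpowers h := by
    intro z
    obtain ⟨j, hj⟩ := hpowF z
    rw [hj]
    exact Subgroup.npow_mem_zpowers h j
  have hoh : orderOf h = q - 1 := by
    rw [← hNF, ← Nat.card_eq_fintype_card]
    exact orderOf_eq_card_of_forall_mem_zpowers hhz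
  have hresh : ∀ j : ℕ, resc F μ ((h ^ j : Fˣ) : F) = (w : ℂ) ^ ((q + 1) * j) := by
    intro j
    rw [resc_apply, map_pow, hiuh, ← pow_mul, hμpow]
  have hd1 : orderOf μ ∣ orderOf g := by
    rw [hog]
    exact orderOf_dvd_of_pow_eq_one (MulChar.pow_card_eq_one μ)
  have hd2 : orderOf (resc F μ) ∣ orderOf h := by
    rw [hoh, ← hNF]
    exact orderOf_dvd_of_pow_eq_one (MulChar.pow_card_eq_one _)
  have hPg : ∀ i j : ℕ, (monoidHomOfForallMemZpowers hg hd1 (g ^ i)) ((g ^ j : Eˣ) : E) =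
      (w : ℂ) ^ (i * j) := by
    intro i j
    rw [map_pow, monoidHomOfForallMemZpowers_apply_gen, MulChar.pow_apply_coe, hμpow, ← pow_mul,
      mul_comm]
  have hQg : ∀ i j : ℕ, (monoidHomOfForallMemZpowers hhz hd2 (h ^ i)) ((h ^ j : Fˣ) : F) =
      (w : ℂ) ^ ((q + 1) * (i * j)) := by
    intro i j
    rw [map_pow, monoidHomOfForallMemZpowers_apply_gen, MulChar.pow_apply_coe, hresh, ← pow_mul]
    congr 1
    ring
  refine ⟨{
    Q := monoidHomOfForallMemZpowers hhz hd2
    P := monoidHomOfForallMemZpowers hg hd1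
    Q_inj := ?_
    P_inj := ?_
    Q_symm := ?_
    P_symm := ?_
    PQ := ?_ }⟩
  · rw [injective_iff_map_eq_one]
    intro a ha
    obtain ⟨i, rfl⟩ := hpowF a
    have h1 := hQg i 1
    rw [ha, MulChar.one_apply_coe, mul_one] at h1
    have h2 : (q + 1) * (q - 1) ∣ (q + 1) * i := by
      rw [← hNfac]
      exact (hw.pow_eq_one_iff_dvd _).1 h1.symm
    have h3 := Nat.dvd_of_mul_dvd_mul_left (by omega) h2
    rw [← hoh] at h3
    exact orderOf_dvd_iff_pow_eq_one.1 h3
  · rw [injective_iff_map_eq_one]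
    intro a ha
    obtain ⟨i, rfl⟩ := hpow a
    have h1 := hPg i 1
    rw [ha, MulChar.one_apply_coe, mul_one] at h1
    have h3 := (hw.pow_eq_one_iff_dvd _).1 h1.symm
    rw [← hog] at h3
    exact orderOf_dvd_iff_pow_eq_one.1 h3
  · intro a b
    obtain ⟨i, rfl⟩ := hpowF a
    obtain ⟨j, rfl⟩ := hpowF b
    rw [hQg, hQg, mul_comm i j]
  · intro a b
    obtain ⟨i, rfl⟩ := hpow a
    obtain ⟨j, rfl⟩ := hpow b
    rw [hPg, hPg, mul_comm i j]
  · intro a z
    obtain ⟨i, rfl⟩ := hpow a
    obtain ⟨j, rfl⟩ := hpowF z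
    have h1 : iu F E (h ^ j) = g ^ ((q + 1) * j) := by
      rw [map_pow, hiuh, ← pow_mul]
    have h2 : nu F E (g ^ i) = h ^ i := by
      rw [map_pow]
    rw [h1, h2, hPg, hQg]
    congr 1
    ring

end Pool.Agent.Helper55.PL
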