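import Pool.Agent.Helper55.PL.Chars

/-!
# PL-20: square classes of determinants

`sqd g` is `true` iff `det g` is a square. `q` is odd (`2 ≠ 0`), so the squares have index `2` in `Fˣ`
(`FiniteField`: product of two nonsquares is a square; e.g. `quadraticChar`).

Proofs.
`sqd_mul`: `det` is multiplicative. `sqd_fG`: `det (fG f g) = f (det g)` and `f` preserves squares and
nonsquares. `fu_sq`: `Fˣ` is cyclic, `Fu f` is `x ↦ x^m`; `q - 1` is even and `Fu f` is bijective, so `m` is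
odd and `f b / b = b^(m - 1)` is a square. (Or: `b` is a square iff `f b` is.)
`cj_sq`: if `det g = a²` then `sc a⁻¹ * g = toGL t` with `t ∈ SL₂(F)`, and `cj g s = t s t⁻¹`
(`toGL_cj`, `Matrix.SpecialLinearGroup.toGL_injective`, `sc_comm`).
`cj_mul`: `cj (g h) = cj g ∘ cj h`. `fS_cj`: `fS f (cj g s) = cj (fG f g) (fS f s)`.
`act_formula`: `act g f s = cj g (fS f s)`. If `sqd g = true`: `cj_sq` and `hf`. Otherwise `g = g₁ g_ν` with
`g_ν = up ν 1 0`, `sqd g₁ = true`, so `θ (act g f s) = θ (cj g_ν (fS f s))`, and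
`cj g_ν (fS f s) = fS f (cj (fG f⁻¹ g_ν) s)`, so it is `θ (cj (fG f⁻¹ g_ν) s)` by `hf`; and
`fG f⁻¹ g_ν = g₂ g_ν` with `sqd g₂ = true` (`sqd_fG`, `sqd_mul`).
-/

open Matrix
open scoped MatrixGroups Classical

set_option linter.unusedSectionVars false

namespace Pool.Agent.Helper55.PL

open Pool.Agent.Helper42.INC Pool.Agent.Helper7.MK

variable {F : Type} [Field F] [Fintype F] [DecidableEq F]

/-- squares of units -/
private theorem isq_coe (x : Fˣ) : IsSquare x ↔ IsSquare (x : F) := by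
  constructor
  · rintro ⟨r, hr⟩
    exact ⟨r, by rw [hr, Units.val_mul]⟩
  · rintro ⟨r, hr⟩
    have hr0 : r ≠ 0 := by
      rintro rfl
      rw [mul_zero] at hr
      exact x.ne_zero hr
    refine ⟨Units.mk0 r hr0, Units.ext ?_⟩
    rw [Units.val_mul, Units.val_mk0, hr]

private theorem isq_mul (x y : Fˣ) : IsSquare (x * y) ↔ (IsSquare x ↔ IsSquare y) := by
  by_cases hx : IsSquare x
  · by_cases hy : IsSquare y
    · exact iff_of_true (hx.mul hy) (iff_of_true hx hy)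
    · refine iff_of_false ?_ (fun h => hy (h.1 hx))
      intro h
      apply hy
      obtain ⟨a, ha⟩ := hx
      obtain ⟨b, hb⟩ := h
      refine ⟨b * a⁻¹, ?_⟩
      have h1 : y = x⁻¹ * (x * y) := by rw [inv_mul_cancel_left]
      rw [h1, hb, ha, mul_inv, mul_mul_mul_comm, mul_comm a⁻¹ b]
  · by_cases hy : IsSquare y
    · refine iff_of_false ?_ (fun h => hx (h.2 hy))
      intro h
      apply hx
      obtain ⟨a, ha⟩ := hy
      obtain ⟨b, hb⟩ := h
      refine ⟨b * a⁻¹, ?_⟩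
      have h1 : x = (x * y) * y⁻¹ := by rw [mul_inv_cancel_right]
      rw [h1, hb, ha, mul_inv, mul_mul_mul_comm]
    · refine iff_of_true ?_ (iff_of_false hx hy)
      rw [isq_coe] at hx hy ⊢
      rw [← quadraticChar_neg_one_iff_not_isSquare] at hx hy
      rw [← quadraticChar_one_iff_isSquare (Units.ne_zero _), Units.val_mul, map_mul, hx, hy]
      norm_num

private theorem isq_Fu (f : F ≃+* F) (x : Fˣ) : IsSquare (Fu f x) ↔ IsSquare x := by
  constructor
  · rintro ⟨r, hr⟩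
    refine ⟨(Fu f).symm r, ?_⟩
    rw [← map_mul, ← hr, MulEquiv.symm_apply_apply]
  · rintro ⟨r, hr⟩
    exact ⟨Fu f r, by rw [hr, map_mul]⟩

theorem sqd_iff {g : GL (Fin 2) F} :
    sqd g = true ↔ IsSquare (Matrix.GeneralLinearGroup.det g) := by
  unfold sqd
  refine Iff.trans (@decide_eq_true_iff _ (_)) ?_
  constructor
  · rintro ⟨a, ha⟩
    exact ⟨a, ha.symm⟩
  · rintro ⟨a, ha⟩
    exact ⟨a, ha.symm⟩

theorem sqd_mul (h2 : (2 : F) ≠ 0) (g h : GL (Fin 2) F) : sqd (g * h) = (sqd g == sqd h) := by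
  rw [Bool.eq_iff_iff, sqd_iff, map_mul, isq_mul, beq_iff_eq, Bool.eq_iff_iff, sqd_iff, sqd_iff]

theorem sqd_sc (z : Fˣ) : sqd (sc z : GL (Fin 2) F) = true := by
  rw [sqd_iff, sc, up_det]
  exact ⟨z, rfl⟩

theorem sqd_toGL (s : SL(2, F)) :
    sqd (Matrix.SpecialLinearGroup.toGL s : GL (Fin 2) F) = true := by
  rw [sqd_iff]
  have h : Matrix.GeneralLinearGroup.det (Matrix.SpecialLinearGroup.toGL s : GL (Fin 2) F) = 1 := by
    apply Units.ext
    rw [Matrix.GeneralLinearGroup.val_det_apply, Matrix.SpecialLinearGroup.coe_GL_coe_matrix,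
      Units.val_one]
    exact s.2
  rw [h]
  exact ⟨1, (mul_one 1).symm⟩

theorem sqd_nu {ν : Fˣ} (hν : ¬ IsSquare ν) : sqd (up ν 1 0 : GL (Fin 2) F) = false := by
  rw [← Bool.not_eq_true, sqd_iff, up_det, mul_one]
  exact hν

private theorem det_fG (f : F ≃+* F) (g : GL (Fin 2) F) :
    Matrix.GeneralLinearGroup.det (fG f g) = Fu f (Matrix.GeneralLinearGroup.det g) := by
  apply Units.ext
  rw [Matrix.GeneralLinearGroup.val_det_apply, Fu_val, Matrix.GeneralLinearGroup.val_det_apply,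
    Matrix.det_fin_two, Matrix.det_fin_two, fG_val, fG_val, fG_val, fG_val, map_sub, map_mul,
    map_mul]

theorem sqd_fG (f : F ≃+* F) (g : GL (Fin 2) F) : sqd (fG f g) = sqd g := by
  rw [Bool.eq_iff_iff, sqd_iff, sqd_iff, det_fG, isq_Fu]

theorem fu_sq (h2 : (2 : F) ≠ 0) (f : F ≃+* F) (b : Fˣ) : ∃ z : Fˣ, Fu f b = z ^ 2 * b := by
  have h : IsSquare (Fu f b * b) := (isq_mul _ _).2 (isq_Fu f b)
  obtain ⟨w, hw⟩ := h
  refine ⟨w * b⁻¹, ?_⟩
  rw [eq_comm]
  calc (w * b⁻¹) ^ 2 * b = w * w * (b⁻¹ * (b⁻¹ * b)) := by rw [pow_two, mul_mul_mul_comm]; group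
    _ = Fu f b * b * b⁻¹ := by rw [← hw, inv_mul_cancel, mul_one]
    _ = Fu f b := mul_inv_cancel_right _ _

theorem cj_mul (g h : GL (Fin 2) F) (s : SL(2, F)) : cj (g * h) s = cj g (cj h s) := by
  apply Matrix.SpecialLinearGroup.toGL_injective
  rw [toGL_cj, toGL_cj, toGL_cj]
  group

theorem fS_cj (f : F ≃+* F) (g : GL (Fin 2) F) (s : SL(2, F)) :
    fS f (cj g s) = cj (fG f g) (fS f s) := by
  apply Matrix.SpecialLinearGroup.toGL_injective
  rw [toGL_fS, toGL_cj, toGL_cj, toGL_fS, map_mul, map_mul, map_inv]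

/-- class functions are fixed by the conjugation with elements whose determinant is a square -/
theorem cj_sq {θ : SL(2, F) → ℂ} (hθ : IsClass θ) {g : GL (Fin 2) F} (hg : sqd g = true)
    (s : SL(2, F)) : θ (cj g s) = θ s := by
  rw [sqd_iff] at hg
  obtain ⟨a, ha⟩ := hg
  have hdet : Matrix.GeneralLinearGroup.det (sc a⁻¹ * g) = 1 := by
    rw [map_mul, sc, up_det, ha, mul_mul_mul_comm, inv_mul_cancel, mul_one]
  have hdet' : (sc a⁻¹ * g : GL (Fin 2) F).val.det = 1 := by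
    have h := congrArg Units.val hdet
    rwa [Matrix.GeneralLinearGroup.val_det_apply, Units.val_one] at h
  let t : SL(2, F) := ⟨(sc a⁻¹ * g : GL (Fin 2) F).val, hdet'⟩
  have ht : Matrix.SpecialLinearGroup.toGL t = sc a⁻¹ * g := by
    apply Units.ext
    rfl
  have h1 : cj g s = t * s * t⁻¹ := by
    apply Matrix.SpecialLinearGroup.toGL_injective
    rw [toGL_cj, map_mul, map_mul, map_inv, ht]
    have h8 : sc a⁻¹ * g * Matrix.SpecialLinearGroup.toGL s * (sc a⁻¹ * g)⁻¹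
        = sc a⁻¹ * (g * Matrix.SpecialLinearGroup.toGL s * g⁻¹) * (sc a⁻¹)⁻¹ := by
      group
    rw [h8, sc_comm, mul_inv_cancel_right]
  rw [h1]
  exact hθ t s

theorem act_formula (h2 : (2 : F) ≠ 0) {ν : Fˣ} (hν : ¬ IsSquare ν) {θ : SL(2, F) → ℂ}
    (hθ : IsClass θ) (hf : ∀ (f : F ≃+* F) s, θ (fS f s) = θ s) (g : GL (Fin 2) F) (f : F ≃+* F)
    (s : SL(2, F)) : θ (act g f s) = if sqd g = true then θ s else θ (cj (up ν 1 0) s) := by
  rw [act_apply]
  by_cases hg : sqd g = true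
  · rw [if_pos hg, cj_sq hθ hg, hf]
  · rw [if_neg hg]
    have key : ∀ (k : GL (Fin 2) F), ¬ sqd k = true → ∀ x : SL(2, F),
        θ (cj k x) = θ (cj (up ν 1 0) x) := by
      intro k hk x
      have h3 : k = (k * (up ν 1 0)⁻¹) * up ν 1 0 := by rw [inv_mul_cancel_right]
      have h4 : sqd (k * (up ν 1 0)⁻¹) = true := by
        have h5 := sqd_mul h2 (k * (up ν 1 0)⁻¹) (up ν 1 0)
        rw [inv_mul_cancel_right, sqd_nu hν, Bool.eq_false_iff.2 hk] at h5
        simpa using h5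
      conv_lhs => rw [h3]
      rw [cj_mul, cj_sq hθ h4]
    rw [key g hg]
    have h6 : cj (up ν 1 0) (fS f s) = fS f (cj (fG f⁻¹ (up ν 1 0)) s) := by
      rw [fS_cj, ← fG_mul, mul_inv_cancel, fG_one]
    rw [h6, hf]
    apply key
    rw [sqd_fG, sqd_nu hν]
    exact Bool.false_ne_true

end Pool.Agent.Helper55.PL
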