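import Pool.Agent.Helper55.PL.Whit
import Pool.Agent.Helper55.PL.HalfB
import Pool.Agent.Helper57.PL.Rep

/-!
# PL-30: matched characters, the half characters

`θ`, `φ` irreducible characters of `SL₂(F)` and `BS F` with the same central sign `κ` (`κ² = 1`), both
with exactly one Whittaker vector for `ψ`, fixed exactly by the pairs `(g, f)`, `g ∈ BG`, with
`sqd g = true` (for `φ`: fixed at least by these).

Proof of `matched_half`. Let `ρ` on `V` and `σ` on `V'` be representations with characters `θ`, `φ`,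
`A = (F ≃+* F)`, acting on `SL₂(F)` by `fS` and on `BS F` by its restriction (`fS_mem`). `θ (fS f s) = θ s` is
`hθ` with `g = 1` (`act 1 f = fS f`, `sqd 1 = true`), the same for `φ`. `exists_W` for `ρ` with
`j u = xu u` gives `W : A →* End V`, and for `σ` gives `W' : A →* End V'`. The space is `V ⊗ V'^*`, i.e.
(matrices) `D (k, t) = ρ(k) ⊗ σ(t⁻¹)ᵀ`, in matrices `Matrix.kronecker` and reindexing
`Fin d × Fin d' ≃ Fin (d * d')`; it is a homomorphism, the trace is `θ(k) φ(t⁻¹)`.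
For `g ∈ BG` with `sqd g = true` there are `z`, `t ∈ BS F` with `g = sc z * toGL t`, unique up to
`(z, t) ↦ (-z, -t)`: `det g = z²`. `D (dd (-1), dd (-1)) = 1` because `ρ(dd (-1)) = κ`, `σ(dd(-1)) = κ` are
scalars (from `hκ`, `hκ'`, Schur) with `κ κ = 1`. Put
`R g f = D (t, t) * (W f ⊗ (W' f)^{-1}ᵀ)` for `sqd g = true` (`W' f` is invertible since `W'` is a homomorphism
of a group), and `0` otherwise; well defined.
If `(g, f)` fixes `θ` then `sqd g = true` by `hfix`.
Multiplicativity: `g * fG f g' = sc (z f(z')) * toGL (t * fS f t')`, and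
`(W f ⊗ W' f^{-T}) D (k, s) = D (fS f k, fS f s) (W f ⊗ W' f^{-T})`.
Implementing: `act g f s = t (fS f s) t⁻¹` (`cj_sq` style; `sc z` acts trivially).
`R (toGL t) 1 = D (t, t)` (`z = 1`), `R (sc z) 1 = D (1, 1) = 1`.

Proof of `matched_tr` (transport): for `γ = up ν 1 0 ∈ BG`, `θ' = θ ∘ cj γ`, `φ' = φ ∘ cj γ`:
`D' (k, t) = D (cj γ k, cj γ t)`, `R' g f = R (γ * g * fG f γ⁻¹) f`; and
`act (γ * g * fG f γ⁻¹) f (cj γ s) = cj γ (act g f s)`, so `(g, f)` fixes `θ'` iff `(γ g f(γ)⁻¹, f)` fixes `θ`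
(evaluate at `cj γ s`).
-/

open Matrix
open scoped MatrixGroups Classical

set_option linter.unusedSectionVars false

namespace Pool.Agent.Helper55.PL

open Pool.Agent.Helper42.INC Pool.Agent.Helper7.MK

variable {F : Type} [Field F] [Fintype F] [DecidableEq F] {ψ : AddChar F ℂ}

open scoped Kronecker

/-- the field automorphisms on `SL₂(F)` as a homomorphism -/
private def mhA (F : Type) [Field F] : (F ≃+* F) →* MulAut SL(2, F) where
  toFun := fS
  map_one' := by
    ext1 s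
    ext i j
    rw [fS_val]
    rfl
  map_mul' f f' := by
    ext1 s
    ext i j
    rw [MulAut.mul_apply, fS_val, fS_val, fS_val]
    rfl

private theorem mhA_inv (f : F ≃+* F) (s : SL(2, F)) : fS f⁻¹ (fS f s) = s := by
  have h1 : mhA F f⁻¹ (mhA F f s) = s := by
    rw [← MulAut.mul_apply, ← map_mul, inv_mul_cancel, map_one, MulAut.one_apply]
  exact h1

private theorem mhA_inv' (f : F ≃+* F) (s : SL(2, F)) : fS f (fS f⁻¹ s) = s := by
  have h1 : mhA F f (mhA F f⁻¹ s) = s := by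
    rw [← MulAut.mul_apply, ← map_mul, mul_inv_cancel, map_one, MulAut.one_apply]
  exact h1

/-- the field automorphisms on the upper triangular subgroup as a homomorphism -/
private def mhB (F : Type) [Field F] [Fintype F] [DecidableEq F] :
    (F ≃+* F) →* MulAut (BS F) where
  toFun f :=
    { toFun := fun s => ⟨fS f s, fS_mem.2 s.2⟩
      invFun := fun s => ⟨fS f⁻¹ s, fS_mem.2 s.2⟩
      left_inv := fun s => Subtype.ext (mhA_inv f s)
      right_inv := fun s => Subtype.ext (mhA_inv' f s)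
      map_mul' := fun s t => Subtype.ext (map_mul (fS f) (s : SL(2, F)) t) }
  map_one' := by
    ext1 s
    apply Subtype.ext
    exact DFunLike.congr_fun (map_one (mhA F)) s.1
  map_mul' f f' := by
    ext1 s
    apply Subtype.ext
    exact DFunLike.congr_fun (map_mul (mhA F) f f') s.1

private theorem mhB_coe (f : F ≃+* F) (s : BS F) :
    ((mhB F f s : BS F) : SL(2, F)) = fS f (s : SL(2, F)) := rfl

private theorem mh_fin {n : Type} [Fintype n] [DecidableEq n] {θ : SL(2, F) → ℂ} {φ : BS F → ℂ}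
    (D : SL(2, F) × BS F →* Matrix n n ℂ) (R : GL (Fin 2) F → (F ≃+* F) → Matrix n n ℂ)
    (h1 : ∀ k t, (D (k, t)).trace = θ k * φ t⁻¹)
    (h2 : ∀ g f g' f', g ∈ BG F → g' ∈ BG F → (∀ s, θ (act g f s) = θ s) →
      (∀ s, θ (act g' f' s) = θ s) → R (g * fG f g') (f * f') = R g f * R g' f')
    (h3 : ∀ g f k (t t' : BS F), g ∈ BG F → (∀ s, θ (act g f s) = θ s) →
      (t' : SL(2, F)) = act g f t → R g f * D (k, t) = D (act g f k, t') * R g f)
    (h4 : ∀ t : BS F, R (Matrix.SpecialLinearGroup.toGL (t : SL(2, F))) 1 = D (t, t))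
    (h5 : ∀ z : Fˣ, R (sc z) 1 = 1) : MatchedS θ φ := by
  let Φ := Matrix.reindexAlgEquiv ℂ ℂ (Fintype.equivFin n)
  refine ⟨Fintype.card n, Φ.toMulEquiv.toMonoidHom.comp D, fun g f => Φ (R g f), ?_, ?_, ?_, ?_, ?_⟩
  · intro k t
    rw [← h1 k t]
    change (Matrix.reindexAlgEquiv ℂ ℂ (Fintype.equivFin n) (D (k, t))).trace = _
    unfold Matrix.trace
    refine Fintype.sum_equiv (Fintype.equivFin n).symm _ _ fun i => ?_
    rfl
  · intro g f g' f' hg hg' h h'
    change Φ (R _ _) = Φ _ * Φ _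
    rw [h2 g f g' f' hg hg' h h', map_mul]
  · intro g f k t t' hg h ht
    change Φ (R g f) * Φ (D (k, t)) = Φ (D (act g f k, t')) * Φ (R g f)
    rw [← map_mul, ← map_mul, h3 g f k t t' hg h ht]
  · intro t
    change Φ (R _ _) = _
    rw [h4 t]
    rfl
  · intro z
    change Φ (R _ _) = _
    rw [h5 z, map_one]

private theorem mh_sc_mul (z z' : Fˣ) : (sc z * sc z' : GL (Fin 2) F) = sc (z * z') := by
  rw [sc, sc, sc, up_mul, mul_zero, zero_mul, add_zero]

private theorem mh_sc_one : (sc 1 : GL (Fin 2) F) = 1 := by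
  apply Units.ext
  rw [sc, up_val]
  ext i j
  fin_cases i <;> fin_cases j <;> simp

private theorem mh_fG_sc (f : F ≃+* F) (z : Fˣ) : fG f (sc z) = sc (Fu f z) := by
  rw [sc, sc, fG_up, map_zero]

private theorem mh_det_sc (z : Fˣ) :
    Matrix.GeneralLinearGroup.det (sc z : GL (Fin 2) F) = z * z := by
  rw [sc, up_det]

private theorem mh_det_toGL (s : SL(2, F)) :
    Matrix.GeneralLinearGroup.det (Matrix.SpecialLinearGroup.toGL s : GL (Fin 2) F) = 1 :=
  Units.ext s.2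

private theorem mh_dd_neg : Matrix.SpecialLinearGroup.toGL (dd (-1) : SL(2, F)) = sc (-1) := by
  rw [toGL_dd, sc, inv_neg_one]

/-- decomposition of the upper triangular matrices whose determinant is a square -/
private theorem mh_dec {g : GL (Fin 2) F} (hg : g ∈ BG F) (h : sqd g = true) :
    ∃ (z : Fˣ) (t : BS F), g = sc z * Matrix.SpecialLinearGroup.toGL (t : SL(2, F)) := by
  obtain ⟨x, y, u, rfl⟩ := exists_up hg
  rw [sqd_iff, up_det] at h
  obtain ⟨a, ha⟩ := h
  refine ⟨a, ⟨dd (x * a⁻¹) * xu ((x⁻¹ : Fˣ) * u), mul_mem (dd_mem _) (xu_mem _)⟩, ?_⟩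
  change up x y u = sc a * Matrix.SpecialLinearGroup.toGL (dd (x * a⁻¹) * xu ((x⁻¹ : Fˣ) * u))
  rw [map_mul, toGL_dd, toGL_xu, sc, up_mul, up_mul]
  congr 1
  · rw [mul_one, mul_comm x, mul_inv_cancel_left]
  · rw [mul_one, mul_inv, inv_inv]
    have h1 : y = x⁻¹ * (a * a) := by rw [← ha, inv_mul_cancel_left]
    rw [h1]
    calc x⁻¹ * (a * a) = a * (x⁻¹ * a) := by rw [← mul_assoc, mul_comm (x⁻¹ * a)]
      _ = _ := rfl
  · rw [zero_mul, add_zero, zero_mul, add_zero]
    rw [← mul_assoc, ← mul_assoc, ← Units.val_mul, ← Units.val_mul]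
    have h1 : a * (x * a⁻¹) * x⁻¹ = 1 := by
      rw [mul_comm x a⁻¹, mul_inv_cancel_left, mul_inv_cancel]
    rw [h1, Units.val_one, one_mul]

private theorem mh_uniq {z z' : Fˣ} {t t' : BS F}
    (h : (sc z * Matrix.SpecialLinearGroup.toGL (t : SL(2, F)) : GL (Fin 2) F) =
      sc z' * Matrix.SpecialLinearGroup.toGL (t' : SL(2, F))) :
    t = t' ∨ t = ⟨dd (-1), dd_mem _⟩ * t' := by
  have h1 := congrArg Matrix.GeneralLinearGroup.det h
  rw [map_mul, map_mul, mh_det_sc, mh_det_sc, mh_det_toGL, mh_det_toGL, mul_one, mul_one] at h1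
  have h2 : z = z' ∨ z = -z' := by
    have h3 : (z : F) * z = z' * z' := by
      have := congrArg Units.val h1
      simpa using this
    rcases mul_self_eq_mul_self_iff.1 h3 with h4 | h4
    · left
      exact Units.ext h4
    · right
      apply Units.ext
      rw [h4, Units.val_neg]
  rcases h2 with rfl | rfl
  · left
    apply Subtype.ext
    exact Matrix.SpecialLinearGroup.toGL_injective (mul_left_cancel h)
  · right
    apply Subtype.ext
    apply Matrix.SpecialLinearGroup.toGL_injective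
    change _ = Matrix.SpecialLinearGroup.toGL (dd (-1) * (t' : SL(2, F)))
    rw [map_mul, mh_dd_neg]
    have h3 : (sc z' : GL (Fin 2) F) = sc (-z') * sc (-1) := by
      rw [mh_sc_mul, neg_mul_neg, mul_one]
    rw [h3, mul_assoc] at h
    exact mul_left_cancel h

private theorem mh_core {n m : Type} [Fintype n] [DecidableEq n] [Fintype m] [DecidableEq m]
    (X : SL(2, F) →* Matrix n n ℂ) (Y : BS F →* Matrix m m ℂ) (W : (F ≃+* F) →* Matrix n n ℂ)
    (W' : (F ≃+* F) →* Matrix m m ℂ) (hW : ∀ f s, W f * X s = X (fS f s) * W f)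
    (hW' : ∀ f s, W' f * Y s = Y (mhB F f s) * W' f) {κ : ℂ} (hκ2 : κ * κ = 1)
    (hX : X (dd (-1)) = κ • (1 : Matrix n n ℂ))
    (hY : Y ⟨dd (-1), dd_mem _⟩ = κ • (1 : Matrix m m ℂ))
    (hfix : ∀ g f, g ∈ BG F → (∀ s, (X (act g f s)).trace = (X s).trace) → sqd g = true) :
    MatchedS (fun s => (X s).trace) (fun s => (Y s).trace) := by
  let D : SL(2, F) × BS F →* Matrix (n × m) (n × m) ℂ :=
    { toFun := fun a => X a.1 ⊗ₖ (Y a.2⁻¹)ᵀ
      map_one' := by
        rw [Prod.fst_one, Prod.snd_one, inv_one, map_one, map_one, Matrix.transpose_one,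
          Matrix.one_kronecker_one]
      map_mul' := fun a b => by
        rw [Prod.fst_mul, Prod.snd_mul, _root_.mul_inv_rev, map_mul, map_mul, Matrix.transpose_mul,
          Matrix.mul_kronecker_mul] }
  have hD : ∀ k t, D (k, t) = X k ⊗ₖ (Y t⁻¹)ᵀ := fun _ _ => rfl
  let V : (F ≃+* F) →* Matrix (n × m) (n × m) ℂ :=
    { toFun := fun f => W f ⊗ₖ (W' f⁻¹)ᵀ
      map_one' := by
        rw [inv_one, map_one, map_one, Matrix.transpose_one, Matrix.one_kronecker_one]
      map_mul' := fun a b => by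
        rw [_root_.mul_inv_rev, map_mul, map_mul, Matrix.transpose_mul, Matrix.mul_kronecker_mul] }
  have hV : ∀ f, V f = W f ⊗ₖ (W' f⁻¹)ᵀ := fun _ => rfl
  have hVD : ∀ f k t, V f * D (k, t) = D (fS f k, mhB F f t) * V f := by
    intro f k t
    rw [hD, hD, hV, ← Matrix.mul_kronecker_mul, ← Matrix.mul_kronecker_mul, hW,
      ← Matrix.transpose_mul, ← Matrix.transpose_mul, hW', ← map_inv (mhB F f), ← MulAut.mul_apply,
      ← map_mul (mhB F), inv_mul_cancel, map_one, MulAut.one_apply]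
  have hneg : D (dd (-1), ⟨dd (-1), dd_mem _⟩) = 1 := by
    have h1 : (⟨dd (-1), dd_mem _⟩ : BS F)⁻¹ = ⟨dd (-1), dd_mem _⟩ := by
      rw [inv_eq_iff_mul_eq_one]
      apply Subtype.ext
      change (dd (-1) * dd (-1) : SL(2, F)) = 1
      rw [← dd_mul, neg_mul_neg, mul_one]
      ext i j
      rw [dd_val]
      fin_cases i <;> fin_cases j <;> simp
    rw [hD, h1, hX, hY, Matrix.transpose_smul, Matrix.transpose_one, Matrix.smul_kronecker,
      Matrix.kronecker_smul, smul_smul, hκ2, one_smul, Matrix.one_kronecker_one]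
  let R : GL (Fin 2) F → (F ≃+* F) → Matrix (n × m) (n × m) ℂ := fun g f =>
    if h : ∃ (z : Fˣ) (t : BS F), g = sc z * Matrix.SpecialLinearGroup.toGL (t : SL(2, F)) then
      D (h.choose_spec.choose, h.choose_spec.choose) * V f else 0
  have hR : ∀ (z : Fˣ) (t : BS F) f,
      R (sc z * Matrix.SpecialLinearGroup.toGL (t : SL(2, F))) f = D (t, t) * V f := by
    intro z t f
    have h : ∃ (z' : Fˣ) (t' : BS F), sc z * Matrix.SpecialLinearGroup.toGL (t : SL(2, F)) =
        sc z' * Matrix.SpecialLinearGroup.toGL (t' : SL(2, F)) := ⟨z, t, rfl⟩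
    have h1 : R (sc z * Matrix.SpecialLinearGroup.toGL (t : SL(2, F))) f =
        D (h.choose_spec.choose, h.choose_spec.choose) * V f := dif_pos h
    rw [h1]
    obtain ⟨t', ht'⟩ : ∃ t', t' = h.choose_spec.choose := ⟨_, rfl⟩
    have h2 := h.choose_spec.choose_spec
    rw [← ht'] at h2 ⊢
    rcases mh_uniq h2 with h3 | h3
    · rw [h3]
    · have h4 : ((t : SL(2, F)), t) = (dd (-1), ⟨dd (-1), dd_mem _⟩) * ((t' : SL(2, F)), t') := by
        rw [h3]
        rfl
      rw [h4, map_mul, hneg, one_mul]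
  have hact : ∀ (z : Fˣ) (t : BS F) (f : F ≃+* F) (s : SL(2, F)),
      act (sc z * Matrix.SpecialLinearGroup.toGL (t : SL(2, F))) f s * t = t * fS f s := by
    intro z t f s
    apply Matrix.SpecialLinearGroup.toGL_injective
    rw [map_mul, toGL_act, map_mul, toGL_fS]
    set T : GL (Fin 2) F := Matrix.SpecialLinearGroup.toGL (t : SL(2, F))
    set S : GL (Fin 2) F := fG f (Matrix.SpecialLinearGroup.toGL s)
    calc sc z * T * S * (sc z * T)⁻¹ * T = (sc z * (T * S * T⁻¹)) * (sc z)⁻¹ * T := by group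
      _ = (T * S * T⁻¹ * sc z) * (sc z)⁻¹ * T := by rw [sc_comm]
      _ = T * S := by group
  refine mh_fin D R ?_ ?_ ?_ ?_ ?_
  · intro k t
    rw [hD, Matrix.trace_kronecker, Matrix.trace_transpose]
  · intro g f g' f' hg hg' h h'
    obtain ⟨z, t, rfl⟩ := mh_dec hg (hfix g f hg h)
    obtain ⟨z', t', rfl⟩ := mh_dec hg' (hfix g' f' hg' h')
    have h1 : (sc z * Matrix.SpecialLinearGroup.toGL (t : SL(2, F))) *
        fG f (sc z' * Matrix.SpecialLinearGroup.toGL (t' : SL(2, F))) =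
        sc (z * Fu f z') *
          Matrix.SpecialLinearGroup.toGL ((t * mhB F f t' : BS F) : SL(2, F)) := by
      rw [Subgroup.coe_mul, mhB_coe, map_mul, map_mul, toGL_fS, mh_fG_sc, ← mh_sc_mul,
        mul_assoc, mul_assoc, ← mul_assoc (Matrix.SpecialLinearGroup.toGL (t : SL(2, F))),
        ← sc_comm, mul_assoc]
    rw [h1, hR, hR, hR, map_mul]
    have h2 : (((t * mhB F f t' : BS F) : SL(2, F)), t * mhB F f t') =
        ((t : SL(2, F)), t) * (fS f t', mhB F f t') := rfl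
    rw [h2, map_mul]
    calc D (t, t) * D (fS f t', mhB F f t') * (V f * V f')
        = D (t, t) * (D (fS f t', mhB F f t') * V f) * V f' := by simp only [mul_assoc]
      _ = D (t, t) * (V f * D (t', t')) * V f' := by rw [hVD]
      _ = _ := by simp only [mul_assoc]
  · intro g f k s s' hg h hs
    obtain ⟨z, t, rfl⟩ := mh_dec hg (hfix g f hg h)
    rw [hR, mul_assoc, hVD, ← mul_assoc, ← mul_assoc, ← map_mul, ← map_mul]
    congr 2
    refine Prod.ext ?_ (Subtype.ext ?_)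
    · exact (hact z t f k).symm
    · change (t : SL(2, F)) * fS f s = s' * t
      rw [hs]
      exact (hact z t f s).symm
  · intro t
    have h1 := hR 1 t 1
    rw [mh_sc_one, one_mul, map_one, mul_one] at h1
    exact h1
  · intro z
    have h1 := hR z 1 1
    rw [Subgroup.coe_one, map_one, mul_one, map_one, mul_one] at h1
    rw [h1]
    exact map_one D

private theorem mh_W {G : Type} [Group G] [Finite G] (hψf : ∀ (f : F ≃+* F) (u : F), ψ (f u) = ψ u)
    (a : (F ≃+* F) →* MulAut G) {n : Type} [Fintype n] [DecidableEq n] (X : G →* Matrix n n ℂ)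
    (hX : (fun g => (X g).trace) ∈ Irr G) (hinv : ∀ r g, (X (a r g)).trace = (X g).trace)
    (j : Multiplicative F →* G)
    (hj : ∀ r u, a r (j (Multiplicative.ofAdd u)) = j (Multiplicative.ofAdd (r u)))
    (hw : ∑ u : F, (X (j (Multiplicative.ofAdd u))).trace * ψ (-u) = Fintype.card F) :
    ∃ W : (F ≃+* F) →* Matrix n n ℂ, ∀ r g, W r * X g = X (a r g) * W r := by
  have hq : (Fintype.card F : ℂ) ≠ 0 := Nat.cast_ne_zero.2 Fintype.card_ne_zero
  obtain ⟨v, hv0, hv, huniq⟩ := Pool.Agent.Helper57.PL.Rep.exists_vec (X.comp j)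
    (ψ.toMonoidHom.toHomUnits) (by
      rw [B_eq, Nat.card_eq_fintype_card, Fintype.card_multiplicative, inv_mul_eq_iff_eq_mul₀ hq,
        mul_one, ← hw]
      symm
      refine Fintype.sum_equiv Multiplicative.ofAdd _ _ fun u => ?_
      rfl)
  obtain ⟨W, hW, _⟩ := Pool.Agent.Helper57.PL.Rep.exists_W a X hX hinv
    (fun u : F => j (Multiplicative.ofAdd u)) (fun u => ψ u)
    (fun r u => ⟨r u, (hj r u).symm, hψf r u⟩) v hv0
    (fun u => hv (Multiplicative.ofAdd u)) (fun w hw => huniq w (fun u => hw u.toAdd))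
  exact ⟨W, hW⟩

theorem matched_half (h2 : (2 : F) ≠ 0) (hψf : ∀ (f : F ≃+* F) (u : F), ψ (f u) = ψ u)
    {θ : SL(2, F) → ℂ} {φ : BS F → ℂ} (hθi : θ ∈ Irr SL(2, F)) (hφi : φ ∈ Irr (BS F))
    {κ : ℂ} (hκ2 : κ * κ = 1) (hκ : ∀ s, θ (dd (-1) * s) = κ * θ s)
    (hκ' : ∀ s : BS F, φ (⟨dd (-1), dd_mem _⟩ * s) = κ * φ s)
    (hθ : ∀ g f, g ∈ BG F → sqd g = true → ∀ s, θ (act g f s) = θ s)
    (hφ : ∀ g f, g ∈ BG F → sqd g = true → ∀ s s' : BS F, (s' : SL(2, F)) = act g f s → φ s' = φ s)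
    (hfix : ∀ g f, g ∈ BG F → (∀ s, θ (act g f s) = θ s) → sqd g = true)
    (hw : ∑ u : F, θ (xu u) * ψ (-u) = Fintype.card F)
    (hw' : ∑ u : F, φ ⟨xu u, xu_mem u⟩ * ψ (-u) = Fintype.card F) :
    MatchedS θ φ := by
  obtain ⟨n, X, _, rfl⟩ := Pool.Agent.Helper57.PL.Rep.gl_mat hθi
  obtain ⟨m, Y, _, rfl⟩ := Pool.Agent.Helper57.PL.Rep.gl_mat hφi
  have hone : sqd (1 : GL (Fin 2) F) = true := by
    rw [← mh_sc_one]
    exact sqd_sc 1
  have hact : ∀ (f : F ≃+* F) (s : SL(2, F)), act 1 f s = fS f s := by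
    intro f s
    apply Matrix.SpecialLinearGroup.toGL_injective
    rw [toGL_act, toGL_fS, one_mul, inv_one, mul_one]
  let j : Multiplicative F →* SL(2, F) :=
    { toFun := fun u => xu u.toAdd
      map_one' := by
        ext i j
        rw [xu_val]
        fin_cases i <;> fin_cases j <;> simp
      map_mul' := fun a b => by rw [toAdd_mul, xu_add] }
  let j' : Multiplicative F →* BS F :=
    { toFun := fun u => ⟨xu u.toAdd, xu_mem _⟩
      map_one' := Subtype.ext (map_one j)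
      map_mul' := fun a b => Subtype.ext (map_mul j a b) }
  have hfx : ∀ (f : F ≃+* F) (u : F), fS f (xu u) = xu (f u) := by
    intro f u
    ext i j
    rw [fS_val, xu_val, xu_val]
    fin_cases i <;> fin_cases j <;> simp
  obtain ⟨W, hW⟩ := mh_W hψf (mhA F) X hθi (fun r g => by
    have h1 := hθ 1 r (one_mem _) hone g
    rw [hact] at h1
    exact h1) j (fun r u => hfx r u) hw
  obtain ⟨W', hW'⟩ := mh_W hψf (mhB F) Y hφi (fun r g =>
    hφ 1 r (one_mem _) hone g (mhB F r g) (by rw [hact, mhB_coe])) j'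
    (fun r u => Subtype.ext (hfx r u)) hw'
  have hcen : ∀ s : SL(2, F), (dd (-1) : SL(2, F)) * s = s * dd (-1) := by
    intro s
    apply Matrix.SpecialLinearGroup.toGL_injective
    rw [map_mul, map_mul, mh_dd_neg, sc_comm]
  have hne1 : (X 1).trace ≠ 0 := by
    obtain ⟨k, hk0, hk⟩ := irr_one hθi
    intro h0
    rw [h0] at hk
    exact hk0.ne (by exact_mod_cast hk)
  have hne2 : (Y 1).trace ≠ 0 := by
    obtain ⟨k, hk0, hk⟩ := irr_one hφi
    intro h0
    rw [h0] at hk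
    exact hk0.ne (by exact_mod_cast hk)
  have hX : X (dd (-1)) = κ • (1 : Matrix _ _ ℂ) := by
    obtain ⟨c, hc⟩ := Pool.Agent.Helper57.PL.Rep.gl_comm X hθi (X (dd (-1))) (fun s => by
      rw [← map_mul, ← map_mul, hcen])
    have h1 : (X (dd (-1) * 1)).trace = κ * (X 1).trace := hκ 1
    rw [mul_one, hc, Matrix.trace_smul, smul_eq_mul, ← map_one X] at h1
    rw [hc, mul_right_cancel₀ hne1 h1]
  have hY : Y ⟨dd (-1), dd_mem _⟩ = κ • (1 : Matrix _ _ ℂ) := by
    obtain ⟨c, hc⟩ := Pool.Agent.Helper57.PL.Rep.gl_comm Y hφi (Y ⟨dd (-1), dd_mem _⟩) (fun s => by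
      rw [← map_mul, ← map_mul]
      congr 1
      exact Subtype.ext (hcen s))
    have h1 : (Y (⟨dd (-1), dd_mem _⟩ * 1)).trace = κ * (Y 1).trace := hκ' 1
    rw [mul_one, hc, Matrix.trace_smul, smul_eq_mul, ← map_one Y] at h1
    rw [hc, mul_right_cancel₀ hne2 h1]
  exact mh_core X Y W W' hW hW' hκ2 hX hY hfix

theorem matched_tr (ν : Fˣ) {θ : SL(2, F) → ℂ} {φ : BS F → ℂ} (h : MatchedS θ φ)
    {θ' : SL(2, F) → ℂ} {φ' : BS F → ℂ} (hθ : ∀ s, θ' s = θ (cj (up ν 1 0) s))
    (hφ : ∀ s s' : BS F, (s' : SL(2, F)) = cj (up ν 1 0) s → φ' s = φ s') : MatchedS θ' φ' := by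
  obtain ⟨d, D, R, h1, h2, h3, h4, h5⟩ := h
  have hγ : (up ν 1 0 : GL (Fin 2) F) ∈ BG F := up_mem _ _ _
  have hcm : ∀ s : SL(2, F), s ∈ BS F → cj (up ν 1 0) s ∈ BS F := by
    intro s hs
    rw [← toGL_mem_BG, toGL_cj]
    exact mul_mem (mul_mem hγ (toGL_mem_BG.2 hs)) (inv_mem hγ)
  let c : BS F →* BS F :=
    { toFun := fun s => ⟨cj (up ν 1 0) s, hcm s s.2⟩
      map_one' := Subtype.ext (map_one _)
      map_mul' := fun s t => Subtype.ext (map_mul _ _ _) }
  have hc : ∀ s : BS F, ((c s : BS F) : SL(2, F)) = cj (up ν 1 0) s := fun _ => rfl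
  let D' : SL(2, F) × BS F →* Matrix (Fin d) (Fin d) ℂ :=
    D.comp (MonoidHom.prodMap (cj (up ν 1 0)).toMonoidHom c)
  have hD' : ∀ k t, D' (k, t) = D (cj (up ν 1 0) k, c t) := fun _ _ => rfl
  obtain ⟨T, hT⟩ : ∃ T : GL (Fin 2) F → (F ≃+* F) → GL (Fin 2) F, ∀ g f,
      T g f = up ν 1 0 * g * fG f (up ν 1 0)⁻¹ := ⟨_, fun _ _ => rfl⟩
  have hTm : ∀ g f, g ∈ BG F → T g f ∈ BG F := fun g f hg => by
    rw [hT]
    exact mul_mem (mul_mem hγ hg) (fG_mem.2 (inv_mem hγ))
  have hact : ∀ g f (s : SL(2, F)), act (T g f) f (cj (up ν 1 0) s) =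
      cj (up ν 1 0) (act g f s) := by
    intro g f s
    apply Matrix.SpecialLinearGroup.toGL_injective
    rw [toGL_act, toGL_cj, toGL_cj, toGL_act, hT, map_mul (fG f), map_mul (fG f), map_inv (fG f)]
    group
  have hfix : ∀ g f, (∀ s, θ' (act g f s) = θ' s) → ∀ s, θ (act (T g f) f s) = θ s := by
    intro g f h s
    obtain ⟨s', rfl⟩ := (cj (up ν 1 0)).surjective s
    rw [hact, ← hθ, h, hθ]
  refine ⟨d, D', fun g f => R (T g f) f, ?_, ?_, ?_, ?_, ?_⟩
  · intro k t
    rw [hD', h1, hθ, hφ t⁻¹ (c t⁻¹) (hc _), map_inv]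
  · intro g f g' f' hg hg' h h'
    change R (T _ _) _ = R (T _ _) _ * R (T _ _) _
    rw [← h2 _ _ _ _ (hTm g f hg) (hTm g' f' hg') (hfix g f h) (hfix g' f' h')]
    congr 1
    rw [hT, hT, hT, fG_mul, map_mul (fG f), map_mul (fG f), map_inv (fG f')]
    simp only [map_inv (fG f)]
    group
  · intro g f k t t' hg h ht
    change R (T _ _) _ * D' _ = D' _ * R (T _ _) _
    rw [hD', hD', h3 _ _ _ _ (c t') (hTm g f hg) (hfix g f h) (by rw [hc, hc, hact, ht]), hact]
  · intro t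
    change R (T (Matrix.SpecialLinearGroup.toGL (t : SL(2, F))) 1) 1 = _
    rw [hT, fG_one, ← toGL_cj, ← hc, h4]
    rfl
  · intro z
    change R (T (sc z) 1) 1 = 1
    rw [hT, fG_one, ← sc_comm, mul_inv_cancel_right, h5]

end Pool.Agent.Helper55.PL
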