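import Pool.Agent.Helper55.PL.Whit
import Pool.Agent.Helper55.PL.HalfB

/-!
# PL-29: matched characters, the generic ones

`X` is an irreducible character of `GL₂(F)` with central character `Q b`, invariant under the field
automorphisms which fix `b`, with exactly one Whittaker vector.

Proof of `matched_L`. Let `ρ` be a representation of `GL₂(F)` on `V` with character `X`, `A` the group of
the `f : F ≃+* F` with `Fu f b = b`, acting on `GL₂(F)` by `fG`, `U = Multiplicative F`, `j u = up 1 1 u`, and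
`W : A →* End V` from `exists_W` (`fG f (up 1 1 u) = up 1 1 (f u)`, `ψ (f u) = ψ u`;
`ψ u⁻¹` is `ψ (-u)`). Put `D (k, t) = Q b (t 0 0) • ρ (toGL k)`, `Λ g = Q b (g 1 1)` for `g ∈ BG`, and
`R g f = (Λ g)⁻¹ • ρ g * W f` if `f ∈ A` (and `0`, say, if not), everything as matrices in a basis of `V`.
If `(g, f)` fixes `θ = X ∘ toGL` then `θ (fS f s) = θ (act g f s) = θ s` (`X` is a class function of
`GL₂(F)`: `toGL (act g f s) = g * fG f (toGL s) * g⁻¹`), so `Fu f b = b` by `hfix`, `f ∈ A`.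
(1) trace: `X (toGL k) * Q b (t 0 0)`, and `lamb Q b t⁻¹ = Q b (t⁻¹ 1 1) = Q b (t 0 0)`.
(2) `R (g * fG f g') (f * f') = Λ(g)⁻¹ Λ(fG f g')⁻¹ ρ g ρ(fG f g') W f W f'`, `ρ (fG f g') W f = W f ρ g'`, and
`Λ (fG f g') = Q b (f (g' 1 1)) = Q (Fu f b) (g' 1 1) = Q b (g' 1 1)` by `hg`. (`Λ` is multiplicative on `BG`.)
(3) `R g f * D (k, t) = Λ(g)⁻¹ Q b (t 0 0) ρ g ρ(fG f (toGL k)) W f`
`= Q b (t 0 0) ρ(g * fG f (toGL k) * g⁻¹) * R g f` and `Q b (t' 0 0) = Q b (f (t 0 0)) = Q b (t 0 0)`.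
(4) `t = dd τ * xu u`: `Λ (toGL t)⁻¹ = (Q b τ⁻¹)⁻¹ = Q b τ = Q b (t 0 0)`, `W 1 = 1`.
(5) `R (sc z) 1 = (Q b z)⁻¹ • ρ (sc z)`, and `ρ (sc z)` is a scalar (Schur) equal to `Q b z` because its trace is
`X (sc z) = Q b z * X 1` (by `hc` with `g = 1`); or: `ρ (sc z) - Q b z` is killed because the character of
`ρ` at `sc z * g` is `Q b z X g` for all `g`.
Proof of `matched_one`. `d = 1`, `D (k, t) = Q b (t 0 0)`, `R g f = (Q b (g 1 1))⁻¹ * Q c (det g)` with
`c + c = 1`, `c * c = b`: `f c = c` and `f b = b` for all `f`; (4): `det = 1`. (5): `(Q b z)⁻¹ Q c (z²) = 1`.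
The trace: `1 * lamb Q b t⁻¹`.
-/

open Matrix
open scoped MatrixGroups Classical

set_option linter.unusedSectionVars false

namespace Pool.Agent.Helper55.PL

open Pool.Agent.Helper42.INC Pool.Agent.Helper7.MK

variable {F : Type} [Field F] [Fintype F] [DecidableEq F] {ψ : AddChar F ℂ}

/-- the `(0, 0)` entry of the inverse is the `(1, 1)` entry -/
private theorem bs_inv_one_one (t : BS F) : (t⁻¹ : BS F).1 1 1 = t.1 0 0 := by
  rw [Subgroup.coe_inv, Matrix.SpecialLinearGroup.coe_inv, Matrix.adjugate_fin_two]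
  simp

private theorem bs_mul_zero (t t' : BS F) : (t * t' : BS F).1 0 0 = t.1 0 0 * t'.1 0 0 := by
  have h : t'.1 1 0 = 0 := mem_BS.1 t'.2
  rw [Subgroup.coe_mul, Matrix.SpecialLinearGroup.coe_mul, Matrix.mul_apply, Fin.sum_univ_two, h]
  ring

private theorem bs_det (t : BS F) : t.1 0 0 * t.1 1 1 = 1 := by
  have h : t.1 1 0 = 0 := mem_BS.1 t.2
  have h2 := t.1.det_coe
  rw [Matrix.det_fin_two, h] at h2
  simpa using h2

private theorem bs_ne (t : BS F) : t.1 0 0 ≠ 0 := left_ne_zero_of_mul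
  (by rw [bs_det]; exact one_ne_zero)

private theorem Q_fix {Q : Fˣ →* MulChar F ℂ}
    (hg : ∀ (f : F ≃+* F) (b x : Fˣ), Q (Fu f b) x = Q b (Fu f x))
    {b : Fˣ} {f : F ≃+* F} (hf : Fu f b = b) (x : F) : Q b (f x) = Q b x := by
  by_cases hx : x = 0
  · rw [hx, map_zero]
  · have h := hg f b (Units.mk0 x hx)
    rw [hf, Fu_val, Units.val_mk0] at h
    exact h.symm

private theorem act_zero {g : GL (Fin 2) F} (hgB : g ∈ BG F) (f : F ≃+* F) (t t' : BS F)
    (h : (t' : SL(2, F)) = act g f t) : t'.1 0 0 = f (t.1 0 0) := by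
  obtain ⟨x, y, u, rfl⟩ := exists_up hgB
  have h1 := toGL_act (up x y u) f t.1
  rw [← h] at h1
  have h2 : (Matrix.SpecialLinearGroup.toGL t'.1 : GL (Fin 2) F) * up x y u
      = up x y u * fG f (Matrix.SpecialLinearGroup.toGL t.1 : GL (Fin 2) F) := by
    rw [h1]; group
  have h3 : ((Matrix.SpecialLinearGroup.toGL t'.1 : GL (Fin 2) F) * up x y u).val 0 0
      = (up x y u * fG f (Matrix.SpecialLinearGroup.toGL t.1 : GL (Fin 2) F)).val 0 0 := by
    rw [h2]
  rw [Units.val_mul, Units.val_mul, up_val, Matrix.mul_apply, Matrix.mul_apply, Fin.sum_univ_two,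
    Fin.sum_univ_two, fG_val, fG_val] at h3
  have h4 : (Matrix.SpecialLinearGroup.toGL t.1).val 1 0 = 0 := mem_BS.1 t.2
  rw [h4] at h3
  simp only [Matrix.of_apply, Matrix.cons_val_zero, Matrix.cons_val', Matrix.cons_val_one,
    Matrix.cons_val_fin_one, map_zero, mul_zero, add_zero] at h3
  rw [mul_comm] at h3
  exact mul_left_cancel₀ x.ne_zero h3

private theorem bg_one_one {g g' : GL (Fin 2) F} (hgB : g ∈ BG F) (f : F ≃+* F) :
    (g * fG f g').val 1 1 = g.val 1 1 * f (g'.val 1 1) := by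
  rw [Units.val_mul, Matrix.mul_apply, Fin.sum_univ_two, mem_BG.1 hgB, fG_val, fG_val]
  ring

private theorem bg_ne {g : GL (Fin 2) F} (hgB : g ∈ BG F) : g.val 1 1 ≠ 0 := by
  obtain ⟨x, y, u, rfl⟩ := exists_up hgB
  rw [up_val]
  exact y.ne_zero

private theorem Q_ne (χ : MulChar F ℂ) {x : F} (hx : x ≠ 0) : χ x ≠ 0 := by
  intro h
  have h1 : χ (x * x⁻¹) = 1 := by rw [mul_inv_cancel₀ hx, map_one]
  rw [map_mul, h, zero_mul] at h1
  exact zero_ne_one h1

private theorem Q_inv (χ : MulChar F ℂ) (t : BS F) : (χ (t.1 1 1))⁻¹ = χ (t.1 0 0) := by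
  apply inv_eq_of_mul_eq_one_left
  rw [← map_mul, bs_det, map_one]

private theorem schur {V : Type} [AddCommGroup V] [Module ℂ V] [FiniteDimensional ℂ V]
    {G : Type} [Group G] (ρ : Representation ℂ G V) [hρ : ρ.IsIrreducible] (s : G)
    (hs : ∀ g, s * g = g * s) : ∃ c : ℂ, ρ s = c • (1 : V →ₗ[ℂ] V) := by
  obtain ⟨c, hc⟩ :=
    (Representation.IsIrreducible.algebraMap_intertwiningMap_bijective_of_isAlgClosed
      (ρ := ρ)).2 (⟨ρ s, fun g => by
        change ρ s * ρ g = ρ g * ρ s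
        rw [← map_mul, ← map_mul, hs]⟩ : Representation.IntertwiningMap ρ ρ)
  refine ⟨c, ?_⟩
  have h := congrArg (fun f => f.toLinearMap) hc
  exact h.symm

theorem matched_L (hψf : ∀ (f : F ≃+* F) (u : F), ψ (f u) = ψ u)
    {Q : Fˣ →* MulChar F ℂ} (hg : ∀ (f : F ≃+* F) (b x : Fˣ), Q (Fu f b) x = Q b (Fu f x))
    (b : Fˣ) {X : GL (Fin 2) F → ℂ} (hX : X ∈ Irr (GL (Fin 2) F))
    (hc : ∀ z g, X (sc z * g) = Q b z * X g)
    (hf : ∀ f : F ≃+* F, Fu f b = b → ∀ g, X (fG f g) = X g)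
    (hw : ∑ u : F, X (up 1 1 u) * ψ (-u) = Fintype.card F)
    (hfix : ∀ f : F ≃+* F, (∀ s : SL(2, F), X (Matrix.SpecialLinearGroup.toGL (fS f s)) =
      X (Matrix.SpecialLinearGroup.toGL s)) → Fu f b = b) :
    MatchedS (fun s : SL(2, F) => X (Matrix.SpecialLinearGroup.toGL s)) (lamb Q b) := by
  obtain ⟨V, _, _, _, ρ, hρ, rfl⟩ := hX
  have := hρ
  -- the group of the field automorphisms which fix `b`
  let A : Subgroup (F ≃+* F) :=
    { carrier := {f | Fu f b = b}
      one_mem' := rfl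
      mul_mem' := fun {f f'} h h' => by
        change Fu (f * f') b = b
        have e : Fu (f * f') b = Fu f (Fu f' b) := rfl
        rw [e, show Fu f' b = b from h', show Fu f b = b from h]
      inv_mem' := fun {f} h => by
        change Fu f⁻¹ b = b
        have e : Fu f⁻¹ (Fu f b) = b := by
          apply Units.ext
          rw [Fu_val, Fu_val]
          exact f.symm_apply_apply _
        rw [show Fu f b = b from h] at e
        exact e }
  let a : A →* MulAut (GL (Fin 2) F) :=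
    { toFun := fun f => fG f.1
      map_one' := by
        apply MulEquiv.ext
        intro g
        exact fG_one g
      map_mul' := fun f f' => by
        apply MulEquiv.ext
        intro g
        exact fG_mul f.1 f'.1 g }
  let j : Multiplicative F →* GL (Fin 2) F :=
    { toFun := fun u => up 1 1 u.toAdd
      map_one' := by
        apply Units.ext
        rw [up_val]
        ext i j
        fin_cases i <;> fin_cases j <;> simp
      map_mul' := fun u v => by
        rw [up_mul, toAdd_mul]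
        congr 1
        · simp
        · simp
        · simp [add_comm] }
  let τ : A → Multiplicative F ≃ Multiplicative F := fun f =>
    (Multiplicative.toAdd.trans f.1.toEquiv).trans Multiplicative.ofAdd
  have hτ : ∀ x u, a x (j u) = j (τ x u) := by
    intro x u
    change fG x.1 (up 1 1 u.toAdd) = up 1 1 (x.1 u.toAdd)
    rw [fG_up, map_one]
  let ψ' : Multiplicative F →* ℂ := ψ.toMonoidHom
  have hψ' : ∀ u : Multiplicative F, ψ' u = ψ u.toAdd := fun _ => rfl
  obtain ⟨W, hW⟩ := exists_W a ρ hρ (fun x g => hf x.1 x.2 g) j τ hτ ψ'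
    (fun x u => hψf x.1 u.toAdd) (by
      rw [Fintype.card_multiplicative, ← hw]
      exact Fintype.sum_equiv Multiplicative.toAdd _ _ (fun u => rfl))
  let bs := Module.finBasis ℂ V
  let M := LinearMap.toMatrixAlgEquiv bs
  -- the fixators of the character
  have hfx : ∀ g f, (∀ s, ρ.character (Matrix.SpecialLinearGroup.toGL (act g f s)) =
      ρ.character (Matrix.SpecialLinearGroup.toGL s)) → Fu f b = b := by
    intro g f h
    apply hfix
    intro s
    rw [← h s, toGL_act, Representation.char_conj, toGL_fS]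
  have hQ : ∀ {f : F ≃+* F}, Fu f b = b → ∀ x, Q b (f x) = Q b x := fun hf x => Q_fix hg hf x
  let D : SL(2, F) × BS F →* Matrix (Fin (Module.finrank ℂ V)) (Fin (Module.finrank ℂ V)) ℂ :=
    { toFun := fun kt => Q b (kt.2.1 0 0) • M (ρ (Matrix.SpecialLinearGroup.toGL kt.1))
      map_one' := by
        have h1 : ((1 : SL(2, F) × BS F).2.1 0 0 : F) = 1 := by simp
        rw [h1, map_one, one_smul, Prod.fst_one, map_one, map_one, map_one]
      map_mul' := fun x y => by
        rw [Prod.snd_mul, bs_mul_zero, map_mul, Prod.fst_mul, map_mul, map_mul, map_mul,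
          Matrix.smul_mul, Matrix.mul_smul, smul_smul] }
  have hD : ∀ k t, D (k, t) = Q b (t.1 0 0) • M (ρ (Matrix.SpecialLinearGroup.toGL k)) :=
    fun _ _ => rfl
  let R : GL (Fin 2) F → (F ≃+* F) →
      Matrix (Fin (Module.finrank ℂ V)) (Fin (Module.finrank ℂ V)) ℂ := fun g f =>
    if h : Fu f b = b then (Q b (g.val 1 1))⁻¹ • M (ρ g * W ⟨f, h⟩) else 0
  have hR : ∀ g f (h : Fu f b = b), R g f = (Q b (g.val 1 1))⁻¹ • M (ρ g * W ⟨f, h⟩) :=
    fun g f h => dif_pos h
  refine ⟨Module.finrank ℂ V, D, R, ?_, ?_, ?_, ?_, ?_⟩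
  · intro k t
    rw [hD, Matrix.trace_smul, lamb, bs_inv_one_one, smul_eq_mul, mul_comm]
    congr 1
    change _ = LinearMap.trace ℂ V _
    rw [LinearMap.trace_eq_matrix_trace ℂ bs]
    rfl
  · intro g f g' f' hgB hgB' h h'
    have e := hfx g f h
    have e' := hfx g' f' h'
    have e2 : Fu (f * f') b = b := by
      have e3 : Fu (f * f') b = Fu f (Fu f' b) := rfl
      rw [e3, e', e]
    have hWm : W ⟨f * f', e2⟩ = W ⟨f, e⟩ * W ⟨f', e'⟩ := by
      rw [← map_mul]
      rfl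
    have hWc : ρ (fG f g') * W ⟨f, e⟩ = W ⟨f, e⟩ * ρ g' := (hW ⟨f, e⟩ g').symm
    rw [hR _ _ e, hR _ _ e', hR _ _ e2, bg_one_one hgB, map_mul, hQ e, mul_inv,
      Matrix.smul_mul, Matrix.mul_smul, smul_smul, ← map_mul M, hWm, map_mul ρ]
    congr 2
    calc ρ g * ρ (fG f g') * (W ⟨f, e⟩ * W ⟨f', e'⟩)
        = ρ g * (ρ (fG f g') * W ⟨f, e⟩) * W ⟨f', e'⟩ := by simp only [mul_assoc]
      _ = ρ g * W ⟨f, e⟩ * (ρ g' * W ⟨f', e'⟩) := by rw [hWc]; simp only [mul_assoc]
  · intro g f k t t' hgB h ht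
    have e := hfx g f h
    have hWc : W ⟨f, e⟩ * ρ (Matrix.SpecialLinearGroup.toGL k)
        = ρ (fG f (Matrix.SpecialLinearGroup.toGL k)) * W ⟨f, e⟩ := hW ⟨f, e⟩ _
    rw [hR _ _ e, hD, hD, act_zero hgB f t t' ht, hQ e, Matrix.smul_mul, Matrix.mul_smul,
      Matrix.smul_mul, Matrix.mul_smul, smul_smul, smul_smul, mul_comm, ← map_mul M, ← map_mul M,
      toGL_act]
    congr 2
    calc ρ g * W ⟨f, e⟩ * ρ (Matrix.SpecialLinearGroup.toGL k)
        = ρ g * ρ (fG f (Matrix.SpecialLinearGroup.toGL k)) * W ⟨f, e⟩ := by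
          rw [mul_assoc, hWc, mul_assoc]
      _ = ρ (g * fG f (Matrix.SpecialLinearGroup.toGL k) * g⁻¹) * (ρ g * W ⟨f, e⟩) := by
          rw [← mul_assoc, ← map_mul, ← map_mul, inv_mul_cancel_right]
  · intro t
    have e : Fu 1 b = b := rfl
    have hW1 : W ⟨1, e⟩ = 1 := map_one W
    rw [hR _ _ e, hD, hW1, mul_one]
    congr 1
    exact Q_inv (Q b) t
  · intro z
    have e : Fu 1 b = b := rfl
    have hW1 : W ⟨1, e⟩ = 1 := map_one W
    obtain ⟨c, hc'⟩ := schur ρ (sc z) (sc_comm z)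
    have hz : c = Q b z := by
      have h1 := hc z 1
      rw [mul_one, Representation.char_one] at h1
      change LinearMap.trace ℂ V (ρ (sc z)) = _ at h1
      rw [hc', map_smul, LinearMap.trace_one, smul_eq_mul] at h1
      exact mul_right_cancel₀ (finrank_ne_zero_of_irr ρ) h1
    rw [hR _ _ e, hW1, mul_one, hc', hz, map_smul, map_one, smul_smul]
    have h11 : (sc z).val 1 1 = (z : F) := by
      rw [sc, up_val]
      rfl
    rw [h11, inv_mul_cancel₀ (Q_ne (Q b) z.ne_zero), one_smul]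

theorem matched_one {Q : Fˣ →* MulChar F ℂ}
    (hg : ∀ (f : F ≃+* F) (b x : Fˣ), Q (Fu f b) x = Q b (Fu f x)) (h2 : (2 : F) ≠ 0)
    {b : Fˣ} (hb : (b : F) * 4 = 1) : MatchedS (fun _ : SL(2, F) => 1) (lamb Q b) := by
  let c : Fˣ := (Units.mk0 2 h2)⁻¹
  have hcv : (c : F) = 2⁻¹ := by
    rw [Units.val_inv_eq_inv_val, Units.val_mk0]
  have hcc : c * c = b := by
    apply Units.ext
    rw [Units.val_mul, hcv]
    have h4 : (4 : F) ≠ 0 := right_ne_zero_of_mul (by rw [hb]; exact one_ne_zero)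
    apply mul_right_cancel₀ h4
    rw [hb, show (4 : F) = 2 * 2 by norm_num]
    field_simp
  have hfc : ∀ f : F ≃+* F, Fu f c = c := by
    intro f
    apply Units.ext
    rw [Fu_val, hcv, map_inv₀, map_ofNat]
  have hfb : ∀ f : F ≃+* F, Fu f b = b := by
    intro f
    rw [← hcc, map_mul, hfc]
  have hQb : ∀ (f : F ≃+* F) (x : F), Q b (f x) = Q b x := fun f x => Q_fix hg (hfb f) x
  have hQc : ∀ (f : F ≃+* F) (x : F), Q c (f x) = Q c x := fun f x => Q_fix hg (hfc f) x
  let D : SL(2, F) × BS F →* Matrix (Fin 1) (Fin 1) ℂ :=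
    { toFun := fun kt => Q b (kt.2.1 0 0) • (1 : Matrix (Fin 1) (Fin 1) ℂ)
      map_one' := by
        have h1 : ((1 : SL(2, F) × BS F).2.1 0 0 : F) = 1 := by simp
        rw [h1, map_one, one_smul]
      map_mul' := fun x y => by
        rw [Prod.snd_mul, bs_mul_zero, map_mul, Matrix.smul_mul, Matrix.mul_smul, smul_smul,
          mul_one] }
  have hD : ∀ k t, D (k, t) = Q b (t.1 0 0) • (1 : Matrix (Fin 1) (Fin 1) ℂ) := fun _ _ => rfl
  refine ⟨1, D, fun g _ => ((Q b (g.val 1 1))⁻¹ * Q c g.val.det) •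
    (1 : Matrix (Fin 1) (Fin 1) ℂ), ?_, ?_, ?_, ?_, ?_⟩
  · intro k t
    rw [hD, lamb, bs_inv_one_one, Matrix.trace_smul, Matrix.trace_one, smul_eq_mul]
    simp
  · intro g f g' f' hgB hgB' _ _
    have hdet : (g * fG f g').val.det = g.val.det * f g'.val.det := by
      rw [Units.val_mul, Matrix.det_mul]
      congr 1
      rw [Matrix.det_fin_two, Matrix.det_fin_two, fG_val, fG_val, fG_val, fG_val, map_sub, map_mul,
        map_mul]
    beta_reduce
    rw [bg_one_one hgB, hdet, map_mul, map_mul, hQb, hQc, mul_inv, Matrix.smul_mul,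
      Matrix.mul_smul, smul_smul, mul_one]
    congr 1
    ring
  · intro g f k t t' hgB _ ht
    beta_reduce
    rw [hD, hD, act_zero hgB f t t' ht, hQb, Matrix.smul_mul, Matrix.mul_smul, Matrix.smul_mul,
      Matrix.mul_smul, smul_smul, smul_smul, mul_comm]
  · intro t
    beta_reduce
    rw [hD]
    congr 1
    have h1 : (Matrix.SpecialLinearGroup.toGL (t : SL(2, F))).val.det = 1 := t.1.det_coe
    rw [h1, map_one, mul_one]
    exact Q_inv (Q b) t
  · intro z
    have h11 : (sc z).val 1 1 = (z : F) := by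
      rw [sc, up_val]
      rfl
    have hdet : (sc z).val.det = (z : F) * z := by
      rw [sc, up_val, Matrix.det_fin_two]
      simp
    beta_reduce
    rw [h11, hdet, map_mul, ← MulChar.mul_apply, ← map_mul, hcc,
      inv_mul_cancel₀ (Q_ne (Q b) z.ne_zero), one_smul]

end Pool.Agent.Helper55.PL
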