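import Pool.Agent.Helper55.PL.Chars

/-!
# PL-23: two counting lemmas

Proofs.
`complete_of_sum`: `∑_χ (deg χ)² = |G|` over all irreducible characters (`INC.sum_deg_sq`; `Irr G` is
finite) and all degrees are positive (`INC.deg_pos`), so a family of different irreducible characters
with the same sum contains all of them. The statement is in complex numbers: `(t i 1)²`,
`(deg χ : ℂ) = χ 1` (`INC.deg_cast`).
`split_count`: `q` odd. The map `α ↦ α (1 - α)` from `F \ {0, 1, 1/2}` onto the set of the
`b ∈ Fˣ` which are of the form `α β` with `α + β = 1`, `α ≠ β`, is two to one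
(`α (1 - α) = α' (1 - α')` iff `α' = α` or `α' = 1 - α`, and `α ≠ 1 - α`).
-/

open Matrix
open scoped MatrixGroups Classical

set_option linter.unusedSectionVars false

namespace Pool.Agent.Helper55.PL

open Pool.Agent.Helper42.INC Pool.Agent.Helper7.MK

theorem complete_of_sum {G : Type} [Group G] [Finite G] {ι : Type} [Fintype ι]
    (t : ι → G → ℂ) (ht : ∀ i, t i ∈ Irr G) (hinj : Function.Injective t)
    (hs : ∑ i, (t i 1) ^ 2 = (Nat.card G : ℂ)) {χ : G → ℂ} (hχ : χ ∈ Irr G) : ∃ i, t i = χ := by
  have := Fintype.ofFinite (Irr G)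
  by_contra hcon
  push Not at hcon
  let f : ι ↪ Irr G := ⟨fun i => ⟨t i, ht i⟩, fun i j h => hinj (Subtype.mk.inj h)⟩
  have hnot : (⟨χ, hχ⟩ : Irr G) ∉ Finset.univ.map f := by
    intro h
    obtain ⟨i, -, hi⟩ := Finset.mem_map.1 h
    exact hcon i (Subtype.mk.inj hi)
  have h1 : ∑ ψ ∈ insert (⟨χ, hχ⟩ : Irr G) (Finset.univ.map f), (deg ψ.1) ^ 2 ≤
      ∑ ψ : Irr G, (deg ψ.1) ^ 2 :=
    Finset.sum_le_sum_of_subset (Finset.subset_univ _)
  rw [Finset.sum_insert hnot, Finset.sum_map, sum_deg_sq] at h1
  have h2 : ∑ i, (deg (t i)) ^ 2 = Nat.card G := by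
    have h3 : ((∑ i, (deg (t i)) ^ 2 : ℕ) : ℂ) = (Nat.card G : ℂ) := by
      rw [← hs]
      push_cast
      exact Finset.sum_congr rfl fun i _ => by rw [deg_cast (ht i)]
    exact_mod_cast h3
  have h4 : ∑ i, (deg (f i).1) ^ 2 = Nat.card G := h2
  rw [h4] at h1
  have h5 : 0 < (deg χ) ^ 2 := pow_pos (deg_pos hχ) 2
  have h6 : (deg χ) ^ 2 + Nat.card G ≤ Nat.card G := h1
  omega

variable {F : Type} [Field F] [Fintype F] [DecidableEq F]

theorem split_count (h2 : (2 : F) ≠ 0) :
    2 * (Finset.univ.filter (fun b : Fˣ => ∃ α β : Fˣ, α ≠ β ∧ (α : F) + β = 1 ∧ α * β = b)).card + 3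
      = Fintype.card F := by
  set B : Finset Fˣ :=
    Finset.univ.filter (fun b : Fˣ => ∃ α β : Fˣ, α ≠ β ∧ (α : F) + β = 1 ∧ α * β = b) with hB
  set A : Finset F := Finset.univ \ {0, 1, (2 : F)⁻¹} with hA
  have hmemA : ∀ a : F, a ∈ A ↔ a ≠ 0 ∧ a ≠ 1 ∧ a ≠ 1 - a := by
    intro a
    rw [hA, Finset.mem_sdiff]
    simp only [Finset.mem_univ, true_and, Finset.mem_insert, Finset.mem_singleton, not_or]
    have h3 : a = (2 : F)⁻¹ ↔ a = 1 - a := by
      constructor
      · intro h
        have h4 : a * 2 = 1 := by rw [h, inv_mul_cancel₀ h2]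
        linear_combination h4
      · intro h
        apply eq_inv_of_mul_eq_one_left
        linear_combination h
    rw [h3]
  have hcard3 : ({0, 1, (2 : F)⁻¹} : Finset F).card = 3 := by
    rw [Finset.card_eq_three]
    refine ⟨0, 1, (2 : F)⁻¹, zero_ne_one, (inv_ne_zero h2).symm, ?_, rfl⟩
    intro h
    have h3 : (2 : F) = 1 := by
      rw [← inv_inv (2 : F), ← h, inv_one]
    have h4 : (1 : F) = 0 := by linear_combination h3
    exact one_ne_zero h4
  have hcardA : A.card + 3 = Fintype.card F := by
    rw [hA, Finset.card_sdiff_of_subset (Finset.subset_univ _), hcard3, Finset.card_univ]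
    have h3 : ({0, 1, (2 : F)⁻¹} : Finset F).card ≤ Fintype.card F := Finset.card_le_univ _
    rw [hcard3] at h3
    omega
  let f : F → Fˣ := fun a => if h : a * (1 - a) ≠ 0 then Units.mk0 _ h else 1
  have hf : ∀ a ∈ A, ((f a : Fˣ) : F) = a * (1 - a) := by
    intro a ha
    obtain ⟨h0, h1, -⟩ := (hmemA a).1 ha
    have h : a * (1 - a) ≠ 0 := mul_ne_zero h0 (sub_ne_zero.2 (Ne.symm h1))
    simp only [f]
    rw [dif_pos h, Units.val_mk0]
  have hmaps : Set.MapsTo f (A : Set F) (B : Set Fˣ) := by
    intro a ha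
    have ha' : a ∈ A := ha
    obtain ⟨h0, h1, h3⟩ := (hmemA a).1 ha'
    have h1' : 1 - a ≠ 0 := sub_ne_zero.2 (Ne.symm h1)
    change f a ∈ B
    rw [hB, Finset.mem_filter]
    refine ⟨Finset.mem_univ _, Units.mk0 a h0, Units.mk0 (1 - a) h1', ?_, ?_, ?_⟩
    · intro h
      apply h3
      have := congrArg Units.val h
      simpa using this
    · simp
    · apply Units.ext
      rw [hf a ha']
      simp
  have hfib : ∀ b ∈ B, (A.filter (fun a => f a = b)).card = 2 := by
    intro b hb
    rw [hB, Finset.mem_filter] at hb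
    obtain ⟨-, α, β, hne, hsum, hprod⟩ := hb
    have hβ : (β : F) = 1 - α := by linear_combination hsum
    have hα : (α : F) = 1 - β := by linear_combination hsum
    have hne' : (α : F) ≠ β := fun h => hne (Units.ext h)
    have e : A.filter (fun a => f a = b) = {(α : F), (β : F)} := by
      ext a
      rw [Finset.mem_filter, Finset.mem_insert, Finset.mem_singleton]
      constructor
      · rintro ⟨ha, hab⟩
        have h3 : a * (1 - a) = (α : F) * β := by
          rw [← hf a ha, hab, ← hprod, Units.val_mul]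
        have h4 : (a - α) * (a - β) = 0 := by
          have h5 : (a - α) * (a - β) = a * a - a * (α + β) + α * β := by ring
          rw [h5, hsum, ← h3]
          ring
        rcases mul_eq_zero.1 h4 with h | h
        · exact Or.inl (sub_eq_zero.1 h)
        · exact Or.inr (sub_eq_zero.1 h)
      · rintro (rfl | rfl)
        · have ha : (α : F) ∈ A := by
            rw [hmemA]
            refine ⟨α.ne_zero, ?_, ?_⟩
            · intro h
              apply β.ne_zero
              rw [hβ, h, sub_self]
            · rw [← hβ]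
              exact hne'
          refine ⟨ha, ?_⟩
          apply Units.ext
          rw [hf _ ha, ← hβ, ← hprod, Units.val_mul]
        · have ha : (β : F) ∈ A := by
            rw [hmemA]
            refine ⟨β.ne_zero, ?_, ?_⟩
            · intro h
              apply α.ne_zero
              rw [hα, h, sub_self]
            · rw [← hα]
              exact hne'.symm
          refine ⟨ha, ?_⟩
          apply Units.ext
          rw [hf _ ha, ← hα, ← hprod, Units.val_mul, mul_comm]
    rw [e, Finset.card_pair hne']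
  have hcount := Finset.card_eq_sum_card_fiberwise hmaps
  rw [Finset.sum_congr rfl hfib, Finset.sum_const, smul_eq_mul] at hcount
  rw [← hcardA, hcount]
  ring

end Pool.Agent.Helper55.PL
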