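import Pool.Agent.Helper55.PL.PhA
import Pool.Agent.Helper55.PL.SumSq
import Pool.Agent.Helper55.PL.HalfB

/-!
# PL-26: the characters of the upper triangular subgroup of `SL₂(F)`: all of them

`ph Q ψ ν (inl b) = lamb Q b`, `ph Q ψ ν (inr (c, e)) = phh ψ (Q (hb ν c)) (if e then 1 else ν)`,
`hb ν true = -1`, `hb ν false = -ν`. `q` odd, `ν` a nonsquare, `Q` symmetric and injective.

Proofs.
`ph_sign`: `Q (-ν) (-1) = Q (-1) (-ν) = Q (-1) (-1) * Q (-1) ν`, and `Q (-1) ν = -1`: `Q (-1)` is the quadratic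
character (its square is `1`, it is not `1` because `Q` is injective and `-1 ≠ 1`; a character with values
`1` on the nonsquare `ν` and on all squares would be trivial).
`ph_irr`: `lamb_irr`; `INC.irr_of_norm_one` with `phh_nat`, `phh_phh`, `phh_class`.
`ph_inj`: scalar products: `lamb_phh`, `phh_phh` with `ph_sign` (for `c ≠ c'`), `IsSquare (1 * ν)` is false;
`lamb Q b = lamb Q b'` implies `Q b = Q b'` (values at `dd t`).
`ph_surj`: `complete_of_sum`: `∑ = (q - 1) + 4 ((q - 1) / 2)² = q (q - 1)` (`card_BS`).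
`ph_degl`, `ph_degr`: values at `1`. `ph_prime`: the degrees `1, (q - 1)/2` are prime to `p` (`q ≡ 0`).
-/

open Matrix
open scoped MatrixGroups Classical

set_option linter.unusedSectionVars false

namespace Pool.Agent.Helper55.PL

open Pool.Agent.Helper42.INC Pool.Agent.Helper7.MK

variable {F : Type} [Field F] [Fintype F] [DecidableEq F] {ψ : AddChar F ℂ}

private theorem isSquare_unit {a : Fˣ} (h : IsSquare (a : F)) : IsSquare a := by
  obtain ⟨x, hx⟩ := h
  have hx0 : x ≠ 0 := by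
    rintro rfl
    rw [mul_zero] at hx
    exact a.ne_zero hx
  exact ⟨Units.mk0 x hx0, Units.ext (by rw [Units.val_mul, Units.val_mk0, hx])⟩

private theorem isSquare_val {a : Fˣ} (h : IsSquare a) : IsSquare (a : F) := by
  obtain ⟨x, rfl⟩ := h
  exact ⟨x, by rw [Units.val_mul]⟩

private theorem sq_mul (h2 : (2 : F) ≠ 0) {a b : Fˣ} (ha : ¬ IsSquare a) (hb : ¬ IsSquare b) :
    IsSquare (a * b) := by
  have hF : ringChar F ≠ 2 := by
    intro h
    apply h2
    have h1 := ringChar.Nat.cast_ringChar (R := F)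
    rw [h] at h1
    exact_mod_cast h1
  apply isSquare_unit
  have h1 : quadraticChar F (a : F) = -1 :=
    (quadraticChar_neg_one_iff_not_isSquare).2 fun h => ha (isSquare_unit h)
  have h3 : quadraticChar F (b : F) = -1 :=
    (quadraticChar_neg_one_iff_not_isSquare).2 fun h => hb (isSquare_unit h)
  rw [← quadraticChar_one_iff_isSquare (Units.ne_zero _), Units.val_mul, map_mul, h1, h3]
  norm_num

theorem ph_sign (h2 : (2 : F) ≠ 0) {Q : Fˣ →* MulChar F ℂ} (hQ : Function.Injective Q)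
    (hs : ∀ a b : Fˣ, Q a b = Q b a) {ν : Fˣ} (hν : ¬ IsSquare ν) :
    Q (hb ν false) (-1 : F) = - Q (hb ν true) (-1 : F) := by
  have e1 : (-1 : F) = ((-1 : Fˣ) : F) := by rw [Units.val_neg, Units.val_one]
  have hf : hb ν false = -ν := by simp [hb]
  have ht : hb ν true = -1 := by simp [hb]
  have hsq : ∀ b : Fˣ, Q (-1) (b : F) * Q (-1) (b : F) = 1 := by
    intro b
    rw [← MulChar.mul_apply, ← map_mul]
    rw [show (-1 : Fˣ) * -1 = 1 by norm_num, map_one, MulChar.one_apply_coe]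
  have hone : ∀ b : Fˣ, IsSquare b → Q (-1) (b : F) = 1 := by
    rintro b ⟨c, rfl⟩
    rw [Units.val_mul, map_mul]
    exact hsq c
  have hne : Q (-1) ≠ Q 1 := by
    intro h
    have h3 := hQ h
    apply h2
    have h4 := congrArg (fun x : Fˣ => (x : F)) h3
    simp only [Units.val_neg, Units.val_one] at h4
    have h5 : (2 : F) = 1 - (-1) := by norm_num
    rw [h5, h4, sub_self]
  have hν1 : Q (-1) (ν : F) = -1 := by
    have h3 := hsq ν
    have h4 : (Q (-1) (ν : F) - 1) * (Q (-1) (ν : F) + 1) = 0 := by linear_combination h3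
    rcases mul_eq_zero.1 h4 with h5 | h5
    · exfalso
      have h6 : Q (-1) (ν : F) = 1 := by linear_combination h5
      apply hne
      rw [map_one]
      refine MulChar.ext fun b => ?_
      rw [MulChar.one_apply_coe]
      by_cases hb' : IsSquare b
      · exact hone b hb'
      · have h7 := hone _ (sq_mul h2 hb' hν)
        rw [Units.val_mul, map_mul, h6, mul_one] at h7
        exact h7
    · linear_combination h5
  rw [hf, ht, e1, hs (-ν) (-1)]
  rw [show ((-ν : Fˣ) : F) = ((-1 : Fˣ) : F) * (ν : F) by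
    rw [Units.val_neg, Units.val_neg, Units.val_one]; ring, map_mul, hν1]
  ring

theorem ph_irr (h2 : (2 : F) ≠ 0) (hψ : ψ ≠ 1) (Q : Fˣ →* MulChar F ℂ) (ν : Fˣ) (i : Ix F) :
    ph Q ψ ν i ∈ Irr (BS F) := by
  rcases i with b | c
  · exact lamb_irr Q b
  · change phh ψ (Q (hb ν c.1)) (if c.2 then 1 else ν) ∈ Irr (BS F)
    refine irr_of_norm_one _ (phh_class h2 _ _) (fun χ hχ => phh_nat h2 ψ _ _ hχ) ?_
    rw [phh_phh h2 hψ, if_pos ⟨rfl, ⟨_, rfl⟩⟩]

theorem ph_degl (Q : Fˣ →* MulChar F ℂ) (ν b : Fˣ) : ph Q ψ ν (Sum.inl b) 1 = 1 := by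
  change Q b (((1 : BS F) : SL(2, F)) 1 1) = 1
  rw [show (((1 : BS F) : SL(2, F)) 1 1) = (1 : F) by simp, map_one]

theorem ph_degr (Q : Fˣ →* MulChar F ℂ) (ν : Fˣ) (c : Bool × Bool) :
    2 * ph Q ψ ν (Sum.inr c) 1 = Fintype.card F - 1 := by
  change 2 * phh ψ (Q (hb ν c.1)) (if c.2 then 1 else ν) 1 = _
  have h0 : (((1 : BS F) : SL(2, F)) 0 0) = (1 : F) := by simp
  have h1 : (((1 : BS F) : SL(2, F)) 0 1) = (0 : F) := by simp
  unfold phh
  rw [h0, h1, if_pos (by ring), map_one, one_mul, ← mul_assoc, mul_inv_cancel₀ two_ne_zero, one_mul]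
  simp only [mul_zero, AddChar.map_zero_eq_one, Finset.sum_const, Finset.card_univ, nsmul_eq_mul,
    mul_one]
  exact card_units'

private theorem mulChar_ne (χ : MulChar F ℂ) : χ (-1 : F) ≠ 0 := by
  intro h
  have h1 : χ ((-1) * (-1)) = 1 := by
    rw [show (-1 : F) * -1 = 1 by ring, map_one]
  rw [map_mul, h, mul_zero] at h1
  exact zero_ne_one h1

theorem ph_inj (h2 : (2 : F) ≠ 0) (hψ : ψ ≠ 1) {Q : Fˣ →* MulChar F ℂ}
    (hQ : Function.Injective Q) (hs : ∀ a b : Fˣ, Q a b = Q b a) {ν : Fˣ} (hν : ¬ IsSquare ν) :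
    Function.Injective (ph Q ψ ν) := by
  have hmix : ∀ (b : Fˣ) (c : Bool × Bool), ph Q ψ ν (Sum.inl b) ≠ ph Q ψ ν (Sum.inr c) := by
    intro b c h
    have h1 := B_irr_self (ph_irr h2 hψ Q ν (Sum.inl b))
    rw [h] at h1
    have h3 : B (ph Q ψ ν (Sum.inl b)) (ph Q ψ ν (Sum.inr c)) = 0 := lamb_phh h2 hψ Q b _ _
    rw [h, h1] at h3
    exact one_ne_zero h3
  rintro (b | c) (b' | c') h
  · have h1 : Q b = Q b' := by
      refine MulChar.ext fun a => ?_
      have h3 := congrFun h ⟨dd a⁻¹, dd_mem _⟩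
      change Q b ((dd a⁻¹ : SL(2, F)) 1 1) = Q b' ((dd a⁻¹ : SL(2, F)) 1 1) at h3
      rw [dd_val] at h3
      simpa using h3
    rw [hQ h1]
  · exact absurd h (hmix b c')
  · exact absurd h.symm (hmix b' c)
  · have h1 := B_irr_self (ph_irr h2 hψ Q ν (Sum.inr c'))
    have h3 : B (ph Q ψ ν (Sum.inr c)) (ph Q ψ ν (Sum.inr c')) = 1 := by rw [h, h1]
    change B (phh ψ (Q (hb ν c.1)) (if c.2 then 1 else ν))
      (phh ψ (Q (hb ν c'.1)) (if c'.2 then 1 else ν)) = 1 at h3
    rw [phh_phh h2 hψ] at h3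
    have h4 : Q (hb ν c.1) (-1 : F) = Q (hb ν c'.1) (-1 : F) ∧
        IsSquare ((if c.2 then 1 else ν) * (if c'.2 then 1 else ν) : Fˣ) := by
      by_contra hcon
      rw [if_neg hcon] at h3
      exact zero_ne_one h3
    obtain ⟨h5, h6⟩ := h4
    have hsg := ph_sign h2 hQ hs hν
    have hn0 := mulChar_ne (Q (hb ν true))
    obtain ⟨c1, c2⟩ := c
    obtain ⟨c1', c2'⟩ := c'
    simp only at h5 h6
    have e1 : c1 = c1' := by
      cases c1 <;> cases c1'
      · rfl
      · exfalso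
        rw [hsg] at h5
        apply hn0
        linear_combination (-(1 / 2 : ℂ)) * h5
      · exfalso
        rw [hsg] at h5
        apply hn0
        linear_combination ((1 / 2 : ℂ)) * h5
      · rfl
    have e2 : c2 = c2' := by
      cases c2 <;> cases c2'
      · rfl
      · exfalso
        apply hν
        simpa using h6
      · exfalso
        apply hν
        simpa using h6
      · rfl
    rw [e1, e2]

theorem ph_surj (h2 : (2 : F) ≠ 0) (hψ : ψ ≠ 1) {Q : Fˣ →* MulChar F ℂ}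
    (hQ : Function.Injective Q) (hs : ∀ a b : Fˣ, Q a b = Q b a) {ν : Fˣ} (hν : ¬ IsSquare ν)
    {φ : BS F → ℂ} (hφ : φ ∈ Irr (BS F)) : ∃ i, ph Q ψ ν i = φ := by
  refine complete_of_sum (ph Q ψ ν) (ph_irr h2 hψ Q ν) (ph_inj h2 hψ hQ hs hν) ?_ hφ
  rw [Fintype.sum_sum_type, card_BS]
  have h1 : ∀ b : Fˣ, (ph Q ψ ν (Sum.inl b) 1) ^ 2 = 1 := by
    intro b
    rw [ph_degl, one_pow]
  have h3 : ∀ c : Bool × Bool,
      (ph Q ψ ν (Sum.inr c) 1) ^ 2 = 4⁻¹ * ((Fintype.card F : ℂ) - 1) ^ 2 := by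
    intro c
    rw [← ph_degr (ψ := ψ) Q ν c]
    ring
  rw [Finset.sum_congr rfl fun b _ => h1 b, Finset.sum_congr rfl fun c _ => h3 c,
    Finset.sum_const, Finset.sum_const, Finset.card_univ, Finset.card_univ, nsmul_eq_mul,
    nsmul_eq_mul, card_units']
  rw [show Fintype.card (Bool × Bool) = 4 by rfl]
  push_cast
  ring

theorem ph_prime (p : ℕ) [Fact p.Prime] [CharP F p] (h2 : (2 : F) ≠ 0) (hψ : ψ ≠ 1)
    (Q : Fˣ →* MulChar F ℂ) (ν : Fˣ) (i : Ix F) : ph Q ψ ν i ∈ IrrP p (BS F) := by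
  have hp : p.Prime := Fact.out
  refine ⟨ph_irr h2 hψ Q ν i, ?_⟩
  rcases i with b | c
  · exact ⟨1, by rw [ph_degl, Nat.cast_one], hp.one_lt.ne' ∘ Nat.dvd_one.1⟩
  · obtain ⟨n, -, hn⟩ := irr_one (ph_irr h2 hψ Q ν (Sum.inr c))
    refine ⟨n, hn, fun hdvd => ?_⟩
    have h3 := ph_degr (ψ := ψ) Q ν c
    rw [hn] at h3
    have h4 : 2 * n + 1 = Fintype.card F := by
      have h5 : ((2 * n + 1 : ℕ) : ℂ) = (Fintype.card F : ℂ) := by
        push_cast
        linear_combination h3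
      exact_mod_cast h5
    have h6 : p ∣ Fintype.card F := by
      rw [← CharP.cast_eq_zero_iff F p]
      exact FiniteField.cast_card_eq_zero F
    rw [← h4] at h6
    have h7 : p ∣ 1 := (Nat.dvd_add_right (hdvd.mul_left 2)).1 h6
    exact hp.one_lt.ne' (Nat.dvd_one.1 h7)

end Pool.Agent.Helper55.PL
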