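import Pool.Agent.Helper55.PL.HalfB

/-!
# PL-27: the characters of the upper triangular subgroup of `SL₂(F)`: action and further properties

Proofs.
`bs_coord`: for `s ∈ BS F`, `s = dd t * xu u` (`exists_dd`), `s 0 0 = t`, `s 1 1 = t⁻¹`, `s 0 0 * s 0 1 = u` if
`t t = 1`; for `g = up x y v`, `act g f s = dd (f t) * xu (...)`, and if `t t = 1` then
`act g f s = dd (f t) * xu ((x / y) f u)`, `f t = t` (as `t = ± 1`).
`phh_sq`: `phh ψ ω r` depends only on the class of `r` modulo squares: substitute `t ↦ z t`.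
`ph_act`: `inl`: `(act g f s) 1 1 = f (s 1 1)` and `Q (Fu f b) x = Q b (Fu f x)` (hypothesis `hg`). `inr`: if
`t t ≠ 1` both sides are `0` (`f t * f t ≠ 1`). If `t t = 1`: the value is
`ω t * 2⁻¹ ∑_τ ψ(r τ² (x/y) f u)`, substitute `τ = f τ'` and use `ψ (f v) = ψ v`:
`∑_τ' ψ(f⁻¹(r x / y) τ'² u)`, and `f⁻¹(r x/y)` is `r x y` up to squares (`fu_sq`), `det g = x y`; now
`IsSquare (x y)`, `r = 1` or `ν`: a product of two nonsquares is a square (`phh_sq`). (`ω = Q (hb ν c)` is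
evaluated at `t = ± 1` on both sides.)
`ph_whi`: `∑_u phh ψ ω 1 (xu u) ψ(-u) = 2⁻¹ ∑_τ ∑_u ψ((τ² - 1) u) = 2⁻¹ · 2 · q` (`τ² = 1` iff `τ = ± 1`).
`ph_cen`: `dd (-1) * s` has the coordinates `-t, u`.
-/

open Matrix
open scoped MatrixGroups Classical

set_option linter.unusedSectionVars false

namespace Pool.Agent.Helper55.PL

open Pool.Agent.Helper42.INC Pool.Agent.Helper7.MK

variable {F : Type} [Field F] [Fintype F] [DecidableEq F] {ψ : AddChar F ℂ}

/-- the sum in `phh` -/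
private theorem sum_sq (ψ : AddChar F ℂ) (r z : Fˣ) (w : F) :
    ∑ t : Fˣ, ψ (((z ^ 2 * r : Fˣ) : F) * ((t : F) * t) * w) =
      ∑ t : Fˣ, ψ ((r : F) * ((t : F) * t) * w) := by
  refine Fintype.sum_equiv (Equiv.mulLeft z) _ _ fun t => ?_
  congr 1
  rw [Equiv.coe_mulLeft]
  push_cast
  ring

private theorem sum_isSquare (ψ : AddChar F ℂ) {r r' : Fˣ} (h : IsSquare (r * r')) (w : F) :
    ∑ t : Fˣ, ψ ((r : F) * ((t : F) * t) * w) = ∑ t : Fˣ, ψ ((r' : F) * ((t : F) * t) * w) := by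
  obtain ⟨c, hc⟩ := h
  have h1 : r = (c * r'⁻¹) ^ 2 * r' := by
    rw [mul_pow, pow_two c, ← hc]
    group
  rw [h1]
  exact sum_sq ψ r' _ w

theorem phh_sq (ψ : AddChar F ℂ) (ω : MulChar F ℂ) (r z : Fˣ) (s : BS F) :
    phh ψ ω (z ^ 2 * r) s = phh ψ ω r s := by
  unfold phh
  rw [sum_sq]

/-- the entries of the image -/
private theorem act_up (x y : Fˣ) (v : F) (f : F ≃+* F) {s : SL(2, F)} (hs : s 1 0 = 0) :
    (act (up x y v) f s) 0 0 = f (s 0 0) ∧ (act (up x y v) f s) 1 1 = f (s 1 1) ∧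
      (act (up x y v) f s) 0 1 =
        ((x : F) * f (s 0 1) + v * (f (s 1 1) - f (s 0 0))) * ((y⁻¹ : Fˣ) : F) := by
  have hval : (act (up x y v) f s).val = !![(x : F), v; 0, (y : F)] *
      (fS f s).val * !![((x⁻¹ : Fˣ) : F), -(((x⁻¹ : Fˣ) : F) * v * ((y⁻¹ : Fˣ) : F));
        0, ((y⁻¹ : Fˣ) : F)] := rfl
  have h00 : (fS f s).val 0 0 = f (s 0 0) := rfl
  have h01 : (fS f s).val 0 1 = f (s 0 1) := rfl
  have h10 : (fS f s).val 1 0 = f (s 1 0) := rfl
  have h11 : (fS f s).val 1 1 = f (s 1 1) := rfl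
  have hx : (x : F) * ((x⁻¹ : Fˣ) : F) = 1 := by rw [← Units.val_mul, mul_inv_cancel, Units.val_one]
  have hy : (y : F) * ((y⁻¹ : Fˣ) : F) = 1 := by rw [← Units.val_mul, mul_inv_cancel, Units.val_one]
  refine ⟨?_, ?_, ?_⟩
  · show (act (up x y v) f s).val 0 0 = _
    rw [hval]
    simp only [Matrix.mul_apply, Fin.sum_univ_two, h00, h01, h10, h11, hs, map_zero,
      Matrix.of_apply, Matrix.cons_val', Matrix.cons_val_zero, Matrix.cons_val_one,
      Matrix.cons_val_fin_one]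
    linear_combination f (s 0 0) * hx
  · show (act (up x y v) f s).val 1 1 = _
    rw [hval]
    simp only [Matrix.mul_apply, Fin.sum_univ_two, h00, h01, h10, h11, hs, map_zero,
      Matrix.of_apply, Matrix.cons_val', Matrix.cons_val_zero, Matrix.cons_val_one,
      Matrix.cons_val_fin_one]
    linear_combination f (s 1 1) * hy
  · show (act (up x y v) f s).val 0 1 = _
    rw [hval]
    simp only [Matrix.mul_apply, Fin.sum_univ_two, h00, h01, h10, h11, hs, map_zero,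
      Matrix.of_apply, Matrix.cons_val', Matrix.cons_val_zero, Matrix.cons_val_one,
      Matrix.cons_val_fin_one]
    linear_combination (-(f (s 0 0)) * v * ((y⁻¹ : Fˣ) : F)) * hx

private theorem sqd_up_mul (h2 : (2 : F) ≠ 0) (u v : Fˣ) :
    sqd (up (u * v) 1 0 : GL (Fin 2) F) = (sqd (up u 1 0 : GL (Fin 2) F) == sqd (up v 1 0)) := by
  rw [← sqd_mul h2, up_mul]
  congr 2
  · rw [mul_one]
  · ring

private theorem sqd_up_iff (u : Fˣ) : sqd (up u 1 0 : GL (Fin 2) F) = true ↔ IsSquare u := by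
  rw [sqd_iff, up_det, mul_one]

theorem ph_act (h2 : (2 : F) ≠ 0) (hψf : ∀ (f : F ≃+* F) (u : F), ψ (f u) = ψ u)
    {Q : Fˣ →* MulChar F ℂ} (hg : ∀ (f : F ≃+* F) (b x : Fˣ), Q (Fu f b) x = Q b (Fu f x))
    {ν : Fˣ} (hν : ¬ IsSquare ν) {g : GL (Fin 2) F} (hgB : g ∈ BG F) (f : F ≃+* F) (i : Ix F)
    (s s' : BS F) (h : (s' : SL(2, F)) = act g f s) : ph Q ψ ν i s' = ph Q ψ ν (tw g f i) s := by
  obtain ⟨x, y, v, rfl⟩ := exists_up hgB
  have hs : s.1 1 0 = 0 := mem_BS.1 s.2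
  obtain ⟨e00, e11, e01⟩ := act_up x y v f hs
  have e00' : s'.1 0 0 = f (s.1 0 0) := by rw [h]; exact e00
  have e11' : s'.1 1 1 = f (s.1 1 1) := by rw [h]; exact e11
  have e01' : s'.1 0 1 = ((x : F) * f (s.1 0 1) + v * (f (s.1 1 1) - f (s.1 0 0))) *
      ((y⁻¹ : Fˣ) : F) := by rw [h]; exact e01
  have hdet : s.1 0 0 * s.1 1 1 = 1 := by
    have h3 := s.1.det_coe
    rw [Matrix.det_fin_two, hs] at h3
    simpa using h3
  rcases i with b | c
  · show Q b (s'.1 1 1) = Q (Fu f b) (s.1 1 1)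
    have h11 : s.1 1 1 ≠ 0 := right_ne_zero_of_mul (by rw [hdet]; exact one_ne_zero)
    have h3 := hg f b (Units.mk0 _ h11)
    rw [Fu_val, Units.val_mk0] at h3
    rw [e11', h3]
  · show phh ψ (Q (hb ν c.1)) (if c.2 then 1 else ν) s' =
      phh ψ (Q (hb ν c.1)) (if (c.2 == sqd (up x y v)) then 1 else ν) s
    unfold phh
    rw [e00', e01']
    by_cases ha : s.1 0 0 * s.1 0 0 = 1
    · have hfa : f (s.1 0 0) * f (s.1 0 0) = 1 := by rw [← map_mul, ha, map_one]
      rw [if_pos ha, if_pos hfa]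
      have hfaa : f (s.1 0 0) = s.1 0 0 := by
        rcases mul_self_eq_one_iff.1 ha with h3 | h3
        · rw [h3, map_one]
        · rw [h3, map_neg, map_one]
      have hda : s.1 1 1 = s.1 0 0 := by
        have h4 : s.1 0 0 ≠ 0 := left_ne_zero_of_mul (by rw [hdet]; exact one_ne_zero)
        exact mul_left_cancel₀ h4 (by rw [hdet, ha])
      rw [hda, sub_self, mul_zero, add_zero]
      congr 2
      -- the sum
      obtain ⟨rc, hrc⟩ : ∃ rc : Fˣ, rc = if c.2 = true then 1 else ν := ⟨_, rfl⟩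
      obtain ⟨r', hr'⟩ : ∃ r' : Fˣ, r' = if (c.2 == sqd (up x y v)) = true then 1 else ν :=
        ⟨_, rfl⟩
      rw [← hrc, ← hr']
      have k1 : ∑ t : Fˣ, ψ ((r' : F) * ((t : F) * t) * (s.1 0 0 * s.1 0 1)) =
          ∑ t : Fˣ, ψ ((r' : F) * ((t : F) * t) * f (s.1 0 0 * s.1 0 1)) := by
        have k2 : ∑ t : Fˣ, ψ ((r' : F) * ((t : F) * t) * (s.1 0 0 * s.1 0 1)) =
            ∑ t : Fˣ, ψ (((Fu f r' : Fˣ) : F) * ((t : F) * t) * f (s.1 0 0 * s.1 0 1)) := by
          refine Fintype.sum_equiv (Fu f).toEquiv _ _ fun t => ?_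
          rw [← hψf f]
          congr 1
          rw [map_mul, map_mul, map_mul, MulEquiv.toEquiv_eq_coe, EquivLike.coe_coe, Fu_val,
            Fu_val]
        rw [k2]
        obtain ⟨z, hz⟩ := fu_sq h2 f r'
        rw [hz]
        exact sum_sq ψ r' z _
      rw [k1]
      have k3 : ∑ t : Fˣ, ψ ((rc : F) * ((t : F) * t) *
          (f (s.1 0 0) * ((x : F) * f (s.1 0 1) * ((y⁻¹ : Fˣ) : F)))) =
          ∑ t : Fˣ, ψ (((rc * (x * y⁻¹) : Fˣ) : F) * ((t : F) * t) *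
            f (s.1 0 0 * s.1 0 1)) := by
        refine Finset.sum_congr rfl fun t _ => ?_
        congr 1
        rw [map_mul]
        push_cast
        ring
      rw [k3]
      refine sum_isSquare ψ ?_ _
      have k4 : rc * (x * y⁻¹) * r' = rc * r' * (x * y) * (y⁻¹ * y⁻¹) := by
        rw [mul_comm x y]
        have : rc * r' * (y * x) * (y⁻¹ * y⁻¹) = rc * r' * x * (y⁻¹ * (y * y⁻¹)) := by
          simp only [mul_assoc, mul_comm, mul_left_comm]
        rw [this, mul_inv_cancel, mul_one]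
        simp only [mul_assoc, mul_comm, mul_left_comm]
      rw [← sqd_up_iff, k4, sqd_up_mul h2, sqd_up_mul h2, sqd_up_mul h2]
      have s1 : sqd (up (y⁻¹ * y⁻¹) 1 0 : GL (Fin 2) F) = true := by
        rw [sqd_up_iff]
        exact ⟨y⁻¹, rfl⟩
      have s2 : sqd (up (x * y) 1 0 : GL (Fin 2) F) = sqd (up x y v) := by
        rw [Bool.eq_iff_iff, sqd_iff, sqd_iff, up_det, up_det, mul_one]
      have s3 : sqd (up 1 1 0 : GL (Fin 2) F) = true := by
        rw [sqd_up_iff]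
        exact ⟨1, (one_mul 1).symm⟩
      have s4 := sqd_nu hν
      have s5 : sqd (up rc 1 0 : GL (Fin 2) F) = c.2 := by
        rw [hrc]
        cases c.2
        · exact s4
        · exact s3
      have s6 : sqd (up r' 1 0 : GL (Fin 2) F) = (c.2 == sqd (up x y v)) := by
        rw [hr']
        cases (c.2 == sqd (up x y v))
        · exact s4
        · exact s3
      rw [s1, s2, s5, s6]
      cases c.2 <;> cases sqd (up x y v) <;> rfl
    · have hfa : ¬ f (s.1 0 0) * f (s.1 0 0) = 1 := by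
        rw [← map_mul]
        intro h3
        apply ha
        apply f.injective
        rw [h3, map_one]
      rw [if_neg ha, if_neg hfa]

theorem ph_whi (h2 : (2 : F) ≠ 0) (hψ : ψ ≠ 1) (Q : Fˣ →* MulChar F ℂ) (ν : Fˣ) (c : Bool) :
    ∑ u : F, ph Q ψ ν (Sum.inr (c, true)) ⟨xu u, xu_mem u⟩ * ψ (-u) = Fintype.card F := by
  have hprim : ψ.IsPrimitive := AddChar.IsPrimitive.of_ne_one hψ
  have h1 : ∀ u : F, ph Q ψ ν (Sum.inr (c, true)) ⟨xu u, xu_mem u⟩ * ψ (-u) =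
      2⁻¹ * ∑ t : Fˣ, ψ (u * ((t : F) * t - 1)) := by
    intro u
    have h2 : ph Q ψ ν (Sum.inr (c, true)) ⟨xu u, xu_mem u⟩ =
        2⁻¹ * ∑ t : Fˣ, ψ ((t : F) * t * u) := by
      show phh ψ (Q (hb ν c)) (if true then 1 else ν) ⟨xu u, xu_mem u⟩ = _
      unfold phh
      have e00 : (xu u) 0 0 = (1 : F) := rfl
      have e01 : (xu u) 0 1 = u := rfl
      show (if (xu u) 0 0 * (xu u) 0 0 = 1 then _ else _) = _
      rw [e00, e01, mul_one, if_pos rfl, MulChar.map_one, one_mul]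
      congr 1
      refine Finset.sum_congr rfl fun t _ => ?_
      rw [if_pos rfl, Units.val_one, one_mul, one_mul]
    rw [h2, mul_assoc, Finset.sum_mul]
    congr 1
    refine Finset.sum_congr rfl fun t _ => ?_
    rw [← AddChar.map_add_eq_mul]
    congr 1
    ring
  rw [Finset.sum_congr rfl fun u _ => h1 u, ← Finset.mul_sum, Finset.sum_comm]
  have h3 : ∀ t : Fˣ, ∑ u : F, ψ (u * ((t : F) * t - 1)) =
      if t ∈ ({1, -1} : Finset Fˣ) then (Fintype.card F : ℂ) else 0 := by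
    intro t
    rw [AddChar.sum_mulShift _ hprim]
    have h4 : (t : F) * t - 1 = 0 ↔ t ∈ ({1, -1} : Finset Fˣ) := by
      rw [sub_eq_zero, mul_self_eq_one_iff, Finset.mem_insert, Finset.mem_singleton,
        ← Units.val_inj, ← Units.val_inj]
      push_cast
      rfl
    by_cases h5 : (t : F) * t - 1 = 0
    · rw [if_pos h5, if_pos (h4.1 h5)]
    · rw [if_neg h5, if_neg (fun h6 => h5 (h4.2 h6)), Nat.cast_zero]
  rw [Finset.sum_congr rfl fun t _ => h3 t, Finset.sum_ite_mem, Finset.univ_inter,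
    Finset.sum_const, Finset.card_pair, nsmul_eq_mul]
  · push_cast
    ring
  · intro h5
    have h6 := congrArg (fun x : Fˣ => (x : F)) h5
    simp only [Units.val_one, Units.val_neg] at h6
    apply h2
    linear_combination h6

theorem ph_cen (Q : Fˣ →* MulChar F ℂ) (ν : Fˣ) (c : Bool × Bool) (s : BS F) :
    ph Q ψ ν (Sum.inr c) (⟨dd (-1), dd_mem _⟩ * s) =
      Q (hb ν c.1) (-1 : F) * ph Q ψ ν (Sum.inr c) s := by
  show phh ψ (Q (hb ν c.1)) (if c.2 then 1 else ν) (⟨dd (-1), dd_mem _⟩ * s) =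
    Q (hb ν c.1) (-1 : F) * phh ψ (Q (hb ν c.1)) (if c.2 then 1 else ν) s
  have hs : s.1 1 0 = 0 := mem_BS.1 s.2
  have e00 : ((⟨dd (-1), dd_mem _⟩ * s : BS F)).1 0 0 = -(s.1 0 0) := by
    show (dd (-1) * s.1 : SL(2, F)) 0 0 = _
    rw [Matrix.SpecialLinearGroup.coe_mul, dd_val]
    simp [Matrix.mul_apply, Fin.sum_univ_two]
  have e01 : ((⟨dd (-1), dd_mem _⟩ * s : BS F)).1 0 1 = -(s.1 0 1) := by
    show (dd (-1) * s.1 : SL(2, F)) 0 1 = _
    rw [Matrix.SpecialLinearGroup.coe_mul, dd_val]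
    simp [Matrix.mul_apply, Fin.sum_univ_two]
  unfold phh
  rw [e00, e01, neg_mul_neg, neg_mul_neg]
  by_cases ha : s.1 0 0 * s.1 0 0 = 1
  · rw [if_pos ha, if_pos ha, show -(s.1 0 0) = (-1 : F) * s.1 0 0 by ring, map_mul, mul_assoc]
  · rw [if_neg ha, if_neg ha, mul_zero]

end Pool.Agent.Helper55.PL
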