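import Pool.Agent.Helper55.PL.SMain
import Pool.Agent.Helper55.PL.PhB
import Pool.Agent.Helper55.PL.PhC
import Pool.Agent.Helper55.PL.MatL
import Pool.Agent.Helper55.PL.MatH
import Pool.Agent.Helper55.PL.ExE

/-!
# PL: the character part

`slGood`: the bijection `th i ↦ ph i` between the irreducible characters of degree prime to `p` of
`SL₂(F)` and of its upper triangular subgroup.
-/

open Matrix
open scoped MatrixGroups Classical

set_option linter.unusedSectionVars false

namespace Pool.Agent.Helper55.PL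

open Pool.Agent.Helper42.INC Pool.Agent.Helper7.MK

section

variable {F : Type} [Field F] [Fintype F] [DecidableEq F] {ψ : AddChar F ℂ} {p : ℕ}
  [Fact p.Prime] [CharP F p] {Q : Fˣ →* MulChar F ℂ} {ν : Fˣ}

theorem cast_card : ((Fintype.card F : ℕ) : ZMod p) = 0 := by
  obtain ⟨n, hn⟩ := FiniteField.card F p
  rw [hn.2]
  have h1 : (n : ℕ) ≠ 0 := n.ne_zero
  push_cast
  rw [CharP.cast_eq_zero, zero_pow h1]

/-- the degree of a half character, squared -/
theorem half_sq {G : Type} [Group G] {χ : G → ℂ} (hχ : χ ∈ Irr G) [Finite G]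
    (h : 2 * χ 1 = Fintype.card F + 1 ∨ 2 * χ 1 = Fintype.card F - 1) :
    (2 * deg χ : ZMod p) ^ 2 = 1 := by
  rw [← deg_cast hχ] at h
  have h0 : ((Fintype.card F : ℕ) : ZMod p) = 0 := cast_card
  rcases h with h | h
  · have h1 : 2 * deg χ = Fintype.card F + 1 := by exact_mod_cast h
    have h2 : ((2 * deg χ : ℕ) : ZMod p) = ((Fintype.card F + 1 : ℕ) : ZMod p) := by rw [h1]
    push_cast at h2
    rw [h2, h0]
    ring
  · have h1 : 2 * deg χ + 1 = Fintype.card F := by
      have h2 : (2 * deg χ + 1 : ℂ) = Fintype.card F := by rw [h]; ring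
      exact_mod_cast h2
    have h2 : ((2 * deg χ + 1 : ℕ) : ZMod p) = ((Fintype.card F : ℕ) : ZMod p) := by rw [h1]
    push_cast at h2
    rw [h0] at h2
    have h3 : (2 * deg χ : ZMod p) = -1 := eq_neg_of_add_eq_zero_left h2
    rw [h3]
    ring

theorem lin_sq {G : Type} [Group G] [Finite G] {χ : G → ℂ} (hχ : χ ∈ Irr G)
    (h : χ 1 = 1 ∨ χ 1 = Fintype.card F + 1 ∨ χ 1 = Fintype.card F - 1) :
    (deg χ : ZMod p) ^ 2 = 1 := by
  rw [← deg_cast hχ] at h
  have h0 : ((Fintype.card F : ℕ) : ZMod p) = 0 := cast_card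
  rcases h with h | h | h
  · have h1 : deg χ = 1 := by exact_mod_cast h
    rw [h1]
    simp
  · have h1 : deg χ = Fintype.card F + 1 := by exact_mod_cast h
    rw [h1]
    push_cast
    rw [h0]
    ring
  · have h1 : deg χ + 1 = Fintype.card F := by
      have h2 : (deg χ + 1 : ℂ) = Fintype.card F := by rw [h]; ring
      exact_mod_cast h2
    have h2 : ((deg χ + 1 : ℕ) : ZMod p) = ((Fintype.card F : ℕ) : ZMod p) := by rw [h1]
    push_cast at h2
    rw [h0] at h2
    rw [eq_neg_of_add_eq_zero_left h2]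
    ring

theorem act_nu (S : SData p Q ψ ν) (hν : ¬ IsSquare ν) (c : Bool) (s : SL(2, F)) :
    S.th (Sum.inr (c, false)) s = S.th (Sum.inr (c, true)) (cj (up ν 1 0) s) := by
  have h := S.act (up ν 1 0) 1 (Sum.inr (c, true)) s
  have h1 : act (up ν 1 0) (1 : F ≃+* F) s = cj (up ν 1 0) s := by
    rw [act_apply]
    congr 1
  rw [h1] at h
  rw [h, tw, sqd_nu hν]
  rfl

theorem matched_i (S : SData p Q ψ ν) (h2 : (2 : F) ≠ 0) (hψ : ψ ≠ 1)
    (hψf : ∀ (f : F ≃+* F) (u : F), ψ (f u) = ψ u)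
    (hg : ∀ (f : F ≃+* F) (b x : Fˣ), Q (Fu f b) x = Q b (Fu f x)) (hν : ¬ IsSquare ν)
    (i : Ix F) : MatchedS (S.th i) (ph Q ψ ν i) := by
  have htrue : ∀ c : Bool, MatchedS (S.th (Sum.inr (c, true))) (ph Q ψ ν (Sum.inr (c, true))) := by
    intro c
    refine matched_half h2 hψf (κ := Q (hb ν c) (-1 : F)) (S.irr _).1 (ph_irr h2 hψ Q ν _) ?_
      (S.cen (c, true)) (ph_cen Q ν (c, true)) ?_ ?_ ?_ (S.whi c) (ph_whi h2 hψ Q ν c)
    · rw [← map_mul]
      simp
    · intro g f _ hg' s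
      rw [S.act, tw, hg']
      rfl
    · intro g f hgB hg' s s' hs
      rw [ph_act h2 hψf hg hν hgB f _ s s' hs, tw, hg']
      rfl
    · intro g f _ h
      have h1 : S.th (tw g f (Sum.inr (c, true))) = S.th (Sum.inr (c, true)) := by
        ext s
        rw [← S.act]
        exact h s
      have h2 := S.inj h1
      rw [tw] at h2
      have h3 := Sum.inr.inj h2
      have h4 := congrArg Prod.snd h3
      simpa using h4
  rcases i with b | ⟨c, e⟩
  · by_cases hb : (b : F) * 4 = 1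
    · have h1 : S.th (Sum.inl b) = fun _ => 1 := by
        ext s
        exact S.one b hb s
      rw [h1]
      exact matched_one hg h2 hb
    · obtain ⟨X, hX, hXs, hc, hf, hw⟩ := S.ext b hb
      have h1 : S.th (Sum.inl b) = fun s => X (Matrix.SpecialLinearGroup.toGL s) := by
        ext s
        exact hXs s
      rw [h1]
      refine matched_L hψf hg b hX hc hf hw ?_
      intro f h
      have h3 : S.th (tw 1 f (Sum.inl b)) = S.th (Sum.inl b) := by
        ext s
        rw [← S.act, hXs, hXs, ← h s]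
        congr 2
        rw [act_apply]
        apply Matrix.SpecialLinearGroup.toGL_injective
        rw [toGL_cj]
        group
      have h4 := S.inj h3
      rw [tw] at h4
      exact Sum.inl.inj h4
  · cases e with
    | true => exact htrue c
    | false =>
      refine matched_tr ν (htrue c) (act_nu S hν c) ?_
      intro s s' hs
      have h5 : (s' : SL(2, F)) = act (up ν 1 0) 1 s := by
        rw [hs, act_apply]
        congr 1
      rw [ph_act h2 hψf hg hν (up_mem _ _ _) 1 _ s s' h5, tw, sqd_nu hν]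
      rfl

end

theorem slGood (p : ℕ) [Fact p.Prime] (hp : p ≠ 2) (F : Type) [Field F] [Finite F] [CharP F p] :
    SLGood p F := by
  have := Fintype.ofFinite F
  have h2 : (2 : F) ≠ 0 := by
    intro h
    have h3 : ((2 : ℕ) : F) = 0 := by exact_mod_cast h
    rw [CharP.cast_eq_zero_iff F p] at h3
    have h4 := (Nat.prime_dvd_prime_iff_eq Fact.out Nat.prime_two).1 h3
    exact hp h4
  obtain ⟨E, _, _, _, hE⟩ := exists_E F
  obtain ⟨ψ, hψ, hψf⟩ := exists_psi F
  obtain ⟨ν, hν⟩ := exists_nonsq h2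
  obtain ⟨D⟩ := exists_CD (F := F) (E := E) hE
  obtain ⟨S⟩ := exists_SData p D hE hψ hψf h2 hν
  have hg : ∀ (f : F ≃+* F) (b x : Fˣ), D.Q (Fu f b) x = D.Q b (Fu f x) := Q_gal D.Q
  set e1 : Ix F ≃ IrrP p SL(2, F) := Equiv.ofBijective (fun i => ⟨S.th i, S.irr i⟩)
    ⟨fun i j h => S.inj (congrArg Subtype.val h), fun θ => by
      obtain ⟨i, hi⟩ := S.surj θ.1 θ.2
      exact ⟨i, Subtype.ext hi⟩⟩ with he1
  set e2 : Ix F ≃ IrrP p (BS F) :=
    Equiv.ofBijective (fun i => ⟨ph D.Q ψ ν i, ph_prime p h2 hψ D.Q ν i⟩)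
    ⟨fun i j h => ph_inj h2 hψ D.Q_inj D.Q_symm hν (congrArg Subtype.val h), fun φ => by
      obtain ⟨i, hi⟩ := ph_surj h2 hψ D.Q_inj D.Q_symm hν φ.2.1
      exact ⟨i, Subtype.ext hi⟩⟩ with he2
  have he1' : ∀ i, (e1 i).1 = S.th i := fun i => rfl
  have he2' : ∀ i, (e2 i).1 = ph D.Q ψ ν i := fun i => rfl
  refine ⟨e1.symm.trans e2, ?_, ?_, ?_⟩
  · intro g f hgB θ θ' h t t' ht
    obtain ⟨i, rfl⟩ := e1.surjective θ
    have h1 : θ' = e1 (tw g f i) := by
      apply Subtype.ext
      ext s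
      rw [h s, he1', he1', S.act]
    rw [h1, Equiv.trans_apply, Equiv.trans_apply, Equiv.symm_apply_apply, Equiv.symm_apply_apply,
      he2', he2']
    exact (ph_act h2 hψf hg hν hgB f i t t' ht).symm
  · intro θ
    obtain ⟨i, rfl⟩ := e1.surjective θ
    rw [Equiv.trans_apply, Equiv.symm_apply_apply, he2', he1']
    rcases i with b | c
    · rw [lin_sq (F := F) (ph_irr h2 hψ D.Q ν _) (Or.inl (ph_degl D.Q ν b)),
        lin_sq (F := F) (S.irr _).1 (S.degl b)]
    · have h3 := half_sq (F := F) (ph_irr h2 hψ D.Q ν (Sum.inr c))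
        (Or.inr (ph_degr D.Q ν c))
      have h4 := half_sq (F := F) (S.irr (Sum.inr c)).1 (S.degr c)
      have h5 : (2 : ZMod p) ≠ 0 := by
        intro h
        have h6 : ((2 : ℕ) : ZMod p) = 0 := by exact_mod_cast h
        rw [ZMod.natCast_eq_zero_iff] at h6
        exact hp ((Nat.prime_dvd_prime_iff_eq Fact.out Nat.prime_two).1 h6)
      rw [mul_pow] at h3 h4
      have h7 : (2 : ZMod p) ^ 2 ≠ 0 := pow_ne_zero 2 h5
      exact mul_left_cancel₀ h7 (h3.trans h4.symm)
  · intro θ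
    obtain ⟨i, rfl⟩ := e1.surjective θ
    rw [Equiv.trans_apply, Equiv.symm_apply_apply, he2', he1']
    exact matched_i S h2 hψ hψf hg hν i

end Pool.Agent.Helper55.PL
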