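import Pool.Agent.Helper55.PL.Cards
import Pool.Agent.Helper55.PL.ExE

/-!
# PL-31: Sylow subgroups of `PSL₂(k)` in the other characteristics

If `p` is odd and different from the characteristic of `k` then the Sylow `p`-subgroups of `PSL₂(k)`
are cyclic.
-/

open Matrix
open scoped MatrixGroups Classical

set_option linter.unusedSectionVars false

namespace Pool.Agent.Helper55.PL

section general

variable {G : Type} [Group G] [Finite G] {p : ℕ} [Fact p.Prime]

/-- a group with a cyclic subgroup of index prime to `p` has cyclic Sylow `p`-subgroups -/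
theorem cyclic_of_index (C : Subgroup G) (hC : IsCyclic C) (hi : ¬ p ∣ C.index) (P : Sylow p G) :
    IsCyclic P := by
  obtain ⟨Q⟩ : Nonempty (Sylow p C) := inferInstance
  have h1 : Nat.card ((Q : Subgroup C).map C.subtype) = p ^ (Nat.card G).factorization p := by
    rw [Nat.card_congr ((Q : Subgroup C).equivMapOfInjective C.subtype
      C.subtype_injective).toEquiv.symm]
    have h2 := Q.card_eq_multiplicity
    rw [h2]
    congr 1
    rw [← C.card_mul_index, Nat.factorization_mul Nat.card_pos.ne' C.index_ne_zero_of_finite,
      Finsupp.add_apply, Nat.factorization_eq_zero_of_not_dvd hi, add_zero]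
  have hcyc : IsCyclic ((Q : Subgroup C).map C.subtype) := by
    have h3 : IsCyclic (Q : Subgroup C) := inferInstance
    exact isCyclic_of_surjective ((Q : Subgroup C).equivMapOfInjective C.subtype
      C.subtype_injective) (MulEquiv.surjective _)
  let P' : Sylow p G := Sylow.ofCard _ h1
  have hP' : IsCyclic P' := hcyc
  exact isCyclic_of_surjective (P'.equiv P) (MulEquiv.surjective _)

/-- quotients -/
theorem cyclic_of_surj {H : Type} [Group H] [Finite H] (f : G →* H) (hf : Function.Surjective f)
    (h : ∀ P : Sylow p G, IsCyclic P) (P : Sylow p H) : IsCyclic P := by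
  obtain ⟨Q, rfl⟩ := Sylow.mapSurjective_surjective hf p P
  have h1 := h Q
  have h2 : Function.Surjective (f.subgroupMap (Q : Subgroup G)) := f.subgroupMap_surjective _
  exact isCyclic_of_surjective (f.subgroupMap (Q : Subgroup G)) h2

end general

section sl

variable {k : Type} [Field k] [Fintype k] [DecidableEq k]

theorem card_SL_nat : Nat.card SL(2, k) =
    Fintype.card k * (Fintype.card k - 1) * (Fintype.card k + 1) := by
  have h := card_SL (F := k)
  have h1 : 1 ≤ Fintype.card k := Fintype.card_pos
  have h2 : (Nat.card SL(2, k) : ℂ) =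
      ((Fintype.card k * (Fintype.card k - 1) * (Fintype.card k + 1) : ℕ) : ℂ) := by
    rw [h]
    push_cast [Nat.cast_sub h1]
    ring
  exact_mod_cast h2

/-- the diagonal torus -/
def ddHom (k : Type) [Field k] : kˣ →* SL(2, k) where
  toFun := dd
  map_one' := by
    apply Matrix.SpecialLinearGroup.toGL_injective
    rw [toGL_dd, map_one]
    apply Units.ext
    rw [up_val]
    ext i j
    fin_cases i <;> fin_cases j <;> simp
  map_mul' := dd_mul

theorem ddHom_inj : Function.Injective (ddHom k) := by
  intro s t h
  have h1 := congrArg Matrix.SpecialLinearGroup.toGL h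
  change Matrix.SpecialLinearGroup.toGL (dd s) = Matrix.SpecialLinearGroup.toGL (dd t) at h1
  rw [toGL_dd, toGL_dd] at h1
  exact (up_inj h1).1

theorem cyclic_sl (p : ℕ) [Fact p.Prime] (hp : p ≠ 2) (hk : (p : k) ≠ 0)
    (P : Sylow p SL(2, k)) : IsCyclic P := by
  have hpp : p.Prime := Fact.out
  set q := Fintype.card k with hq
  have hq1 : 1 < q := Fintype.one_lt_card
  have hpq : ¬ p ∣ q := by
    intro h
    obtain ⟨r, hr⟩ := CharP.exists k
    have hrp : r.Prime := (CharP.char_is_prime_or_zero k r).resolve_right (by
      rintro rfl
      have := CharP.charP_to_charZero k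
      exact not_finite k)
    have : Fact r.Prime := ⟨hrp⟩
    obtain ⟨n, _, hn⟩ := FiniteField.card k r
    rw [← hq] at hn
    rw [hn] at h
    have h1 := (Nat.prime_dvd_prime_iff_eq hpp hrp).1 (hpp.dvd_of_dvd_pow h)
    apply hk
    rw [h1]
    exact CharP.cast_eq_zero k r
  by_cases h1 : p ∣ q + 1
  · -- the nonsplit torus
    have h2 : ¬ p ∣ q - 1 := by
      intro h
      have h3 : p ∣ (q + 1) - (q - 1) := Nat.dvd_sub h1 h
      have h4 : (q + 1) - (q - 1) = 2 := by omega
      rw [h4] at h3
      exact hp ((Nat.prime_dvd_prime_iff_eq hpp Nat.prime_two).1 h3)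
    obtain ⟨E, _, _, _, hE⟩ := exists_E k
    let j := (emb (F := k) (E := E) hE)
    let C : Subgroup SL(2, k) := j.range.comap Matrix.SpecialLinearGroup.toGL
    have hj : Function.Injective j := emb_inj hE
    have hCc : IsCyclic C := by
      have h3 : IsCyclic j.range := isCyclic_of_surjective j.rangeRestrict
        j.rangeRestrict_surjective
      let f : C →* j.range :=
        { toFun := fun c => ⟨Matrix.SpecialLinearGroup.toGL c.1, c.2⟩
          map_one' := by
            apply Subtype.ext
            change Matrix.SpecialLinearGroup.toGL ((1 : C) : SL(2, k)) = 1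
            rw [Subgroup.coe_one, map_one]
          map_mul' := by
            intro a b
            apply Subtype.ext
            change Matrix.SpecialLinearGroup.toGL ((a * b : C) : SL(2, k)) = _
            rw [Subgroup.coe_mul, map_mul]
            rfl }
      refine isCyclic_of_injective f ?_
      intro a b h
      apply Subtype.ext
      apply Matrix.SpecialLinearGroup.toGL_injective
      exact congrArg Subtype.val h
    -- the order of `C` is a multiple of `q + 1`
    have hker : Nat.card (nu k E).ker ∣ Nat.card C := by
      let g : (nu k E).ker →* C :=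
        { toFun := fun c => ⟨⟨(j c.1).val, by
            have h5 : (j c.1).val.det = Algebra.norm k ((c.1 : Eˣ) : E) := emb_det hE c.1
            rw [h5, ← nu_val, MonoidHom.mem_ker.1 c.2]
            rfl⟩, ⟨c.1, by
              apply Units.ext
              rfl⟩⟩
          map_one' := by
            apply Subtype.ext
            apply Subtype.ext
            change (j ((1 : (nu k E).ker) : Eˣ)).val = 1
            rw [Subgroup.coe_one, map_one]
            rfl
          map_mul' := by
            intro a b
            apply Subtype.ext
            apply Subtype.ext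
            change (j ((a * b : (nu k E).ker) : Eˣ)).val = (j (a : Eˣ)).val * (j (b : Eˣ)).val
            rw [Subgroup.coe_mul, map_mul]
            rfl }
      apply Subgroup.card_dvd_of_injective g
      intro a b h
      apply Subtype.ext
      apply hj
      apply Units.ext
      have h6 := congrArg (fun c : C => (c.1 : Matrix (Fin 2) (Fin 2) k)) h
      exact h6
    have hE2 : Fintype.card E = q ^ 2 := card_E hE
    have hcard : Nat.card (nu k E).ker * Nat.card (nu k E).range = q ^ 2 - 1 := by
      have h20 := Subgroup.card_mul_index (nu k E).ker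
      rw [Subgroup.index_ker] at h20
      rw [h20, Nat.card_eq_fintype_card, Fintype.card_units, hE2]
    have hr : Nat.card (nu k E).range ∣ q - 1 := by
      have h7 := Subgroup.card_subgroup_dvd_card (nu k E).range
      rwa [Nat.card_eq_fintype_card (α := kˣ), Fintype.card_units] at h7
    have hq2 : q ^ 2 - 1 = (q + 1) * (q - 1) := by
      rw [← Nat.sq_sub_sq, one_pow]
    have hdiv : q + 1 ∣ Nat.card (nu k E).ker := by
      obtain ⟨m, hm⟩ := hr
      have h8 : 0 < Nat.card (nu k E).range := Nat.card_pos
      have h9 : Nat.card (nu k E).ker * Nat.card (nu k E).range =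
          (q + 1) * m * Nat.card (nu k E).range := by
        rw [hcard, hq2, hm]
        ring
      have h10 := Nat.eq_of_mul_eq_mul_right h8 h9
      exact ⟨m, h10⟩
    have hidx : C.index ∣ q * (q - 1) := by
      obtain ⟨m, hm⟩ := hdiv.trans hker
      have h11 : Nat.card C * C.index = q * (q - 1) * (q + 1) := by
        rw [C.card_mul_index, card_SL_nat]
      have h12 : (q + 1) * (m * C.index) = (q + 1) * (q * (q - 1)) := by
        rw [← mul_assoc, ← hm, h11]
        ring
      have h13 := Nat.eq_of_mul_eq_mul_left (Nat.succ_pos q) h12
      exact ⟨m, by rw [← h13]; ring⟩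
    refine cyclic_of_index C hCc ?_ P
    intro h
    rcases (Nat.Prime.dvd_mul hpp).1 (h.trans hidx) with h | h
    · exact hpq h
    · exact h2 h
  · -- the split torus
    have hCc : IsCyclic (ddHom k).range := isCyclic_of_surjective (ddHom k).rangeRestrict
      (ddHom k).rangeRestrict_surjective
    have hc : Nat.card (ddHom k).range = q - 1 := by
      rw [← Nat.card_congr ((ddHom k).ofInjective ddHom_inj).toEquiv, Nat.card_eq_fintype_card,
        Fintype.card_units]
    have hidx : (ddHom k).range.index = q * (q + 1) := by
      have h11 : Nat.card (ddHom k).range * (ddHom k).range.index = q * (q - 1) * (q + 1) := by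
        rw [Subgroup.card_mul_index, card_SL_nat]
      rw [hc] at h11
      have h12 : (q - 1) * (ddHom k).range.index = (q - 1) * (q * (q + 1)) := by
        rw [h11]
        ring
      exact Nat.eq_of_mul_eq_mul_left (by omega) h12
    refine cyclic_of_index (ddHom k).range hCc ?_ P
    rw [hidx]
    intro h
    rcases (Nat.Prime.dvd_mul hpp).1 h with h | h
    · exact hpq h
    · exact h1 h

end sl

theorem cyclic_psl {k : Type} [Field k] [Finite k] (p : ℕ) [Fact p.Prime] (hp : p ≠ 2)
    (hk : (p : k) ≠ 0) (P : Sylow p PSL(2, k)) : IsCyclic P := by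
  have := Fintype.ofFinite k
  exact cyclic_of_surj (QuotientGroup.mk' _) (QuotientGroup.mk'_surjective _)
    (cyclic_sl p hp hk) P

end Pool.Agent.Helper55.PL
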