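import Pool.Agent.Helper55.PL.Chars

/-!
# PL-04: orders and sums

Proofs. `card_GL`: `Matrix.card_GL_field`. `card_SL`: `det : GL₂(F) → Fˣ` is surjective with kernel
the range of `SL(2, F) → GL₂(F)` (or count directly). `sum_BG`, `sum_BS`: the maps
`(x, y, u) ↦ up x y u` (`exists_up`, `up_inj`) and `(t, u) ↦ dd t * xu u` (`exists_dd`) are
bijections. `card_BG`, `card_BS`: the same with `f = 1`.
-/

open Matrix
open scoped MatrixGroups

set_option linter.unusedSectionVars false

namespace Pool.Agent.Helper55.PL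

open Pool.Agent.Helper42.INC Pool.Agent.Helper7.MK

variable {F : Type} [Field F] [Fintype F] [DecidableEq F]

theorem card_pos1 : 1 < Fintype.card F := by
  exact Fintype.one_lt_card

theorem card_units' : (Fintype.card Fˣ : ℂ) = Fintype.card F - 1 := by
  rw [Fintype.card_units, Nat.cast_sub (Nat.one_le_of_lt card_pos1), Nat.cast_one]

theorem card_GL : (Nat.card (GL (Fin 2) F) : ℂ) =
    Fintype.card F * (Fintype.card F - 1) ^ 2 * (Fintype.card F + 1) := by
  have h1 : 1 ≤ Fintype.card F := Nat.one_le_of_lt (card_pos1 (F := F))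
  have h2 : 1 ≤ Fintype.card F ^ 2 := Nat.one_le_pow _ _ h1
  have h3 : Fintype.card F ≤ Fintype.card F ^ 2 := by nlinarith
  rw [Matrix.card_GL_field, Fin.prod_univ_two]
  simp only [Fin.val_zero, Fin.val_one, pow_zero, pow_one]
  rw [Nat.cast_mul, Nat.cast_sub h2, Nat.cast_sub h3]
  push_cast
  ring

private theorem bij_SL : Function.Bijective (fun a : SL(2, F) × Fˣ =>
    Matrix.SpecialLinearGroup.toGL a.1 * up a.2 1 0) := by
  have hd : ∀ s : SL(2, F), Matrix.GeneralLinearGroup.det (Matrix.SpecialLinearGroup.toGL s) = 1 := by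
    intro s
    apply Units.ext
    rw [Matrix.GeneralLinearGroup.val_det_apply, Matrix.SpecialLinearGroup.coe_GL_coe_matrix,
      s.det_coe, Units.val_one]
  constructor
  · rintro ⟨s, x⟩ ⟨s', x'⟩ h
    change Matrix.SpecialLinearGroup.toGL s * up x 1 0 =
      Matrix.SpecialLinearGroup.toGL s' * up x' 1 0 at h
    have h1 := congrArg Matrix.GeneralLinearGroup.det h
    rw [map_mul, map_mul, hd, hd, up_det, up_det, one_mul, one_mul, mul_one, mul_one] at h1
    subst h1
    have h2 := Matrix.SpecialLinearGroup.toGL_injective (mul_right_cancel h)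
    rw [h2]
  · intro g
    have h1 : (g * up (Matrix.GeneralLinearGroup.det g)⁻¹ 1 0).val.det = 1 := by
      rw [← Matrix.GeneralLinearGroup.val_det_apply, map_mul, up_det, mul_one, mul_inv_cancel,
        Units.val_one]
    refine ⟨(⟨(g * up (Matrix.GeneralLinearGroup.det g)⁻¹ 1 0).val, h1⟩,
      Matrix.GeneralLinearGroup.det g), ?_⟩
    have h2 : Matrix.SpecialLinearGroup.toGL (⟨(g * up (Matrix.GeneralLinearGroup.det g)⁻¹ 1 0).val,
        h1⟩ : SL(2, F)) = g * up (Matrix.GeneralLinearGroup.det g)⁻¹ 1 0 := by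
      apply Units.ext
      rfl
    change Matrix.SpecialLinearGroup.toGL (⟨(g * up (Matrix.GeneralLinearGroup.det g)⁻¹ 1 0).val,
        h1⟩ : SL(2, F)) * up (Matrix.GeneralLinearGroup.det g) 1 0 = g
    rw [h2, mul_assoc, up_mul]
    have h3 : up ((Matrix.GeneralLinearGroup.det g)⁻¹ * Matrix.GeneralLinearGroup.det g) (1 * 1)
        (((Matrix.GeneralLinearGroup.det g)⁻¹ : Fˣ) * (0 : F) + 0 * ((1 : Fˣ) : F)) = 1 := by
      apply Units.ext
      rw [up_val, inv_mul_cancel]
      ext i j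
      fin_cases i <;> fin_cases j <;> simp
    rw [h3, mul_one]

theorem card_SL : (Nat.card SL(2, F) : ℂ) =
    Fintype.card F * (Fintype.card F - 1) * (Fintype.card F + 1) := by
  have h1 := Nat.card_congr (Equiv.ofBijective _ (bij_SL (F := F)))
  rw [Nat.card_prod, Nat.card_eq_fintype_card (α := Fˣ)] at h1
  have h2 : (Nat.card SL(2, F) : ℂ) * Fintype.card Fˣ = Nat.card (GL (Fin 2) F) := by
    exact_mod_cast h1
  rw [card_GL, card_units'] at h2
  have h3 : (Fintype.card F : ℂ) - 1 ≠ 0 := by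
    rw [sub_ne_zero]
    exact_mod_cast (card_pos1 (F := F)).ne'
  apply mul_right_cancel₀ h3
  rw [h2]
  ring

private theorem bij_BG (F : Type) [Field F] : Function.Bijective
    (fun a : Fˣ × Fˣ × F => (⟨up a.1 a.2.1 a.2.2, up_mem _ _ _⟩ : BG F)) := by
  constructor
  · rintro ⟨x, y, u⟩ ⟨x', y', u'⟩ h
    obtain ⟨h1, h2, h3⟩ := up_inj (congrArg Subtype.val h)
    change x = x' at h1
    change y = y' at h2
    change u = u' at h3
    rw [h1, h2, h3]
  · rintro ⟨g, hg⟩
    obtain ⟨x, y, u, rfl⟩ := exists_up hg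
    exact ⟨(x, y, u), rfl⟩

private theorem bij_BS (F : Type) [Field F] : Function.Bijective
    (fun a : Fˣ × F => (⟨dd a.1 * xu a.2, mul_mem (dd_mem _) (xu_mem _)⟩ : BS F)) := by
  constructor
  · rintro ⟨t, u⟩ ⟨t', u'⟩ h
    have h0 : dd t * xu u = dd t' * xu u' := congrArg Subtype.val h
    have h1 := congrArg Matrix.SpecialLinearGroup.toGL h0
    rw [map_mul, map_mul, toGL_dd, toGL_dd, toGL_xu, toGL_xu, up_mul, up_mul] at h1
    obtain ⟨h2, -, h4⟩ := up_inj h1
    rw [mul_one, mul_one] at h2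
    subst h2
    have h5 : u = u' := by
      simpa using h4
    rw [h5]
  · rintro ⟨s, hs⟩
    obtain ⟨t, u, rfl⟩ := exists_dd hs
    exact ⟨(t, u), rfl⟩

theorem card_BG : (Nat.card (BG F) : ℂ) = Fintype.card F * (Fintype.card F - 1) ^ 2 := by
  rw [← Nat.card_congr (Equiv.ofBijective _ (bij_BG F)), Nat.card_prod, Nat.card_prod,
    Nat.card_eq_fintype_card, Nat.card_eq_fintype_card, Nat.cast_mul, Nat.cast_mul, card_units']
  ring

theorem card_BS : (Nat.card (BS F) : ℂ) = Fintype.card F * (Fintype.card F - 1) := by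
  rw [← Nat.card_congr (Equiv.ofBijective _ (bij_BS F)), Nat.card_prod,
    Nat.card_eq_fintype_card, Nat.card_eq_fintype_card, Nat.cast_mul, card_units']
  ring

theorem card_zu : (Nat.card (Fˣ × Multiplicative F) : ℂ) =
    Fintype.card F * (Fintype.card F - 1) := by
  rw [Nat.card_prod, Nat.card_congr (Multiplicative.toAdd (α := F)), Nat.card_eq_fintype_card,
    Nat.card_eq_fintype_card, Nat.cast_mul, card_units']
  ring

/-- the elements of the upper triangular subgroup of `GL₂(F)` -/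
noncomputable def eqBG (F : Type) [Field F] : Fˣ × Fˣ × F ≃ BG F :=
  Equiv.ofBijective (fun a => ⟨up a.1 a.2.1 a.2.2, up_mem _ _ _⟩) (by
    exact bij_BG F)

/-- the elements of the upper triangular subgroup of `SL₂(F)` -/
noncomputable def eqBS (F : Type) [Field F] : Fˣ × F ≃ BS F :=
  Equiv.ofBijective (fun a => ⟨dd a.1 * xu a.2, mul_mem (dd_mem _) (xu_mem _)⟩) (by
    exact bij_BS F)

theorem eqBG_apply (x y : Fˣ) (u : F) : ((eqBG F (x, y, u) : BG F) : GL (Fin 2) F) = up x y u := rfl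

theorem eqBS_apply (t : Fˣ) (u : F) : ((eqBS F (t, u) : BS F) : SL(2, F)) = dd t * xu u := rfl

theorem sum_BG [Fintype (BG F)] (f : BG F → ℂ) :
    ∑ g : BG F, f g = ∑ x : Fˣ, ∑ y : Fˣ, ∑ u : F, f (eqBG F (x, y, u)) := by
  rw [← Equiv.sum_comp (eqBG F) f, Fintype.sum_prod_type]
  refine Finset.sum_congr rfl fun x _ => ?_
  rw [Fintype.sum_prod_type]

theorem sum_BS [Fintype (BS F)] (f : BS F → ℂ) :
    ∑ s : BS F, f s = ∑ t : Fˣ, ∑ u : F, f (eqBS F (t, u)) := by
  rw [← Equiv.sum_comp (eqBS F) f, Fintype.sum_prod_type]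

theorem zu_inj : Function.Injective (zu (F := F)) := by
  rintro ⟨z, u⟩ ⟨z', u'⟩ h
  rw [zu_apply, zu_apply] at h
  obtain ⟨h1, -, h3⟩ := up_inj h
  subst h1
  have h4 : u.toAdd = u'.toAdd := by
    have h5 : (z : F) ≠ 0 := z.ne_zero
    exact mul_left_cancel₀ h5 h3
  rw [show u = u' from h4]

/-- sums over nontrivial arguments of an additive character -/
theorem sum_psi {ψ : AddChar F ℂ} (hψ : ψ ≠ 1) {r : F} (hr : r ≠ 0) : ∑ u : F, ψ (r * u) = 0 := by
  have h1 : ∑ u : F, ψ (r * u) = ∑ u : F, ψ u :=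
    Equiv.sum_comp (Equiv.mulLeft₀ r hr) fun u => ψ u
  rw [h1, AddChar.sum_eq_zero_of_ne_one hψ]

end Pool.Agent.Helper55.PL
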