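import Pool.Agent.Helper55.PL.Defs
import Pool.Agent.Helper7.MK.Cliff

/-!
# Project PL: the characters

`F` is a finite field with `q` elements, `E` a quadratic extension. Definitions of the characters
of `GL₂(F)` (principal series `prn`, cuspidal `csp`), of the parametrisation of the characters
`IsX a b X` (`X` belongs to the polynomial `x² - a x + b`), and of the characters of the upper
triangular subgroup of `SL₂(F)`.
-/

open Matrix
open scoped MatrixGroups

namespace Pool.Agent.Helper55.PL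

open Pool.Agent.Helper42.INC Pool.Agent.Helper7.MK

section one

variable {F : Type} [Field F]

/-- the homomorphism `(z, u) ↦ z x(u)` -/
def zu : Fˣ × Multiplicative F →* GL (Fin 2) F where
  toFun a := up a.1 a.1 (a.1 * a.2.toAdd)
  map_one' := by
    apply Units.ext
    rw [up_val]
    ext i j
    fin_cases i <;> fin_cases j <;> simp
  map_mul' a b := by
    rw [up_mul]
    congr 1
    rw [Prod.fst_mul, Prod.snd_mul, toAdd_mul, Units.val_mul]
    ring

theorem zu_apply (z : Fˣ) (u : Multiplicative F) : zu (z, u) = up z z (z * u.toAdd) := rfl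

/-- the linear character `μ(x) ν(y)` of the upper triangular subgroup of `GL₂(F)` -/
noncomputable def lin (μ ν : MulChar F ℂ) (g : BG F) : ℂ := μ (g.1.val 0 0) * ν (g.1.val 1 1)

/-- the character `ω(z) ψ(u)` of the group of the matrices `z x(u)` -/
noncomputable def whi (ψ : AddChar F ℂ) (ω : MulChar F ℂ) (a : Fˣ × Multiplicative F) : ℂ :=
  ω a.1 * ψ a.2.toAdd

end one

section two

variable {F : Type} [Field F] [Fintype F] [DecidableEq F]

/-- the principal series character of `μ, ν` -/
noncomputable def prn (μ ν : MulChar F ℂ) : GL (Fin 2) F → ℂ := indHom (BG F).subtype (lin μ ν)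

end two

section three

variable {F E : Type} [Field F] [Field E] [Algebra F E]

/-- the inclusion of the units -/
def iu (F E : Type) [Field F] [Field E] [Algebra F E] : Fˣ →* Eˣ :=
  Units.map (algebraMap F E).toMonoidHom

/-- the norm on the units -/
noncomputable def nu (F E : Type) [Field F] [Field E] [Algebra F E] : Eˣ →* Fˣ :=
  Units.map (Algebra.norm F : E →* F)

theorem iu_val (z : Fˣ) : ((iu F E z : Eˣ) : E) = algebraMap F E z := rfl

theorem nu_val (ζ : Eˣ) : ((nu F E ζ : Fˣ) : F) = Algebra.norm F (ζ : E) := rfl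

/-- the restriction of a character of `E` to `F` -/
noncomputable def resc (F : Type) {E : Type} [Field F] [Field E] [Algebra F E]
    (θ : MulChar E ℂ) : MulChar F ℂ :=
  MulChar.ofUnitHom ((MulChar.toUnitHom θ).comp (iu F E))

theorem resc_apply (θ : MulChar E ℂ) (z : Fˣ) : resc F θ z = θ (iu F E z) := by
  rw [resc, MulChar.ofUnitHom_coe, MonoidHom.comp_apply, MulChar.coe_toUnitHom]

/-- dual pairings on the multiplicative groups of `F` and `E`, compatible with the norm -/
structure CD (F E : Type) [Field F] [Field E] [Algebra F E] where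
  /-- the characters of `F` -/
  Q : Fˣ →* MulChar F ℂ
  /-- the characters of `E` -/
  P : Eˣ →* MulChar E ℂ
  Q_inj : Function.Injective Q
  P_inj : Function.Injective P
  Q_symm : ∀ a b : Fˣ, Q a b = Q b a
  P_symm : ∀ a b : Eˣ, P a b = P b a
  PQ : ∀ (a : Eˣ) (z : Fˣ), P a (iu F E z) = Q (nu F E a) z

/-- the embedding of the multiplicative group of `E` into `GL₂(F)` -/
noncomputable def emb [Finite E] (hE : Module.finrank F E = 2) : Eˣ →* GL (Fin 2) F :=
  Units.map (Algebra.leftMulMatrix (Module.finBasisOfFinrankEq F E hE) :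
    E →ₐ[F] Matrix (Fin 2) (Fin 2) F).toRingHom.toMonoidHom

/-- the cuspidal character of `θ` -/
noncomputable def csp [Fintype F] [DecidableEq F] [Fintype E] [DecidableEq E]
    (hE : Module.finrank F E = 2) (ψ : AddChar F ℂ) (θ : MulChar E ℂ) :
    GL (Fin 2) F → ℂ :=
  indHom (zu (F := F)) (whi ψ (resc F θ)) - indHom (emb hE) (fun ζ => θ ζ)

/-- the character `β ∘ det` of `GL₂(F)` -/
noncomputable def dt (β : MulChar F ℂ) (g : GL (Fin 2) F) : ℂ := β g.val.det

/-- `X` is the character which belongs to the polynomial `x² - a x + b` -/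
def IsX [Fintype F] [DecidableEq F] [Fintype E] [DecidableEq E] (D : CD F E) (hE : Module.finrank F E = 2) (ψ : AddChar F ℂ) (a : F) (b : Fˣ)
    (X : GL (Fin 2) F → ℂ) : Prop :=
  (∃ α β : Fˣ, α ≠ β ∧ (α : F) + β = a ∧ α * β = b ∧ X = prn (D.Q α) (D.Q β)) ∨
  ∃ ζ : Eˣ, ζ ^ Fintype.card F ≠ ζ ∧ Algebra.trace F E (ζ : E) = a ∧ nu F E ζ = b ∧
    X = csp hE ψ (D.P ζ)

end three

section four

variable {F : Type} [Field F] [Fintype F] [DecidableEq F]

/-- the linear character of the upper triangular subgroup of `SL₂(F)` which belongs to `b` -/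
noncomputable def lamb (Q : Fˣ →* MulChar F ℂ) (b : Fˣ) (s : BS F) : ℂ := Q b (s.1 1 1)

open Classical in
/-- the half character of the upper triangular subgroup of `SL₂(F)` which belongs to the character
`ω` and to `r` -/
noncomputable def phh (ψ : AddChar F ℂ) (ω : MulChar F ℂ) (r : Fˣ) (s : BS F) : ℂ :=
  if s.1 0 0 * s.1 0 0 = 1 then
    ω (s.1 0 0) * (2⁻¹ * ∑ t : Fˣ, ψ (r * (t * t) * (s.1 0 0 * s.1 0 1)))
  else 0

/-- the index set of the characters of degree prime to `p` -/
abbrev Ix (F : Type) [Field F] : Type := Fˣ ⊕ (Bool × Bool)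

/-- the action of the pairs `(g, f)` on the index set -/
noncomputable def tw (g : GL (Fin 2) F) (f : F ≃+* F) : Ix F → Ix F
  | Sum.inl b => Sum.inl (Fu f b)
  | Sum.inr c => Sum.inr (c.1, c.2 == sqd g)

/-- the constant coefficient of the polynomial of trace zero with index `c` -/
def hb (ν : Fˣ) (c : Bool) : Fˣ := if c then -1 else -ν

/-- the characters of the upper triangular subgroup of `SL₂(F)` -/
noncomputable def ph (Q : Fˣ →* MulChar F ℂ) (ψ : AddChar F ℂ) (ν : Fˣ) : Ix F → BS F → ℂ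
  | Sum.inl b => lamb Q b
  | Sum.inr c => phh ψ (Q (hb ν c.1)) (if c.2 then 1 else ν)

/-- the data of the group `SL₂(F)` -/
structure SData (p : ℕ) (Q : Fˣ →* MulChar F ℂ) (ψ : AddChar F ℂ) (ν : Fˣ) where
  /-- the characters -/
  th : Ix F → SL(2, F) → ℂ
  irr : ∀ i, th i ∈ IrrP p SL(2, F)
  inj : Function.Injective th
  surj : ∀ θ ∈ IrrP p SL(2, F), ∃ i, th i = θ
  act : ∀ g f i s, th i (act g f s) = th (tw g f i) s
  ext : ∀ b : Fˣ, b * 4 ≠ (1 : F) → ∃ X ∈ Irr (GL (Fin 2) F),
    (∀ s, th (Sum.inl b) s = X (Matrix.SpecialLinearGroup.toGL s)) ∧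
    (∀ z g, X (sc z * g) = Q b z * X g) ∧
    (∀ f : F ≃+* F, Fu f b = b → ∀ g, X (fG f g) = X g) ∧
    ∑ u : F, X (up 1 1 u) * ψ (-u) = Fintype.card F
  one : ∀ b : Fˣ, b * 4 = (1 : F) → ∀ s, th (Sum.inl b) s = 1
  degl : ∀ b, th (Sum.inl b) 1 = 1 ∨ th (Sum.inl b) 1 = Fintype.card F + 1 ∨
    th (Sum.inl b) 1 = Fintype.card F - 1
  degr : ∀ c, 2 * th (Sum.inr c) 1 = Fintype.card F + 1 ∨ 2 * th (Sum.inr c) 1 = Fintype.card F - 1
  whi : ∀ c : Bool, ∑ u : F, th (Sum.inr (c, true)) (xu u) * ψ (-u) = Fintype.card F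
  cen : ∀ (c : Bool × Bool) s, th (Sum.inr c) (dd (-1) * s) =
    Q (hb ν c.1) (-1 : F) * th (Sum.inr c) s

end four

end Pool.Agent.Helper55.PL
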