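import Pool.Agent.Helper55.PL.Chars

/-!
# PL-03: conjugacy in `GL₂(F)`

Proofs.
`isConj_of`: a non scalar `g` is conjugate to the companion matrix of its characteristic polynomial:
there is a vector `v` such that `v, g v` is a basis (if every `v` were an eigenvector then `g` would
be scalar: look at `e₁, e₂, e₁ + e₂`); with `P = (v | g v)` one has
`g P = P !![0, -det g; 1, tr g]` by Cayley-Hamilton. (Concretely: if `g 1 0 ≠ 0` take `v = e₁`; else
if `g 0 1 ≠ 0` take `v = e₂`; else `g` is diagonal with `g 0 0 ≠ g 1 1`, take `v = e₁ + e₂`.)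
`isConj_sc`: scalars are central (`sc_comm`).
`cn_sp`: conjugate to `u = 0` (the orders of the centralizers of conjugate elements are equal); the
matrices commuting with `diag(x, y)`, `x ≠ y`, are the diagonal ones.
`cn_un`: the matrices commuting with `!![z, u; 0, z]`, `u ≠ 0`, are the `up a a v`.
-/

open Matrix
open scoped MatrixGroups

set_option linter.unusedSectionVars false

namespace Pool.Agent.Helper55.PL

open Pool.Agent.Helper42.INC Pool.Agent.Helper7.MK

section conj

variable {F : Type} [Field F]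

/-- a non scalar element is conjugate to the companion matrix -/
private theorem exists_comp {g : GL (Fin 2) F} (hg : ∀ z, g ≠ sc z) :
    ∃ P : GL (Fin 2) F, g.val * P.val = P.val * !![0, -g.val.det; 1, g.val.trace] := by
  obtain ⟨v, w, hvw⟩ : ∃ v w : F,
      g.val 1 0 * v * v + (g.val 1 1 - g.val 0 0) * v * w - g.val 0 1 * w * w ≠ 0 := by
    by_contra hcon
    push Not at hcon
    have h1 : g.val 1 0 = 0 := by simpa using hcon 1 0
    have h2 : g.val 0 1 = 0 := by simpa using hcon 0 1
    have h3 : g.val 1 1 = g.val 0 0 := by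
      have := hcon 1 1
      rw [h1, h2] at this
      have h4 : g.val 1 1 - g.val 0 0 = 0 := by linear_combination this
      exact sub_eq_zero.mp h4
    have h4 : g.val 0 0 ≠ 0 := by
      intro h0
      have h5 : g.val.det ≠ 0 := ((Matrix.isUnit_iff_isUnit_det g.val).1 g.isUnit).ne_zero
      apply h5
      rw [Matrix.det_fin_two, h1, h0]
      ring
    apply hg (Units.mk0 _ h4)
    apply Units.ext
    rw [sc, up_val]
    ext i j
    fin_cases i <;> fin_cases j <;> simp [h1, h2, h3]
  have hdet : (!![v, g.val 0 0 * v + g.val 0 1 * w; w, g.val 1 0 * v + g.val 1 1 * w] :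
      Matrix (Fin 2) (Fin 2) F).det ≠ 0 := by
    rw [Matrix.det_fin_two_of]
    intro h0
    apply hvw
    linear_combination h0
  refine ⟨Matrix.GeneralLinearGroup.mkOfDetNeZero _ hdet, ?_⟩
  rw [show (Matrix.GeneralLinearGroup.mkOfDetNeZero _ hdet).val =
    !![v, g.val 0 0 * v + g.val 0 1 * w; w, g.val 1 0 * v + g.val 1 1 * w] from rfl]
  rw [Matrix.det_fin_two, Matrix.trace_fin_two]
  ext i j
  fin_cases i <;> fin_cases j <;> simp [Matrix.mul_apply, Fin.sum_univ_two] <;> ring

private theorem comp_conj {g P : GL (Fin 2) F} {C : Matrix (Fin 2) (Fin 2) F}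
    (h : g.val * P.val = P.val * C) : (P⁻¹ * g * P).val = C := by
  rw [Units.val_mul, Units.val_mul, mul_assoc, h, ← mul_assoc, ← Units.val_mul, inv_mul_cancel,
    Units.val_one, one_mul]

private theorem isConj_inv_mul (g P : GL (Fin 2) F) : IsConj g (P⁻¹ * g * P) := by
  rw [isConj_iff]
  exact ⟨P⁻¹, by rw [inv_inv]⟩

theorem isConj_of {g g' : GL (Fin 2) F} (hg : ∀ z, g ≠ sc z) (hg' : ∀ z, g' ≠ sc z)
    (ht : g.val.trace = g'.val.trace) (hd : g.val.det = g'.val.det) : IsConj g g' := by
  obtain ⟨P, hP⟩ := exists_comp hg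
  obtain ⟨P', hP'⟩ := exists_comp hg'
  rw [← ht, ← hd] at hP'
  have h1 := comp_conj hP
  have h2 := comp_conj hP'
  have h3 : P⁻¹ * g * P = P'⁻¹ * g' * P' := Units.ext (h1.trans h2.symm)
  have h4 := isConj_inv_mul g P
  rw [h3] at h4
  exact h4.trans (isConj_inv_mul g' P').symm

theorem isConj_sc {g : GL (Fin 2) F} {z : Fˣ} (h : IsConj g (sc z)) : g = sc z := by
  obtain ⟨c, hc⟩ := isConj_iff.1 h
  have h1 : c * g = sc z * c := by rw [← hc, inv_mul_cancel_right]
  rw [sc_comm] at h1
  exact mul_left_cancel h1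

theorem isConj_trace {g g' : GL (Fin 2) F} (h : IsConj g g') : g.val.trace = g'.val.trace := by
  obtain ⟨c, hc⟩ := isConj_iff.1 h
  rw [← hc, Units.val_mul, Units.val_mul, Matrix.trace_mul_comm, ← mul_assoc, ← Units.val_mul,
    inv_mul_cancel, Units.val_one, one_mul]

theorem isConj_det {g g' : GL (Fin 2) F} (h : IsConj g g') : g.val.det = g'.val.det := by
  obtain ⟨c, hc⟩ := isConj_iff.1 h
  rw [← hc, Units.val_mul, Units.val_mul, Matrix.det_mul, mul_comm, ← Matrix.det_mul,
    ← mul_assoc, ← Units.val_mul, inv_mul_cancel, Units.val_one, one_mul]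

theorem up_ne_sc {x y : Fˣ} {u : F} (h : x ≠ y ∨ u ≠ 0) (z : Fˣ) : up x y u ≠ sc z := by
  intro h1
  obtain ⟨h2, h3, h4⟩ := up_inj h1
  rcases h with h | h
  · exact h (h2.trans h3.symm)
  · exact h h4

private theorem up_trace (x y : Fˣ) (u : F) : (up x y u).val.trace = x + y := by
  rw [up_val, Matrix.trace_fin_two]
  simp

private theorem up_det' (x y : Fˣ) (u : F) : (up x y u).val.det = x * y := by
  rw [up_val, Matrix.det_fin_two]
  simp

/-- upper triangular matrices with distinct diagonal entries -/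
theorem isConj_sp {x y x' y' : Fˣ} {u u' : F} (h : x ≠ y) :
    IsConj (up x' y' u') (up x y u) ↔ x' = x ∧ y' = y ∨ x' = y ∧ y' = x := by
  constructor
  · intro hc
    have h1 := isConj_trace hc
    have h2 := isConj_det hc
    rw [up_trace, up_trace] at h1
    rw [up_det', up_det'] at h2
    have h3 : ((x' : F) - x) * ((x' : F) - y) = 0 := by linear_combination (x' : F) * h1 - h2
    rcases mul_eq_zero.mp h3 with h4 | h4
    · left
      have h5 : (x' : F) = x := sub_eq_zero.mp h4
      refine ⟨Units.ext h5, Units.ext ?_⟩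
      rw [h5] at h1
      exact add_left_cancel h1
    · right
      have h5 : (x' : F) = y := sub_eq_zero.mp h4
      refine ⟨Units.ext h5, Units.ext ?_⟩
      rw [h5, add_comm (x : F)] at h1
      exact add_left_cancel h1
  · intro hc
    have h0 : x' ≠ y' := by
      rcases hc with ⟨h1, h2⟩ | ⟨h1, h2⟩
      · rw [h1, h2]; exact h
      · rw [h1, h2]; exact h.symm
    refine isConj_of (up_ne_sc (Or.inl h0)) (up_ne_sc (Or.inl h)) ?_ ?_
    · rw [up_trace, up_trace]
      rcases hc with ⟨h1, h2⟩ | ⟨h1, h2⟩
      · rw [h1, h2]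
      · rw [h1, h2, add_comm]
    · rw [up_det', up_det']
      rcases hc with ⟨h1, h2⟩ | ⟨h1, h2⟩
      · rw [h1, h2]
      · rw [h1, h2, mul_comm]

/-- upper triangular matrices with equal diagonal entries, not scalar -/
theorem isConj_un {z x' y' : Fˣ} {u u' : F} (h : u ≠ 0) :
    IsConj (up x' y' u') (up z z u) ↔ x' = z ∧ y' = z ∧ u' ≠ 0 := by
  constructor
  · intro hc
    have h1 := isConj_trace hc
    have h2 := isConj_det hc
    rw [up_trace, up_trace] at h1
    rw [up_det', up_det'] at h2
    have h3 : ((x' : F) - z) * ((x' : F) - z) = 0 := by linear_combination (x' : F) * h1 - h2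
    have h4 : (x' : F) = z := sub_eq_zero.mp (mul_self_eq_zero.mp h3)
    have h5 : (y' : F) = z := by
      rw [h4] at h1
      exact add_left_cancel h1
    have h6 : x' = z := Units.ext h4
    have h7 : y' = z := Units.ext h5
    refine ⟨h6, h7, ?_⟩
    intro h0
    rw [h6, h7, h0] at hc
    have h8 : up z z u = sc z := isConj_sc (IsConj.symm hc)
    exact up_ne_sc (Or.inr h) z h8
  · rintro ⟨h1, h2, h3⟩
    rw [h1, h2]
    refine isConj_of (up_ne_sc (Or.inr h3)) (up_ne_sc (Or.inr h)) ?_ ?_
    · rw [up_trace, up_trace]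
    · rw [up_det', up_det']

end conj

section cards

variable {F : Type} [Field F] [Fintype F] [DecidableEq F]

private theorem card_conj {g g' : GL (Fin 2) F} (h : IsConj g g') :
    Nat.card {a : GL (Fin 2) F // a * g = g * a} = Nat.card {a : GL (Fin 2) F // a * g' = g' * a} := by
  obtain ⟨c, hc⟩ := isConj_iff.1 h
  refine Nat.card_congr ?_
  refine (MulAut.conj c).toEquiv.subtypeEquiv ?_
  intro a
  have h1 : (MulAut.conj c).toEquiv a = c * a * c⁻¹ := rfl
  rw [h1, ← hc]
  constructor
  · intro h2
    calc c * a * c⁻¹ * (c * g * c⁻¹) = c * (a * g) * c⁻¹ := by group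
      _ = c * (g * a) * c⁻¹ := by rw [h2]
      _ = c * g * c⁻¹ * (c * a * c⁻¹) := by group
  · intro h2
    have h3 : c * (a * g) * c⁻¹ = c * (g * a) * c⁻¹ := by
      calc c * (a * g) * c⁻¹ = c * a * c⁻¹ * (c * g * c⁻¹) := by group
        _ = c * g * c⁻¹ * (c * a * c⁻¹) := h2
        _ = c * (g * a) * c⁻¹ := by group
    exact mul_left_cancel (mul_right_cancel h3)

private theorem card_units' : (Fintype.card Fˣ : ℂ) = Fintype.card F - 1 := by
  rw [Fintype.card_units, Nat.cast_sub Fintype.card_pos, Nat.cast_one]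

theorem cn_sp {x y : Fˣ} (u : F) (h : x ≠ y) :
    (Nat.card {g : GL (Fin 2) F // g * up x y u = up x y u * g} : ℂ) =
      (Fintype.card F - 1) ^ 2 := by
  have h0 : IsConj (up x y u) (up x y 0) := (isConj_sp h).2 (Or.inl ⟨rfl, rfl⟩)
  rw [card_conj h0]
  have hxy : (x : F) ≠ y := fun h1 => h (Units.ext h1)
  let f : Fˣ × Fˣ → {g : GL (Fin 2) F // g * up x y 0 = up x y 0 * g} := fun a =>
    ⟨up a.1 a.2 0, by rw [up_mul, up_mul, mul_comm a.1, mul_comm a.2]; congr 1; ring⟩
  have hf : Function.Bijective f := by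
    constructor
    · intro a b hab
      have h1 := up_inj (congrArg Subtype.val hab)
      exact Prod.ext h1.1 h1.2.1
    · rintro ⟨g, hg⟩
      have h1 := congrArg Units.val hg
      rw [Units.val_mul, Units.val_mul, up_val] at h1
      have h2 := congrFun (congrFun h1 1) 0
      have h3 := congrFun (congrFun h1 0) 1
      simp only [Matrix.mul_apply, Fin.sum_univ_two, Matrix.of_apply, Matrix.cons_val', Matrix.cons_val_zero,
        Matrix.cons_val_one, Matrix.cons_val_fin_one, mul_zero, zero_mul, add_zero, zero_add] at h2 h3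
      have h4 : g.val 1 0 = 0 := by
        have h5 : g.val 1 0 * ((x : F) - y) = 0 := by linear_combination h2
        exact (mul_eq_zero.mp h5).resolve_right (sub_ne_zero.mpr hxy)
      have h5 : g.val 0 1 = 0 := by
        have h6 : g.val 0 1 * ((x : F) - y) = 0 := by linear_combination -h3
        exact (mul_eq_zero.mp h6).resolve_right (sub_ne_zero.mpr hxy)
      obtain ⟨a, b, v, hv⟩ := exists_up (mem_BG.2 h4)
      rw [hv, up_val] at h5
      have h6 : v = 0 := by simpa using h5
      refine ⟨(a, b), Subtype.ext ?_⟩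
      change up a b 0 = g
      rw [hv, h6]
  rw [← Nat.card_congr (Equiv.ofBijective f hf), Nat.card_eq_fintype_card, Fintype.card_prod,
    Nat.cast_mul, card_units']
  ring

theorem cn_un {z : Fˣ} {u : F} (h : u ≠ 0) :
    (Nat.card {g : GL (Fin 2) F // g * up z z u = up z z u * g} : ℂ) =
      Fintype.card F * (Fintype.card F - 1) := by
  let f : F × Fˣ → {g : GL (Fin 2) F // g * up z z u = up z z u * g} := fun a =>
    ⟨up a.2 a.2 a.1, by rw [up_mul, up_mul, mul_comm a.2]; congr 1; ring⟩
  have hf : Function.Bijective f := by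
    constructor
    · intro a b hab
      have h1 := up_inj (congrArg Subtype.val hab)
      exact Prod.ext h1.2.2 h1.1
    · rintro ⟨g, hg⟩
      have h1 := congrArg Units.val hg
      rw [Units.val_mul, Units.val_mul, up_val] at h1
      have h2 := congrFun (congrFun h1 0) 0
      have h3 := congrFun (congrFun h1 0) 1
      simp only [Matrix.mul_apply, Fin.sum_univ_two, Matrix.of_apply, Matrix.cons_val', Matrix.cons_val_zero,
        Matrix.cons_val_one, Matrix.cons_val_fin_one, mul_zero, zero_mul, add_zero, zero_add] at h2 h3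
      have h4 : g.val 1 0 = 0 := by
        have h5 : u * g.val 1 0 = 0 := by linear_combination -h2
        exact (mul_eq_zero.mp h5).resolve_left h
      have h5 : g.val 0 0 = g.val 1 1 := by
        have h6 : u * (g.val 0 0 - g.val 1 1) = 0 := by linear_combination h3
        exact sub_eq_zero.mp ((mul_eq_zero.mp h6).resolve_left h)
      obtain ⟨a, b, v, hv⟩ := exists_up (mem_BG.2 h4)
      rw [hv, up_val] at h5
      have h6 : a = b := Units.ext (by simpa using h5)
      refine ⟨(v, a), Subtype.ext ?_⟩
      change up a a v = g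
      rw [hv, h6]
  rw [← Nat.card_congr (Equiv.ofBijective f hf), Nat.card_eq_fintype_card, Fintype.card_prod,
    Nat.cast_mul, card_units']

end cards

end Pool.Agent.Helper55.PL
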