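import Pool.Agent.Helper55.PL.ZuVal

/-!
# PL-09: values of the cuspidal characters

`csp hE ψ θ = indHom zu (whi ψ (resc F θ)) - indHom (emb hE) θ`.

Proofs. `csp_class`: `INC.indHom_isClass`. `csp_int`: `ind_nat` for both (`whi_char`; `θ` is a linear
character of `Eˣ`). The values of the first term are in ZuVal (`zu_sc`, `zu_un`, `zu_sp`, `zu_el`;
`resc_apply`). The second: at `sc z = emb hE (iu z)` (`emb_iu`): `ind_central` with `emb_inj`, it is
`|GL| / (q² - 1) θ(z) = (q² - q) θ(z)` (`card_GL`, `card_E`); at `up z z u`, `u ≠ 0`: `ind_none`, since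
`emb ζ` is not conjugate to it: if `ζ^q ≠ ζ` by `emb_not_up`, and otherwise `emb ζ` is a scalar
(`fix_iff`, `emb_iu`) and `up z z u` is not (`up_ne_sc`, `isConj_sc`); the same for `up x y u`, `x ≠ y`;
at `emb ζ`, `ζ^q ≠ ζ`: `ind_val`, `emb_conj_iff`, `cn_el`: it is `θ ζ + θ (ζ^q)`.
-/

open Matrix
open scoped MatrixGroups

set_option linter.unusedSectionVars false

namespace Pool.Agent.Helper55.PL

open Pool.Agent.Helper42.INC Pool.Agent.Helper7.MK

variable {F E : Type} [Field F] [Fintype F] [DecidableEq F] [Field E] [Fintype E] [DecidableEq E]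
  [Algebra F E] (hE : Module.finrank F E = 2) {ψ : AddChar F ℂ}

private theorem isChar_hom {G : Type} [Group G] (f : G →* ℂ) : IsChar (fun g => f g) := by
  refine ⟨ℂ, inferInstance, inferInstance, inferInstance,
    ((Algebra.lmul ℂ ℂ).toRingHom.toMonoidHom.comp f : G →* Module.End ℂ ℂ), ?_⟩
  funext g
  exact (Algebra.trace_self_apply (R := ℂ) (f g)).symm

private theorem isChar_theta (θ : MulChar E ℂ) : IsChar (fun ζ : Eˣ => θ ζ) := by
  have h := isChar_hom ((Units.coeHom ℂ).comp (MulChar.toUnitHom θ))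
  have h1 : (fun ζ : Eˣ => ((Units.coeHom ℂ).comp (MulChar.toUnitHom θ)) ζ) =
      fun ζ : Eˣ => θ ζ := by
    funext ζ
    rw [MonoidHom.comp_apply, Units.coeHom_apply, MulChar.coe_toUnitHom]
  rw [h1] at h
  exact h

private theorem card_Eu (hE : Module.finrank F E = 2) :
    (Nat.card Eˣ : ℂ) = (Fintype.card F : ℂ) ^ 2 - 1 := by
  rw [Nat.card_eq_fintype_card, card_units' (F := E), card_E hE]
  push_cast
  ring

private theorem q_pos : (Fintype.card F : ℂ) - 1 ≠ 0 ∧ (Fintype.card F : ℂ) + 1 ≠ 0 := by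
  have h1 : 1 < Fintype.card F := card_pos1
  constructor
  · intro h
    have h2 : (Fintype.card F : ℂ) = (1 : ℕ) := by
      rw [Nat.cast_one]
      linear_combination h
    have h3 : Fintype.card F = 1 := by exact_mod_cast h2
    omega
  · exact_mod_cast Nat.succ_ne_zero (Fintype.card F)

private theorem not_conj (hE : Module.finrank F E = 2) {x y : Fˣ} {u : F} (h : x ≠ y ∨ u ≠ 0)
    (ζ : Eˣ) : ¬ IsConj (emb hE ζ) (up x y u) := by
  by_cases hζ : ζ ^ Fintype.card F = ζ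
  · obtain ⟨z, rfl⟩ := (fix_iff hE ζ).1 hζ
    rw [emb_iu hE]
    intro hc
    exact up_ne_sc h z (isConj_sc hc.symm)
  · exact emb_not_up hE hζ x y u

theorem csp_class (ψ : AddChar F ℂ) (θ : MulChar E ℂ) : IsClass (csp hE ψ θ) := by
  intro g x
  unfold csp
  rw [Pi.sub_apply, Pi.sub_apply, indHom_isClass, indHom_isClass]

theorem csp_int (ψ : AddChar F ℂ) (θ : MulChar E ℂ) {χ : GL (Fin 2) F → ℂ}
    (hχ : χ ∈ Irr (GL (Fin 2) F)) : ∃ n : ℤ, B (csp hE ψ θ) χ = n := by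
  obtain ⟨a, ha⟩ := ind_nat (zu (F := F)) (whi_char ψ (resc F θ)) hχ
  obtain ⟨b, hb⟩ := ind_nat (emb hE) (isChar_theta (E := E) θ) hχ
  refine ⟨(a : ℤ) - b, ?_⟩
  unfold csp
  rw [B_sub_left, ha, hb]
  push_cast
  ring

theorem csp_sc (ψ : AddChar F ℂ) (θ : MulChar E ℂ) (z : Fˣ) :
    csp hE ψ θ (sc z) = (Fintype.card F - 1) * θ (iu F E z) := by
  have h1 := ind_central (emb hE) (emb_inj hE) (fun ζ : Eˣ => θ ζ) (γ := iu F E z) (by
    intro y
    rw [emb_iu hE, sc_comm])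
  rw [emb_iu hE, card_GL, card_Eu hE] at h1
  have h2 := q_pos (F := F)
  unfold csp
  rw [Pi.sub_apply, zu_sc, resc_apply, h1]
  have h3 : (Fintype.card F : ℂ) ^ 2 - 1 = ((Fintype.card F : ℂ) - 1) * (Fintype.card F + 1) := by
    ring
  rw [h3]
  have h4 := h2.1
  have h5 := h2.2
  field_simp
  ring

theorem csp_un (hψ : ψ ≠ 1) (θ : MulChar E ℂ) (z : Fˣ) {u : F} (hu : u ≠ 0) :
    csp hE ψ θ (up z z u) = - θ (iu F E z) := by
  unfold csp
  rw [Pi.sub_apply, zu_un hψ _ z hu, resc_apply,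
    ind_none (emb hE) _ (not_conj hE (Or.inr hu)), sub_zero]

theorem csp_sp (ψ : AddChar F ℂ) (θ : MulChar E ℂ) {x y : Fˣ} (h : x ≠ y) (u : F) :
    csp hE ψ θ (up x y u) = 0 := by
  unfold csp
  rw [Pi.sub_apply, zu_sp _ h u, ind_none (emb hE) _ (not_conj hE (Or.inl h)), sub_zero]

theorem csp_el (ψ : AddChar F ℂ) (θ : MulChar E ℂ) {ζ : Eˣ} (h : ζ ^ Fintype.card F ≠ ζ) :
    csp hE ψ θ (emb hE ζ) = - (θ ζ + θ (ζ ^ Fintype.card F : Eˣ)) := by
  classical
  have h0 : (Fintype.card F : ℂ) ^ 2 - 1 ≠ 0 := by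
    have h3 : (Fintype.card F : ℂ) ^ 2 - 1 =
        ((Fintype.card F : ℂ) - 1) * (Fintype.card F + 1) := by
      ring
    rw [h3]
    exact mul_ne_zero q_pos.1 q_pos.2
  have h1 : ∑ γ : Eˣ, (if IsConj (emb hE γ) (emb hE ζ) then θ γ else 0) =
      θ ζ + θ (ζ ^ Fintype.card F : Eˣ) := by
    have h2 : ∀ γ : Eˣ, (if IsConj (emb hE γ) (emb hE ζ) then θ (γ : E) else 0) =
        (if γ = ζ then θ (γ : E) else 0) + if γ = ζ ^ Fintype.card F then θ (γ : E) else 0 := by
      intro γ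
      by_cases h3 : γ = ζ
      · rw [if_pos ((emb_conj_iff hE h γ).2 (Or.inl h3)), if_pos h3, if_neg, add_zero]
        rw [h3]
        exact fun h4 => h h4.symm
      · by_cases h4 : γ = ζ ^ Fintype.card F
        · rw [if_pos ((emb_conj_iff hE h γ).2 (Or.inr h4)), if_neg h3, if_pos h4, zero_add]
        · rw [if_neg, if_neg h3, if_neg h4, add_zero]
          intro h5
          rcases (emb_conj_iff hE h γ).1 h5 with h6 | h6
          · exact h3 h6
          · exact h4 h6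
    rw [Finset.sum_congr rfl fun γ _ => h2 γ, Finset.sum_add_distrib, Finset.sum_ite_eq',
      Finset.sum_ite_eq', if_pos (Finset.mem_univ _), if_pos (Finset.mem_univ _)]
  have h5 : indHom (emb hE) (fun ζ : Eˣ => θ ζ) (emb hE ζ) =
      θ ζ + θ (ζ ^ Fintype.card F : Eˣ) := by
    rw [ind_val (emb hE) (fun ζ : Eˣ => θ ζ) (emb hE ζ), cn_el hE h, card_Eu hE,
      mul_inv_cancel₀ h0, one_mul, ← h1]
    refine Finset.sum_congr rfl fun γ _ => ?_
    by_cases hc : IsConj (emb hE γ) (emb hE ζ)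
    · rw [if_pos hc, if_pos hc]
    · rw [if_neg hc, if_neg hc]
  have h6 := zu_el (ψ := ψ) hE (resc F θ) h
  unfold csp
  rw [Pi.sub_apply, h6, h5, zero_sub]

end Pool.Agent.Helper55.PL
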