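import Pool.Agent.Helper7.MK.Defs

/-!
# Project PL: definitions

`F` is a finite field of odd characteristic `p`, `GL (Fin 2) F` and `SL(2, F)` its linear groups. The
paper proof is in the team store: memo_MP_5ecade_al_PL_helper55.md.
-/

open Matrix
open scoped MatrixGroups

namespace Pool.Agent.Helper55.PL

open Pool.Agent.Helper42.INC Pool.Agent.Helper7.MK

section elements

variable {F : Type} [Field F]

/-- the upper triangular matrix with diagonal `x, y` and upper right entry `u` -/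
def up (x y : Fˣ) (u : F) : GL (Fin 2) F where
  val := !![(x : F), u; 0, (y : F)]
  inv := !![((x⁻¹ : Fˣ) : F), -(((x⁻¹ : Fˣ) : F) * u * ((y⁻¹ : Fˣ) : F)); 0, ((y⁻¹ : Fˣ) : F)]
  val_inv := by
    ext i j
    fin_cases i <;> fin_cases j <;> simp [Matrix.mul_apply, Fin.sum_univ_two, mul_assoc]
  inv_val := by
    ext i j
    fin_cases i <;> fin_cases j <;> simp [Matrix.mul_apply, Fin.sum_univ_two, mul_assoc]

theorem up_val (x y : Fˣ) (u : F) : (up x y u).val = !![(x : F), u; 0, (y : F)] := rfl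

/-- the scalar matrices -/
def sc (z : Fˣ) : GL (Fin 2) F := up z z 0

/-- upper unipotent matrices -/
def xu (u : F) : SL(2, F) := ⟨!![1, u; 0, 1], by simp [Matrix.det_fin_two]⟩

/-- lower unipotent matrices -/
def xl (u : F) : SL(2, F) := ⟨!![1, 0; u, 1], by simp [Matrix.det_fin_two]⟩

/-- diagonal matrices of determinant one -/
def dd (t : Fˣ) : SL(2, F) := ⟨!![(t : F), 0; 0, ((t⁻¹ : Fˣ) : F)], by simp [Matrix.det_fin_two]⟩

/-- the Weyl element -/
def ww : SL(2, F) := ⟨!![0, 1; -1, 0], by simp [Matrix.det_fin_two]⟩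

theorem xu_val (u : F) : (xu u : Matrix (Fin 2) (Fin 2) F) = !![1, u; 0, 1] := rfl
theorem xl_val (u : F) : (xl u : Matrix (Fin 2) (Fin 2) F) = !![1, 0; u, 1] := rfl
theorem dd_val (t : Fˣ) :
    (dd t : Matrix (Fin 2) (Fin 2) F) = !![(t : F), 0; 0, ((t⁻¹ : Fˣ) : F)] := rfl
theorem ww_val : ((ww : SL(2, F)) : Matrix (Fin 2) (Fin 2) F) = !![0, 1; -1, 0] := rfl

theorem xu_add (u v : F) : xu (u + v) = xu u * xu v := by
  ext i j
  rw [Matrix.SpecialLinearGroup.coe_mul, xu_val, xu_val, xu_val]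
  fin_cases i <;> fin_cases j <;> simp [Matrix.mul_apply, Fin.sum_univ_two, add_comm]

theorem xl_add (u v : F) : xl (u + v) = xl u * xl v := by
  ext i j
  rw [Matrix.SpecialLinearGroup.coe_mul, xl_val, xl_val, xl_val]
  fin_cases i <;> fin_cases j <;> simp [Matrix.mul_apply, Fin.sum_univ_two]

theorem dd_mul (s t : Fˣ) : dd (s * t) = dd s * dd t := by
  ext i j
  rw [Matrix.SpecialLinearGroup.coe_mul, dd_val, dd_val, dd_val]
  fin_cases i <;> fin_cases j <;> simp [Matrix.mul_apply, Fin.sum_univ_two, mul_comm]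

theorem up_mul (x y x' y' : Fˣ) (u u' : F) :
    up x y u * up x' y' u' = up (x * x') (y * y') (x * u' + u * y') := by
  apply Units.ext
  rw [Units.val_mul, up_val, up_val, up_val]
  ext i j
  fin_cases i <;> fin_cases j <;> simp [Matrix.mul_apply, Fin.sum_univ_two]

theorem sc_comm (z : Fˣ) (g : GL (Fin 2) F) : sc z * g = g * sc z := by
  apply Units.ext
  rw [sc, Units.val_mul, Units.val_mul, up_val]
  ext i j
  fin_cases i <;> fin_cases j <;> simp [Matrix.mul_apply, Fin.sum_univ_two, mul_comm]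

theorem up_inj {x y x' y' : Fˣ} {u u' : F} (h : up x y u = up x' y' u') :
    x = x' ∧ y = y' ∧ u = u' := by
  have h1 := congrArg Units.val h
  rw [up_val, up_val] at h1
  refine ⟨Units.ext ?_, Units.ext ?_, ?_⟩
  · simpa using congrFun (congrFun h1 0) 0
  · simpa using congrFun (congrFun h1 1) 1
  · simpa using congrFun (congrFun h1 0) 1

theorem up_det (x y : Fˣ) (u : F) : Matrix.GeneralLinearGroup.det (up x y u) = x * y := by
  apply Units.ext
  rw [Matrix.GeneralLinearGroup.val_det_apply, up_val, Matrix.det_fin_two]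
  simp

theorem toGL_xu (u : F) : Matrix.SpecialLinearGroup.toGL (xu u) = up 1 1 u := by
  apply Units.ext
  rw [up_val, Matrix.SpecialLinearGroup.coe_GL_coe_matrix, xu_val]
  simp

theorem toGL_dd (t : Fˣ) : Matrix.SpecialLinearGroup.toGL (dd t) = up t t⁻¹ 0 := by
  apply Units.ext
  rw [up_val, Matrix.SpecialLinearGroup.coe_GL_coe_matrix, dd_val]

end elements

section subgroups

variable (F : Type) [Field F]

/-- the upper triangular subgroup of `GL₂(F)` -/
def BG : Subgroup (GL (Fin 2) F) where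
  carrier := {g | g.val 1 0 = 0}
  one_mem' := by simp
  mul_mem' := by
    intro a b ha hb
    rw [Set.mem_ofPred_eq] at ha hb ⊢
    rw [Units.val_mul, Matrix.mul_apply, Fin.sum_univ_two, ha, hb]
    ring
  inv_mem' := by
    intro a ha
    rw [Set.mem_ofPred_eq] at ha ⊢
    rw [coe_units_inv, Matrix.inv_def, Matrix.adjugate_fin_two]
    simp [ha]

/-- the upper triangular subgroup of `SL₂(F)` -/
def BS : Subgroup SL(2, F) where
  carrier := {g | g 1 0 = 0}
  one_mem' := by simp
  mul_mem' := by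
    intro a b ha hb
    rw [Set.mem_ofPred_eq] at ha hb ⊢
    rw [Matrix.SpecialLinearGroup.coe_mul, Matrix.mul_apply, Fin.sum_univ_two, ha, hb]
    ring
  inv_mem' := by
    intro a ha
    rw [Set.mem_ofPred_eq] at ha ⊢
    rw [Matrix.SpecialLinearGroup.coe_inv, Matrix.adjugate_fin_two]
    simp [ha]

/-- the upper unipotent subgroup of `SL₂(F)` -/
def US : Subgroup SL(2, F) where
  carrier := Set.range xu
  one_mem' := ⟨0, by
    ext i j
    rw [xu_val]
    fin_cases i <;> fin_cases j <;> simp⟩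
  mul_mem' := by
    rintro _ _ ⟨u, rfl⟩ ⟨v, rfl⟩
    exact ⟨u + v, xu_add u v⟩
  inv_mem' := by
    rintro _ ⟨u, rfl⟩
    refine ⟨-u, ?_⟩
    apply eq_inv_of_mul_eq_one_left
    rw [← xu_add, neg_add_cancel]
    ext i j
    rw [xu_val]
    fin_cases i <;> fin_cases j <;> simp

end subgroups

section facts

variable {F : Type} [Field F]

theorem mem_BG {g : GL (Fin 2) F} : g ∈ BG F ↔ g.val 1 0 = 0 := Iff.rfl

theorem mem_BS {g : SL(2, F)} : g ∈ BS F ↔ g 1 0 = 0 := Iff.rfl

theorem mem_US {g : SL(2, F)} : g ∈ US F ↔ ∃ u, xu u = g := Iff.rfl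

theorem up_mem (x y : Fˣ) (u : F) : up x y u ∈ BG F := by
  rw [mem_BG, up_val]
  simp

theorem exists_up {g : GL (Fin 2) F} (h : g ∈ BG F) : ∃ x y u, g = up x y u := by
  rw [mem_BG] at h
  have h1 : g.val 0 0 * g.val 1 1 ≠ 0 := by
    have h2 : g.val.det ≠ 0 := by
      have := (Matrix.isUnit_iff_isUnit_det g.val).1 g.isUnit
      exact this.ne_zero
    rw [Matrix.det_fin_two, h] at h2
    simpa using h2
  refine ⟨Units.mk0 _ (left_ne_zero_of_mul h1), Units.mk0 _ (right_ne_zero_of_mul h1),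
    g.val 0 1, ?_⟩
  apply Units.ext
  rw [up_val]
  ext i j
  fin_cases i <;> fin_cases j <;> simp [h]

theorem toGL_mem_BG {s : SL(2, F)} : Matrix.SpecialLinearGroup.toGL s ∈ BG F ↔ s ∈ BS F := Iff.rfl

theorem exists_dd {s : SL(2, F)} (h : s ∈ BS F) : ∃ t u, s = dd t * xu u := by
  rw [mem_BS] at h
  have h1 : s 0 0 * s 1 1 = 1 := by
    have h2 := s.det_coe
    rw [Matrix.det_fin_two, h] at h2
    simpa using h2
  have h0 : s 0 0 ≠ 0 := left_ne_zero_of_mul (by rw [h1]; exact one_ne_zero)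
  have h3 : s 1 1 = (s 0 0)⁻¹ := eq_inv_of_mul_eq_one_left (by rw [mul_comm]; exact h1)
  refine ⟨Units.mk0 _ h0, (s 0 0)⁻¹ * s 0 1, ?_⟩
  ext i j
  rw [Matrix.SpecialLinearGroup.coe_mul, dd_val, xu_val]
  fin_cases i <;> fin_cases j
  · simp
  · simp [Matrix.mul_apply, Fin.sum_univ_two, h0]
  · simp [Matrix.mul_apply, Fin.sum_univ_two, h]
  · simp [h3]

theorem dd_mem (t : Fˣ) : dd t ∈ BS F := by
  rw [mem_BS, dd_val]
  simp

theorem xu_mem (u : F) : xu u ∈ BS F := by
  rw [mem_BS, xu_val]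
  simp

end facts

section autos

variable {F : Type} [Field F]

/-- the field automorphism `f` on the units -/
def Fu (f : F ≃+* F) : Fˣ ≃* Fˣ := Units.mapEquiv f.toMulEquiv

theorem Fu_val (f : F ≃+* F) (x : Fˣ) : ((Fu f x : Fˣ) : F) = f x := rfl

/-- the field automorphism `f` on `GL₂(F)` -/
def fG (f : F ≃+* F) : MulAut (GL (Fin 2) F) := Units.mapEquiv (RingEquiv.mapMatrix f).toMulEquiv

theorem fG_val (f : F ≃+* F) (g : GL (Fin 2) F) (i j : Fin 2) :
    (fG f g).val i j = f (g.val i j) := rfl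

/-- the field automorphism `f` on `SL₂(F)` -/
def fS (f : F ≃+* F) : MulAut SL(2, F) where
  toFun s := Matrix.SpecialLinearGroup.map f.toRingHom s
  invFun s := Matrix.SpecialLinearGroup.map f.symm.toRingHom s
  left_inv s := by
    ext i j
    simp [Matrix.SpecialLinearGroup.map_apply_coe]
  right_inv s := by
    ext i j
    simp [Matrix.SpecialLinearGroup.map_apply_coe]
  map_mul' s t := by rw [map_mul]

theorem fS_val (f : F ≃+* F) (s : SL(2, F)) (i j : Fin 2) :
    fS f s i j = f (s i j) := rfl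

theorem toGL_fS (f : F ≃+* F) (s : SL(2, F)) :
    Matrix.SpecialLinearGroup.toGL (fS f s) = fG f (Matrix.SpecialLinearGroup.toGL s) := by
  apply Units.ext
  rfl

/-- conjugation with an element of `GL₂(F)` on `SL₂(F)` -/
def cj (g : GL (Fin 2) F) : MulAut SL(2, F) where
  toFun s := ⟨g.val * s.val * (g⁻¹).val, by
    rw [Matrix.det_mul, Matrix.det_mul, s.2, mul_one, ← Matrix.det_mul, ← Units.val_mul,
      mul_inv_cancel, Units.val_one, Matrix.det_one]⟩
  invFun s := ⟨(g⁻¹).val * s.val * g.val, by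
    rw [Matrix.det_mul, Matrix.det_mul, s.2, mul_one, ← Matrix.det_mul, ← Units.val_mul,
      inv_mul_cancel, Units.val_one, Matrix.det_one]⟩
  left_inv s := by
    apply Subtype.ext
    change (g⁻¹).val * (g.val * s.val * (g⁻¹).val) * g.val = s.val
    calc (g⁻¹).val * (g.val * s.val * (g⁻¹).val) * g.val
        = ((g⁻¹).val * g.val) * s.val * ((g⁻¹).val * g.val) := by simp only [mul_assoc]
      _ = s.val := by
        rw [← Units.val_mul, inv_mul_cancel, Units.val_one, one_mul, mul_one]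
  right_inv s := by
    apply Subtype.ext
    change g.val * ((g⁻¹).val * s.val * g.val) * (g⁻¹).val = s.val
    calc g.val * ((g⁻¹).val * s.val * g.val) * (g⁻¹).val
        = (g.val * (g⁻¹).val) * s.val * (g.val * (g⁻¹).val) := by simp only [mul_assoc]
      _ = s.val := by
        rw [← Units.val_mul, mul_inv_cancel, Units.val_one, one_mul, mul_one]
  map_mul' s t := by
    apply Subtype.ext
    change g.val * (s.val * t.val) * (g⁻¹).val
      = (g.val * s.val * (g⁻¹).val) * (g.val * t.val * (g⁻¹).val)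
    calc g.val * (s.val * t.val) * (g⁻¹).val
        = g.val * s.val * (1 : Matrix (Fin 2) (Fin 2) F) * (t.val * (g⁻¹).val) := by
          simp only [mul_assoc, one_mul]
      _ = g.val * s.val * ((g⁻¹).val * g.val) * (t.val * (g⁻¹).val) := by
          rw [← Units.val_mul, inv_mul_cancel, Units.val_one]
      _ = _ := by simp only [mul_assoc]

theorem toGL_cj (g : GL (Fin 2) F) (s : SL(2, F)) :
    Matrix.SpecialLinearGroup.toGL (cj g s) = g * Matrix.SpecialLinearGroup.toGL s * g⁻¹ := by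
  apply Units.ext
  rfl

/-- the automorphism of `SL₂(F)` given by `g` and the field automorphism `f` -/
def act (g : GL (Fin 2) F) (f : F ≃+* F) : MulAut SL(2, F) := cj g * fS f

theorem act_apply (g : GL (Fin 2) F) (f : F ≃+* F) (s : SL(2, F)) :
    act g f s = cj g (fS f s) := rfl

theorem toGL_act (g : GL (Fin 2) F) (f : F ≃+* F) (s : SL(2, F)) :
    Matrix.SpecialLinearGroup.toGL (act g f s) = g * fG f (Matrix.SpecialLinearGroup.toGL s) * g⁻¹ := by
  rw [act_apply, toGL_cj, toGL_fS]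

theorem fG_mul (f f' : F ≃+* F) (g : GL (Fin 2) F) : fG (f * f') g = fG f (fG f' g) := rfl

theorem fG_one (g : GL (Fin 2) F) : fG (1 : F ≃+* F) g = g := by
  apply Units.ext
  rfl

theorem act_mul (g g' : GL (Fin 2) F) (f f' : F ≃+* F) (s : SL(2, F)) :
    act (g * fG f g') (f * f') s = act g f (act g' f' s) := by
  apply Matrix.SpecialLinearGroup.toGL_injective
  rw [toGL_act, toGL_act, toGL_act, fG_mul, map_mul, map_mul, map_inv]
  group

theorem act_one (s : SL(2, F)) : act (1 : GL (Fin 2) F) 1 s = s := by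
  apply Matrix.SpecialLinearGroup.toGL_injective
  rw [toGL_act, fG_one]
  group

theorem act_sc (z : Fˣ) (s : SL(2, F)) : act (sc z) 1 s = s := by
  apply Matrix.SpecialLinearGroup.toGL_injective
  rw [toGL_act, fG_one, sc_comm]
  group

theorem fG_up (f : F ≃+* F) (x y : Fˣ) (u : F) : fG f (up x y u) = up (Fu f x) (Fu f y) (f u) := by
  apply Units.ext
  ext i j
  rw [fG_val, up_val, up_val]
  fin_cases i <;> fin_cases j <;> simp [Fu_val]

theorem fG_mem {f : F ≃+* F} {g : GL (Fin 2) F} : fG f g ∈ BG F ↔ g ∈ BG F := by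
  rw [mem_BG, mem_BG, fG_val]
  simp

theorem fS_mem {f : F ≃+* F} {s : SL(2, F)} : fS f s ∈ BS F ↔ s ∈ BS F := by
  rw [mem_BS, mem_BS, fS_val]
  simp

theorem act_mem {g : GL (Fin 2) F} (hg : g ∈ BG F) (f : F ≃+* F) {s : SL(2, F)} :
    act g f s ∈ BS F ↔ s ∈ BS F := by
  rw [← toGL_mem_BG, toGL_act, Subgroup.mul_mem_cancel_right _ (inv_mem hg),
    Subgroup.mul_mem_cancel_left _ hg, ← toGL_fS, toGL_mem_BG, fS_mem]

end autos

/-- the square class of the determinant: `true` iff `det g` is a square -/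
noncomputable def sqd {F : Type} [Field F] (g : GL (Fin 2) F) : Bool := by
  classical exact decide (∃ a : Fˣ, a * a = Matrix.GeneralLinearGroup.det g)

/-- Matched characters of `SL₂(F)` and of its upper triangular subgroup, with respect to the group
of the pairs `(g, f)`, `g` upper triangular, `f` a field automorphism. -/
def MatchedS {F : Type} [Field F] (θ : SL(2, F) → ℂ) (φ : BS F → ℂ) : Prop :=
  ∃ (d : ℕ) (D : SL(2, F) × BS F →* Matrix (Fin d) (Fin d) ℂ)
    (R : GL (Fin 2) F → (F ≃+* F) → Matrix (Fin d) (Fin d) ℂ),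
    (∀ k t, (D (k, t)).trace = θ k * φ t⁻¹) ∧
    (∀ g f g' f', g ∈ BG F → g' ∈ BG F → (∀ s, θ (act g f s) = θ s) →
      (∀ s, θ (act g' f' s) = θ s) → R (g * fG f g') (f * f') = R g f * R g' f') ∧
    (∀ g f k (t t' : BS F), g ∈ BG F → (∀ s, θ (act g f s) = θ s) → (t' : SL(2, F)) = act g f t →
      R g f * D (k, t) = D (act g f k, t') * R g f) ∧
    (∀ t : BS F, R (Matrix.SpecialLinearGroup.toGL (t : SL(2, F))) 1 = D (t, t)) ∧
    ∀ z : Fˣ, R (sc z) 1 = 1

/-- The result of the character part: a bijection between the irreducible characters of degree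
prime to `p` of `SL₂(F)` and of its upper triangular subgroup, equivariant under the pairs `(g, f)`,
preserving the degrees up to sign modulo `p`, such that corresponding characters are matched. -/
def SLGood (p : ℕ) (F : Type) [Field F] : Prop :=
  ∃ e : IrrP p SL(2, F) ≃ IrrP p (BS F),
    (∀ g f, g ∈ BG F → ∀ θ θ' : IrrP p SL(2, F), (∀ s, θ'.1 s = θ.1 (act g f s)) →
      ∀ t t' : BS F, (t' : SL(2, F)) = act g f t → (e θ').1 t = (e θ).1 t') ∧
    (∀ θ, (deg (e θ).1 : ZMod p) ^ 2 = (deg θ.1 : ZMod p) ^ 2) ∧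
    ∀ θ, MatchedS θ.1 (e θ).1

end Pool.Agent.Helper55.PL
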