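import Pool.Agent.Helper55.PL.Chars

/-!
# PL-05: the embedding of the units of the quadratic extension

`emb hE ζ` is the matrix of the multiplication with `ζ` on `E` with respect to a basis; its trace
and determinant are trace and norm of `ζ` (`Algebra.trace_eq_matrix_trace`,
`Algebra.norm_eq_matrix_det`). In a quadratic extension of finite fields the trace and the norm of
`ζ` are `ζ + ζ^q` and `ζ ζ^q` (`FiniteField.algebraMap_trace_eq_sum_pow`,
`FiniteField.algebraMap_norm_eq_prod_pow` in Mathlib.FieldTheory.Finite.Trace), and `ζ^q = ζ` iff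
`ζ ∈ F` (`q` roots of `X^q - X`).

Proofs. `emb_inj`: `Algebra.leftMulMatrix_injective`. `emb_iu`: an algebra homomorphism.
`tr_nu`: `ζ, ζ^q` and `ζ', ζ'^q` are the roots of the same quadratic polynomial.
`emb_ne_sc`: `emb` is injective and `sc z = emb (iu z)`. `emb_not_up`: conjugate matrices have the
same trace and determinant, so `x + y = ζ + ζ^q` and `x y = ζ ζ^q` in `E`, `ζ = x` or `ζ = y`,
so `ζ^q = ζ`. `conj_emb`: equal trace and norm.
`cn_el`: a matrix commuting with `emb ζ`, `ζ ∉ F`, commutes with all `emb'`s (as `E = F + F ζ`),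
so it is an `E`-linear map of `E`, i.e. the multiplication with an element: the centralizer is the
range of `emb`, of order `q² - 1`. (Or: a matrix commuting with the non scalar matrix `g` is
`a + b g`.)
-/

open Matrix
open scoped MatrixGroups

set_option linter.unusedSectionVars false

namespace Pool.Agent.Helper55.PL

open Pool.Agent.Helper42.INC Pool.Agent.Helper7.MK

variable {F E : Type} [Field F] [Fintype F] [DecidableEq F] [Field E] [Fintype E] [DecidableEq E]
  [Algebra F E] (hE : Module.finrank F E = 2)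

/-- an element fixed by the Frobenius is in the small field -/
private theorem fix_aux {x : E} (h : x ^ Fintype.card F = x) : ∃ z : F, algebraMap F E z = x := by
  classical
  have hq : 1 < Fintype.card F := Fintype.one_lt_card
  let P : Polynomial E := Polynomial.X ^ Fintype.card F - Polynomial.X
  have hP : P ≠ 0 := FiniteField.X_pow_card_sub_X_ne_zero E hq
  have hdeg : P.natDegree = Fintype.card F := FiniteField.X_pow_card_sub_X_natDegree_eq E hq
  have himg : (Finset.univ.image (algebraMap F E)) ⊆ P.roots.toFinset := by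
    intro y hy
    obtain ⟨z, -, rfl⟩ := Finset.mem_image.1 hy
    rw [Multiset.mem_toFinset, Polynomial.mem_roots hP, Polynomial.IsRoot.def]
    simp only [P, Polynomial.eval_sub, Polynomial.eval_pow, Polynomial.eval_X]
    rw [← map_pow, FiniteField.pow_card, sub_self]
  have hcard : (Finset.univ.image (algebraMap F E)).card = Fintype.card F := by
    rw [Finset.card_image_of_injective _ (algebraMap F E).injective, Finset.card_univ]
  have hle : P.roots.toFinset.card ≤ Fintype.card F := by
    calc P.roots.toFinset.card ≤ Multiset.card P.roots := Multiset.toFinset_card_le _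
      _ ≤ P.natDegree := Polynomial.card_roots' P
      _ = _ := hdeg
  have heq : Finset.univ.image (algebraMap F E) = P.roots.toFinset :=
    Finset.eq_of_subset_of_card_le himg (by rw [hcard]; exact hle)
  have hx : x ∈ P.roots.toFinset := by
    rw [Multiset.mem_toFinset, Polynomial.mem_roots hP, Polynomial.IsRoot.def]
    simp only [P, Polynomial.eval_sub, Polynomial.eval_pow, Polynomial.eval_X]
    rw [h, sub_self]
  rw [← heq] at hx
  obtain ⟨z, -, hz⟩ := Finset.mem_image.1 hx
  exact ⟨z, hz⟩

include hE

theorem card_E : Fintype.card E = Fintype.card F ^ 2 := by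
  have h := Module.card_eq_pow_finrank (K := F) (V := E)
  rw [h, hE]

theorem trace_eq (ζ : E) : algebraMap F E (Algebra.trace F E ζ) = ζ + ζ ^ Fintype.card F := by
  rw [FiniteField.algebraMap_trace_eq_sum_pow, hE, Finset.sum_range_succ, Finset.sum_range_one,
    Nat.card_eq_fintype_card]
  simp

theorem norm_eq (ζ : E) : algebraMap F E (Algebra.norm F ζ) = ζ * ζ ^ Fintype.card F := by
  rw [FiniteField.algebraMap_norm_eq_prod_pow, hE, Finset.prod_range_succ, Finset.prod_range_one,
    Nat.card_eq_fintype_card]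
  simp

theorem pow_q_q (ζ : E) : (ζ ^ Fintype.card F) ^ Fintype.card F = ζ := by
  rw [← pow_mul, ← pow_two, ← card_E hE]
  exact FiniteField.pow_card ζ

theorem fix_iff (ζ : Eˣ) : ζ ^ Fintype.card F = ζ ↔ ∃ z : Fˣ, iu F E z = ζ := by
  constructor
  · intro h
    have h1 : ((ζ : E)) ^ Fintype.card F = (ζ : E) := by
      rw [← Units.val_pow_eq_pow_val, h]
    obtain ⟨z, hz⟩ := fix_aux (F := F) h1
    have hz0 : z ≠ 0 := by
      rintro rfl
      rw [map_zero] at hz
      exact ζ.ne_zero hz.symm
    refine ⟨Units.mk0 z hz0, Units.ext ?_⟩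
    rw [iu_val]
    exact hz
  · rintro ⟨z, rfl⟩
    rw [← map_pow]
    congr 1
    apply Units.ext
    rw [Units.val_pow_eq_pow_val]
    exact FiniteField.pow_card _

theorem nu_iu (z : Fˣ) : nu F E (iu F E z) = z ^ 2 := by
  apply Units.ext
  rw [nu_val, iu_val, Algebra.norm_algebraMap, hE]
  rfl

theorem trace_iu (z : Fˣ) (ζ : E) : Algebra.trace F E ((iu F E z : Eˣ) * ζ) =
    z * Algebra.trace F E ζ := by
  rw [iu_val, ← Algebra.smul_def, map_smul, smul_eq_mul]

theorem tr_nu {ζ ζ' : Eˣ} (ht : Algebra.trace F E (ζ : E) = Algebra.trace F E (ζ' : E))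
    (hn : nu F E ζ = nu F E ζ') : ζ' = ζ ∨ ζ' = ζ ^ Fintype.card F := by
  have h1 : (ζ : E) + (ζ : E) ^ Fintype.card F = (ζ' : E) + (ζ' : E) ^ Fintype.card F := by
    rw [← trace_eq hE, ← trace_eq hE, ht]
  have h2 : (ζ : E) * (ζ : E) ^ Fintype.card F = (ζ' : E) * (ζ' : E) ^ Fintype.card F := by
    rw [← norm_eq hE, ← norm_eq hE]
    congr 1
    exact congrArg Units.val hn
  have h3 : ((ζ' : E) - ζ) * ((ζ' : E) - (ζ : E) ^ Fintype.card F) = 0 := by
    linear_combination (-(ζ' : E)) * h1 + h2
  rcases mul_eq_zero.1 h3 with h | h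
  · left
    exact Units.ext (sub_eq_zero.1 h)
  · right
    apply Units.ext
    rw [Units.val_pow_eq_pow_val]
    exact sub_eq_zero.1 h

theorem trace_pow (ζ : Eˣ) : Algebra.trace F E ((ζ ^ Fintype.card F : Eˣ) : E) =
    Algebra.trace F E (ζ : E) := by
  apply (algebraMap F E).injective
  rw [trace_eq hE, trace_eq hE, Units.val_pow_eq_pow_val, pow_q_q hE, add_comm]

theorem nu_pow (ζ : Eˣ) : nu F E (ζ ^ Fintype.card F) = nu F E ζ := by
  apply Units.ext
  rw [nu_val, nu_val]
  apply (algebraMap F E).injective
  rw [norm_eq hE, norm_eq hE, Units.val_pow_eq_pow_val, pow_q_q hE, mul_comm]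

theorem emb_inj : Function.Injective (emb (F := F) (E := E) hE) := by
  intro a b h
  have h1 := congrArg Units.val h
  exact Units.ext (Algebra.leftMulMatrix_injective _ h1)

theorem emb_trace (ζ : Eˣ) : (emb hE ζ).val.trace = Algebra.trace F E (ζ : E) := by
  rw [Algebra.trace_eq_matrix_trace (Module.finBasisOfFinrankEq F E hE)]
  rfl

theorem emb_det (ζ : Eˣ) : (emb hE ζ).val.det = Algebra.norm F (ζ : E) := by
  rw [Algebra.norm_eq_matrix_det (Module.finBasisOfFinrankEq F E hE)]
  rfl

theorem emb_iu (z : Fˣ) : emb hE (iu F E z) = sc z := by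
  apply Units.ext
  have h : (emb hE (iu F E z)).val = Algebra.leftMulMatrix
      (Module.finBasisOfFinrankEq F E hE) (algebraMap F E z) := rfl
  rw [h, AlgHom.commutes, sc, up_val]
  ext i j
  fin_cases i <;> fin_cases j <;> simp [Matrix.algebraMap_matrix_apply]

end Pool.Agent.Helper55.PL
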