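import Pool.Agent.Helper55.PL.EmbA
import Pool.Agent.Helper55.PL.Conj

/-!
# PL-06: conjugacy of elliptic elements

Proofs. `emb_ne_sc`: `emb` is injective and `sc z = emb (iu z)` (`emb_iu`), and `(iu z)^q = iu z`
(`fix_iff`). `emb_not_up`: conjugate matrices have the same trace and determinant (`isConj_trace`,
`isConj_det`, `emb_trace`, `emb_det`, `trace_eq`, `norm_eq`), so `x + y = ζ + ζ^q` and
`x y = ζ ζ^q` in `E`, so `ζ = x` or `ζ = y`, and `ζ^q = ζ`.
`emb_conj_iff`: `→` by `tr_nu`, `←` by `isConj_of` with `trace_pow`, `nu_pow`, `emb_ne_sc`.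
`cn_el`: the centralizer of `emb ζ` is the range of `emb` (of order `q² - 1`, `emb_inj`, `card_E`): a
matrix `h` commuting with `g = emb ζ`, `ζ ∉ F`, commutes with all `emb ξ` because
`E = F + F ζ`, so `h` (as a linear map of `E` in the basis used by `emb`) is `E`-linear, so it is
the multiplication with `h(1)`. (Or: a matrix commuting with a non scalar `g` is `a + b g`, `a, b ∈ F`:
take `g` conjugate to a companion matrix; and `a + b emb ζ = emb (a + b ζ)` if `a + b ζ ≠ 0`.)
-/

open Matrix
open scoped MatrixGroups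

set_option linter.unusedSectionVars false

namespace Pool.Agent.Helper55.PL

open Pool.Agent.Helper42.INC Pool.Agent.Helper7.MK

variable {F E : Type} [Field F] [Fintype F] [DecidableEq F] [Field E] [Fintype E] [DecidableEq E]
  [Algebra F E] (hE : Module.finrank F E = 2)

theorem emb_ne_sc {ζ : Eˣ} (h : ζ ^ Fintype.card F ≠ ζ) (z : Fˣ) : emb hE ζ ≠ sc z := by
  intro h1
  rw [← emb_iu hE z] at h1
  exact h ((fix_iff hE ζ).2 ⟨z, (emb_inj hE h1).symm⟩)

theorem emb_not_up {ζ : Eˣ} (h : ζ ^ Fintype.card F ≠ ζ) (x y : Fˣ) (u : F) :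
    ¬ IsConj (emb hE ζ) (up x y u) := by
  intro hc
  have ht := isConj_trace hc
  have hd := isConj_det hc
  rw [emb_trace, up_val, Matrix.trace_fin_two] at ht
  rw [emb_det, up_val, Matrix.det_fin_two] at hd
  have ht' : Algebra.trace F E (ζ : E) = x + y := by simpa using ht
  have hd' : Algebra.norm F (ζ : E) = x * y := by simpa using hd
  have h1 := trace_eq hE (ζ : E)
  have h2 := norm_eq hE (ζ : E)
  rw [ht', map_add] at h1
  rw [hd', map_mul] at h2
  have h3 : ((ζ : E) - algebraMap F E x) * ((ζ : E) - algebraMap F E y) = 0 := by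
    linear_combination (-(ζ : E)) * h1 + h2
  rcases mul_eq_zero.1 h3 with h4 | h4
  · exact h ((fix_iff hE ζ).2 ⟨x, Units.ext (sub_eq_zero.1 h4).symm⟩)
  · exact h ((fix_iff hE ζ).2 ⟨y, Units.ext (sub_eq_zero.1 h4).symm⟩)

theorem emb_conj_iff {ζ : Eˣ} (h : ζ ^ Fintype.card F ≠ ζ) (ζ' : Eˣ) :
    IsConj (emb hE ζ') (emb hE ζ) ↔ ζ' = ζ ∨ ζ' = ζ ^ Fintype.card F := by
  constructor
  · intro hc
    have ht := isConj_trace hc
    have hd := isConj_det hc
    rw [emb_trace, emb_trace] at ht
    rw [emb_det, emb_det] at hd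
    exact tr_nu hE ht.symm (Units.ext hd.symm)
  · rintro (rfl | rfl)
    · exact IsConj.refl _
    · refine isConj_of (emb_ne_sc hE ?_) (emb_ne_sc hE h) ?_ ?_
      · intro h1
        apply h
        have h2 : ((ζ ^ Fintype.card F : Eˣ) ^ Fintype.card F : Eˣ) = ζ :=
          Units.ext (by
            have := pow_q_q hE (ζ : E)
            simpa using this)
        rw [h2] at h1
        exact h1.symm
      · rw [emb_trace, emb_trace, trace_pow hE]
      · rw [emb_det, emb_det]
        exact congrArg Units.val (nu_pow hE ζ)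

/-- A matrix which commutes with a matrix which is not scalar is a polynomial in it. -/
theorem embB_comm_two {F : Type} [Field F] (g M : Matrix (Fin 2) (Fin 2) F)
    (hg : ¬ (g 0 1 = 0 ∧ g 1 0 = 0 ∧ g 0 0 = g 1 1)) (h : M * g = g * M) :
    ∃ a b : F, M = a • (1 : Matrix (Fin 2) (Fin 2) F) + b • g := by
  have h00 := congrFun (congrFun h 0) 0
  have h01 := congrFun (congrFun h 0) 1
  have h10 := congrFun (congrFun h 1) 0
  have h11 := congrFun (congrFun h 1) 1
  simp only [Matrix.mul_apply, Fin.sum_univ_two] at h00 h01 h10 h11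
  by_cases h1 : g 0 1 = 0
  · by_cases h2 : g 1 0 = 0
    · have h3 : g 0 0 - g 1 1 ≠ 0 := fun h4 => hg ⟨h1, h2, sub_eq_zero.1 h4⟩
      have h4 : M 0 1 = 0 := by
        have : M 0 1 * (g 0 0 - g 1 1) = 0 := by
          rw [h1] at h01
          linear_combination -h01
        exact (mul_eq_zero.1 this).resolve_right h3
      have h5 : M 1 0 = 0 := by
        have : M 1 0 * (g 0 0 - g 1 1) = 0 := by
          rw [h2] at h10
          linear_combination h10
        exact (mul_eq_zero.1 this).resolve_right h3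
      refine ⟨M 0 0 - (M 0 0 - M 1 1) / (g 0 0 - g 1 1) * g 0 0,
        (M 0 0 - M 1 1) / (g 0 0 - g 1 1), ?_⟩
      ext i j
      fin_cases i <;> fin_cases j
      · simp
      · simp [h1, h4]
      · simp [h2, h5]
      · simp
        field_simp
        ring
    · refine ⟨M 0 0 - M 1 0 / g 1 0 * g 0 0, M 1 0 / g 1 0, ?_⟩
      ext i j
      fin_cases i <;> fin_cases j
      · simp
      · simp
        field_simp
        linear_combination h00
      · simp
        field_simp
      · simp
        field_simp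
        linear_combination h10
  · refine ⟨M 0 0 - M 0 1 / g 0 1 * g 0 0, M 0 1 / g 0 1, ?_⟩
    ext i j
    fin_cases i <;> fin_cases j
    · simp
    · simp
      field_simp
    · simp
      field_simp
      linear_combination -h00
    · simp
      field_simp
      linear_combination -h01

theorem embB_val (ζ : Eˣ) : (emb hE ζ).val =
    Algebra.leftMulMatrix (Module.finBasisOfFinrankEq F E hE) (ζ : E) := rfl

/-- the centralizer of an elliptic element -/
theorem embB_cent {ζ : Eˣ} (h : ζ ^ Fintype.card F ≠ ζ) {g : GL (Fin 2) F}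
    (hg : g * emb hE ζ = emb hE ζ * g) : ∃ ξ : Eˣ, emb hE ξ = g := by
  obtain ⟨a, b, hab⟩ := embB_comm_two (emb hE ζ).val g.val (by
    rintro ⟨h1, h2, h3⟩
    have h4 : (emb hE ζ).val 0 0 ≠ 0 := by
      intro h5
      have h6 : (emb hE ζ).val = 0 := by
        ext i j
        fin_cases i <;> fin_cases j
        · exact h5
        · exact h1
        · exact h2
        · exact h3.symm.trans h5
      exact (emb hE ζ).ne_zero h6
    apply emb_ne_sc hE h (Units.mk0 _ h4)
    apply Units.ext
    rw [sc, up_val]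
    ext i j
    fin_cases i <;> fin_cases j
    · rfl
    · exact h1
    · exact h2
    · exact h3.symm) (congrArg Units.val hg)
  have h1 : g.val = Algebra.leftMulMatrix (Module.finBasisOfFinrankEq F E hE)
      (algebraMap F E a + b • (ζ : E)) := by
    rw [hab, embB_val, map_add, map_smul, AlgHom.commutes, Algebra.algebraMap_eq_smul_one]
  have h2 : algebraMap F E a + b • (ζ : E) ≠ 0 := by
    intro h3
    rw [h3, map_zero] at h1
    exact g.ne_zero h1
  refine ⟨Units.mk0 _ h2, Units.ext ?_⟩
  rw [h1, embB_val]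
  rfl

theorem cn_el {ζ : Eˣ} (h : ζ ^ Fintype.card F ≠ ζ) :
    (Nat.card {g : GL (Fin 2) F // g * emb hE ζ = emb hE ζ * g} : ℂ) =
      (Fintype.card F : ℂ) ^ 2 - 1 := by
  have e : Eˣ ≃ {g : GL (Fin 2) F // g * emb hE ζ = emb hE ζ * g} :=
    Equiv.ofBijective (fun ξ => ⟨emb hE ξ, by rw [← map_mul, ← map_mul, mul_comm]⟩) (by
      constructor
      · intro x y hxy
        exact emb_inj hE (congrArg Subtype.val hxy)
      · rintro ⟨g, hg⟩
        obtain ⟨ξ, hξ⟩ := embB_cent hE h hg
        exact ⟨ξ, Subtype.ext hξ⟩)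
  rw [← Nat.card_congr e, Nat.card_eq_fintype_card, Fintype.card_units, card_E hE,
    Nat.cast_sub (Nat.one_le_pow _ _ Fintype.card_pos)]
  push_cast
  ring

end Pool.Agent.Helper55.PL
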