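import Pool.Agent.Helper55.PL.SLevel

/-!
# PL-19: the half characters of `SL₂(F)`: decomposition

Let `X` belong to `x² + b` (trace `0`), `q` odd.

`H_two`: by `SX` (the `z` with `z² b = b` are `1` and `-1`, different because `2 ≠ 0`) the norm of `X|SL` is
`2`; by `S_nat`, `S_class` and `two_irr` it is the sum of two different irreducible characters.
By `X_whi` (`r = 1`) `∑_u X(x(u)) ψ(-u) = q`. For a character `θ` of `SL₂(F)` the number
`q⁻¹ ∑_u θ(x(u)) ψ(-u)` is a natural number: it is `B (θ ∘ j) ψ'` for `j : Multiplicative F →* SL₂(F)`,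
`j u = xu u` (`xu_add`), `ψ' u = ψ u` a linear character of `Multiplicative F` (`B_nat`, `irr_lin`,
`isChar_irr`; note `ψ' u⁻¹ = ψ (-u)`; `θ ∘ j` is the character of the restriction). So one of the two
numbers is `1` and the other one is `0`.
-/

open Matrix
open scoped MatrixGroups Classical

set_option linter.unusedSectionVars false

namespace Pool.Agent.Helper55.PL

open Pool.Agent.Helper42.INC Pool.Agent.Helper7.MK

variable {F E : Type} [Field F] [Fintype F] [DecidableEq F] [Field E] [Fintype E] [DecidableEq E]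
  [Algebra F E] {D : CD F E} {hE : Module.finrank F E = 2} {ψ : AddChar F ℂ}

/-- the multiplicity of `ψ` in the restriction of a character of `SL₂(F)` to the `xu u` -/
theorem whi_nat (ψ : AddChar F ℂ) {θ : SL(2, F) → ℂ} (hθ : IsChar θ) :
    ∃ n : ℕ, ∑ u : F, θ (xu u) * ψ (-u) = Fintype.card F * n := by
  let j : Multiplicative F →* SL(2, F) :=
    { toFun := fun u => xu u.toAdd
      map_one' := by
        ext i j
        rw [xu_val]
        fin_cases i <;> fin_cases j <;> simp
      map_mul' := fun a b => by rw [toAdd_mul, xu_add] }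
  have h1 : IsChar (fun u : Multiplicative F => ψ u.toAdd) := by
    refine isChar_irr (irr_lin ?_ fun a b => ?_)
    · rw [toAdd_one, AddChar.map_zero_eq_one]
    · rw [toAdd_mul, AddChar.map_add_eq_mul]
  have h0 : IsChar (fun u : Multiplicative F => θ (j u)) := by
    obtain ⟨V, _, _, _, ρ, rfl⟩ := hθ
    exact ⟨V, inferInstance, inferInstance, inferInstance, ρ.comp j, rfl⟩
  obtain ⟨n, hn⟩ := B_nat h0 h1
  refine ⟨n, ?_⟩
  rw [B_eq, Nat.card_eq_fintype_card, Fintype.card_multiplicative] at hn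
  have hq : (Fintype.card F : ℂ) ≠ 0 := Nat.cast_ne_zero.2 Fintype.card_ne_zero
  rw [inv_mul_eq_iff_eq_mul₀ hq] at hn
  rw [← hn]
  refine Fintype.sum_equiv Multiplicative.ofAdd _ _ fun u => ?_
  rfl

theorem H_two (hψ : ψ ≠ 1) (h2 : (2 : F) ≠ 0) {b : Fˣ} {X : GL (Fin 2) F → ℂ}
    (hX : IsX D hE ψ 0 b X) : ∃ θ ∈ Irr SL(2, F), ∃ θ' ∈ Irr SL(2, F), θ ≠ θ' ∧
    (∀ s, X (Matrix.SpecialLinearGroup.toGL s) = θ s + θ' s) ∧
    ∑ u : F, θ (xu u) * ψ (-u) = Fintype.card F ∧ ∑ u : F, θ' (xu u) * ψ (-u) = 0 := by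
  have hirr := X_irr hψ hX
  have hB := SX hψ hX hX
  have hset : (Finset.univ.filter (fun z : Fˣ => (z : F) * 0 = 0 ∧ z ^ 2 * b = b)) = {1, -1} := by
    ext z
    simp only [Finset.mem_filter, Finset.mem_univ, true_and, mul_zero, Finset.mem_insert,
      Finset.mem_singleton, mul_eq_right]
    rw [Units.ext_iff, Units.ext_iff, Units.ext_iff, Units.val_pow_eq_pow_val, Units.val_neg,
      Units.val_one]
    exact sq_eq_one_iff
  have hne : (1 : Fˣ) ≠ -1 := by
    intro h
    have h1 := congrArg Units.val h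
    rw [Units.val_neg, Units.val_one] at h1
    apply h2
    linear_combination h1
  rw [hset, Finset.card_pair hne] at hB
  obtain ⟨χ, hχ, χ', hχ', hne', hsum⟩ := two_irr (S_class (Irr.isClass hirr))
    (fun χ hχ => S_nat hirr hχ) (by rw [hB]; norm_num)
  have hs : ∀ s, X (Matrix.SpecialLinearGroup.toGL s) = χ s + χ' s := fun s => congrFun hsum s
  obtain ⟨n, hn⟩ := whi_nat ψ (isChar_irr hχ)
  obtain ⟨n', hn'⟩ := whi_nat ψ (isChar_irr hχ')
  have hw := X_whi hψ hX (r := 1) one_ne_zero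
  have hq : (Fintype.card F : ℂ) ≠ 0 := Nat.cast_ne_zero.2 Fintype.card_ne_zero
  have h3 : (n : ℂ) + n' = 1 := by
    have h4 : (Fintype.card F : ℂ) * (n + n') = Fintype.card F * 1 := by
      rw [mul_add, ← hn, ← hn', ← Finset.sum_add_distrib, mul_one, ← hw]
      refine Finset.sum_congr rfl fun u _ => ?_
      rw [← toGL_xu, hs, one_mul, add_mul]
    exact mul_left_cancel₀ hq h4
  have h5 : n + n' = 1 := by exact_mod_cast h3
  rcases Nat.eq_zero_or_pos n with h0 | h0
  · have h6 : n' = 1 := by omega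
    refine ⟨χ', hχ', χ, hχ, hne'.symm, fun s => ?_, ?_, ?_⟩
    · rw [hs, add_comm]
    · rw [hn', h6, Nat.cast_one, mul_one]
    · rw [hn, h0, Nat.cast_zero, mul_zero]
  · have h6 : n = 1 := by omega
    have h7 : n' = 0 := by omega
    refine ⟨χ, hχ, χ', hχ', hne', hs, ?_, ?_⟩
    · rw [hn, h6, Nat.cast_one, mul_one]
    · rw [hn', h7, Nat.cast_zero, mul_zero]

end Pool.Agent.Helper55.PL
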