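import Pool.Agent.Helper55.PL.IntA
import Pool.Agent.Helper55.PL.HalfB

/-!
# PL-21: the two halves are conjugate

`X` is an irreducible character of `GL₂(F)` whose restriction to `SL₂(F)` is `θ + θ'`, `θ ≠ θ'` irreducible.

Proof. Clifford theory: `Helper7.MK.clifford_orbit` for the `INC.NP SL(2, F) (GL (Fin 2) F)` with
`ι = toGL`, `α = cj` (as a homomorphism `GL₂(F) →* MulAut SL₂(F)`, `cj_mul`; compatibility: `toGL_cj`):
`B (X ∘ ι) θ = 1 ≠ 0`, `B (X ∘ ι) θ' = 1` (`INC.B_irr`), so there is `g` with `θ' = θ ∘ cj g` (up to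
replacing `g` by `g⁻¹`). If `det g` were a square then `θ' = θ` by `cj_sq`. So `sqd g = false`, `g = g₁ * up ν 1 0`
with `sqd g₁ = true` (`sqd_mul`, `sqd_nu`), and `θ' s = θ (cj g₁ (cj (up ν 1 0) s)) = θ (cj (up ν 1 0) s)` by `cj_sq`.
-/

open Matrix
open scoped MatrixGroups Classical

set_option linter.unusedSectionVars false

namespace Pool.Agent.Helper55.PL

open Pool.Agent.Helper42.INC Pool.Agent.Helper7.MK

variable {F : Type} [Field F] [Fintype F] [DecidableEq F]

/-- the normal subgroup `SL₂(F)` of `GL₂(F)` -/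
private noncomputable def npSL (F : Type) [Field F] [Fintype F] [DecidableEq F] :
    NP SL(2, F) (GL (Fin 2) F) where
  ι := Matrix.SpecialLinearGroup.toGL
  inj := Matrix.SpecialLinearGroup.toGL_injective
  α := 
    { toFun := cj
      map_one' := by
        apply MulEquiv.ext
        intro s
        apply Matrix.SpecialLinearGroup.toGL_injective
        rw [toGL_cj]
        simp
      map_mul' := by
        intro g h
        apply MulEquiv.ext
        intro s
        rw [MulAut.mul_apply, cj_mul] }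
  compat g m := toGL_cj g m

theorem H_conj (h2 : (2 : F) ≠ 0) {ν : Fˣ} (hν : ¬ IsSquare ν) {X : GL (Fin 2) F → ℂ}
    (hX : X ∈ Irr (GL (Fin 2) F)) {θ θ' : SL(2, F) → ℂ} (hθ : θ ∈ Irr SL(2, F))
    (hθ' : θ' ∈ Irr SL(2, F)) (hne : θ ≠ θ')
    (h : ∀ s, X (Matrix.SpecialLinearGroup.toGL s) = θ s + θ' s) (s : SL(2, F)) :
    θ' s = θ (cj (up ν 1 0) s) := by
  have hX' : (fun k => X ((npSL F).ι k)) = θ + θ' := by
    funext k
    exact h k
  obtain ⟨x, hx⟩ := clifford_orbit (npSL F) (⟨θ', hθ'⟩ : IrrX (npSL F))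
    (⟨θ, hθ⟩ : IrrX (npSL F)) hX
    (by
      change B (fun k => X ((npSL F).ι k)) θ' ≠ 0
      rw [hX', B_add_left, B_irr_ne hθ hθ' hne, B_irr_self hθ', zero_add]
      exact one_ne_zero)
    (by
      change B (fun k => X ((npSL F).ι k)) θ ≠ 0
      rw [hX', B_add_left, B_irr_ne hθ' hθ (Ne.symm hne), B_irr_self hθ, add_zero]
      exact one_ne_zero)
  have hg : ∀ t, θ' t = θ (cj x⁻¹ t) := by
    intro t
    have h1 := congrArg (fun y : IrrX (npSL F) => y.chi t) hx
    exact h1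
  have hcl := Irr.isClass hθ
  have hsq : sqd x⁻¹ = false := by
    rw [← Bool.not_eq_true]
    intro hs
    apply hne
    funext t
    rw [hg t, cj_sq hcl hs]
  have h3 : x⁻¹ = (x⁻¹ * (up ν 1 0)⁻¹) * up ν 1 0 := by group
  have h4 : sqd (x⁻¹ * (up ν 1 0 : GL (Fin 2) F)⁻¹) = true := by
    have h5 := sqd_mul h2 (x⁻¹ * (up ν 1 0)⁻¹) (up ν 1 0)
    rw [← h3, hsq, sqd_nu hν] at h5
    cases hb : sqd (x⁻¹ * (up ν 1 0 : GL (Fin 2) F)⁻¹) with
    | true => rfl
    | false =>
      rw [hb] at h5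
      simp at h5
  rw [hg s, h3, cj_mul, cj_sq hcl h4]

end Pool.Agent.Helper55.PL
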