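import Pool.Agent.Helper55.PL.PrnVal
import Pool.Agent.Helper55.PL.CspVal

/-!
# PL-14: the characters which belong to polynomials: field automorphisms

Proofs.
`exists_ext`: `f` is a power of the Frobenius of `F` over its prime field
(`FiniteField.bijective_frobeniusAlgEquivOfAlgebraic_pow` for `K = ZMod p`, `L = F`, or any other way), and
the same power of the Frobenius of `E` extends it.
`Q_gal`: `Fˣ` is cyclic, so `Fu f` is a power map `x ↦ x^m` (`MonoidHom.map_cyclic`), and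
`Q (b^m) x = (Q b x)^m = Q b (x^m)`. `P_gal`: the same for `E`.
`prn_gal`: `ind_aut` with `σ = fG f` and `τ` the map induced by `f` on `BG F` (`fG_mem`, `fG_up`):
`σ (π γ) = π (τ γ)`, and `lin (Q α) (Q β) (τ γ) = lin (Q (f α)) (Q (f β)) γ` by `Q_gal`.
`csp_gal`: `ind_aut` twice: for `zu` with `τ (z, u) = (f z, f u)`, `ψ (f u) = ψ u` and `resc_apply`, `P_gal`
(`f' (iu z) = iu (f z)`); for `emb` with `τ = f'` on the units: `fG f (emb ζ)` and `emb (f' ζ)` are
conjugate: if `ζ^q ≠ ζ` by `isConj_of` (`emb_ne_sc`, `emb_trace`, `emb_det`, and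
`f (tr ζ) = tr (f' ζ)`, `f (N ζ) = N (f' ζ)`, both from `trace_eq`, `norm_eq`), otherwise both are the same
scalar (`fix_iff`, `emb_iu`).
`X_gal`: combine.
-/

open Matrix
open scoped MatrixGroups Classical

set_option linter.unusedSectionVars false

namespace Pool.Agent.Helper55.PL

open Pool.Agent.Helper42.INC Pool.Agent.Helper7.MK

variable {F E : Type} [Field F] [Fintype F] [DecidableEq F] [Field E] [Fintype E] [DecidableEq E]
  [Algebra F E] {D : CD F E} {hE : Module.finrank F E = 2} {ψ : AddChar F ℂ}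

theorem exists_ext (f : F ≃+* F) :
    ∃ f' : E ≃+* E, ∀ z : F, f' (algebraMap F E z) = algebraMap F E (f z) := by
  obtain ⟨p, hp⟩ := CharP.exists F
  have hp' : Fact p.Prime := ⟨CharP.char_is_prime F p⟩
  have hpE : CharP E p := charP_of_injective_algebraMap (algebraMap F E).injective p
  let _ : Algebra (ZMod p) F := ZMod.algebra F p
  have hf : ∃ n : ℕ, ∀ z : F, f z = z ^ p ^ n := by
    obtain ⟨n, hn⟩ := (FiniteField.bijective_frobeniusAlgEquivOfAlgebraic_pow (ZMod p) F).2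
      (AlgEquiv.ofRingEquiv (f := f) (fun x => by
        have h := Subsingleton.elim ((f : F →+* F).comp (algebraMap (ZMod p) F))
          (algebraMap (ZMod p) F)
        exact congrArg (fun g : ZMod p →+* F => g x) h))
    refine ⟨n, fun z => ?_⟩
    have h1 := congrArg (fun g : F ≃ₐ[ZMod p] F => g z) hn
    change ((FiniteField.frobeniusAlgEquivOfAlgebraic (ZMod p) F) ^ (n : ℕ)) z = f z at h1
    have h2 : ∀ m : ℕ, ((FiniteField.frobeniusAlgEquivOfAlgebraic (ZMod p) F) ^ m) z =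
        z ^ p ^ m := by
      intro m
      induction m with
      | zero => simp
      | succ m ih =>
        rw [pow_succ', AlgEquiv.mul_apply, ih, FiniteField.coe_frobeniusAlgEquivOfAlgebraic,
          ZMod.card]
        change (z ^ p ^ m) ^ p = _
        rw [← pow_mul, ← pow_succ]
    rw [h2] at h1
    exact h1.symm
  obtain ⟨n, hn⟩ := hf
  refine ⟨iterateFrobeniusEquiv E p n, fun z => ?_⟩
  rw [iterateFrobeniusEquiv_def, hn, map_pow]

theorem Q_gal (Q : Fˣ →* MulChar F ℂ) (f : F ≃+* F) (b x : Fˣ) : Q (Fu f b) x = Q b (Fu f x) := by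
  obtain ⟨m, hm⟩ := MonoidHom.map_cyclic (G := Fˣ) (Fu f).toMonoidHom
  have hm' : ∃ k : ℕ, ∀ g : Fˣ, Fu f g = g ^ k := by
    refine ⟨(m % (Nat.card Fˣ : ℤ)).toNat, fun g => ?_⟩
    have h1 : Fu f g = g ^ m := hm g
    have h0 : (0 : ℤ) ≤ m % (Nat.card Fˣ : ℤ) :=
      Int.emod_nonneg _ (by exact_mod_cast Nat.card_pos.ne')
    rw [h1, ← zpow_mod_natCard, ← zpow_natCast, Int.toNat_of_nonneg h0]
  obtain ⟨k, hk⟩ := hm'
  rw [hk, hk, map_pow, MulChar.pow_apply_coe, Units.val_pow_eq_pow_val, map_pow]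

/-- the map induced by `f` on the upper triangular subgroup -/
def tB (f : F ≃+* F) : BG F ≃ BG F where
  toFun γ := ⟨fG f γ.1, fG_mem.2 γ.2⟩
  invFun γ := ⟨fG f.symm γ.1, fG_mem.2 γ.2⟩
  left_inv γ := by
    apply Subtype.ext
    apply Units.ext
    ext i j
    change f.symm (f (γ.1.val i j)) = _
    simp
  right_inv γ := by
    apply Subtype.ext
    apply Units.ext
    ext i j
    change f (f.symm (γ.1.val i j)) = _
    simp

theorem prn_gal (Q : Fˣ →* MulChar F ℂ) (f : F ≃+* F) (α β : Fˣ) (g : GL (Fin 2) F) :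
    prn (Q α) (Q β) (fG f g) = prn (Q (Fu f α)) (Q (Fu f β)) g := by
  unfold prn
  rw [ind_aut (BG F).subtype (fG f) (tB f) (fun γ => IsConj.refl _)]
  congr 1
  funext γ
  obtain ⟨x, y, u, h⟩ := exists_up γ.2
  unfold lin
  have h1 : (tB f γ).1 = up (Fu f x) (Fu f y) (f u) := by
    change fG f γ.1 = _
    rw [h, fG_up]
  rw [h1, h, up_val, up_val]
  simp only [Matrix.of_apply, Matrix.cons_val', Matrix.cons_val_zero, Matrix.cons_val_one,
    Matrix.cons_val_fin_one]
  rw [Q_gal, Q_gal]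

/-- the map induced by `f` on the group of the `z x(u)` -/
def tZ (f : F ≃+* F) : Fˣ × Multiplicative F ≃ Fˣ × Multiplicative F where
  toFun a := (Fu f a.1, Multiplicative.ofAdd (f a.2.toAdd))
  invFun a := (Fu f.symm a.1, Multiplicative.ofAdd (f.symm a.2.toAdd))
  left_inv a := by
    refine Prod.ext ?_ ?_
    · apply Units.ext
      change f.symm (f (a.1 : F)) = _
      simp
    · change Multiplicative.ofAdd (f.symm (f a.2.toAdd)) = _
      simp
  right_inv a := by
    refine Prod.ext ?_ ?_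
    · apply Units.ext
      change f (f.symm (a.1 : F)) = _
      simp
    · change Multiplicative.ofAdd (f (f.symm a.2.toAdd)) = _
      simp

section ext

variable (f : F ≃+* F) (f' : E ≃+* E)
  (h : ∀ z : F, f' (algebraMap F E z) = algebraMap F E (f z))

include h

theorem Fu_iu (z : Fˣ) : Fu f' (iu F E z) = iu F E (Fu f z) := by
  apply Units.ext
  rw [Fu_val, iu_val, iu_val, Fu_val, h]

theorem trace_gal (hE : Module.finrank F E = 2) (ξ : E) :
    Algebra.trace F E (f' ξ) = f (Algebra.trace F E ξ) := by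
  apply (algebraMap F E).injective
  rw [trace_eq hE, ← h, trace_eq hE, map_add, map_pow]

theorem norm_gal (hE : Module.finrank F E = 2) (ξ : E) :
    Algebra.norm F (f' ξ) = f (Algebra.norm F ξ) := by
  apply (algebraMap F E).injective
  rw [norm_eq hE, ← h, norm_eq hE, map_mul, map_pow]

end ext

theorem Fu_ne {f' : E ≃+* E} {ζ : Eˣ} {q : ℕ} (h : ζ ^ q ≠ ζ) : (Fu f' ζ) ^ q ≠ Fu f' ζ := by
  intro h1
  rw [← map_pow] at h1
  exact h ((Fu f').injective h1)

theorem fG_sc (f : F ≃+* F) (z : Fˣ) : fG f (sc z) = sc (Fu f z) := by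
  unfold sc
  rw [fG_up, map_zero]

theorem fG_trace (f : F ≃+* F) (g : GL (Fin 2) F) :
    (fG f g).val.trace = f g.val.trace := by
  rw [Matrix.trace_fin_two, Matrix.trace_fin_two, map_add, fG_val, fG_val]

theorem fG_det (f : F ≃+* F) (g : GL (Fin 2) F) :
    (fG f g).val.det = f g.val.det := by
  rw [Matrix.det_fin_two, Matrix.det_fin_two, map_sub, map_mul, map_mul, fG_val, fG_val, fG_val,
    fG_val]

theorem emb_gal (hE : Module.finrank F E = 2) (f : F ≃+* F) (f' : E ≃+* E)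
    (h : ∀ z : F, f' (algebraMap F E z) = algebraMap F E (f z)) (ξ : Eˣ) :
    IsConj (fG f (emb hE ξ)) (emb hE (Fu f' ξ)) := by
  by_cases hξ : ξ ^ Fintype.card F = ξ
  · obtain ⟨z, rfl⟩ := (fix_iff hE ξ).1 hξ
    rw [Fu_iu f f' h, emb_iu, emb_iu, fG_sc]
  · refine isConj_of (fun z hz => ?_) (emb_ne_sc hE (Fu_ne hξ)) ?_ ?_
    · refine emb_ne_sc hE hξ (Fu f.symm z) ?_
      have h1 : fG f (sc (Fu f.symm z)) = sc z := by
        rw [fG_sc]
        congr 1
        apply Units.ext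
        rw [Fu_val, Fu_val, RingEquiv.apply_symm_apply]
      rw [← h1] at hz
      exact (fG f).injective hz
    · rw [fG_trace, emb_trace, emb_trace, Fu_val, trace_gal f f' h hE]
    · rw [fG_det, emb_det, emb_det, Fu_val, norm_gal f f' h hE]

theorem csp_gal (D : CD F E) (hE : Module.finrank F E = 2) (f : F ≃+* F)
    (hψ : ∀ u, ψ (f u) = ψ u) (f' : E ≃+* E)
    (h : ∀ z : F, f' (algebraMap F E z) = algebraMap F E (f z)) (ζ : Eˣ) (g : GL (Fin 2) F) :
    csp hE ψ (D.P ζ) (fG f g) = csp hE ψ (D.P (Fu f' ζ)) g := by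
  unfold csp
  rw [Pi.sub_apply, Pi.sub_apply]
  congr 1
  · rw [ind_aut zu (fG f) (tZ f)]
    · congr 1
      funext a
      unfold whi
      change resc F (D.P ζ) ((Fu f a.1 : Fˣ) : F) * ψ (f a.2.toAdd) = _
      rw [hψ, resc_apply, resc_apply, ← Fu_iu f f' h, ← Q_gal]
    · rintro ⟨z, u⟩
      change IsConj (fG f (zu (z, u))) (zu (Fu f z, Multiplicative.ofAdd (f u.toAdd)))
      rw [zu_apply, zu_apply, fG_up, map_mul, toAdd_ofAdd, Fu_val]
  · rw [ind_aut (emb hE) (fG f) (Fu f').toEquiv (emb_gal hE f f' h)]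
    congr 1
    funext ξ
    change D.P ζ ((Fu f' ξ : Eˣ) : E) = _
    rw [← Q_gal]

theorem X_gal {a : F} {b : Fˣ} {X : GL (Fin 2) F → ℂ} (hX : IsX D hE ψ a b X) (f : F ≃+* F)
    (hψ : ∀ u, ψ (f u) = ψ u) : IsX D hE ψ (f a) (Fu f b) (fun g => X (fG f g)) := by
  rcases hX with ⟨α, β, hne, hsum, hprod, rfl⟩ | ⟨ζ, hζ, htr, hnu, rfl⟩
  · left
    refine ⟨Fu f α, Fu f β, fun h1 => hne ((Fu f).injective h1), ?_, ?_, ?_⟩
    · rw [Fu_val, Fu_val, ← map_add, hsum]
    · rw [← map_mul, hprod]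
    · funext g
      exact prn_gal D.Q f α β g
  · right
    obtain ⟨f', hf'⟩ := exists_ext (F := F) (E := E) f
    refine ⟨Fu f' ζ, Fu_ne hζ, ?_, ?_, ?_⟩
    · rw [Fu_val, trace_gal f f' hf' hE, htr]
    · apply Units.ext
      rw [nu_val, Fu_val, norm_gal f f' hf' hE, Fu_val, ← hnu, nu_val]
    · funext g
      exact csp_gal D hE f hψ f' hf' ζ g

end Pool.Agent.Helper55.PL
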