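import Pool.Agent.Helper55.PL.HalfA
import Pool.Agent.Helper55.PL.HalfC
import Pool.Agent.Helper55.PL.XC

/-!
# PL-22: the half characters of `SL₂(F)`

Let `X` belong to `x² + b` (trace `0`), `q` odd, `ν` a nonsquare, `g_ν = up ν 1 0`. Take `θ, θ'` from
`H_two`, `θ' = θ ∘ cj g_ν` by `H_conj` (`X_irr`).

Proofs.
`half_f`: `θ ∘ fS f` is irreducible (`INC.irr_comp`), and it is a constituent of `s ↦ X (toGL (fS f s))`
`= X (fG f (toGL s))` (`toGL_fS`). `g ↦ X (fG f g)` belongs to `(0, Fu f b)` (`X_gal`), `Fu f b = z² b`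
(`fu_sq`), and `g ↦ dt (Q z) g * X g` belongs to the same pair (`X_tw`), so they are equal (`X_unique`)
and `X (toGL (fS f s)) = X (toGL s) = θ s + θ' s` (`det = 1`). As irreducible characters are orthonormal,
`θ ∘ fS f` is `θ` or `θ'` (`B (θ ∘ fS f) (θ + θ') = B (θ ∘ fS f) ((θ + θ') ∘ fS f) ≠ 0`; or: compute
`B (θ ∘ fS f) (θ + θ') ≥ 1`). Its sum `∑_u θ (fS f (xu u)) ψ(-u) = ∑_u θ (xu (f u)) ψ(-f u) = q`, and the one of
`θ'` is `0`, so `θ ∘ fS f = θ`.
The formula for `act g f`: `act_formula`.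
Central character: `dd (-1)` is central, by Schur's lemma `θ (dd (-1) * s) = κ θ s`
(`INC.exists_central` in Inflate, or directly), then
`θ (cj g_ν (dd (-1) * s)) = κ θ (cj g_ν s)`, so `X (toGL (dd (-1) * s)) = κ X (toGL s)`, and
`toGL (dd (-1)) = sc (-1)`, so `κ X 1 = Q b (-1) X 1` by `X_cen`, `X 1 ≠ 0` (`INC.irr_one`).
Degree: `cj g_ν 1 = 1`, so `X 1 = 2 θ 1`, `X_deg`.
-/

open Matrix
open scoped MatrixGroups Classical

set_option linter.unusedSectionVars false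

namespace Pool.Agent.Helper55.PL

open Pool.Agent.Helper42.INC Pool.Agent.Helper7.MK

variable {F E : Type} [Field F] [Fintype F] [DecidableEq F] [Field E] [Fintype E] [DecidableEq E]
  [Algebra F E] {D : CD F E} {hE : Module.finrank F E = 2} {ψ : AddChar F ℂ}

theorem half_f (hψ : ψ ≠ 1) (hψf : ∀ (f : F ≃+* F) (u : F), ψ (f u) = ψ u) (h2 : (2 : F) ≠ 0)
    {b : Fˣ} {X : GL (Fin 2) F → ℂ} (hX : IsX D hE ψ 0 b X) {θ θ' : SL(2, F) → ℂ}
    (hθ : θ ∈ Irr SL(2, F)) (hθ' : θ' ∈ Irr SL(2, F)) (hne : θ ≠ θ')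
    (h : ∀ s, X (Matrix.SpecialLinearGroup.toGL s) = θ s + θ' s)
    (hw : ∑ u : F, θ (xu u) * ψ (-u) = Fintype.card F) (hw' : ∑ u : F, θ' (xu u) * ψ (-u) = 0)
    (f : F ≃+* F) (s : SL(2, F)) : θ (fS f s) = θ s := by
  have hq : (Fintype.card F : ℂ) ≠ 0 := by
    exact_mod_cast (Nat.lt_trans Nat.zero_lt_one (card_pos1 (F := F))).ne'
  have h1 : ∀ t, θ (fS f t) + θ' (fS f t) = θ t + θ' t := by
    intro t
    rw [← h, ← h, toGL_fS]
    obtain ⟨z, hz⟩ := fu_sq h2 f b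
    have e1 := X_gal hX f (hψf f)
    have e2 := X_tw hX z
    rw [map_zero, hz] at e1
    rw [mul_zero] at e2
    have e3 := congrFun (X_unique hψ e1 e2) (Matrix.SpecialLinearGroup.toGL t)
    change X (fG f (Matrix.SpecialLinearGroup.toGL t)) =
      dt (D.Q z) (Matrix.SpecialLinearGroup.toGL t) * X (Matrix.SpecialLinearGroup.toGL t) at e3
    rw [e3]
    have e4 : dt (D.Q z) (Matrix.SpecialLinearGroup.toGL t) = 1 := by
      unfold dt
      rw [Matrix.SpecialLinearGroup.coe_GL_coe_matrix, t.det_coe, map_one]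
    rw [e4, one_mul]
  have hθf : (fun t => θ (fS f t)) ∈ Irr SL(2, F) := irr_comp (fS f) hθ
  have hθf' : (fun t => θ' (fS f t)) ∈ Irr SL(2, F) := irr_comp (fS f) hθ'
  have hnef : (fun t => θ' (fS f t)) ≠ (fun t => θ (fS f t)) := by
    intro hcon
    apply hne
    funext t
    have h3 := congrFun hcon ((fS f)⁻¹ t)
    change θ' (fS f ((fS f)⁻¹ t)) = θ (fS f ((fS f)⁻¹ t)) at h3
    rw [MulAut.apply_inv_self] at h3
    exact h3.symm
  have h4 : (fun t => θ (fS f t)) + (fun t => θ' (fS f t)) = θ + θ' := by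
    funext t
    exact h1 t
  have h5 : B (θ + θ') (fun t => θ (fS f t)) = 1 := by
    rw [← h4, B_add_left, B_irr_self hθf, B_irr_ne hθf' hθf hnef, add_zero]
  by_cases ha : (fun t => θ (fS f t)) = θ
  · exact congrFun ha s
  · exfalso
    by_cases hb : (fun t => θ (fS f t)) = θ'
    · apply hq
      rw [← hw, ← hw', ← hb]
      have h6 : ∀ u : F, θ (fS f (xu u)) * ψ (-u) = θ (xu (f u)) * ψ (-(f u)) := by
        intro u
        have h7 : fS f (xu u) = xu (f u) := by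
          ext i j
          rw [fS_val, xu_val, xu_val]
          fin_cases i <;> fin_cases j <;> simp
        rw [h7, ← map_neg, hψf]
      change ∑ u : F, θ (xu u) * ψ (-u) = ∑ u : F, θ (fS f (xu u)) * ψ (-u)
      rw [Finset.sum_congr rfl fun u _ => h6 u]
      exact (Equiv.sum_comp f.toEquiv fun u => θ (xu u) * ψ (-u)).symm
    · rw [B_add_left, B_irr_ne hθ hθf (Ne.symm ha), B_irr_ne hθ' hθf (Ne.symm hb), add_zero] at h5
      exact zero_ne_one h5

theorem H_half (hψ : ψ ≠ 1) (hψf : ∀ (f : F ≃+* F) (u : F), ψ (f u) = ψ u) (h2 : (2 : F) ≠ 0)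
    {ν : Fˣ} (hν : ¬ IsSquare ν) {b : Fˣ} {X : GL (Fin 2) F → ℂ} (hX : IsX D hE ψ 0 b X) :
    ∃ θ ∈ Irr SL(2, F),
      (∀ s, X (Matrix.SpecialLinearGroup.toGL s) = θ s + θ (cj (up ν 1 0) s)) ∧
      (∃ s, θ (cj (up ν 1 0) s) ≠ θ s) ∧
      (∀ (g : GL (Fin 2) F) (f : F ≃+* F) (s : SL(2, F)),
        θ (act g f s) = if sqd g = true then θ s else θ (cj (up ν 1 0) s)) ∧
      ∑ u : F, θ (xu u) * ψ (-u) = Fintype.card F ∧
      (∀ s, θ (dd (-1) * s) = D.Q b (-1 : F) * θ s) ∧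
      (2 * θ 1 = Fintype.card F + 1 ∨ 2 * θ 1 = Fintype.card F - 1) := by
  obtain ⟨θ, hθ, θ', hθ', hne, h, hw, hw'⟩ := H_two hψ h2 hX
  have hc := H_conj h2 hν (X_irr hψ hX) hθ hθ' hne h
  have hf := half_f hψ hψf h2 hX hθ hθ' hne h hw hw'
  have hX1 : X 1 ≠ 0 := by
    obtain ⟨n, hn0, hn⟩ := irr_one (X_irr hψ hX)
    rw [hn]
    exact_mod_cast hn0.ne'
  have hm1 : ((-1 : Fˣ)⁻¹ : Fˣ) = -1 := by
    rw [inv_neg, inv_one]
  have hd1 : Matrix.SpecialLinearGroup.toGL (dd (-1 : Fˣ)) = sc (-1 : Fˣ) := by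
    rw [toGL_dd, hm1, sc]
  have hcen : ∀ s : SL(2, F), dd (-1 : Fˣ) * s = s * dd (-1 : Fˣ) := by
    intro s
    apply Matrix.SpecialLinearGroup.toGL_injective
    rw [map_mul, map_mul, hd1, sc_comm]
  refine ⟨θ, hθ, ?_, ?_, ?_, hw, ?_, ?_⟩
  · intro s
    rw [h s, hc s]
  · by_contra hcon
    push Not at hcon
    apply hne
    funext s
    rw [hc s, hcon s]
  · intro g f s
    exact act_formula h2 hν (Irr.isClass hθ) hf g f s
  · let _ : CommGroup ↥(Subgroup.center SL(2, F)) :=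
      { (inferInstance : Group ↥(Subgroup.center SL(2, F))) with
        mul_comm := fun a c => Subtype.ext ((Subgroup.mem_center_iff.1 c.2) a.1) }
    obtain ⟨κ, hκ⟩ := exists_central (C := ↥(Subgroup.center SL(2, F)))
      (Subgroup.center SL(2, F)).subtype (fun c => c.2) hθ
    have hmem : dd (-1 : Fˣ) ∈ Subgroup.center SL(2, F) := by
      rw [Subgroup.mem_center_iff]
      intro s
      exact (hcen s).symm
    have h3 : ∀ s, θ (dd (-1 : Fˣ) * s) = (κ ⟨dd (-1 : Fˣ), hmem⟩ : ℂ) * θ s := fun s =>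
      hκ ⟨dd (-1 : Fˣ), hmem⟩ s
    have h4 : ∀ s, θ' (dd (-1 : Fˣ) * s) = (κ ⟨dd (-1 : Fˣ), hmem⟩ : ℂ) * θ' s := by
      intro s
      rw [hc, hc, map_mul]
      have h5 : cj (up ν 1 0) (dd (-1 : Fˣ)) = dd (-1 : Fˣ) := by
        apply Matrix.SpecialLinearGroup.toGL_injective
        rw [toGL_cj, hd1, ← sc_comm, mul_inv_cancel_right]
      rw [h5, h3]
    have h6 : (κ ⟨dd (-1 : Fˣ), hmem⟩ : ℂ) = D.Q b (-1 : F) := by
      have h7 := X_cen hX (-1 : Fˣ) 1
      have h8 := h (dd (-1 : Fˣ) * 1)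
      rw [h3, h4, ← mul_add, ← h 1, map_mul, map_one, hd1, h7] at h8
      rw [Units.val_neg, Units.val_one] at h8
      exact (mul_right_cancel₀ hX1 h8).symm
    intro s
    rw [h3, h6]
  · have h9 : X 1 = 2 * θ 1 := by
      have h10 := h 1
      rw [map_one, hc 1, map_one] at h10
      rw [h10]
      ring
    rcases X_deg hX with h11 | h11
    · left
      rw [← h9, h11.1]
    · right
      rw [← h9, h11.1]

end Pool.Agent.Helper55.PL
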