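import Pool.Agent.Helper55.PL.Chars

/-!
# PL-01: induced functions

`INC.indHom π F x = |Γ|⁻¹ ∑_{y ∈ G} ∑_{γ ∈ Γ} [π γ = y⁻¹ x y] F γ` (`INC.indHom_eq` is the `Finset`
form, `INC.indHom_isClass`, and Frobenius reciprocity `INC.B_indHom`).

Proofs.
`ind_nat`: `B (indHom π F) χ = B F (χ ∘ π)` and both are characters of `Γ` (`INC.B_char`).
`ind_mul`: if `π γ = y⁻¹ x y` then `η (π γ) = η x`.
`ind_val`: for fixed `γ` the number of `y` with `π γ = y⁻¹ x y` is `0` if `π γ` and `x` are not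
conjugate, otherwise it is the order of the centralizer of `x`: fix `y₀`, then
`π γ = y⁻¹ x y ↔ x = (y y₀⁻¹) x (y y₀⁻¹)⁻¹`.
`ind_none`: by `ind_val`. `ind_central`: `π δ = y⁻¹ (π γ) y = π γ` iff `δ = γ`, for all `y`.
`ind_center_mul`: `π δ = y⁻¹ (π γ) x y = (π γ) y⁻¹ x y` iff `π (γ⁻¹ δ) = y⁻¹ x y`; substitute `δ = γ δ'`.
`ind_aut`: substitute `γ = τ γ'`: if `c` is such that `π (τ γ') = c (σ (π γ')) c⁻¹` then
`π (τ γ') = y⁻¹ (σ x) y ↔ σ (π γ') = (y c)⁻¹ (σ x) (y c)`, so the number of `y` is the number of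
`y'` (`= σ⁻¹ (y c)`) with `π γ' = y'⁻¹ x y'`. Alternatively use `ind_val` twice.
-/

open scoped Classical

namespace Pool.Agent.Helper55.PL

open Pool.Agent.Helper42.INC Pool.Agent.Helper7.MK

variable {Γ G : Type} [Group Γ] [Group G] [Finite Γ] [Finite G] (π : Γ →* G)

private theorem ia_cnt [Fintype Γ] [Fintype G] (F : Γ → ℂ) (x : G) :
    indHom π F x = (Nat.card Γ : ℂ)⁻¹ *
      ∑ γ : Γ, F γ * ((Finset.univ.filter fun y : G => π γ = y⁻¹ * x * y).card : ℂ) := by
  rw [indHom_eq, Finset.sum_comm]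
  congr 1
  refine Finset.sum_congr rfl fun γ _ => ?_
  rw [← Finset.sum_filter, Finset.sum_const, nsmul_eq_mul, mul_comm]

private theorem ia_card [Fintype G] (a x : G) :
    (Finset.univ.filter fun y : G => a = y⁻¹ * x * y).card =
      if IsConj a x then Nat.card {y : G // y * x = x * y} else 0 := by
  split_ifs with h
  · obtain ⟨c, hc⟩ := isConj_iff.1 h
    have h0 : a = c⁻¹ * x * c := by
      rw [← hc]
      group
    rw [Nat.card_eq_fintype_card, ← Fintype.card_coe]
    refine Fintype.card_congr ?_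
    refine
      { toFun := fun y => ⟨y.1 * c⁻¹, ?_⟩
        invFun := fun y => ⟨y.1 * c, ?_⟩
        left_inv := fun y => Subtype.ext (by simp)
        right_inv := fun y => Subtype.ext (by simp) }
    · obtain ⟨y, hy⟩ := y
      have h1 := (Finset.mem_filter.1 hy).2
      show y * c⁻¹ * x = x * (y * c⁻¹)
      have h2 : y⁻¹ * x * y = c⁻¹ * x * c := h1.symm.trans h0
      calc y * c⁻¹ * x = y * (c⁻¹ * x * c) * c⁻¹ := by group
        _ = y * (y⁻¹ * x * y) * c⁻¹ := by rw [← h2]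
        _ = x * (y * c⁻¹) := by group
    · rw [Finset.mem_filter]
      refine ⟨Finset.mem_univ _, ?_⟩
      have h1 := y.2
      have h2 : (y.1)⁻¹ * x * y.1 = x := by
        rw [mul_assoc, ← h1]
        group
      calc a = c⁻¹ * x * c := h0
        _ = c⁻¹ * ((y.1)⁻¹ * x * y.1) * c := by rw [h2]
        _ = _ := by group
  · rw [Finset.card_eq_zero, Finset.filter_eq_empty_iff]
    intro y _ hy
    apply h
    rw [isConj_iff]
    refine ⟨y, ?_⟩
    rw [hy]
    group

theorem ind_nat {F : Γ → ℂ} (hF : IsChar F) {χ : G → ℂ} (hχ : χ ∈ Irr G) :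
    ∃ n : ℕ, B (indHom π F) χ = n := by
  rw [B_indHom π F (Irr.isClass hχ)]
  obtain ⟨V, _, _, _, ρ, rfl⟩ := hF
  obtain ⟨W, _, _, _, σ, _, rfl⟩ := hχ
  exact B_char ρ (MonoidHom.comp σ π : Representation ℂ Γ W)

theorem ind_mul {η : G → ℂ} (hη : IsClass η) (F : Γ → ℂ) (x : G) :
    η x * indHom π F x = indHom π (fun γ => η (π γ) * F γ) x := by
  have := Fintype.ofFinite Γ
  have := Fintype.ofFinite G
  rw [ia_cnt, ia_cnt, mul_left_comm, Finset.mul_sum]
  congr 1
  refine Finset.sum_congr rfl fun γ _ => ?_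
  by_cases h : ∃ y : G, π γ = y⁻¹ * x * y
  · obtain ⟨y, hy⟩ := h
    have h1 : η (π γ) = η x := by
      have h2 := hη y⁻¹ x
      rw [inv_inv] at h2
      rw [hy, h2]
    rw [h1, mul_assoc]
  · have h1 : (Finset.univ.filter fun y : G => π γ = y⁻¹ * x * y).card = 0 := by
      rw [Finset.card_eq_zero, Finset.filter_eq_empty_iff]
      exact fun y _ hy => h ⟨y, hy⟩
    rw [h1]
    simp

theorem ind_val [Fintype Γ] (F : Γ → ℂ) (x : G) :
    indHom π F x = (Nat.card {y : G // y * x = x * y} : ℂ) * (Nat.card Γ : ℂ)⁻¹ *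
      ∑ γ : Γ, if IsConj (π γ) x then F γ else 0 := by
  have := Fintype.ofFinite G
  rw [ia_cnt, mul_comm (Nat.card {y : G // y * x = x * y} : ℂ), mul_assoc]
  congr 1
  rw [Finset.mul_sum]
  refine Finset.sum_congr rfl fun γ _ => ?_
  rw [ia_card]
  split_ifs
  · ring
  · simp

theorem ind_none (F : Γ → ℂ) {x : G} (h : ∀ γ, ¬ IsConj (π γ) x) : indHom π F x = 0 := by
  have := Fintype.ofFinite Γ
  have h1 : ∑ γ : Γ, (if IsConj (π γ) x then F γ else 0) = 0 := by
    refine Finset.sum_eq_zero fun γ _ => ?_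
    rw [if_neg (h γ)]
  rw [ind_val, h1, mul_zero]

theorem ind_central (hπ : Function.Injective π) (F : Γ → ℂ) {γ : Γ}
    (hγ : ∀ y : G, y * π γ = π γ * y) :
    indHom π F (π γ) = (Nat.card G : ℂ) * (Nat.card Γ : ℂ)⁻¹ * F γ := by
  have := Fintype.ofFinite Γ
  have := Fintype.ofFinite G
  have h1 : ∀ y : G, y⁻¹ * π γ * y = π γ := fun y => by
    rw [mul_assoc, ← hγ y]
    group
  rw [ia_cnt, Finset.sum_eq_single γ]
  · have h2 : (Finset.univ.filter fun y : G => π γ = y⁻¹ * π γ * y) = Finset.univ :=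
      Finset.filter_true_of_mem fun y _ => (h1 y).symm
    rw [h2, Finset.card_univ, ← Nat.card_eq_fintype_card]
    ring
  · intro δ _ hδ
    have h2 : (Finset.univ.filter fun y : G => π δ = y⁻¹ * π γ * y).card = 0 := by
      rw [Finset.card_eq_zero, Finset.filter_eq_empty_iff]
      intro y _ hy
      rw [h1] at hy
      exact hδ (hπ hy)
    rw [h2]
    simp
  · intro h
    exact absurd (Finset.mem_univ γ) h

theorem ind_center_mul (F : Γ → ℂ) {γ : Γ} {c : ℂ} (hγ : ∀ y : G, y * π γ = π γ * y)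
    (hF : ∀ δ, F (γ * δ) = c * F δ) (x : G) : indHom π F (π γ * x) = c * indHom π F x := by
  have := Fintype.ofFinite Γ
  have := Fintype.ofFinite G
  rw [ia_cnt, ia_cnt, mul_left_comm]
  congr 1
  rw [Finset.mul_sum]
  refine (Equiv.sum_comp (Equiv.mulLeft γ) (fun δ => F δ *
    ((Finset.univ.filter fun y : G => π δ = y⁻¹ * (π γ * x) * y).card : ℂ))).symm.trans ?_
  refine Finset.sum_congr rfl fun δ _ => ?_
  rw [Equiv.coe_mulLeft, hF, mul_assoc]
  have h1 : (Finset.univ.filter fun y : G => π (γ * δ) = y⁻¹ * (π γ * x) * y) =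
      Finset.univ.filter fun y : G => π δ = y⁻¹ * x * y := by
    refine Finset.filter_congr fun y _ => ?_
    have h2 : y⁻¹ * (π γ * x) * y = π γ * (y⁻¹ * x * y) := by
      rw [← mul_assoc y⁻¹, hγ y⁻¹]
      group
    rw [h2, map_mul, mul_right_inj]
  rw [h1]

theorem ind_aut (σ : MulAut G) (τ : Γ ≃ Γ) (h : ∀ γ, IsConj (σ (π γ)) (π (τ γ)))
    (F : Γ → ℂ) (x : G) : indHom π F (σ x) = indHom π (fun γ => F (τ γ)) x := by
  have := Fintype.ofFinite Γ
  have := Fintype.ofFinite G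
  have h1 : Nat.card {y : G // y * σ x = σ x * y} = Nat.card {y : G // y * x = x * y} := by
    refine Nat.card_congr ?_
    refine
      { toFun := fun y => ⟨σ.symm y.1, ?_⟩
        invFun := fun y => ⟨σ y.1, ?_⟩
        left_inv := fun y => Subtype.ext (by simp)
        right_inv := fun y => Subtype.ext (by simp) }
    · apply σ.injective
      rw [map_mul, map_mul, MulEquiv.apply_symm_apply]
      exact y.2
    · rw [← map_mul, ← map_mul, y.2]
  rw [ind_val, ind_val, h1]
  congr 1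
  rw [← Equiv.sum_comp τ]
  refine Finset.sum_congr rfl fun γ _ => ?_
  have h2 : IsConj (π (τ γ)) (σ x) ↔ IsConj (π γ) x := by
    constructor
    · intro h3
      obtain ⟨c, hc⟩ := isConj_iff.1 ((h γ).trans h3)
      rw [isConj_iff]
      refine ⟨σ.symm c, ?_⟩
      apply σ.injective
      rw [map_mul, map_mul, map_inv, MulEquiv.apply_symm_apply]
      exact hc
    · intro h3
      obtain ⟨c, hc⟩ := isConj_iff.1 h3
      refine (h γ).symm.trans ?_
      rw [isConj_iff]
      refine ⟨σ c, ?_⟩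
      rw [← hc, map_mul, map_mul, map_inv]
  by_cases h3 : IsConj (π γ) x
  · rw [if_pos h3, if_pos (h2.2 h3)]
  · rw [if_neg h3, if_neg fun h4 => h3 (h2.1 h4)]

end Pool.Agent.Helper55.PL
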