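import Pool.Agent.Helper55.PL.Chars

/-!
# PL-02: class functions with integral coefficients

Proofs. Write `f = ∑ (B f χ) χ` (`INC.expand`), then `B f f = ∑ (B f χ)²` (`INC.B_sum_left`,
`INC.B_smul_left`, `INC.B_symm`; see the proof of `INC.irr_of_norm_one` in
`Pool/Agent/Helper42/INC/Basic.lean`).
`irr_of_int`: `∑ n_χ² = 1` with `n_χ` integers, so exactly one `n_χ` is `± 1` and the others are `0`,
`f = ± χ`, and `f 1 > 0` excludes the minus sign (`INC.irr_one`).
`two_irr`: `∑ n_χ² = 2` with `n_χ` natural numbers: exactly two are `1`.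
`irr_lin`, `isChar_lin`: the representation on `ℂ` by multiplication; one dimensional, so
irreducible (`INC.isIrreducible_iff`).
`isChar_irr`: by definition. `B_nat`: `INC.B_char`.
-/

namespace Pool.Agent.Helper55.PL

open Pool.Agent.Helper42.INC Pool.Agent.Helper7.MK

variable {G : Type} [Group G] [Finite G]

theorem irr_of_int {f : G → ℂ} (hf : IsClass f) (hn : ∀ χ ∈ Irr G, ∃ n : ℤ, B f χ = n)
    (h1 : B f f = 1) {d : ℕ} (hd : f 1 = d) : f ∈ Irr G := by
  classical
  have := Fintype.ofFinite (Irr G)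
  have hexp := expand f hf
  choose n hn' using fun χ : Irr G => hn χ.1 χ.2
  have hsum : ∑ χ : Irr G, (n χ) ^ 2 = 1 := by
    have h2 : B f f = ∑ χ : Irr G, B f χ.1 * B f χ.1 := by
      nth_rewrite 1 [hexp]
      rw [B_sum_left]
      apply Finset.sum_congr rfl
      intro χ _
      rw [B_smul_left, B_symm χ.1 f]
    rw [h1] at h2
    have h3 : ((∑ χ : Irr G, (n χ) ^ 2 : ℤ) : ℂ) = 1 := by
      push_cast
      rw [h2]
      apply Finset.sum_congr rfl
      intro χ _
      rw [hn', sq]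
    exact_mod_cast h3
  obtain ⟨χ₀, hχ₀⟩ : ∃ χ : Irr G, n χ ≠ 0 := by
    by_contra hcon
    push Not at hcon
    simp [hcon] at hsum
  have hpos : ∀ χ : Irr G, n χ ≠ 0 → 1 ≤ (n χ) ^ 2 := by
    intro χ h0
    have : 0 < (n χ) ^ 2 := by positivity
    omega
  have hle : ∀ χ : Irr G, χ ≠ χ₀ → n χ = 0 := by
    intro χ hne
    by_contra h0
    have h2 : (n χ) ^ 2 + (n χ₀) ^ 2 ≤ ∑ χ : Irr G, (n χ) ^ 2 := by
      rw [← Finset.sum_pair hne (f := fun χ => (n χ) ^ 2)]
      exact Finset.sum_le_sum_of_subset_of_nonneg (Finset.subset_univ _)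
        (fun _ _ _ => sq_nonneg _)
    have h3 := hpos χ h0
    have h4 := hpos χ₀ hχ₀
    omega
  have hf' : f = (n χ₀ : ℂ) • χ₀.1 := by
    nth_rewrite 1 [hexp]
    rw [Finset.sum_eq_single χ₀]
    · rw [hn']
    · intro χ _ hne; rw [hn', hle χ hne]; simp
    · intro h; exact absurd (Finset.mem_univ _) h
  have hsq : (n χ₀) ^ 2 = 1 := by
    rw [Finset.sum_eq_single χ₀] at hsum
    · exact hsum
    · intro χ _ hne; rw [hle χ hne]; rfl
    · intro h; exact absurd (Finset.mem_univ _) h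
  obtain ⟨m, hm0, hm⟩ := irr_one χ₀.2
  have hsq' : n χ₀ * n χ₀ = 1 := by rw [← sq]; exact hsq
  rcases mul_self_eq_one_iff.1 hsq' with h | h
  · rw [hf', h]; simp
  · exfalso
    have h5 := congrFun hf' 1
    rw [hd, h, Pi.smul_apply, hm] at h5
    have h6 : ((d : ℤ) : ℂ) = ((-(m : ℤ) : ℤ) : ℂ) := by
      push_cast
      rw [h5]; simp
    have h7 : (d : ℤ) = -(m : ℤ) := by exact_mod_cast h6
    omega

theorem two_irr {f : G → ℂ} (hf : IsClass f) (hn : ∀ χ ∈ Irr G, ∃ n : ℕ, B f χ = n)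
    (h2 : B f f = 2) : ∃ χ ∈ Irr G, ∃ χ' ∈ Irr G, χ ≠ χ' ∧ f = χ + χ' := by
  classical
  have := Fintype.ofFinite (Irr G)
  have hexp := expand f hf
  choose n hn' using fun χ : Irr G => hn χ.1 χ.2
  have hsum : ∑ χ : Irr G, (n χ) ^ 2 = 2 := by
    have h3 : B f f = ∑ χ : Irr G, B f χ.1 * B f χ.1 := by
      nth_rewrite 1 [hexp]
      rw [B_sum_left]
      apply Finset.sum_congr rfl
      intro χ _
      rw [B_smul_left, B_symm χ.1 f]
    rw [h2] at h3
    have h4 : ((∑ χ : Irr G, (n χ) ^ 2 : ℕ) : ℂ) = 2 := by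
      push_cast
      rw [h3]
      apply Finset.sum_congr rfl
      intro χ _
      rw [hn', sq]
    exact_mod_cast h4
  have hle1 : ∀ χ : Irr G, n χ ≤ 1 := by
    intro χ
    by_contra hcon
    have h3 : (n χ) ^ 2 ≤ ∑ χ : Irr G, (n χ) ^ 2 :=
      Finset.single_le_sum (f := fun χ => (n χ) ^ 2) (fun _ _ => Nat.zero_le _)
        (Finset.mem_univ χ)
    have h4 : 2 ≤ n χ := by omega
    nlinarith
  have hsq : ∀ χ : Irr G, (n χ) ^ 2 = n χ := by
    intro χ
    have := hle1 χ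
    interval_cases n χ <;> rfl
  have hsum' : ∑ χ : Irr G, n χ = 2 := by
    rw [← hsum]
    exact Finset.sum_congr rfl (fun χ _ => (hsq χ).symm)
  set s : Finset (Irr G) := Finset.univ.filter (fun χ => n χ = 1) with hs
  have hcard : s.card = 2 := by
    rw [hs, Finset.card_filter, ← hsum']
    apply Finset.sum_congr rfl
    intro χ _
    have := hle1 χ
    split_ifs with h
    · exact h.symm
    · omega
  obtain ⟨a, b, hab, hsab⟩ := Finset.card_eq_two.1 hcard
  refine ⟨a.1, a.2, b.1, b.2, fun he => hab (Subtype.ext he), ?_⟩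
  have ha : n a = 1 := by
    have : a ∈ s := by rw [hsab]; simp
    rw [hs, Finset.mem_filter] at this
    exact this.2
  have hb : n b = 1 := by
    have : b ∈ s := by rw [hsab]; simp
    rw [hs, Finset.mem_filter] at this
    exact this.2
  have h0 : ∀ χ : Irr G, χ ∉ s → n χ = 0 := by
    intro χ hχ
    rw [hs, Finset.mem_filter] at hχ
    have := hle1 χ
    have h3 : n χ ≠ 1 := fun h => hχ ⟨Finset.mem_univ _, h⟩
    omega
  calc f = ∑ χ : Irr G, B f χ.1 • χ.1 := hexp
    _ = ∑ χ ∈ s, B f χ.1 • χ.1 := by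
        symm
        apply Finset.sum_subset (Finset.subset_univ _)
        intro χ _ hχ
        rw [hn', h0 χ hχ]; simp
    _ = a.1 + b.1 := by
        rw [hsab, Finset.sum_pair hab, hn', hn', ha, hb]; simp

omit [Finite G] in
theorem irr_lin {f : G → ℂ} (h1 : f 1 = 1) (hm : ∀ a b, f (a * b) = f a * f b) : f ∈ Irr G := by
  let ρ : Representation ℂ G ℂ :=
    { toFun := fun g => f g • (LinearMap.id : ℂ →ₗ[ℂ] ℂ)
      map_one' := by rw [h1, one_smul]; rfl
      map_mul' := fun a b => by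
        ext
        simp [hm, mul_comm] }
  refine ⟨ℂ, inferInstance, inferInstance, inferInstance, ρ, ?_, ?_⟩
  · rw [isIrreducible_iff]
    refine ⟨inferInstance, fun W _ => ?_⟩
    exact eq_bot_or_eq_top W
  · funext g
    show f g = LinearMap.trace ℂ ℂ (ρ g)
    show f g = LinearMap.trace ℂ ℂ (f g • (LinearMap.id : ℂ →ₗ[ℂ] ℂ))
    rw [map_smul, LinearMap.trace_id]
    simp

omit [Finite G] in
theorem isChar_irr {f : G → ℂ} (h : f ∈ Irr G) : IsChar f := by
  obtain ⟨V, _, _, _, ρ, _, rfl⟩ := h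
  exact ⟨V, _, _, inferInstance, ρ, rfl⟩

theorem B_nat {f f' : G → ℂ} (h : IsChar f) (h' : IsChar f') : ∃ n : ℕ, B f f' = n := by
  obtain ⟨V, _, _, _, ρ, rfl⟩ := h
  obtain ⟨W, _, _, _, σ, rfl⟩ := h'
  exact B_char ρ σ

theorem irr_eq {χ χ' : G → ℂ} (h : χ ∈ Irr G) (h' : χ' ∈ Irr G) (hB : B χ χ' ≠ 0) : χ = χ' := by
  by_contra hne
  exact hB (B_irr_ne h h' hne)

end Pool.Agent.Helper55.PL
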