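import Pool.Agent.Helper55.PL.PrnVal
import Pool.Agent.Helper55.PL.CspVal
import Pool.Agent.Helper55.PL.IntA

/-!
# PL-10: orthogonality relations with principal series

`B f g = |G|⁻¹ ∑ f(x) g(x⁻¹)` is symmetric (`INC.B_symm`), so by Frobenius reciprocity (`INC.B_indHom`)
`B (prn μ ν) Y = |BG|⁻¹ ∑_{x, y, u} μ(x)⁻¹ ν(y)⁻¹ Y(up x y u)` (`bg_frob`) for class functions `Y`: the
diagonal entries of the inverse of `up x y u` are `x⁻¹, y⁻¹`. Now insert the values of `Y`, with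
`sum_BG`, `card_BG` and `∑_x χ(x) = 0` for `χ ≠ 1` (`MulChar.sum_eq_zero_of_ne_one`):
`prn_prn`: `∑ = q ∑_{x ≠ y} μ̄(x) ν̄(y) (μ'(x) ν'(y) + μ'(y) ν'(x)) + ∑_x ((q + 1) + (q - 1)) (μ̄ ν̄ μ' ν')(x)`
  `= q ∑_{x, y} μ̄(x) ν̄(y) (μ'(x) ν'(y) + μ'(y) ν'(x))`.
`prn_csp`: `∑_x (μ̄ ν̄ θ)(x) ((q - 1) - (q - 1)) = 0`.
`prn_dt`: `q ∑_x (μ̄ β)(x) ∑_y (ν̄ β)(y)`.
`dt_dt`: `dt β` and `dt β'` are linear characters of `GL₂(F)` (`irr_lin`, `INC.B_irr`), equal iff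
`β = β'` (`det (up x 1 0) = x`).
`prn_irr`: `prn_nat`, `prn_prn`, `INC.irr_of_norm_one`. `prn_comm`: both are irreducible and
`B (prn μ ν) (prn ν μ) = 1` (`irr_eq`).
-/

open Matrix
open scoped MatrixGroups Classical

set_option linter.unusedSectionVars false

namespace Pool.Agent.Helper55.PL

open Pool.Agent.Helper42.INC Pool.Agent.Helper7.MK

variable {F E : Type} [Field F] [Fintype F] [DecidableEq F] [Field E] [Fintype E] [DecidableEq E]
  [Algebra F E] (hE : Module.finrank F E = 2) {ψ : AddChar F ℂ}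

theorem oa_inv (μ : MulChar F ℂ) (x : Fˣ) : μ ((x⁻¹ : Fˣ) : F) = (μ x)⁻¹ := by
  apply eq_inv_of_mul_eq_one_left
  rw [← map_mul, ← Units.val_mul, inv_mul_cancel, Units.val_one, map_one]

theorem oa_ne (μ : MulChar F ℂ) (x : Fˣ) : μ (x : F) ≠ 0 := by
  intro h
  have h1 := oa_inv μ x⁻¹
  have h2 : μ ((x⁻¹ : Fˣ) : F) * μ (x : F) = 1 := by
    rw [← map_mul, ← Units.val_mul, inv_mul_cancel, Units.val_one, map_one]
  rw [h, mul_zero] at h2
  exact zero_ne_one h2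

/-- orthogonality of the multiplicative characters -/
theorem oa_orth (α β : MulChar F ℂ) :
    ∑ x : Fˣ, (α x)⁻¹ * β x = if α = β then (Fintype.card F - 1 : ℂ) else 0 := by
  split_ifs with h
  · subst h
    rw [Finset.sum_congr rfl fun x _ => inv_mul_cancel₀ (oa_ne α x), Finset.sum_const,
      Finset.card_univ, nsmul_eq_mul, mul_one, card_units']
  · set f : Fˣ →* ℂ := (Units.coeHom ℂ).comp ((MulChar.toUnitHom α)⁻¹ * MulChar.toUnitHom β)
      with hf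
    have hfx : ∀ x : Fˣ, f x = (α x)⁻¹ * β x := by
      intro x
      rw [hf, MonoidHom.comp_apply, MonoidHom.mul_apply, MonoidHom.inv_apply, Units.coeHom_apply,
        Units.val_mul, Units.val_inv_eq_inv_val, MulChar.coe_toUnitHom, MulChar.coe_toUnitHom]
    rw [← Finset.sum_congr rfl fun x _ => hfx x]
    apply sum_hom_units_eq_zero
    intro h1
    apply h
    apply MulChar.ext
    intro x
    have h2 := hfx x
    rw [h1, MonoidHom.one_apply] at h2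
    have h3 := oa_ne α x
    field_simp at h2
    exact h2

theorem oa_sum_u (Y : GL (Fin 2) F → ℂ) (x y : Fˣ) (a b : ℂ) (h0 : Y (up x y 0) = a)
    (h1 : ∀ u : F, u ≠ 0 → Y (up x y u) = b) :
    ∑ u : F, Y (up x y u) = a + (Fintype.card F - 1) * b := by
  rw [← Finset.add_sum_erase Finset.univ _ (Finset.mem_univ (0 : F)), h0]
  congr 1
  rw [Finset.sum_congr rfl fun u hu => h1 u (Finset.ne_of_mem_erase hu), Finset.sum_const,
    Finset.card_erase_of_mem (Finset.mem_univ _), Finset.card_univ, nsmul_eq_mul,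
    Nat.cast_sub (Nat.one_le_of_lt card_pos1), Nat.cast_one]

theorem oa_ite (P Q : Prop) (iP : Decidable P) (iQ : Decidable Q) (iR : Decidable (P ∧ Q))
    (c : ℂ) : (@ite ℂ P iP c 0) * (@ite ℂ Q iQ c 0) = c ^ 2 * (@ite ℂ (P ∧ Q) iR 1 0) := by
  by_cases hP : P
  · by_cases hQ : Q
    · simp [hP, hQ, sq]
    · simp [hQ]
  · simp [hP]

theorem oa_factor (a b c d : Fˣ → ℂ) :
    ∑ x : Fˣ, ∑ y : Fˣ, a x * b y * (c x * d y) = (∑ x : Fˣ, a x * c x) * ∑ y : Fˣ, b y * d y := by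
  rw [Finset.sum_mul_sum]
  refine Finset.sum_congr rfl fun x _ => Finset.sum_congr rfl fun y _ => ?_
  ring

theorem oa_card_ne : (Fintype.card F : ℂ) * (Fintype.card F - 1) ^ 2 ≠ 0 := by
  have h1 : 1 < Fintype.card F := card_pos1
  have h2 : (Fintype.card F : ℂ) - 1 ≠ 0 := by
    rw [sub_ne_zero]
    exact_mod_cast h1.ne'
  have h3 : (Fintype.card F : ℂ) ≠ 0 := by
    exact_mod_cast (by omega : Fintype.card F ≠ 0)
  exact mul_ne_zero h3 (pow_ne_zero _ h2)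

theorem bg_frob (μ ν : MulChar F ℂ) {Y : GL (Fin 2) F → ℂ} (hY : IsClass Y) :
    (Nat.card (BG F) : ℂ) * B (prn μ ν) Y =
      ∑ x : Fˣ, ∑ y : Fˣ, ∑ u : F, (μ x)⁻¹ * (ν y)⁻¹ * Y (up x y u) := by
  have := Fintype.ofFinite (BG F)
  have h0 : (Nat.card (BG F) : ℂ) ≠ 0 := by
    rw [card_BG]
    exact oa_card_ne
  rw [prn, B_indHom (BG F).subtype (lin μ ν) hY, B_symm, B_eq, mul_inv_cancel_left₀ h0, sum_BG]
  refine Finset.sum_congr rfl fun x _ => Finset.sum_congr rfl fun y _ =>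
    Finset.sum_congr rfl fun u _ => ?_
  have h1 : lin μ ν (eqBG F (x, y, u))⁻¹ = (μ x)⁻¹ * (ν y)⁻¹ := by
    rw [← oa_inv, ← oa_inv]
    rfl
  rw [h1, mul_comm]
  rfl

/-- `bg_frob` with the sum over `u` evaluated -/
theorem oa_frob (μ ν : MulChar F ℂ) {Y : GL (Fin 2) F → ℂ} (hY : IsClass Y) (W : Fˣ → Fˣ → ℂ)
    (hW : ∀ x y, ∑ u : F, Y (up x y u) = Fintype.card F * W x y) :
    (Fintype.card F - 1 : ℂ) ^ 2 * B (prn μ ν) Y =
      ∑ x : Fˣ, ∑ y : Fˣ, (μ x)⁻¹ * (ν y)⁻¹ * W x y := by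
  have h0 : (Fintype.card F : ℂ) ≠ 0 := left_ne_zero_of_mul (oa_card_ne (F := F))
  apply mul_left_cancel₀ h0
  rw [← mul_assoc, ← card_BG, bg_frob μ ν hY, Finset.mul_sum]
  refine Finset.sum_congr rfl fun x _ => ?_
  rw [Finset.mul_sum]
  refine Finset.sum_congr rfl fun y _ => ?_
  rw [← Finset.mul_sum, hW]
  ring

theorem prn_prn (μ ν μ' ν' : MulChar F ℂ) : B (prn μ ν) (prn μ' ν') =
    (if μ = μ' ∧ ν = ν' then 1 else 0) + (if μ = ν' ∧ ν = μ' then 1 else 0) := by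
  have hW : ∀ x y : Fˣ, ∑ u : F, prn μ' ν' (up x y u) =
      Fintype.card F * (μ' x * ν' y + ν' x * μ' y) := by
    intro x y
    by_cases h : x = y
    · subst h
      rw [oa_sum_u (prn μ' ν') x x _ _ (prn_sc μ' ν' x) fun u hu => prn_un μ' ν' x hu]
      ring
    · rw [oa_sum_u (prn μ' ν') x y _ _ (prn_sp μ' ν' h 0) fun u _ => prn_sp μ' ν' h u]
      ring
  have h1 := oa_frob μ ν (prn_class μ' ν') _ hW
  have h2 : ∑ x : Fˣ, ∑ y : Fˣ, (μ x)⁻¹ * (ν y)⁻¹ * (μ' x * ν' y + ν' x * μ' y) =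
      (∑ x : Fˣ, (μ x)⁻¹ * μ' x) * (∑ y : Fˣ, (ν y)⁻¹ * ν' y) +
      (∑ x : Fˣ, (μ x)⁻¹ * ν' x) * (∑ y : Fˣ, (ν y)⁻¹ * μ' y) := by
    rw [← oa_factor, ← oa_factor, ← Finset.sum_add_distrib]
    refine Finset.sum_congr rfl fun x _ => ?_
    rw [← Finset.sum_add_distrib]
    refine Finset.sum_congr rfl fun y _ => ?_
    ring
  rw [h2, oa_orth, oa_orth, oa_orth, oa_orth] at h1
  have h3 : (Fintype.card F - 1 : ℂ) ^ 2 ≠ 0 := right_ne_zero_of_mul (oa_card_ne (F := F))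
  apply mul_left_cancel₀ h3
  rw [h1, mul_add]
  exact congrArg₂ (· + ·) (oa_ite _ _ _ _ _ _) (oa_ite _ _ _ _ _ _)

theorem prn_csp (hψ : ψ ≠ 1) (μ ν : MulChar F ℂ) (θ : MulChar E ℂ) :
    B (prn μ ν) (csp hE ψ θ) = 0 := by
  have hW : ∀ x y : Fˣ, ∑ u : F, csp hE ψ θ (up x y u) = Fintype.card F * 0 := by
    intro x y
    by_cases h : x = y
    · subst h
      rw [oa_sum_u (csp hE ψ θ) x x _ _ (csp_sc hE ψ θ x) fun u hu => csp_un hE hψ θ x hu]
      ring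
    · rw [oa_sum_u (csp hE ψ θ) x y _ _ (csp_sp hE ψ θ h 0) fun u _ => csp_sp hE ψ θ h u]
      ring
  have h1 := oa_frob μ ν (csp_class hE ψ θ) (fun _ _ => 0) hW
  have h3 : (Fintype.card F - 1 : ℂ) ^ 2 ≠ 0 := right_ne_zero_of_mul (oa_card_ne (F := F))
  apply mul_left_cancel₀ h3
  rw [h1]
  simp

theorem dt_irr (β : MulChar F ℂ) : dt β ∈ Irr (GL (Fin 2) F) := by
  apply irr_lin
  · simp [dt]
  · intro a b
    simp [dt, Matrix.det_mul]

theorem oa_dt_up (β : MulChar F ℂ) (x y : Fˣ) (u : F) : dt β (up x y u) = β x * β y := by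
  rw [dt, up_val, Matrix.det_fin_two, ← map_mul]
  simp

theorem prn_dt (μ ν β : MulChar F ℂ) : B (prn μ ν) (dt β) = if μ = β ∧ ν = β then 1 else 0 := by
  have hW : ∀ x y : Fˣ, ∑ u : F, dt β (up x y u) = Fintype.card F * (β x * β y) := by
    intro x y
    rw [Finset.sum_congr rfl fun u _ => oa_dt_up β x y u, Finset.sum_const, Finset.card_univ,
      nsmul_eq_mul]
  have h1 := oa_frob μ ν (Irr.isClass (dt_irr β)) _ hW
  rw [oa_factor, oa_orth, oa_orth] at h1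
  have h3 : (Fintype.card F - 1 : ℂ) ^ 2 ≠ 0 := right_ne_zero_of_mul (oa_card_ne (F := F))
  apply mul_left_cancel₀ h3
  rw [h1]
  exact oa_ite _ _ _ _ _ _

theorem dt_dt (β β' : MulChar F ℂ) : B (dt β) (dt β') = if β = β' then 1 else 0 := by
  rw [B_irr (dt_irr β) (dt_irr β')]
  by_cases h : β = β'
  · rw [if_pos h, if_pos (by rw [h])]
  · rw [if_neg h, if_neg]
    intro h1
    apply h
    apply MulChar.ext
    intro x
    have h2 := congrFun h1 (up x 1 0)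
    rw [oa_dt_up, oa_dt_up] at h2
    simpa using h2

theorem prn_irr {μ ν : MulChar F ℂ} (h : μ ≠ ν) : prn μ ν ∈ Irr (GL (Fin 2) F) := by
  apply irr_of_norm_one _ (prn_class μ ν) (fun χ hχ => prn_nat μ ν hχ)
  rw [prn_prn, if_pos ⟨rfl, rfl⟩, if_neg fun h1 => h h1.1, add_zero]

theorem prn_comm (μ ν : MulChar F ℂ) : prn μ ν = prn ν μ := by
  by_cases h : μ = ν
  · rw [h]
  · apply irr_eq (prn_irr h) (prn_irr (Ne.symm h))
    rw [prn_prn, if_neg fun h1 => h h1.1, if_pos ⟨rfl, rfl⟩, zero_add]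
    exact one_ne_zero

end Pool.Agent.Helper55.PL
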