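import Pool.Agent.Helper55.PL.CspVal
import Pool.Agent.Helper55.PL.IntA

/-!
# PL-11: orthogonality relations of the cuspidal characters

`csp hE ψ θ = indHom zu (whi ψ (resc F θ)) - indHom (emb hE) θ`. By Frobenius reciprocity
(`INC.B_indHom`, `INC.B_sub_left`, `INC.B_symm`), for a class function `Y`:
`B (csp θ) Y = (q (q - 1))⁻¹ ∑_{z, u} θ(z)⁻¹ ψ(-u) Y(z x(u)) - (q² - 1)⁻¹ ∑_ζ θ(ζ)⁻¹ Y(emb ζ)` (`csp_frob`).

Proofs. `csp_csp`: insert the values of `Y = csp θ'` (`csp_sc`, `csp_un`, `csp_el`; `emb ζ = sc z` for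
`ζ = iu z`, `fix_iff`). With `r = (q - 1)⁻¹ ∑_{z ∈ Fˣ} (θ̄ θ')(z)`: the first sum is
`(q (q - 1))⁻¹ ∑_z (θ̄ θ')(z) ((q - 1) - ∑_{u ≠ 0} ψ(-u)) = r`, because `∑_{u ≠ 0} ψ(-u) = -1`;
the second is `(q² - 1)⁻¹ ((q - 1) (q - 1) r - ∑_{ζ ∉ F} θ̄(ζ) (θ'(ζ) + θ'^q(ζ)))`, and
`∑_{ζ ∉ F} = (q² - 1) ([θ = θ'] + [θ = θ'^q]) - 2 (q - 1) r` (`θ'^q` and `θ'` agree on `Fˣ`), so it is
`r - [θ = θ'] - [θ = θ'^q]` as `(q - 1)² + 2 (q - 1) = q² - 1`. Finally `θ = θ'^q ↔ θ^q = θ'`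
(`pow_q_q`: `θ^(q²) = θ`).
`csp_dt`: the first sum is `0` (`∑_u ψ(-u) = 0`); the second is `(q² - 1)⁻¹ ∑_ζ θ̄(ζ) β(N ζ) = 0` because
`θ ≠ β ∘ N` (`(β ∘ N)^q = β ∘ N` by `nu_pow`).
`csp_irr`: `irr_of_int` with `csp_int`, `csp_csp` (`θ ≠ θ^q`) and `csp 1 = q - 1` (`csp_sc` with `z = 1`).
`csp_comm`: both are irreducible and `B (csp θ) (csp (θ^q)) = 1` (`irr_eq`).
-/

open Matrix
open scoped MatrixGroups Classical

set_option linter.unusedSectionVars false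

namespace Pool.Agent.Helper55.PL

open Pool.Agent.Helper42.INC Pool.Agent.Helper7.MK

variable {F E : Type} [Field F] [Fintype F] [DecidableEq F] [Field E] [Fintype E] [DecidableEq E]
  [Algebra F E] (hE : Module.finrank F E = 2) {ψ : AddChar F ℂ}

/-- the value of a character at the inverse of a unit -/
theorem ob_mc_inv {K : Type} [Field K] (χ : MulChar K ℂ) (z : Kˣ) :
    χ ((z⁻¹ : Kˣ) : K) = (χ z)⁻¹ := map_units_inv χ z

/-- orthogonality of multiplicative characters -/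
theorem ob_sum_mc {K : Type} [Field K] [Fintype K] [DecidableEq K] (χ χ' : MulChar K ℂ) :
    ∑ ζ : Kˣ, (χ ζ)⁻¹ * χ' ζ = if χ = χ' then (Fintype.card Kˣ : ℂ) else 0 := by
  have h1 : ∀ ζ : Kˣ, (χ ζ)⁻¹ * χ' ζ = ((χ⁻¹ * χ').toMonoidHom.comp (Units.coeHom K)) ζ := by
    intro ζ
    rw [MonoidHom.comp_apply]
    change (χ ζ)⁻¹ * χ' ζ = (χ⁻¹ * χ') (ζ : K)
    rw [MulChar.coeToFun_mul, Pi.mul_apply, MulChar.inv_apply_eq_inv']
  rw [Finset.sum_congr rfl fun ζ _ => h1 ζ, sum_hom_units]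
  have h2 : ((χ⁻¹ * χ').toMonoidHom.comp (Units.coeHom K)) = 1 ↔ χ = χ' := by
    constructor
    · intro h
      have h3 : χ⁻¹ * χ' = 1 := by
        apply MulChar.ext
        intro a
        have h4 := DFunLike.congr_fun h a
        rw [MonoidHom.comp_apply, MonoidHom.one_apply] at h4
        change (χ⁻¹ * χ') (a : K) = 1 at h4
        rw [h4, MulChar.one_apply_coe]
      exact inv_mul_eq_one.1 h3
    · intro h
      rw [h, inv_mul_cancel]
      apply MonoidHom.ext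
      intro a
      rw [MonoidHom.comp_apply, MonoidHom.one_apply]
      change (1 : MulChar K ℂ) (a : K) = 1
      rw [MulChar.one_apply_coe]
  by_cases h : χ = χ'
  · rw [if_pos (h2.2 h), if_pos h]
  · rw [if_neg (fun h' => h (h2.1 h')), if_neg h, Nat.cast_zero]

theorem csp_frob (ψ : AddChar F ℂ) (θ : MulChar E ℂ) {Y : GL (Fin 2) F → ℂ} (hY : IsClass Y) :
    B (csp hE ψ θ) Y =
      ((Fintype.card F : ℂ) * (Fintype.card F - 1))⁻¹ *
        (∑ z : Fˣ, ∑ u : F, (θ (iu F E z))⁻¹ * ψ (-u) * Y (up z z (z * u))) -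
      ((Fintype.card F : ℂ) ^ 2 - 1)⁻¹ * ∑ ζ : Eˣ, (θ ζ)⁻¹ * Y (emb hE ζ) := by
  unfold csp
  rw [B_sub_left, B_indHom _ _ hY, B_indHom _ _ hY, B_symm (whi ψ (resc F θ)),
    B_symm (fun ζ : Eˣ => θ ζ), B_eq, B_eq, card_zu]
  congr 1
  · congr 1
    rw [Fintype.sum_prod_type]
    refine Finset.sum_congr rfl fun z _ => ?_
    refine Fintype.sum_equiv (Multiplicative.toAdd (α := F)) _ _ fun u => ?_
    rw [zu_apply]
    unfold whi
    rw [Prod.fst_inv, Prod.snd_inv, toAdd_inv, ob_mc_inv, resc_apply]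
    ring
  · have h2 : ((Nat.card Eˣ : ℕ) : ℂ) = (Fintype.card F : ℂ) ^ 2 - 1 := by
      rw [Nat.card_eq_fintype_card, Fintype.card_units, Nat.cast_sub Fintype.card_pos,
        card_E hE]
      push_cast
      ring
    rw [h2]
    congr 1
    refine Finset.sum_congr rfl fun ζ _ => ?_
    rw [ob_mc_inv]
    ring

theorem ob_sum_psi_neg (hψ : ψ ≠ 1) : ∑ u : F, ψ (-u) = 0 := by
  have h := sum_psi hψ (r := (-1 : F)) (neg_ne_zero.2 one_ne_zero)
  simpa using h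

theorem ob_mc_pow_pow (hE : Module.finrank F E = 2) (θ : MulChar E ℂ) :
    (θ ^ Fintype.card F) ^ Fintype.card F = θ := by
  apply MulChar.ext
  intro a
  rw [← pow_mul, MulChar.pow_apply_coe, ← map_pow, pow_mul, pow_q_q hE]

theorem csp_csp (hψ : ψ ≠ 1) (θ θ' : MulChar E ℂ) : B (csp hE ψ θ) (csp hE ψ θ') =
    (if θ = θ' then 1 else 0) + (if θ ^ Fintype.card F = θ' then 1 else 0) := by
  rw [csp_frob hE ψ θ (csp_class hE ψ θ')]
  set q : ℂ := (Fintype.card F : ℂ) with hq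
  have hq0 : q ≠ 0 := by
    rw [hq]
    exact_mod_cast (zero_lt_one.trans (card_pos1 (F := F))).ne'
  have hqm : q - 1 ≠ 0 := by
    rw [hq, sub_ne_zero]
    exact_mod_cast (card_pos1 (F := F)).ne'
  have hqp : q + 1 ≠ 0 := by
    rw [hq]
    exact_mod_cast Nat.succ_ne_zero (Fintype.card F)
  set R : ℂ := ∑ z : Fˣ, (θ (iu F E z))⁻¹ * θ' (iu F E z) with hR
  -- the first sum
  have hS1 : ∑ z : Fˣ, ∑ u : F, (θ (iu F E z))⁻¹ * ψ (-u) * csp hE ψ θ' (up z z (z * u)) =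
      q * R := by
    rw [hR, Finset.mul_sum]
    refine Finset.sum_congr rfl fun z _ => ?_
    have h1 : ∀ u : F, (θ (iu F E z))⁻¹ * ψ (-u) * csp hE ψ θ' (up z z (z * u)) =
        (if u = 0 then q * ((θ (iu F E z))⁻¹ * θ' (iu F E z)) else 0) -
          ((θ (iu F E z))⁻¹ * θ' (iu F E z)) * ψ (-u) := by
      intro u
      by_cases hu : u = 0
      · subst hu
        rw [if_pos rfl, mul_zero, neg_zero, AddChar.map_zero_eq_one]
        have h2 : csp hE ψ θ' (up z z 0) = (q - 1) * θ' (iu F E z) := csp_sc hE ψ θ' z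
        rw [h2]
        ring
      · rw [if_neg hu, csp_un hE hψ θ' z (mul_ne_zero z.ne_zero hu)]
        ring
    rw [Finset.sum_congr rfl fun u _ => h1 u, Finset.sum_sub_distrib, ← Finset.mul_sum,
      ob_sum_psi_neg hψ, mul_zero, sub_zero, Finset.sum_ite_eq' Finset.univ (0 : F),
      if_pos (Finset.mem_univ _)]
  -- the second sum
  have hiu : Function.Injective (iu F E) := by
    intro a b hab
    apply Units.ext
    have h1 := congrArg (fun x : Eˣ => (x : E)) hab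
    exact (algebraMap F E).injective h1
  have hS2 : ∑ ζ : Eˣ, (θ ζ)⁻¹ * csp hE ψ θ' (emb hE ζ) =
      (q + 1) * R - ∑ ζ : Eˣ, (θ ζ)⁻¹ * θ' ζ - ∑ ζ : Eˣ, (θ ζ)⁻¹ * (θ' ^ Fintype.card F) ζ := by
    have h1 : (q + 1) * R = ∑ ζ : Eˣ, if ζ ^ Fintype.card F = ζ then
        (q + 1) * ((θ ζ)⁻¹ * θ' ζ) else 0 := by
      rw [← Finset.sum_filter, hR, Finset.mul_sum]
      refine Finset.sum_bij (fun z _ => iu F E z) ?_ ?_ ?_ ?_
      · intro z _
        rw [Finset.mem_filter]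
        exact ⟨Finset.mem_univ _, (fix_iff hE _).2 ⟨z, rfl⟩⟩
      · intro a _ b _ hab
        exact hiu hab
      · intro ζ hζ
        obtain ⟨z, hz⟩ := (fix_iff hE ζ).1 (Finset.mem_filter.1 hζ).2
        exact ⟨z, Finset.mem_univ _, hz⟩
      · intro z _
        rfl
    rw [h1, ← Finset.sum_sub_distrib, ← Finset.sum_sub_distrib]
    refine Finset.sum_congr rfl fun ζ _ => ?_
    rw [MulChar.pow_apply_coe, ← map_pow, ← Units.val_pow_eq_pow_val]
    by_cases hζ : ζ ^ Fintype.card F = ζ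
    · rw [if_pos hζ, hζ]
      obtain ⟨z, rfl⟩ := (fix_iff hE ζ).1 hζ
      rw [emb_iu, csp_sc]
      ring
    · rw [if_neg hζ, csp_el hE ψ θ' hζ]
      ring
  rw [hS1, hS2, ob_sum_mc, ob_sum_mc]
  have hcard : (Fintype.card Eˣ : ℂ) = q ^ 2 - 1 := by
    rw [Fintype.card_units, Nat.cast_sub Fintype.card_pos, card_E hE]
    push_cast
    ring
  rw [hcard]
  have hiff : θ = θ' ^ Fintype.card F ↔ θ ^ Fintype.card F = θ' := by
    constructor
    · intro h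
      rw [h, ob_mc_pow_pow hE]
    · intro h
      rw [← h, ob_mc_pow_pow hE]
  have h2 : q ^ 2 - 1 = (q - 1) * (q + 1) := by ring
  rw [if_congr hiff rfl rfl, h2]
  split_ifs <;> field_simp <;> ring

theorem ob_dt_class (β : MulChar F ℂ) : IsClass (dt β) := by
  intro g x
  unfold dt
  congr 1
  rw [Units.val_mul, Units.val_mul, Matrix.det_mul, Matrix.det_mul, mul_comm g.val.det, mul_assoc,
    ← Matrix.det_mul, ← Units.val_mul, mul_inv_cancel, Units.val_one, Matrix.det_one, mul_one]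

theorem csp_dt (hψ : ψ ≠ 1) {θ : MulChar E ℂ} (h : θ ^ Fintype.card F ≠ θ) (β : MulChar F ℂ) :
    B (csp hE ψ θ) (dt β) = 0 := by
  rw [csp_frob hE ψ θ (ob_dt_class β)]
  have hS1 : ∑ z : Fˣ, ∑ u : F, (θ (iu F E z))⁻¹ * ψ (-u) * dt β (up z z (z * u)) = 0 := by
    refine Finset.sum_eq_zero fun z _ => ?_
    have h1 : ∀ u : F, (θ (iu F E z))⁻¹ * ψ (-u) * dt β (up z z (z * u)) =
        ((θ (iu F E z))⁻¹ * β ((z : F) * z)) * ψ (-u) := by
      intro u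
      have h2 : dt β (up z z (z * u)) = β ((z : F) * z) := by
        unfold dt
        rw [up_val, Matrix.det_fin_two]
        simp
      rw [h2]
      ring
    rw [Finset.sum_congr rfl fun u _ => h1 u, ← Finset.mul_sum, ob_sum_psi_neg hψ, mul_zero]
  set β' : MulChar E ℂ := MulChar.ofUnitHom ((MulChar.toUnitHom β).comp (nu F E)) with hβ'
  have hβa : ∀ ζ : Eˣ, β' ζ = β (nu F E ζ) := by
    intro ζ
    rw [hβ', MulChar.ofUnitHom_coe, MonoidHom.comp_apply, MulChar.coe_toUnitHom]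
  have hβq : β' ^ Fintype.card F = β' := by
    apply MulChar.ext
    intro a
    rw [MulChar.pow_apply_coe, ← map_pow, ← Units.val_pow_eq_pow_val, hβa, hβa, nu_pow hE]
  have hne : θ ≠ β' := by
    intro h'
    rw [h'] at h
    exact h hβq
  have hS2 : ∑ ζ : Eˣ, (θ ζ)⁻¹ * dt β (emb hE ζ) = 0 := by
    have h1 : ∀ ζ : Eˣ, (θ ζ)⁻¹ * dt β (emb hE ζ) = (θ ζ)⁻¹ * β' ζ := by
      intro ζ
      rw [hβa]
      unfold dt
      rw [emb_det, nu_val]
    rw [Finset.sum_congr rfl fun ζ _ => h1 ζ, ob_sum_mc, if_neg hne]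
  rw [hS1, hS2, mul_zero, mul_zero, sub_zero]

theorem ob_sc_one : sc (1 : Fˣ) = 1 := by
  apply Units.ext
  rw [sc, up_val]
  ext i j
  fin_cases i <;> fin_cases j <;> simp

theorem csp_irr (hψ : ψ ≠ 1) {θ : MulChar E ℂ} (h : θ ^ Fintype.card F ≠ θ) :
    csp hE ψ θ ∈ Irr (GL (Fin 2) F) := by
  refine irr_of_int (csp_class hE ψ θ) (fun χ hχ => csp_int hE ψ θ hχ) ?_
    (d := Fintype.card F - 1) ?_
  · rw [csp_csp hE hψ, if_pos rfl, if_neg h, add_zero]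
  · rw [← ob_sc_one, csp_sc, map_one, Units.val_one, map_one, mul_one,
      Nat.cast_sub (card_pos1 (F := F)).le, Nat.cast_one]

theorem csp_comm (hψ : ψ ≠ 1) {θ : MulChar E ℂ} (h : θ ^ Fintype.card F ≠ θ) :
    csp hE ψ (θ ^ Fintype.card F) = csp hE ψ θ := by
  have h2 : (θ ^ Fintype.card F) ^ Fintype.card F ≠ θ ^ Fintype.card F := by
    rw [ob_mc_pow_pow hE]
    exact h.symm
  refine irr_eq (csp_irr hE hψ h2) (csp_irr hE hψ h) ?_
  rw [csp_csp hE hψ, if_neg h, if_pos (ob_mc_pow_pow hE θ), zero_add]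
  exact one_ne_zero

end Pool.Agent.Helper55.PL
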