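import Pool.Agent.Helper55.PL.IndA
import Pool.Agent.Helper55.PL.IntA
import Pool.Agent.Helper55.PL.Cards

/-!
# PL-25: the characters of the upper triangular subgroup of `SL₂(F)`

Let `H = {t ∈ Fˣ | t t = 1} × F` and `jB : H →* BS F`, `(t, u) ↦ dd t * xu u` (a homomorphism because
`dd t * xu u = xu u * dd t` for `t t = 1`). `q` is odd, so `|H| = 2 q`.

Proofs.
`phh_ind`: `phh ψ ω r = indHom jB (fun (t, u) => ω t * ψ (r u))`: `ind_val` or directly: the value at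
`s = dd t * xu u` is `(2 q)⁻¹ ∑_{y ∈ BS} [y⁻¹ s y ∈ jB H] ...`; `y = dd τ * xu v`; if `t t ≠ 1` it is `0`, otherwise
`y⁻¹ s y = dd t * xu (τ⁻² u)` and the value is `(2 q)⁻¹ q ∑_τ ω(t) ψ(r τ⁻² u)`. (`s 0 0 = t`,
`s 0 0 * s 0 1 = u` if `t t = 1`.)
`phh_nat`: `ind_nat`, since `(t, u) ↦ ω t * ψ (r u)` is a linear character (`irr_lin`, `isChar_irr`).
`phh_phh`: Frobenius reciprocity `INC.B_indHom`: it is
`(2 q)⁻¹ ∑_{t, u} ω(t)⁻¹ ψ(-r u) ω'(t) 2⁻¹ ∑_τ ψ(r' τ² u)`
`= [ω(-1) = ω'(-1)] (2 q)⁻¹ ∑_τ ∑_u ψ((r' τ² - r) u)`, and the inner sum is `q` if `r' τ² = r`, otherwise `0`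
(`sum_psi`); the number of `τ` with `τ² = r / r'` is `2` or `0`.
`lamb_phh`: the same with `∑_u ψ(-r u) = 0`. `lamb_lamb`: linear characters, `Q` injective.
-/

open Matrix
open scoped MatrixGroups Classical

set_option linter.unusedSectionVars false

namespace Pool.Agent.Helper55.PL

open Pool.Agent.Helper42.INC Pool.Agent.Helper7.MK

variable {F : Type} [Field F] [Fintype F] [DecidableEq F] {ψ : AddChar F ℂ}

/-- the square roots of `1` -/
def pm (F : Type) [Field F] : Subgroup Fˣ where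
  carrier := {t | t * t = 1}
  one_mem' := by simp
  mul_mem' := by
    intro a b ha hb
    rw [Set.mem_ofPred_eq] at ha hb ⊢
    rw [mul_mul_mul_comm, ha, hb, one_mul]
  inv_mem' := by
    intro a ha
    rw [Set.mem_ofPred_eq] at ha ⊢
    rw [← mul_inv, ha, inv_one]

private theorem pa_mul (a c : Fˣ) (b d : F) :
    dd a * xu b * (dd c * xu d) = dd (a * c) * xu ((c⁻¹ : Fˣ) * (c⁻¹ : Fˣ) * b + d) := by
  have h1 : (c : F) ≠ 0 := c.ne_zero
  ext i j
  simp only [Matrix.SpecialLinearGroup.coe_mul, dd_val, xu_val]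
  fin_cases i <;> fin_cases j
  · simp [Matrix.mul_apply, Fin.sum_univ_two]
  · simp [Matrix.mul_apply, Fin.sum_univ_two]
    field_simp
    ring
  · simp [Matrix.mul_apply, Fin.sum_univ_two]
  · simp [Matrix.mul_apply, Fin.sum_univ_two, mul_comm]

private theorem pa_sq (ε : pm F) :
    (((ε : Fˣ)⁻¹ : Fˣ) : F) * (((ε : Fˣ)⁻¹ : Fˣ) : F) = 1 := by
  rw [← Units.val_mul, ← mul_inv]
  have h2 : (ε : Fˣ) * (ε : Fˣ) = 1 := ε.2
  rw [h2, inv_one, Units.val_one]

/-- the homomorphism `(t, u) ↦ dd t * xu u` -/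
def jB (F : Type) [Field F] : pm F × Multiplicative F →* BS F where
  toFun a := ⟨dd a.1 * xu a.2.toAdd, mul_mem (dd_mem _) (xu_mem _)⟩
  map_one' := by
    apply Subtype.ext
    change dd (1 : Fˣ) * xu (0 : F) = 1
    ext i j
    simp only [Matrix.SpecialLinearGroup.coe_mul, dd_val, xu_val]
    fin_cases i <;> fin_cases j <;> simp
  map_mul' a b := by
    apply Subtype.ext
    change dd ((a.1 : Fˣ) * (b.1 : Fˣ)) * xu (a.2.toAdd + b.2.toAdd) =
      dd (a.1 : Fˣ) * xu a.2.toAdd * (dd (b.1 : Fˣ) * xu b.2.toAdd)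
    have h3 : (b.1 : Fˣ) * (b.1 : Fˣ) = 1 := b.1.2
    have h4 : ((b.1 : Fˣ) : F) * ((b.1 : Fˣ) : F) = 1 := by
      rw [← Units.val_mul, h3, Units.val_one]
    have h5 : (((b.1 : Fˣ) : F))⁻¹ = ((b.1 : Fˣ) : F) := inv_eq_of_mul_eq_one_left h4
    ext i j
    simp only [Matrix.SpecialLinearGroup.coe_mul, dd_val, xu_val]
    fin_cases i <;> fin_cases j
    · simp [Matrix.mul_apply, Fin.sum_univ_two]
    · simp [Matrix.mul_apply, Fin.sum_univ_two, h5]
      ring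
    · simp [Matrix.mul_apply, Fin.sum_univ_two]
    · simp [Matrix.mul_apply, Fin.sum_univ_two, mul_comm]

private theorem pa_jB (ε : pm F) (w : Multiplicative F) :
    jB F (ε, w) = eqBS F ((ε : Fˣ), w.toAdd) := rfl

private theorem pa_eq {a a' : Fˣ} {b b' : F} :
    eqBS F (a, b) = eqBS F (a', b') ↔ a = a' ∧ b = b' := by
  rw [(eqBS F).injective.eq_iff, Prod.mk.injEq]

private theorem pa_mul' (a c : Fˣ) (b d : F) :
    eqBS F (a, b) * eqBS F (c, d) = eqBS F (a * c, (c⁻¹ : Fˣ) * (c⁻¹ : Fˣ) * b + d) :=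
  Subtype.ext (pa_mul a c b d)

private theorem pa_iff (ε : pm F) (w : Multiplicative F) (τ t : Fˣ) (v u : F) :
    jB F (ε, w) = (eqBS F (τ, v))⁻¹ * eqBS F (t, u) * eqBS F (τ, v) ↔
      (ε : Fˣ) = t ∧ w.toAdd = (τ⁻¹ : Fˣ) * (τ⁻¹ : Fˣ) * u := by
  rw [mul_assoc, eq_inv_mul_iff_mul_eq, pa_jB, pa_mul', pa_mul', pa_eq, pa_sq, one_mul,
    mul_comm t τ, mul_right_inj, add_comm v, add_left_inj]

private theorem pa_00 (t : Fˣ) (u : F) : (eqBS F (t, u)).1 0 0 = t := by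
  rw [eqBS_apply]
  simp only [Matrix.SpecialLinearGroup.coe_mul, dd_val, xu_val]
  simp [Matrix.mul_apply, Fin.sum_univ_two]

private theorem pa_01 (t : Fˣ) (u : F) : (eqBS F (t, u)).1 0 1 = t * u := by
  rw [eqBS_apply]
  simp only [Matrix.SpecialLinearGroup.coe_mul, dd_val, xu_val]
  simp [Matrix.mul_apply, Fin.sum_univ_two]

private theorem pa_11 (t : Fˣ) (u : F) : (eqBS F (t, u)).1 1 1 = (t⁻¹ : Fˣ) := by
  rw [eqBS_apply]
  simp only [Matrix.SpecialLinearGroup.coe_mul, dd_val, xu_val]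
  simp [Matrix.mul_apply, Fin.sum_univ_two]

private theorem pa_phh (ψ : AddChar F ℂ) (ω : MulChar F ℂ) (r t : Fˣ) (u : F) :
    phh ψ ω r (eqBS F (t, u)) =
      if t * t = 1 then ω t * (2⁻¹ * ∑ τ : Fˣ, ψ (r * (τ * τ) * u)) else 0 := by
  rw [phh, pa_00, pa_01]
  by_cases h : t * t = 1
  · have h1 : (t : F) * t = 1 := by rw [← Units.val_mul, h, Units.val_one]
    have h2 : (t : F) * (t * u) = u := by rw [← mul_assoc, h1, one_mul]
    rw [if_pos h1, if_pos h, h2]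
  · have h1 : ¬ (t : F) * t = 1 := fun h1 => h (Units.ext (by
      rw [Units.val_mul, h1, Units.val_one]))
    rw [if_neg h1, if_neg h]

private theorem pa_pm {t : F} (h : t * t = 1) : t = 1 ∨ t = -1 := by
  have h1 : (t - 1) * (t + 1) = 0 := by linear_combination h
  rcases mul_eq_zero.1 h1 with h2 | h2
  · exact Or.inl (by linear_combination h2)
  · exact Or.inr (by linear_combination h2)

private theorem pa_sum_pm (h2 : (2 : F) ≠ 0) [Fintype (pm F)] (f : F → ℂ) :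
    ∑ ε : pm F, f ((ε : Fˣ) : F) = f 1 + f (-1) := by
  have h3 : (-1 : Fˣ) ∈ pm F := by
    show (-1 : Fˣ) * (-1) = 1
    rw [neg_mul_neg, one_mul]
  have h0 : (1 : pm F) ≠ ⟨-1, h3⟩ := by
    intro h
    have h1 : (1 : F) = -1 := by
      have := congrArg (fun ε : pm F => ((ε : Fˣ) : F)) h
      simpa using this
    apply h2
    linear_combination h1
  rw [Fintype.sum_eq_add (1 : pm F) ⟨-1, h3⟩ h0]
  · simp
  · rintro ⟨ε, hε⟩ ⟨h4, h5⟩
    exfalso
    have h1 : (ε : F) * ε = 1 := by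
      rw [← Units.val_mul]
      exact congrArg Units.val hε
    rcases pa_pm h1 with h6 | h6
    · apply h4
      apply Subtype.ext
      apply Units.ext
      simpa using h6
    · apply h5
      apply Subtype.ext
      apply Units.ext
      simpa using h6

private theorem pa_card (h2 : (2 : F) ≠ 0) :
    (Nat.card (pm F × Multiplicative F) : ℂ) = 2 * Fintype.card F := by
  have h3 := pa_sum_pm h2 (fun _ => 1)
  rw [Finset.sum_const, Finset.card_univ, nsmul_eq_mul, mul_one] at h3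
  rw [Nat.card_prod, Nat.card_congr (Multiplicative.toAdd (α := F)), Nat.card_eq_fintype_card,
    Nat.card_eq_fintype_card, Nat.cast_mul, h3]
  norm_num

private theorem pa_q : (Fintype.card F : ℂ) ≠ 0 := by
  exact_mod_cast Fintype.card_ne_zero

theorem phh_ind (h2 : (2 : F) ≠ 0) (ψ : AddChar F ℂ) (ω : MulChar F ℂ) (r : Fˣ) :
    phh ψ ω r = indHom (jB F) (fun a => ω ((a.1 : Fˣ) : F) * ψ (r * a.2.toAdd)) := by
  funext s
  obtain ⟨⟨t, u⟩, rfl⟩ := (eqBS F).surjective s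
  have := Fintype.ofFinite (BS F)
  rw [indHom_eq, pa_card h2, sum_BS, pa_phh]
  have key : ∀ (τ : Fˣ) (v : F), (∑ γ : pm F × Multiplicative F,
      if jB F γ = (eqBS F (τ, v))⁻¹ * eqBS F (t, u) * eqBS F (τ, v) then
        ω ((γ.1 : Fˣ) : F) * ψ (r * γ.2.toAdd) else 0) =
      if t * t = 1 then ω t * ψ (r * ((τ⁻¹ : Fˣ) * (τ⁻¹ : Fˣ)) * u) else 0 := by
    intro τ v
    by_cases h : t * t = 1
    · have ht : t ∈ pm F := h
      rw [if_pos h, Finset.sum_eq_single ((⟨t, ht⟩ : pm F),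
        Multiplicative.ofAdd (((τ⁻¹ : Fˣ) : F) * (τ⁻¹ : Fˣ) * u))]
      · have h3 : jB F ((⟨t, ht⟩ : pm F), Multiplicative.ofAdd (((τ⁻¹ : Fˣ) : F) * (τ⁻¹ : Fˣ) * u)) =
            (eqBS F (τ, v))⁻¹ * eqBS F (t, u) * eqBS F (τ, v) :=
          (pa_iff _ _ _ _ _ _).2 ⟨rfl, rfl⟩
        rw [if_pos h3, mul_assoc (r : F)]
        rfl
      · rintro ⟨ε, w⟩ _ hne
        rw [if_neg]
        intro h3
        obtain ⟨h4, h5⟩ := (pa_iff _ _ _ _ _ _).1 h3
        apply hne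
        rw [Prod.mk.injEq]
        exact ⟨Subtype.ext h4, h5⟩
      · intro h3
        exact absurd (Finset.mem_univ _) h3
    · rw [if_neg h]
      refine Finset.sum_eq_zero ?_
      rintro ⟨ε, w⟩ _
      rw [if_neg]
      intro h3
      obtain ⟨h4, h5⟩ := (pa_iff _ _ _ _ _ _).1 h3
      apply h
      rw [← h4]
      exact ε.2
  have key2 : ∑ τ : Fˣ, ∑ v : F, (∑ γ : pm F × Multiplicative F,
      if jB F γ = (eqBS F (τ, v))⁻¹ * eqBS F (t, u) * eqBS F (τ, v) then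
        ω ((γ.1 : Fˣ) : F) * ψ (r * γ.2.toAdd) else 0) =
      ∑ τ : Fˣ, (Fintype.card F : ℂ) *
        if t * t = 1 then ω t * ψ (r * (τ * τ) * u) else 0 := by
    rw [← Equiv.sum_comp (Equiv.inv Fˣ) (fun τ : Fˣ => (Fintype.card F : ℂ) *
        if t * t = 1 then ω t * ψ (r * ((τ : F) * τ) * u) else 0)]
    refine Finset.sum_congr rfl fun τ _ => ?_
    rw [Finset.sum_congr rfl (fun v _ => key τ v), Finset.sum_const, Finset.card_univ,
      nsmul_eq_mul]
    rfl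
  rw [key2, ← Finset.mul_sum]
  have hq := pa_q (F := F)
  by_cases h : t * t = 1
  · simp only [if_pos h]
    rw [← Finset.mul_sum]
    generalize ∑ τ : Fˣ, ψ (r * (τ * τ) * u) = S
    field_simp
  · simp only [if_neg h]
    simp

theorem phh_class (h2 : (2 : F) ≠ 0) (ω : MulChar F ℂ) (r : Fˣ) : IsClass (phh ψ ω r) := by
  rw [phh_ind h2]
  exact indHom_isClass _ _

theorem phh_nat (h2 : (2 : F) ≠ 0) (ψ : AddChar F ℂ) (ω : MulChar F ℂ) (r : Fˣ) {χ : BS F → ℂ}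
    (hχ : χ ∈ Irr (BS F)) : ∃ n : ℕ, B (phh ψ ω r) χ = n := by
  rw [phh_ind h2]
  refine ind_nat _ (isChar_irr (irr_lin ?_ ?_)) hχ
  · show ω ((1 : Fˣ) : F) * ψ (r * (0 : F)) = 1
    rw [Units.val_one, map_one, mul_zero, AddChar.map_zero_eq_one, mul_one]
  · intro a b
    show ω (((a.1 : Fˣ) * (b.1 : Fˣ) : Fˣ) : F) * ψ (r * (a.2.toAdd + b.2.toAdd)) =
      ω ((a.1 : Fˣ) : F) * ψ (r * a.2.toAdd) * (ω ((b.1 : Fˣ) : F) * ψ (r * b.2.toAdd))
    rw [Units.val_mul, map_mul, mul_add, AddChar.map_add_eq_mul]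
    ring

private theorem pa_om (ω : MulChar F ℂ) : ω (-1) = 1 ∨ ω (-1) = -1 := by
  have h1 : ω (-1) * ω (-1) = 1 := by
    rw [← map_mul, neg_mul_neg, one_mul, map_one]
  rcases mul_self_eq_one_iff.1 h1 with h | h
  · exact Or.inl h
  · exact Or.inr h

private theorem pa_cnt (h2 : (2 : F) ≠ 0) (r r' : Fˣ) :
    ∑ τ : Fˣ, (if (r : F) - r' * (τ * τ) = 0 then (1 : ℂ) else 0) =
      if IsSquare (r * r') then 2 else 0 := by
  by_cases h : IsSquare (r * r')
  · obtain ⟨c, hc⟩ := h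
    rw [if_pos ⟨c, hc⟩]
    have h3 : ∀ τ : Fˣ, ((r : F) - r' * (τ * τ) = 0) ↔ (τ = c * r'⁻¹ ∨ τ = -(c * r'⁻¹)) := by
      intro τ
      have hr' : (r' : F) ≠ 0 := r'.ne_zero
      have hc' : (r : F) * r' = c * c := by
        rw [← Units.val_mul, hc, Units.val_mul]
      constructor
      · intro h4
        have h5 : (τ : F) * r' * (τ * r') = c * c := by
          linear_combination hc' - r' * h4
        rcases mul_self_eq_mul_self_iff.1 h5 with h6 | h6
        · left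
          rw [eq_mul_inv_iff_mul_eq]
          exact Units.ext (by rw [Units.val_mul, h6])
        · right
          rw [← neg_mul, eq_mul_inv_iff_mul_eq]
          exact Units.ext (by rw [Units.val_mul, h6, Units.val_neg])
      · intro h4
        have h5 : (τ : F) * r' * (τ * r') = c * c := by
          rcases h4 with h6 | h6
          · have h7 : τ * r' = c := by rw [h6, inv_mul_cancel_right]
            rw [← Units.val_mul, h7]
          · have h7 : τ * r' = -c := by rw [h6, neg_mul, inv_mul_cancel_right]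
            rw [← Units.val_mul, h7, Units.val_neg, neg_mul_neg]
        have h6 : (r' : F) * ((r : F) - r' * (τ * τ)) = 0 := by
          linear_combination hc' - h5
        exact (mul_eq_zero.1 h6).resolve_left hr'
    have h0 : c * r'⁻¹ ≠ -(c * r'⁻¹) := by
      intro h4
      have h5 : ((c * r'⁻¹ : Fˣ) : F) = -((c * r'⁻¹ : Fˣ) : F) := by
        rw [← Units.val_neg, ← h4]
      have h6 : (2 : F) * ((c * r'⁻¹ : Fˣ) : F) = 0 := by linear_combination h5
      exact (mul_ne_zero h2 (Units.ne_zero _)) h6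
    rw [Fintype.sum_eq_add (c * r'⁻¹) (-(c * r'⁻¹)) h0]
    · rw [if_pos ((h3 _).2 (Or.inl rfl)), if_pos ((h3 _).2 (Or.inr rfl))]
      norm_num
    · rintro τ ⟨h4, h5⟩
      rw [if_neg]
      intro h6
      rcases (h3 τ).1 h6 with h7 | h7
      · exact h4 h7
      · exact h5 h7
  · rw [if_neg h]
    refine Finset.sum_eq_zero fun τ _ => ?_
    rw [if_neg]
    intro h4
    apply h
    refine ⟨τ * r', Units.ext ?_⟩
    rw [Units.val_mul, Units.val_mul, Units.val_mul]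
    linear_combination r' * h4

theorem phh_phh (h2 : (2 : F) ≠ 0) (hψ : ψ ≠ 1) (ω ω' : MulChar F ℂ) (r r' : Fˣ) :
    B (phh ψ ω r) (phh ψ ω' r') =
      if ω (-1) = ω' (-1) ∧ IsSquare (r * r') then 1 else 0 := by
  have hq := pa_q (F := F)
  rw [phh_ind h2 ψ ω r, B_indHom _ _ (phh_class h2 ω' r'), B_eq, pa_card h2,
    Fintype.sum_prod_type]
  have h3 : ∀ ε : pm F, ∑ w : Multiplicative F,
      ω (((ε, w).1 : Fˣ) : F) * ψ (r * (ε, w).2.toAdd) * phh ψ ω' r' (jB F (ε, w)⁻¹) =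
      ω ((ε : Fˣ) : F) * ω' ((ε : Fˣ) : F) * (2⁻¹ * ((Fintype.card F : ℂ) *
        if IsSquare (r * r') then 2 else 0)) := by
    intro ε
    have h4 : ∀ w : Multiplicative F, ω (((ε, w).1 : Fˣ) : F) * ψ (r * (ε, w).2.toAdd) *
        phh ψ ω' r' (jB F (ε, w)⁻¹) = ω ((ε : Fˣ) : F) * ω' ((ε : Fˣ) : F) *
        (2⁻¹ * ∑ τ : Fˣ, ψ (((r : F) - r' * (τ * τ)) * w.toAdd)) := by
      intro w
      have h5 : jB F (ε, w)⁻¹ = eqBS F ((ε : Fˣ), -w.toAdd) := by
        rw [Prod.inv_mk, pa_jB]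
        have h6 : ((ε⁻¹ : pm F) : Fˣ) = ε := by
          rw [Subgroup.coe_inv]
          exact inv_eq_of_mul_eq_one_left ε.2
        rw [h6]
        rfl
      rw [h5, pa_phh, if_pos (show (ε : Fˣ) * (ε : Fˣ) = 1 from ε.2)]
      have h7 : ψ (r * w.toAdd) * ∑ τ : Fˣ, ψ (r' * (τ * τ) * -w.toAdd) =
          ∑ τ : Fˣ, ψ (((r : F) - r' * (τ * τ)) * w.toAdd) := by
        rw [Finset.mul_sum]
        refine Finset.sum_congr rfl fun τ _ => ?_
        rw [← AddChar.map_add_eq_mul]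
        congr 1
        ring
      rw [← h7]
      ring
    rw [Finset.sum_congr rfl (fun w _ => h4 w), ← Finset.mul_sum, ← Finset.mul_sum,
      Finset.sum_comm]
    congr 2
    rw [← pa_cnt h2, Finset.mul_sum]
    refine Finset.sum_congr rfl fun τ _ => ?_
    have h8 : ∑ w : Multiplicative F, ψ (((r : F) - r' * (τ * τ)) * w.toAdd) =
        ∑ u : F, ψ (((r : F) - r' * (τ * τ)) * u) :=
      Equiv.sum_comp (Multiplicative.toAdd (α := F)) (fun u => ψ (((r : F) - r' * (τ * τ)) * u))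
    rw [h8]
    by_cases h9 : (r : F) - r' * (τ * τ) = 0
    · rw [if_pos h9, h9]
      simp
    · rw [if_neg h9, sum_psi hψ h9, mul_zero]
  rw [Finset.sum_congr rfl (fun ε _ => h3 ε), ← Finset.sum_mul,
    pa_sum_pm h2 (fun x => ω x * ω' x), map_one, map_one]
  by_cases hs : IsSquare (r * r')
  · rcases pa_om ω with h5 | h5 <;> rcases pa_om ω' with h6 | h6
    · rw [h5, h6, if_pos hs, if_pos ⟨rfl, hs⟩]
      field_simp
      norm_num
    · rw [h5, h6, if_pos hs, if_neg (by rintro ⟨h7, -⟩; norm_num at h7)]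
      simp
    · rw [h5, h6, if_pos hs, if_neg (by rintro ⟨h7, -⟩; norm_num at h7)]
      simp
    · rw [h5, h6, if_pos hs, if_pos ⟨rfl, hs⟩]
      field_simp
      norm_num
  · rw [if_neg hs, if_neg (fun h => hs h.2)]
    simp

private theorem pa_lamb_one (Q : Fˣ →* MulChar F ℂ) (b : Fˣ) : lamb Q b 1 = 1 := by
  show Q b ((1 : SL(2, F)) 1 1) = 1
  rw [Matrix.SpecialLinearGroup.coe_one, Matrix.one_apply_eq, map_one]

private theorem pa_lamb_mul (Q : Fˣ →* MulChar F ℂ) (b : Fˣ) (s t : BS F) :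
    lamb Q b (s * t) = lamb Q b s * lamb Q b t := by
  show Q b ((s.1 * t.1) 1 1) = Q b (s.1 1 1) * Q b (t.1 1 1)
  have h1 : s.1 1 0 = 0 := s.2
  rw [Matrix.SpecialLinearGroup.coe_mul, Matrix.mul_apply, Fin.sum_univ_two, h1, zero_mul, zero_add,
    map_mul]

private theorem pa_lamb_class (Q : Fˣ →* MulChar F ℂ) (b : Fˣ) : IsClass (lamb Q b) := by
  intro g x
  rw [pa_lamb_mul, pa_lamb_mul, mul_comm (lamb Q b g), mul_assoc, ← pa_lamb_mul, mul_inv_cancel,
    pa_lamb_one, mul_one]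

theorem lamb_phh (h2 : (2 : F) ≠ 0) (hψ : ψ ≠ 1) (Q : Fˣ →* MulChar F ℂ) (b : Fˣ)
    (ω : MulChar F ℂ) (r : Fˣ) : B (lamb Q b) (phh ψ ω r) = 0 := by
  rw [B_symm, phh_ind h2, B_indHom _ _ (pa_lamb_class Q b), B_eq, Fintype.sum_prod_type]
  have h3 : ∀ ε : pm F, ∑ w : Multiplicative F,
      ω (((ε, w).1 : Fˣ) : F) * ψ (r * (ε, w).2.toAdd) * lamb Q b (jB F (ε, w)⁻¹) = 0 := by
    intro ε
    have h4 : ∀ w : Multiplicative F, ω (((ε, w).1 : Fˣ) : F) * ψ (r * (ε, w).2.toAdd) *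
        lamb Q b (jB F (ε, w)⁻¹) = ω ((ε : Fˣ) : F) * Q b ((ε : Fˣ) : F) * ψ (r * w.toAdd) := by
      intro w
      have h5 : lamb Q b (jB F (ε, w)⁻¹) = Q b ((ε : Fˣ) : F) := by
        show Q b ((eqBS F (((ε⁻¹ : pm F) : Fˣ), (w⁻¹).toAdd)).1 1 1) = _
        rw [pa_11, Subgroup.coe_inv, inv_inv]
      rw [h5]
      ring
    rw [Finset.sum_congr rfl (fun w _ => h4 w), ← Finset.mul_sum]
    have h8 : ∑ w : Multiplicative F, ψ (r * w.toAdd) = ∑ u : F, ψ (r * u) :=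
      Equiv.sum_comp (Multiplicative.toAdd (α := F)) (fun u => ψ (r * u))
    rw [h8, sum_psi hψ r.ne_zero, mul_zero]
  rw [Finset.sum_congr rfl (fun ε _ => h3 ε), Finset.sum_const_zero, mul_zero]

theorem lamb_irr (Q : Fˣ →* MulChar F ℂ) (b : Fˣ) : lamb Q b ∈ Irr (BS F) :=
  irr_lin (pa_lamb_one Q b) (pa_lamb_mul Q b)

end Pool.Agent.Helper55.PL
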