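import Pool.Agent.Helper55.PL.IndA
import Pool.Agent.Helper55.PL.Conj
import Pool.Agent.Helper55.PL.Cards
import Pool.Agent.Helper7.MK.Char

/-!
# PL-07: values of the principal series characters

`prn μ ν = indHom (BG F).subtype (lin μ ν)`.

Proofs. `prn_class`: `INC.indHom_isClass`. `prn_sc`: `ind_central` (scalars are central,
`sc_comm`), with `|GL| / |BG| = q + 1` (`card_GL`, `card_BG`), and `lin μ ν (sc z) = μ z * ν z`.
`prn_un`, `prn_sp`: `ind_val` and `sum_BG`: by `isConj_un` the sum over `up x' y' u'` has the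
`q - 1` terms `μ z ν z` with `x' = y' = z`, `u' ≠ 0`, and the centralizer has order `q (q - 1)`
(`cn_un`), `|BG| = q (q - 1)²`. By `isConj_sp` the sum has the `q` terms `μ x ν y` and the `q` terms
`μ y ν x`, and the centralizer has order `(q - 1)²` (`cn_sp`).
-/

open Matrix
open scoped MatrixGroups

set_option linter.unusedSectionVars false

namespace Pool.Agent.Helper55.PL

open Pool.Agent.Helper42.INC Pool.Agent.Helper7.MK

variable {F : Type} [Field F] [Fintype F] [DecidableEq F]

theorem prn_class (μ ν : MulChar F ℂ) : IsClass (prn μ ν) := indHom_isClass _ _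

theorem prn_cardpos : (Fintype.card F : ℂ) ≠ 0 ∧ (Fintype.card F : ℂ) - 1 ≠ 0 := by
  have h1 : 1 < Fintype.card F := Fintype.one_lt_card
  refine ⟨?_, ?_⟩
  · exact_mod_cast (by omega : Fintype.card F ≠ 0)
  · rw [sub_ne_zero]
    exact_mod_cast (by omega : Fintype.card F ≠ 1)

theorem prn_lin_eq (μ ν : MulChar F ℂ) (x y : Fˣ) (u : F) :
    lin μ ν (eqBG F (x, y, u)) = μ x * ν y := by
  unfold lin
  rw [eqBG_apply, up_val]
  simp

theorem prn_sc (μ ν : MulChar F ℂ) (z : Fˣ) :
    prn μ ν (sc z) = (Fintype.card F + 1) * (μ z * ν z) := by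
  obtain ⟨h0, h1⟩ := prn_cardpos (F := F)
  have h := ind_central (BG F).subtype (Subgroup.subtype_injective _) (lin μ ν)
    (γ := eqBG F (z, z, 0)) (fun y => (sc_comm z y).symm)
  rw [prn_lin_eq, card_GL, card_BG] at h
  have h2 : prn μ ν (sc z) = indHom (BG F).subtype (lin μ ν) ((BG F).subtype (eqBG F (z, z, 0))) :=
    rfl
  rw [h2, h]
  field_simp

theorem prn_un (μ ν : MulChar F ℂ) (z : Fˣ) {u : F} (hu : u ≠ 0) :
    prn μ ν (up z z u) = μ z * ν z := by
  classical
  obtain ⟨h0, h1⟩ := prn_cardpos (F := F)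
  have hfin : Fintype (BG F) := Fintype.ofFinite _
  unfold prn
  rw [ind_val, cn_un hu, card_BG, sum_BG]
  have h2 : ∀ x' y' : Fˣ, ∀ u' : F,
      (@ite ℂ (IsConj ((BG F).subtype (eqBG F (x', y', u'))) (up z z u))
        (Classical.propDecidable _) (lin μ ν (eqBG F (x', y', u'))) 0) =
      if x' = z then (if y' = z then (if u' ≠ 0 then μ z * ν z else 0) else 0) else 0 := by
    intro x' y' u'
    have h3 : (BG F).subtype (eqBG F (x', y', u')) = up x' y' u' := rfl
    rw [h3, prn_lin_eq]
    by_cases hx : x' = z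
    · by_cases hy : y' = z
      · by_cases hu' : u' ≠ 0
        · rw [if_pos ((isConj_un hu).2 ⟨hx, hy, hu'⟩), if_pos hx, if_pos hy, if_pos hu', hx, hy]
        · rw [if_neg (fun h => hu' ((isConj_un hu).1 h).2.2), if_pos hx, if_pos hy, if_neg hu']
      · rw [if_neg (fun h => hy ((isConj_un hu).1 h).2.1), if_pos hx, if_neg hy]
    · rw [if_neg (fun h => hx ((isConj_un hu).1 h).1), if_neg hx]
  simp only [h2]
  simp only [Finset.sum_ite_irrel, Finset.sum_const_zero, Finset.sum_ite_eq', Finset.mem_univ, if_true]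
  have h4 : ∑ u' : F, (if u' ≠ 0 then μ z * ν z else 0) = (Fintype.card F - 1) * (μ z * ν z) := by
    rw [← Finset.sum_filter, Finset.sum_const, Finset.filter_ne', Finset.card_erase_of_mem
      (Finset.mem_univ _), Finset.card_univ, nsmul_eq_mul, Nat.cast_sub Fintype.card_pos]
    simp
  rw [h4]
  field_simp

theorem prn_sp (μ ν : MulChar F ℂ) {x y : Fˣ} (h : x ≠ y) (u : F) :
    prn μ ν (up x y u) = μ x * ν y + μ y * ν x := by
  classical
  obtain ⟨h0, h1⟩ := prn_cardpos (F := F)
  have hfin : Fintype (BG F) := Fintype.ofFinite _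
  unfold prn
  rw [ind_val, cn_sp u h, card_BG, sum_BG]
  have h2 : ∀ x' y' : Fˣ, ∀ u' : F,
      (@ite ℂ (IsConj ((BG F).subtype (eqBG F (x', y', u'))) (up x y u))
        (Classical.propDecidable _) (lin μ ν (eqBG F (x', y', u'))) 0) =
      (if x' = x then (if y' = y then μ x * ν y else 0) else 0) +
      (if x' = y then (if y' = x then μ y * ν x else 0) else 0) := by
    intro x' y' u'
    have h3 : (BG F).subtype (eqBG F (x', y', u')) = up x' y' u' := rfl
    rw [h3, prn_lin_eq]
    by_cases hA : x' = x ∧ y' = y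
    · rw [if_pos ((isConj_sp h).2 (Or.inl hA)), if_pos hA.1, if_pos hA.2, if_neg, add_zero, hA.1,
        hA.2]
      rw [hA.1]
      exact h
    · by_cases hB : x' = y ∧ y' = x
      · rw [if_pos ((isConj_sp h).2 (Or.inr hB)), if_neg (by rw [hB.1]; exact h.symm),
          if_pos hB.1, if_pos hB.2, zero_add, hB.1, hB.2]
      · rw [if_neg (fun hh => ((isConj_sp h).1 hh).elim hA hB), ← ite_and, ← ite_and, if_neg hA,
          if_neg hB, add_zero]
  simp only [h2]
  simp only [Finset.sum_add_distrib, Finset.sum_ite_irrel, Finset.sum_const_zero,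
    Finset.sum_ite_eq', Finset.mem_univ, if_true, Finset.sum_const,
    Finset.card_univ, nsmul_eq_mul]
  field_simp

/-- natural coefficients -/
theorem prn_nat (μ ν : MulChar F ℂ) {χ : GL (Fin 2) F → ℂ} (hχ : χ ∈ Irr (GL (Fin 2) F)) :
    ∃ n : ℕ, B (prn μ ν) χ = n := by
  refine ind_nat (BG F).subtype ?_ hχ
  let l : BG F →* ℂ :=
    { toFun := lin μ ν
      map_one' := by
        unfold lin
        simp
      map_mul' := by
        intro a b
        have ha : a.1.val 1 0 = 0 := a.2
        have hb : b.1.val 1 0 = 0 := b.2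
        unfold lin
        rw [Subgroup.coe_mul, Units.val_mul, Matrix.mul_apply, Matrix.mul_apply,
          Fin.sum_univ_two, Fin.sum_univ_two, ha, hb, mul_zero, add_zero, zero_mul, zero_add,
          map_mul, map_mul]
        ring }
  have h := isChar_matrix ((Matrix.scalar (Fin 1) : ℂ →+* Matrix (Fin 1) (Fin 1) ℂ).toMonoidHom.comp l)
  convert h using 1
  funext g
  simp [l, Matrix.trace]

end Pool.Agent.Helper55.PL
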