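import Pool.Agent.Helper55.PL.PrnVal
import Pool.Agent.Helper55.PL.CspVal

/-!
# PL-13: the characters which belong to polynomials: twists, central characters, degrees

Proofs.
`prn_tw`: `ind_mul` with `η = dt β` (a class function) and
`dt β (up x y u) * lin μ ν = lin (β μ) (β ν)`.
`csp_tw`: `ind_mul` for both terms: `dt (Q z) (zu (t, u)) = Q z (t²) = Q z (N t) = P (iu z) (iu t)` by
`nu_iu`, `D.PQ`, `D.P_symm`, `D.Q_symm` (`P (iu z) ξ = P ξ (iu z) = Q (nu ξ) z = Q z (nu ξ)`), and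
`dt (Q z) (emb ξ) = Q z (nu ξ) = P (iu z) ξ` (`emb_det`).
`X_tw`: the roots are multiplied with `z`; `trace_iu`, `nu_iu`; `(iu z * ζ)^q = iu z * ζ^q` (`fix_iff`).
`X_cen`: `ind_center_mul` for all the induced functions: central elements `sc z` with
`lin μ ν (sc z * g) = (μ ν)(z) lin μ ν g`, and `Q α * Q β = Q b`; `sc z = zu (z, 0) = emb (iu z)`,
`P ζ (iu z) = Q (nu ζ) z = Q b z` (`D.PQ`).
`X_deg`: `prn_sc`, `csp_sc` with `z = 1`; in the second case if `α + β = a`, `α β = b` with `α, β ∈ Fˣ` then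
`(ζ - α) (ζ - β) = 0` in `E` (`trace_eq`, `norm_eq`), contradiction to `ζ^q ≠ ζ` (`fix_iff`).
`X_whi`: `prn_sc`, `prn_un`, resp. `csp_sc`, `csp_un` and `∑_{u ≠ 0} ψ(-r u) = -1` (`sum_psi`).
-/

open Matrix
open scoped MatrixGroups Classical

set_option linter.unusedSectionVars false

namespace Pool.Agent.Helper55.PL

open Pool.Agent.Helper42.INC Pool.Agent.Helper7.MK

variable {F E : Type} [Field F] [Fintype F] [DecidableEq F] [Field E] [Fintype E] [DecidableEq E]
  [Algebra F E] {D : CD F E} {hE : Module.finrank F E = 2} {ψ : AddChar F ℂ}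

private theorem dtxb_class (β : MulChar F ℂ) : IsClass (dt β) := by
  intro g x
  unfold dt
  rw [Units.val_mul, Units.val_mul, Matrix.det_mul, Matrix.det_mul, mul_right_comm,
    ← Matrix.det_mul, ← Units.val_mul, mul_inv_cancel, Units.val_one, Matrix.det_one, one_mul]

private theorem scxb_one : sc (1 : Fˣ) = (1 : GL (Fin 2) F) := by
  apply Units.ext
  rw [sc, up_val]
  ext i j
  fin_cases i <;> fin_cases j <;> simp

theorem P_iu (D : CD F E) (z : Fˣ) (ζ : Eˣ) : D.P (iu F E z) ζ = D.Q z (nu F E ζ) := by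
  rw [D.P_symm, D.PQ, D.Q_symm]

theorem prn_tw (β μ ν : MulChar F ℂ) (g : GL (Fin 2) F) :
    dt β g * prn μ ν g = prn (β * μ) (β * ν) g := by
  unfold prn
  rw [ind_mul (BG F).subtype (dtxb_class β) (lin μ ν) g]
  congr 1
  funext γ
  have h0 : γ.1.val 1 0 = 0 := γ.2
  change β γ.1.val.det * (μ (γ.1.val 0 0) * ν (γ.1.val 1 1)) =
    (β * μ) (γ.1.val 0 0) * (β * ν) (γ.1.val 1 1)
  rw [Matrix.det_fin_two, h0, mul_zero, sub_zero, map_mul, MulChar.mul_apply, MulChar.mul_apply]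
  ring

theorem csp_tw (D : CD F E) (hE : Module.finrank F E = 2) (ψ : AddChar F ℂ) (z : Fˣ) (ζ : Eˣ)
    (g : GL (Fin 2) F) : dt (D.Q z) g * csp hE ψ (D.P ζ) g = csp hE ψ (D.P (iu F E z * ζ)) g := by
  have hz1 : ∀ t : Fˣ, D.P (iu F E z) (iu F E t) = D.Q z (t * t : F) := by
    intro t
    rw [P_iu, nu_iu hE]
    congr 1
    rw [Units.val_pow_eq_pow_val, sq]
  have hz2 : ∀ ξ : Eˣ, D.P (iu F E z) ξ = D.Q z (Algebra.norm F (ξ : E)) := fun ξ => P_iu D z ξ
  have h1 : dt (D.Q z) g * indHom (zu (F := F)) (whi ψ (resc F (D.P ζ))) g =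
      indHom (zu (F := F)) (whi ψ (resc F (D.P (iu F E z * ζ)))) g := by
    rw [ind_mul (zu (F := F)) (dtxb_class (D.Q z)) _ g]
    congr 1
    funext a
    change D.Q z (up a.1 a.1 (a.1 * a.2.toAdd)).val.det *
      (resc F (D.P ζ) a.1 * ψ a.2.toAdd) = resc F (D.P (iu F E z * ζ)) a.1 * ψ a.2.toAdd
    rw [up_val, Matrix.det_fin_two_of, mul_zero, sub_zero, resc_apply, resc_apply, map_mul D.P,
      MulChar.mul_apply, hz1]
    ring
  have h2 : dt (D.Q z) g * indHom (emb hE) (fun ξ => D.P ζ ξ) g =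
      indHom (emb hE) (fun ξ => D.P (iu F E z * ζ) ξ) g := by
    rw [ind_mul (emb hE) (dtxb_class (D.Q z)) _ g]
    congr 1
    funext ξ
    change D.Q z (emb hE ξ).val.det * D.P ζ ξ = D.P (iu F E z * ζ) ξ
    rw [emb_det, map_mul, MulChar.mul_apply, hz2]
  unfold csp
  rw [Pi.sub_apply, Pi.sub_apply, mul_sub, h1, h2]

theorem X_tw {a : F} {b : Fˣ} {X : GL (Fin 2) F → ℂ} (hX : IsX D hE ψ a b X) (z : Fˣ) :
    IsX D hE ψ (z * a) (z ^ 2 * b) (fun g => dt (D.Q z) g * X g) := by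
  rcases hX with ⟨α, β, hne, hs, hp, rfl⟩ | ⟨ζ, hζ, ht, hn, rfl⟩
  · refine Or.inl ⟨z * α, z * β, fun h => hne (mul_left_cancel h), ?_, ?_, ?_⟩
    · rw [Units.val_mul, Units.val_mul, ← hs]
      ring
    · rw [← hp, sq]
      exact mul_mul_mul_comm z α z β
    · funext g
      rw [prn_tw, map_mul, map_mul]
  · have hz : (iu F E z) ^ Fintype.card F = iu F E z := (fix_iff hE _).2 ⟨z, rfl⟩
    refine Or.inr ⟨iu F E z * ζ, ?_, ?_, ?_, ?_⟩
    · rw [mul_pow, hz]
      exact fun h => hζ (mul_left_cancel h)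
    · rw [Units.val_mul, trace_iu hE, ht]
    · rw [map_mul, nu_iu hE, hn]
    · funext g
      exact csp_tw D hE ψ z ζ g

theorem X_cen {a : F} {b : Fˣ} {X : GL (Fin 2) F → ℂ} (hX : IsX D hE ψ a b X) (z : Fˣ)
    (g : GL (Fin 2) F) : X (sc z * g) = D.Q b z * X g := by
  rcases hX with ⟨α, β, hne, hs, hp, rfl⟩ | ⟨ζ, hζ, ht, hn, rfl⟩
  · unfold prn
    refine ind_center_mul (BG F).subtype (lin (D.Q α) (D.Q β)) (γ := ⟨sc z, up_mem z z 0⟩)
      (c := D.Q b z) (fun y => (sc_comm z y).symm) (fun δ => ?_) g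
    change D.Q α (((sc z) * δ.1).val 0 0) * D.Q β (((sc z) * δ.1).val 1 1) =
      D.Q b z * (D.Q α (δ.1.val 0 0) * D.Q β (δ.1.val 1 1))
    have e0 : ((sc z) * δ.1).val 0 0 = z * δ.1.val 0 0 := by
      rw [sc, Units.val_mul, up_val]
      simp [Matrix.mul_apply, Fin.sum_univ_two]
    have e1 : ((sc z) * δ.1).val 1 1 = z * δ.1.val 1 1 := by
      rw [sc, Units.val_mul, up_val]
      simp [Matrix.mul_apply, Fin.sum_univ_two]
    rw [e0, e1, map_mul, map_mul, ← hp, map_mul, MulChar.mul_apply]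
    ring
  · have hb : D.P ζ (iu F E z) = D.Q b z := by
      rw [D.PQ, hn]
    unfold csp
    rw [Pi.sub_apply, Pi.sub_apply, mul_sub]
    congr 1
    · have e1 : zu (F := F) (z, 1) = sc z := by
        rw [zu_apply, toAdd_one, mul_zero]
        rfl
      rw [← e1]
      refine ind_center_mul (zu (F := F)) (whi ψ (resc F (D.P ζ))) (γ := (z, 1))
        (c := D.Q b z) (fun y => ?_) (fun δ => ?_) g
      · rw [e1]
        exact (sc_comm z y).symm
      · change resc F (D.P ζ) ((z * δ.1 : Fˣ) : F) * ψ (Multiplicative.toAdd (1 * δ.2)) =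
          D.Q b z * (resc F (D.P ζ) δ.1 * ψ δ.2.toAdd)
        rw [resc_apply, resc_apply, one_mul, map_mul, Units.val_mul, map_mul, hb]
        ring
    · rw [← emb_iu hE z]
      refine ind_center_mul (emb hE) (fun ξ => D.P ζ ξ) (γ := iu F E z)
        (c := D.Q b z) (fun y => ?_) (fun δ => ?_) g
      · rw [emb_iu hE z]
        exact (sc_comm z y).symm
      · change D.P ζ ((iu F E z * δ : Eˣ) : E) = D.Q b z * D.P ζ δ
        rw [Units.val_mul, map_mul, hb]

theorem X_deg {a : F} {b : Fˣ} {X : GL (Fin 2) F → ℂ} (hX : IsX D hE ψ a b X) :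
    (X 1 = Fintype.card F + 1 ∧ ∃ α β : Fˣ, α ≠ β ∧ (α : F) + β = a ∧ α * β = b) ∨
    (X 1 = Fintype.card F - 1 ∧ ∀ α β : Fˣ, (α : F) + β = a → α * β ≠ b) := by
  rcases hX with ⟨α, β, hne, hs, hp, rfl⟩ | ⟨ζ, hζ, ht, hn, rfl⟩
  · refine Or.inl ⟨?_, α, β, hne, hs, hp⟩
    rw [← scxb_one, prn_sc, Units.val_one, map_one, map_one, mul_one, mul_one]
  · refine Or.inr ⟨?_, ?_⟩
    · rw [← scxb_one, csp_sc, map_one, Units.val_one, map_one, mul_one]
    · intro α β hs hp
      have h1 : ((ζ : E) - algebraMap F E α) * ((ζ : E) - algebraMap F E β) = 0 := by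
        have h2 := trace_eq hE (ζ : E)
        have h3 := norm_eq hE (ζ : E)
        rw [ht, ← hs, map_add] at h2
        have hn' : Algebra.norm F (ζ : E) = α * β := by
          rw [← nu_val, hn, ← hp, Units.val_mul]
        rw [hn', map_mul] at h3
        linear_combination h3 - (ζ : E) * h2
      rcases mul_eq_zero.1 h1 with h2 | h2
      · apply hζ
        rw [fix_iff hE]
        exact ⟨α, Units.ext (sub_eq_zero.1 h2).symm⟩
      · apply hζ
        rw [fix_iff hE]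
        exact ⟨β, Units.ext (sub_eq_zero.1 h2).symm⟩

theorem X_whi (hψ : ψ ≠ 1) {a : F} {b : Fˣ} {X : GL (Fin 2) F → ℂ} (hX : IsX D hE ψ a b X)
    {r : F} (hr : r ≠ 0) : ∑ u : F, X (up 1 1 u) * ψ (-(r * u)) = Fintype.card F := by
  have hsum : ∀ c : ℂ, (∀ u : F, u ≠ 0 → X (up 1 1 u) = c) →
      ∑ u : F, X (up 1 1 u) * ψ (-(r * u)) = X 1 - c := by
    intro c hc
    have h1 : ∀ u : F, X (up 1 1 u) * ψ (-(r * u)) =
        c * ψ (-r * u) + if u = 0 then X 1 - c else 0 := by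
      intro u
      by_cases hu : u = 0
      · rw [if_pos hu, hu, mul_zero, mul_zero, neg_zero, AddChar.map_zero_eq_one, mul_one, mul_one]
        have : up (1 : Fˣ) 1 (0 : F) = 1 := scxb_one
        rw [this]
        ring
      · rw [if_neg hu, hc u hu, add_zero, neg_mul]
    simp only [h1]
    rw [Finset.sum_add_distrib, ← Finset.mul_sum, sum_psi hψ (neg_ne_zero.2 hr), mul_zero,
      zero_add, Finset.sum_ite_eq' Finset.univ (0 : F), if_pos (Finset.mem_univ _)]
  rcases hX with ⟨α, β, hne, hs, hp, rfl⟩ | ⟨ζ, hζ, ht, hn, rfl⟩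
  · rw [hsum 1 fun u hu => ?_]
    · rw [← scxb_one, prn_sc, Units.val_one, map_one, map_one]
      ring
    · rw [prn_un _ _ _ hu, Units.val_one, map_one, map_one, mul_one]
  · rw [hsum (-1) fun u hu => ?_]
    · rw [← scxb_one, csp_sc, map_one, Units.val_one, map_one]
      ring
    · rw [csp_un hE hψ _ _ hu, map_one, Units.val_one, map_one]

end Pool.Agent.Helper55.PL
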