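import Pool.Agent.Helper55.PL.XA
import Pool.Agent.Helper55.PL.XB
import Pool.Agent.Helper55.PL.Cards

/-!
# PL-17: restriction to `SL₂(F)`: scalar products

Proofs.
`sum_Q`: `∑_z Q z d = ∑_z Q d z` is `q - 1` if `d = 1` and `0` otherwise (`Q` is symmetric and injective,
`MulChar.sum_eq_zero_of_ne_one`).
`S0`: `∑_z B X (dt (Q z) Y) = |GL|⁻¹ ∑_g X(g) Y(g⁻¹) ∑_z Q z (det g⁻¹)`, the inner sum is `q - 1` if
`det g = 1` and `0` otherwise, `|GL| = (q - 1) |SL|` (`card_GL`, `card_SL`), and the `g` with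
`det g = 1` are the `toGL s` (`Matrix.SpecialLinearGroup.toGL_injective`).
`SX`: `S0`, `X_tw`, `X_B`: `dt (Q z) X'` belongs to `(z a', z² b')`.
`SX_one`: `S0` with `Y = 1 = dt 1`: `dt (Q z) * 1 = dt (Q z)`, `X_dt`.
-/

open Matrix
open scoped MatrixGroups Classical

set_option linter.unusedSectionVars false

namespace Pool.Agent.Helper55.PL

open Pool.Agent.Helper42.INC Pool.Agent.Helper7.MK

variable {F E : Type} [Field F] [Fintype F] [DecidableEq F] [Field E] [Fintype E] [DecidableEq E]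
  [Algebra F E] {D : CD F E} {hE : Module.finrank F E = 2} {ψ : AddChar F ℂ}

private theorem sum_units_sl (χ : MulChar F ℂ) : ∑ a : F, χ a = ∑ z : Fˣ, χ (z : F) := by
  have h1 : ∑ z : Fˣ, χ (z : F) =
      ∑ a ∈ Finset.image (fun z : Fˣ => (z : F)) Finset.univ, χ a := by
    rw [Finset.sum_image]
    intro x _ y _ h
    exact Units.ext h
  rw [h1]
  symm
  apply Finset.sum_subset (Finset.subset_univ _)
  intro x _ hx
  apply MulChar.map_nonunit
  rintro ⟨u, rfl⟩
  exact hx (Finset.mem_image.2 ⟨u, Finset.mem_univ _, rfl⟩)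

theorem sum_Q (D : CD F E) (d : Fˣ) :
    ∑ z : Fˣ, D.Q z d = if d = 1 then (Fintype.card F : ℂ) - 1 else 0 := by
  by_cases hd : d = 1
  · rw [if_pos hd, hd]
    simp only [Units.val_one, map_one, Finset.sum_const, Finset.card_univ, nsmul_eq_mul, mul_one]
    exact card_units'
  · rw [if_neg hd]
    have h1 : D.Q d ≠ 1 := by
      intro h
      exact hd (D.Q_inj (by rw [h, map_one]))
    have h2 := MulChar.sum_eq_zero_of_ne_one h1
    rw [← h2, sum_units_sl (D.Q d)]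
    exact Finset.sum_congr rfl fun z _ => D.Q_symm z d

theorem S0 (D : CD F E) (X Y : GL (Fin 2) F → ℂ) :
    B (fun s : SL(2, F) => X (Matrix.SpecialLinearGroup.toGL s))
      (fun s => Y (Matrix.SpecialLinearGroup.toGL s)) =
    ∑ z : Fˣ, B X (fun g => dt (D.Q z) g * Y g) := by
  have hq : (Fintype.card F : ℂ) - 1 ≠ 0 := by
    rw [sub_ne_zero]
    exact_mod_cast (card_pos1 (F := F)).ne'
  have h1 : ∀ z : Fˣ, B X (fun g => dt (D.Q z) g * Y g) =
      (Nat.card (GL (Fin 2) F) : ℂ)⁻¹ * ∑ g, X g * Y g⁻¹ *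
        D.Q z ((Matrix.GeneralLinearGroup.det g⁻¹ : Fˣ) : F) := by
    intro z
    rw [B_eq]
    congr 1
    refine Finset.sum_congr rfl fun g _ => ?_
    change X g * (D.Q z (g⁻¹).val.det * Y g⁻¹) = _
    rw [Matrix.GeneralLinearGroup.val_det_apply]
    ring
  rw [Finset.sum_congr rfl fun z _ => h1 z, ← Finset.mul_sum, Finset.sum_comm]
  have h2 : ∀ g : GL (Fin 2) F, ∑ z : Fˣ, X g * Y g⁻¹ *
        D.Q z ((Matrix.GeneralLinearGroup.det g⁻¹ : Fˣ) : F) =
      if Matrix.GeneralLinearGroup.det g = 1 then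
        ((Fintype.card F : ℂ) - 1) * (X g * Y g⁻¹) else 0 := by
    intro g
    rw [← Finset.mul_sum, sum_Q]
    by_cases hg : Matrix.GeneralLinearGroup.det g = 1
    · rw [if_pos hg, if_pos (by rw [map_inv, hg, inv_one])]
      ring
    · rw [if_neg hg, if_neg (by rw [map_inv, inv_eq_one]; exact hg), mul_zero]
  rw [Finset.sum_congr rfl fun g _ => h2 g, ← Finset.sum_filter, ← Finset.mul_sum]
  have h3 : (Finset.univ : Finset (GL (Fin 2) F)).filter
      (fun g => Matrix.GeneralLinearGroup.det g = 1) =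
      (Finset.univ : Finset SL(2, F)).image (fun s => Matrix.SpecialLinearGroup.toGL s) := by
    ext g
    rw [Finset.mem_filter, Finset.mem_image]
    constructor
    · rintro ⟨_, hg⟩
      have hg' : g.val.det = 1 := by
        rw [← Matrix.GeneralLinearGroup.val_det_apply, hg, Units.val_one]
      exact ⟨⟨g.val, hg'⟩, Finset.mem_univ _, Units.ext rfl⟩
    · rintro ⟨s, _, rfl⟩
      refine ⟨Finset.mem_univ _, ?_⟩
      apply Units.ext
      rw [Matrix.GeneralLinearGroup.val_det_apply, Matrix.SpecialLinearGroup.coe_GL_coe_matrix,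
        s.det_coe, Units.val_one]
  rw [h3, Finset.sum_image fun x _ y _ h => Matrix.SpecialLinearGroup.toGL_injective h, B_eq]
  have h4 : (Nat.card (GL (Fin 2) F) : ℂ)⁻¹ * ((Fintype.card F : ℂ) - 1) =
      (Nat.card SL(2, F) : ℂ)⁻¹ := by
    have h5 : (Nat.card (GL (Fin 2) F) : ℂ) = ((Fintype.card F : ℂ) - 1) * Nat.card SL(2, F) := by
      rw [card_GL, card_SL]
      ring
    rw [h5, mul_inv, mul_comm, ← mul_assoc, mul_inv_cancel₀ hq, one_mul]
  rw [← mul_assoc, h4]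
  congr 1
  refine Finset.sum_congr rfl fun s _ => ?_
  rw [map_inv]

theorem SX (hψ : ψ ≠ 1) {a a' : F} {b b' : Fˣ} {X X' : GL (Fin 2) F → ℂ}
    (hX : IsX D hE ψ a b X) (hX' : IsX D hE ψ a' b' X') :
    B (fun s : SL(2, F) => X (Matrix.SpecialLinearGroup.toGL s))
      (fun s => X' (Matrix.SpecialLinearGroup.toGL s)) =
    (Finset.univ.filter (fun z : Fˣ => (z : F) * a' = a ∧ z ^ 2 * b' = b)).card := by
  rw [S0 D X X', Finset.sum_congr rfl fun z _ => X_B hψ hX (X_tw hX' z), Finset.card_filter,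
    Nat.cast_sum]
  refine Finset.sum_congr rfl fun z _ => ?_
  by_cases h : (z : F) * a' = a ∧ z ^ 2 * b' = b
  · rw [if_pos h, if_pos ⟨h.1.symm, h.2.symm⟩, Nat.cast_one]
  · rw [if_neg h, if_neg fun h' => h ⟨h'.1.symm, h'.2.symm⟩, Nat.cast_zero]

theorem SX_one (hψ : ψ ≠ 1) {a : F} {b : Fˣ} {X : GL (Fin 2) F → ℂ} (hX : IsX D hE ψ a b X) :
    B (fun s : SL(2, F) => X (Matrix.SpecialLinearGroup.toGL s)) (fun _ => 1) = 0 := by
  have h1 := S0 D X (fun _ => 1)
  rw [h1]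
  refine Finset.sum_eq_zero fun z _ => ?_
  have h2 : (fun g : GL (Fin 2) F => dt (D.Q z) g * 1) = dt (D.Q z) := by
    funext g
    rw [mul_one]
  rw [h2]
  exact X_dt hψ hX (D.Q z)

/-- restriction of characters with natural coefficients -/
theorem S_nat {X : GL (Fin 2) F → ℂ} (hX : X ∈ Irr (GL (Fin 2) F)) {χ : SL(2, F) → ℂ}
    (hχ : χ ∈ Irr SL(2, F)) :
    ∃ n : ℕ, B (fun s : SL(2, F) => X (Matrix.SpecialLinearGroup.toGL s)) χ = n := by
  obtain ⟨V, i1, i2, i3, ρ, _, rfl⟩ := hX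
  obtain ⟨W, j1, j2, j3, σ, _, rfl⟩ := hχ
  exact B_char (ρ.comp Matrix.SpecialLinearGroup.toGL) σ

theorem S_class {X : GL (Fin 2) F → ℂ} (hX : IsClass X) :
    IsClass (fun s : SL(2, F) => X (Matrix.SpecialLinearGroup.toGL s)) := by
  intro g x
  change X (Matrix.SpecialLinearGroup.toGL (g * x * g⁻¹)) = X (Matrix.SpecialLinearGroup.toGL x)
  rw [map_mul, map_mul, map_inv]
  exact hX _ _

end Pool.Agent.Helper55.PL
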