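import Pool.Agent.Helper55.PL.EmbA

/-!
# PL-15: existence of the characters which belong to polynomials

Let `q` be odd and `a² ≠ 4 b`. If `x² - a x + b` has a root `α` in `F` then the other root is
`β = a - α`, `α β = b ≠ 0`, `α ≠ β`, and `X = prn (Q α) (Q β)`. Otherwise: `a² - 4 b` is a square in `E`,
since every element of `F` is a square in `E` (`z^((q²-1)/2) = (z^(q-1))^((q+1)/2) = 1`,
`FiniteField.unit_isSquare_iff`; `card_E`); so there is a root `ζ ∈ E` of `x² - a x + b`; it is not in
`F`, so `ζ^q ≠ ζ` (`fix_iff`); applying the Frobenius, `ζ^q` is a root too (`ζ ↦ ζ^q` is a ring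
homomorphism which fixes `F`: `FiniteField.pow_card`, `frobenius`...), so `ζ + ζ^q = a`, `ζ ζ^q = b`, and
`trace_eq`, `norm_eq` give trace `a` and norm `b` (`algebraMap` is injective).
-/

open Matrix
open scoped MatrixGroups Classical

set_option linter.unusedSectionVars false

namespace Pool.Agent.Helper55.PL

open Pool.Agent.Helper42.INC Pool.Agent.Helper7.MK

variable {F E : Type} [Field F] [Fintype F] [DecidableEq F] [Field E] [Fintype E] [DecidableEq E]
  [Algebra F E]

private lemma isSquare_ext (hE : Module.finrank F E = 2) (h2 : (2 : F) ≠ 0) {x : F} (hx : x ≠ 0) :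
    IsSquare (algebraMap F E x) := by
  have hF : ringChar F ≠ 2 := by
    intro hc
    apply h2
    have h3 := ringChar.Nat.cast_ringChar (R := F)
    rw [hc] at h3
    exact_mod_cast h3
  have h2E : (2 : E) ≠ 0 := by
    have h3 : algebraMap F E 2 = (2 : E) := map_ofNat (algebraMap F E) 2
    rw [← h3, Ne, map_eq_zero]
    exact h2
  have hcE : ringChar E ≠ 2 := by
    intro hc
    apply h2E
    have h3 := ringChar.Nat.cast_ringChar (R := E)
    rw [hc] at h3
    exact_mod_cast h3
  have hx' : algebraMap F E x ≠ 0 := by
    rw [Ne, map_eq_zero]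
    exact hx
  rw [FiniteField.isSquare_iff hcE hx', card_E (F := F) hE]
  obtain ⟨k, hk⟩ : ∃ k, Fintype.card F = 2 * k + 1 := by
    have := FiniteField.odd_card_of_char_ne_two hF
    exact ⟨Fintype.card F / 2, by omega⟩
  have h4 : Fintype.card F ^ 2 / 2 = (Fintype.card F - 1) * (k + 1) := by
    rw [hk, Nat.add_sub_cancel]
    have h5 : (2 * k + 1) ^ 2 = 2 * (2 * k * (k + 1)) + 1 := by ring
    rw [h5]
    omega
  rw [h4, pow_mul, ← map_pow, FiniteField.pow_card_sub_one_eq_one x hx, map_one, one_pow]

theorem exists_X (D : CD F E) (hE : Module.finrank F E = 2) (ψ : AddChar F ℂ)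
    (h2 : (2 : F) ≠ 0) {a : F} {b : Fˣ} (h : a ^ 2 ≠ 4 * b) : ∃ X, IsX D hE ψ a b X := by
  by_cases hroot : ∃ α : F, α * α - a * α + b = 0
  · obtain ⟨α, hα⟩ := hroot
    have hb : α * (a - α) = b := by linear_combination -hα
    have hα0 : α ≠ 0 := by
      intro h0
      rw [h0, zero_mul] at hb
      exact b.ne_zero hb.symm
    have hβ0 : a - α ≠ 0 := by
      intro h0
      rw [h0, mul_zero] at hb
      exact b.ne_zero hb.symm
    refine ⟨prn (D.Q (Units.mk0 α hα0)) (D.Q (Units.mk0 (a - α) hβ0)), Or.inl
      ⟨Units.mk0 α hα0, Units.mk0 (a - α) hβ0, ?_, ?_, ?_, rfl⟩⟩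
    · intro hab
      have h3 : α = a - α := by simpa using congrArg Units.val hab
      apply h
      have h4 : a = 2 * α := by linear_combination -h3
      rw [h4] at hb ⊢
      linear_combination 4 * hb
    · simp
    · apply Units.ext
      simpa using hb
  · have hinj : Function.Injective (algebraMap F E) := (algebraMap F E).injective
    have hΔ : a ^ 2 - 4 * (b : F) ≠ 0 := sub_ne_zero.2 h
    obtain ⟨δ, hδ⟩ := isSquare_ext (E := E) hE h2 hΔ
    have h2E : (2 : E) ≠ 0 := by
      have h3 : algebraMap F E 2 = (2 : E) := map_ofNat (algebraMap F E) 2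
      rw [← h3, Ne, map_eq_zero]
      exact h2
    rw [map_sub, map_mul, map_pow, map_ofNat] at hδ
    obtain ⟨z, hz⟩ : ∃ z : E, z = (algebraMap F E a + δ) / 2 := ⟨_, rfl⟩
    have hz2 : 2 * z = algebraMap F E a + δ := by
      rw [hz]
      field_simp
    have hquad : z * z - algebraMap F E a * z + algebraMap F E b = 0 := by
      have h4 : (4 : E) * (z * z - algebraMap F E a * z + algebraMap F E b) = 0 := by
        linear_combination (2 * z - algebraMap F E a + δ) * hz2 - hδ
      have h5 : (4 : E) ≠ 0 := by
        have : (4 : E) = 2 * 2 := by norm_num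
        rw [this]
        exact mul_ne_zero h2E h2E
      rcases mul_eq_zero.1 h4 with h6 | h6
      · exact absurd h6 h5
      · exact h6
    have hb0 : algebraMap F E (b : F) ≠ 0 := by
      rw [Ne, map_eq_zero]
      exact b.ne_zero
    have hz0 : z ≠ 0 := by
      intro h0
      rw [h0] at hquad
      apply hb0
      linear_combination hquad
    have hfrob : z ^ Fintype.card F * z ^ Fintype.card F - algebraMap F E a * z ^ Fintype.card F +
        algebraMap F E b = 0 := by
      have h6 := congrArg (FiniteField.frobeniusAlgHom F E) hquad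
      rw [map_add, map_sub, map_mul, map_mul, AlgHom.commutes, AlgHom.commutes, map_zero] at h6
      simpa [FiniteField.coe_frobeniusAlgHom] using h6
    have hne : (Units.mk0 z hz0) ^ Fintype.card F ≠ Units.mk0 z hz0 := by
      intro h7
      obtain ⟨x, hx⟩ := (fix_iff (F := F) hE (Units.mk0 z hz0)).1 h7
      apply hroot
      have h8 : algebraMap F E (x : F) = z := by
        have := congrArg Units.val hx
        rw [iu_val] at this
        simpa using this
      refine ⟨x, hinj ?_⟩
      rw [map_add, map_sub, map_mul, map_mul, h8, map_zero]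
      exact hquad
    have hne' : z - z ^ Fintype.card F ≠ 0 := by
      intro h7
      apply hne
      apply Units.ext
      rw [Units.val_pow_eq_pow_val, Units.val_mk0]
      exact (sub_eq_zero.1 h7).symm
    have hsum : z + z ^ Fintype.card F = algebraMap F E a := by
      have h8 : (z - z ^ Fintype.card F) * (z + z ^ Fintype.card F - algebraMap F E a) = 0 := by
        linear_combination hquad - hfrob
      rcases mul_eq_zero.1 h8 with h9 | h9
      · exact absurd h9 hne'
      · exact sub_eq_zero.1 h9
    have hprod : z * z ^ Fintype.card F = algebraMap F E b := by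
      linear_combination z * hsum - hquad
    refine ⟨csp hE ψ (D.P (Units.mk0 z hz0)), Or.inr ⟨Units.mk0 z hz0, hne, ?_, ?_, rfl⟩⟩
    · apply hinj
      rw [trace_eq hE, Units.val_mk0]
      exact hsum
    · apply Units.ext
      apply hinj
      rw [nu_val, norm_eq hE, Units.val_mk0]
      exact hprod

end Pool.Agent.Helper55.PL
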