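import Pool.Agent.Helper55.PL.Steinberg
import Pool.Agent.Helper55.PL.HalfD
import Pool.Agent.Helper55.PL.XD
import Pool.Agent.Helper55.PL.SumSq

/-!
# PL-24: the irreducible characters of degree prime to `p` of `SL₂(F)`

Construction of `SData`. `q` odd, `q > 3` is not needed. For `b ∈ Fˣ` with `4 b ≠ 1` choose `X_b` with
`IsX D hE ψ 1 b X_b` (`exists_X` with `a = 1`), `th (inl b) = X_b ∘ toGL`; for `4 b = 1` put `th (inl b) = 1`.
For `c : Bool` choose `X` with `IsX D hE ψ 0 (hb ν c) X` (`exists_X`: `0 ≠ 4 b`) and `θ_c` by `H_half`;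
`th (inr (c, true)) = θ_c`, `th (inr (c, false)) = θ_c ∘ cj (up ν 1 0)`.

Proofs.
`irr`: `SL_irr`, `irr_lin` (the constant `1`), `H_half`, `INC.irr_comp`. The degrees `1, q ± 1, (q ± 1)/2` are
prime to `p`: `q = p^n ≡ 0` (`q` is a power of `p`), and `2 θ(1) ≡ ± 1`.
`inj`: scalar products. `SX` with `a = a' = 1` gives `[b = b']`; `SX_one` gives `0`; for `a = 1`, `a' = 0` or
`a = 0`, `a' = 1`: `0`, so (natural coefficients, `B_nat`) also the halves are orthogonal to
`th (inl b)`; the constant `1` and the halves: `SX_one`. For `c ≠ c'`: no `z` has `z² hb ν c' = hb ν c`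
(`ν` is not a square). `θ_c ≠ θ_c ∘ cj (up ν 1 0)` by `H_half`.
`surj`: `complete_of_sum` for the `q + 3 + 1` characters `th i` and the Steinberg character
(`StS_irr`, `St_one`, of degree `q`, so different from the others: its degree is divisible by `p`):
`∑ = q² + 1 + n (q + 1)² + (q - 2 - n) (q - 1)² + 4 (h₁² + h₂²)`... precisely: `n` is the number of `b` with
`b = α β`, `α ≠ β`, `α + β = 1` (`split_count`: `2 n + 3 = q`; these have degree `q + 1` by `X_deg`, `4 b ≠ 1`
since `(α - β)² = 1 - 4 b`), the other `b` with `4 b ≠ 1` (there are `q - 2 - n`) have degree `q - 1`; the two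
halves for `c` have degree `(q + 1)/2` if `x² + hb ν c` has roots in `F` (`hb ν true = -1`: yes), and
`(q - 1)/2` otherwise (`hb ν false = -ν`: no); the sum is `q (q² - 1)` (`card_SL`). To know the degree of
the halves use `X 1 = 2 θ 1` (from `H_half` with `s = 1`) and `X_deg`.
`act`: `th (inl b) (act g f s) = X_b (g * fG f (toGL s) * g⁻¹) = X_b (fG f (toGL s))` and
`h ↦ X_b (fG f h)` belongs to `(f 1, f b) = (1, Fu f b)` (`X_gal`), so it is `X_{f b}` (`X_unique`). For `inr`:
`H_half`; for `e = false`: `θ (cj (up ν 1 0) (act g f s)) = θ (act (up ν 1 0 * g) f s)` and `sqd_mul`, `sqd_nu`.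
`ext`: `X_b` with `X_irr`, `X_cen`, `X_gal` with `X_unique`, `X_whi` with `r = 1`.
`degl`, `degr`: `X_deg`, `H_half`. `whi`, `cen`: `H_half` (for `e = false`: `cj g (dd (-1) * s) = dd (-1) * cj g s`).
-/

open Matrix
open scoped MatrixGroups Classical

set_option linter.unusedSectionVars false

namespace Pool.Agent.Helper55.PL

open Pool.Agent.Helper42.INC Pool.Agent.Helper7.MK

section aux

variable {F : Type} [Field F] [Fintype F] [DecidableEq F]

private theorem sm_dvd (F : Type) [Field F] [Fintype F] (p : ℕ) [Fact p.Prime] [CharP F p] :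
    p ∣ Fintype.card F := by
  obtain ⟨n, hn⟩ := FiniteField.card F p
  rw [hn.2]
  exact dvd_pow_self p n.ne_zero

private theorem sm_ndvd1 {p n q : ℕ} (hp : p.Prime) (hq : p ∣ q)
    (h : n = 1 ∨ n = q + 1 ∨ n + 1 = q) : ¬ p ∣ n := by
  intro hn
  have hp1 : ¬ p ∣ 1 := fun h1 => hp.one_lt.ne' (Nat.dvd_one.1 h1)
  rcases h with rfl | rfl | rfl
  · exact hp1 hn
  · exact hp1 ((Nat.dvd_add_right hq).1 hn)
  · exact hp1 ((Nat.dvd_add_right hn).1 hq)

private theorem sm_ndvd2 {p n q : ℕ} (hp : p.Prime) (hq : p ∣ q)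
    (h : 2 * n = q + 1 ∨ 2 * n + 1 = q) : ¬ p ∣ n := fun hn =>
  sm_ndvd1 hp hq (n := 2 * n) (h.elim (fun h => Or.inr (Or.inl h)) fun h => Or.inr (Or.inr h))
    (hn.mul_left 2)

private theorem sm_irrP1 (F : Type) [Field F] [Fintype F] (p : ℕ) [Fact p.Prime] [CharP F p]
    {G : Type} [Group G] [Finite G] {χ : G → ℂ} (hχ : χ ∈ Irr G)
    (h : χ 1 = 1 ∨ χ 1 = Fintype.card F + 1 ∨ χ 1 = Fintype.card F - 1) : χ ∈ IrrP p G := by
  obtain ⟨n, -, hn⟩ := irr_one hχ
  refine ⟨hχ, n, hn, sm_ndvd1 Fact.out (sm_dvd F p) ?_⟩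
  rw [hn] at h
  rcases h with h | h | h
  · left
    exact_mod_cast h
  · right
    left
    exact_mod_cast h
  · right
    right
    have h1 : (n : ℂ) + 1 = Fintype.card F := by
      rw [h]
      ring
    exact_mod_cast h1

private theorem sm_irrP2 (F : Type) [Field F] [Fintype F] (p : ℕ) [Fact p.Prime] [CharP F p]
    {G : Type} [Group G] [Finite G] {χ : G → ℂ} (hχ : χ ∈ Irr G)
    (h : 2 * χ 1 = Fintype.card F + 1 ∨ 2 * χ 1 = Fintype.card F - 1) : χ ∈ IrrP p G := by
  obtain ⟨n, -, hn⟩ := irr_one hχ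
  refine ⟨hχ, n, hn, sm_ndvd2 Fact.out (sm_dvd F p) ?_⟩
  rw [hn] at h
  rcases h with h | h
  · left
    exact_mod_cast h
  · right
    have h1 : 2 * (n : ℂ) + 1 = Fintype.card F := by
      rw [h]
      ring
    exact_mod_cast h1

private theorem sm_ne {G : Type} [Group G] [Finite G] {a b : G → ℂ} (ha : a ∈ Irr G)
    (h : B a b = 0) : a ≠ b := by
  rintro rfl
  rw [B_irr_self ha] at h
  exact one_ne_zero h

private theorem sm_ifs {P Q : Prop} [Decidable P] [Decidable Q]
    (h : (if P then (1 : ℂ) else 0) + (if Q then 1 else 0) = 0) : ¬ P ∧ ¬ Q := by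
  constructor
  · intro hP
    rw [if_pos hP] at h
    split_ifs at h <;> norm_num at h
  · intro hQ
    rw [if_pos hQ] at h
    split_ifs at h <;> norm_num at h

private theorem sm_ifs4 {P Q R S : Prop} [Decidable P] [Decidable Q] [Decidable R] [Decidable S]
    (h : ((if P then (1 : ℂ) else 0) + (if Q then 1 else 0)) +
      ((if R then (1 : ℂ) else 0) + (if S then 1 else 0)) = 0) : ¬ P ∧ ¬ Q ∧ ¬ R ∧ ¬ S := by
  by_cases hP : P <;> by_cases hQ : Q <;> by_cases hR : R <;> by_cases hS : S <;>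
    simp only [hP, hQ, hR, hS, if_true, if_false, not_true_eq_false, not_false_eq_true, and_true,
      and_self, and_false] at h ⊢ <;> norm_num at h

private theorem sm_split {G : Type} [Group G] [Finite G] {χ a b : G → ℂ} (hχ : χ ∈ Irr G)
    (ha : a ∈ Irr G) (hb : b ∈ Irr G) (h : B (a + b) χ = 0) : a ≠ χ ∧ b ≠ χ := by
  rw [B_add_left, B_irr ha hχ, B_irr hb hχ] at h
  exact sm_ifs h

private theorem sm_split2 {G : Type} [Group G] [Finite G] {a b a' b' : G → ℂ}
    (ha : a ∈ Irr G) (hb : b ∈ Irr G) (ha' : a' ∈ Irr G) (hb' : b' ∈ Irr G)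
    (h : B (a + b) (a' + b') = 0) : a' ≠ a ∧ b' ≠ a ∧ a' ≠ b ∧ b' ≠ b := by
  rw [B_add_left, B_symm a, B_symm b, B_add_left, B_add_left, B_irr ha' ha, B_irr hb' ha,
    B_irr ha' hb, B_irr hb' hb] at h
  exact sm_ifs4 h

end aux

variable {F E : Type} [Field F] [Fintype F] [DecidableEq F] [Field E] [Fintype E] [DecidableEq E]
  [Algebra F E]

theorem exists_SData (p : ℕ) [Fact p.Prime] [CharP F p] (D : CD F E)
    (hE : Module.finrank F E = 2) {ψ : AddChar F ℂ} (hψ : ψ ≠ 1)
    (hψf : ∀ (f : F ≃+* F) (u : F), ψ (f u) = ψ u) (h2 : (2 : F) ≠ 0)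
    {ν : Fˣ} (hν : ¬ IsSquare ν) : Nonempty (SData p D.Q ψ ν) := by
  have h4 : (4 : F) ≠ 0 := by
    have h : (4 : F) = 2 * 2 := by norm_num
    rw [h]
    exact mul_ne_zero h2 h2
  have hexL : ∀ b : Fˣ, ∃ X : GL (Fin 2) F → ℂ, (b : F) * 4 ≠ 1 → IsX D hE ψ 1 b X := by
    intro b
    by_cases hb : (b : F) * 4 = 1
    · exact ⟨0, fun h => absurd hb h⟩
    · obtain ⟨X, hX⟩ := exists_X D hE ψ h2 (a := 1) (b := b) (by
        intro h
        apply hb
        rw [one_pow] at h
        rw [mul_comm]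
        exact h.symm)
      exact ⟨X, fun _ => hX⟩
  choose XL hXL using hexL
  have hex0 : ∀ c : Bool, ∃ X, IsX D hE ψ 0 (hb ν c) X := by
    intro c
    exact exists_X D hE ψ h2 (by
      intro h
      rw [zero_pow two_ne_zero] at h
      exact mul_ne_zero h4 (hb ν c).ne_zero h.symm)
  choose X0 hX0 using hex0
  have hexH := fun c => H_half hψ hψf h2 hν (hX0 c)
  choose θ hθI hθs hθne hθact hθw hθc hθd using hexH
  -- the characters
  obtain ⟨th, th1, thX, thT, thF⟩ : ∃ th : Ix F → SL(2, F) → ℂ,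
      (∀ b : Fˣ, (b : F) * 4 = 1 → th (Sum.inl b) = fun _ => 1) ∧
      (∀ b : Fˣ, (b : F) * 4 ≠ 1 → th (Sum.inl b) =
        fun s => XL b (Matrix.SpecialLinearGroup.toGL s)) ∧
      (∀ c, th (Sum.inr (c, true)) = θ c) ∧
      (∀ c, th (Sum.inr (c, false)) = fun s => θ c (cj (up ν 1 0) s)) := by
    refine ⟨fun i => match i with
      | Sum.inl b => if (b : F) * 4 = 1 then fun _ => 1
          else fun s => XL b (Matrix.SpecialLinearGroup.toGL s)
      | Sum.inr (c, true) => θ c
      | Sum.inr (c, false) => fun s => θ c (cj (up ν 1 0) s), ?_, ?_, ?_, ?_⟩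
    · intro b hb
      exact if_pos hb
    · intro b hb
      exact if_neg hb
    · intro c
      rfl
    · intro c
      rfl
  have hL : ∀ b : Fˣ, (b : F) * 4 ≠ 1 →
      (fun s : SL(2, F) => XL b (Matrix.SpecialLinearGroup.toGL s)) ∈ Irr SL(2, F) :=
    fun b hb => SL_irr hψ (hXL b hb)
  have hF : ∀ c, (fun s => θ c (cj (up ν 1 0) s)) ∈ Irr SL(2, F) := fun c =>
    irr_comp (cj (up ν 1 0)) (hθI c)
  have h1I : (fun _ : SL(2, F) => (1 : ℂ)) ∈ Irr SL(2, F) :=
    irr_lin rfl fun _ _ => (mul_one 1).symm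
  have hcj1 : cj (up ν 1 0) (1 : SL(2, F)) = 1 := map_one _
  have hgl1 : Matrix.SpecialLinearGroup.toGL (1 : SL(2, F)) = 1 := map_one _
  -- degrees
  have hdegX : ∀ b : Fˣ, (b : F) * 4 ≠ 1 →
      (th (Sum.inl b) 1 = Fintype.card F + 1 ∧
        ∃ α β : Fˣ, α ≠ β ∧ (α : F) + β = 1 ∧ α * β = b) ∨
      (th (Sum.inl b) 1 = Fintype.card F - 1 ∧ ∀ α β : Fˣ, (α : F) + β = 1 → α * β ≠ b) := by
    intro b hb
    have h := X_deg (hXL b hb)
    rw [thX b hb]
    change (XL b (Matrix.SpecialLinearGroup.toGL 1) = _ ∧ _) ∨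
      (XL b (Matrix.SpecialLinearGroup.toGL 1) = _ ∧ _)
    rw [hgl1]
    exact h
  have hdegl : ∀ b, th (Sum.inl b) 1 = 1 ∨ th (Sum.inl b) 1 = Fintype.card F + 1 ∨
      th (Sum.inl b) 1 = Fintype.card F - 1 := by
    intro b
    by_cases hb : (b : F) * 4 = 1
    · left
      rw [th1 b hb]
    · right
      rcases hdegX b hb with h | h
      · exact Or.inl h.1
      · exact Or.inr h.1
  have hdegr : ∀ c, 2 * th (Sum.inr c) 1 = Fintype.card F + 1 ∨
      2 * th (Sum.inr c) 1 = Fintype.card F - 1 := by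
    rintro ⟨c, e⟩
    cases e with
    | true =>
      rw [thT]
      exact hθd c
    | false =>
      rw [thF]
      change 2 * θ c (cj (up ν 1 0) 1) = _ ∨ 2 * θ c (cj (up ν 1 0) 1) = _
      rw [hcj1]
      exact hθd c
  -- irreducibility
  have hirr0 : ∀ i, th i ∈ Irr SL(2, F) := by
    rintro (b | ⟨c, e⟩)
    · by_cases hb : (b : F) * 4 = 1
      · rw [th1 b hb]
        exact h1I
      · rw [thX b hb]
        exact hL b hb
    · cases e with
      | true =>
        rw [thT]
        exact hθI c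
      | false =>
        rw [thF]
        exact hF c
  have hirr : ∀ i, th i ∈ IrrP p SL(2, F) := by
    rintro (b | c)
    · exact sm_irrP1 F p (hirr0 _) (hdegl b)
    · exact sm_irrP2 F p (hirr0 _) (hdegr c)
  -- injectivity
  have hsum0 : ∀ c, (fun s : SL(2, F) => X0 c (Matrix.SpecialLinearGroup.toGL s)) =
      θ c + fun s => θ c (cj (up ν 1 0) s) := fun c => funext fun s => hθs c s
  have hLr : ∀ b : Fˣ, (b : F) * 4 ≠ 1 → ∀ c,
      θ c ≠ (fun s => XL b (Matrix.SpecialLinearGroup.toGL s)) ∧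
      (fun s => θ c (cj (up ν 1 0) s)) ≠ (fun s => XL b (Matrix.SpecialLinearGroup.toGL s)) := by
    intro b hb c
    refine sm_split (hL b hb) (hθI c) (hF c) ?_
    rw [← hsum0, SX hψ (hX0 c) (hXL b hb)]
    rw [Nat.cast_eq_zero, Finset.card_eq_zero, Finset.filter_eq_empty_iff]
    rintro z - ⟨hz, -⟩
    rw [mul_one] at hz
    exact z.ne_zero hz
  have h1r : ∀ c, θ c ≠ (fun _ => 1) ∧ (fun s => θ c (cj (up ν 1 0) s)) ≠ (fun _ => 1) := by
    intro c
    refine sm_split h1I (hθI c) (hF c) ?_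
    rw [← hsum0]
    exact SX_one hψ (hX0 c)
  have hrne : ∀ c, θ c ≠ fun s => θ c (cj (up ν 1 0) s) := by
    intro c h
    obtain ⟨s, hs⟩ := hθne c
    exact hs (congrFun h s).symm
  have hz : ∀ z : Fˣ, z ^ 2 * hb ν false ≠ hb ν true := by
    intro z h
    apply hν
    have h3 : z ^ 2 * ν = 1 := by
      have h5 : z ^ 2 * (-ν) = -1 := h
      rw [mul_neg, neg_inj] at h5
      exact h5
    refine ⟨z⁻¹, ?_⟩
    rw [← mul_inv, ← sq]
    exact eq_inv_of_mul_eq_one_right h3
  have htf : θ false ≠ θ true ∧ (fun s => θ false (cj (up ν 1 0) s)) ≠ θ true ∧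
      θ false ≠ (fun s => θ true (cj (up ν 1 0) s)) ∧
      (fun s => θ false (cj (up ν 1 0) s)) ≠ (fun s => θ true (cj (up ν 1 0) s)) := by
    refine sm_split2 (hθI true) (hF true) (hθI false) (hF false) ?_
    rw [← hsum0, ← hsum0, SX hψ (hX0 true) (hX0 false)]
    rw [Nat.cast_eq_zero, Finset.card_eq_zero, Finset.filter_eq_empty_iff]
    rintro z - ⟨-, h⟩
    exact hz z h
  have hinl : ∀ b b', th (Sum.inl b) = th (Sum.inl b') → b = b' := by
    intro b b' h
    by_cases hb : (b : F) * 4 = 1 <;> by_cases hb' : (b' : F) * 4 = 1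
    · exact Units.ext (mul_right_cancel₀ h4 (hb.trans hb'.symm))
    · exfalso
      rw [th1 b hb, thX b' hb'] at h
      exact sm_ne (hL b' hb') (SX_one hψ (hXL b' hb')) h.symm
    · exfalso
      rw [thX b hb, th1 b' hb'] at h
      exact sm_ne (hL b hb) (SX_one hψ (hXL b hb)) h
    · by_contra hne
      rw [thX b hb, thX b' hb'] at h
      refine sm_ne (hL b hb) ?_ h
      rw [SX hψ (hXL b hb) (hXL b' hb'), Nat.cast_eq_zero, Finset.card_eq_zero,
        Finset.filter_eq_empty_iff]
      rintro z - ⟨hz1, hz2⟩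
      rw [mul_one] at hz1
      have h5 : z = 1 := Units.ext hz1
      rw [h5, one_pow, one_mul] at hz2
      exact hne hz2.symm
  have hlr : ∀ b c, th (Sum.inr c) ≠ th (Sum.inl b) := by
    rintro b ⟨c, e⟩
    by_cases hb : (b : F) * 4 = 1
    · rw [th1 b hb]
      cases e with
      | true =>
        rw [thT]
        exact (h1r c).1
      | false =>
        rw [thF]
        exact (h1r c).2
    · rw [thX b hb]
      cases e with
      | true =>
        rw [thT]
        exact (hLr b hb c).1
      | false =>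
        rw [thF]
        exact (hLr b hb c).2
  have hinj : Function.Injective th := by
    rintro (b | ⟨c, e⟩) (b' | ⟨c', e'⟩) h
    · rw [hinl b b' h]
    · exact absurd h.symm (hlr b (c', e'))
    · exact absurd h (hlr b' (c, e))
    · cases c <;> cases c' <;> cases e <;> cases e' <;> simp only [thT, thF] at h <;>
        first
        | rfl
        | exact absurd h (hrne _)
        | exact absurd h.symm (hrne _)
        | exact absurd h htf.1
        | exact absurd h htf.2.1
        | exact absurd h htf.2.2.1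
        | exact absurd h htf.2.2.2
        | exact absurd h.symm htf.1
        | exact absurd h.symm htf.2.1
        | exact absurd h.symm htf.2.2.1
        | exact absurd h.symm htf.2.2.2
  -- the sum of the squares of the degrees
  obtain ⟨q, hq⟩ : ∃ q : ℂ, q = Fintype.card F := ⟨_, rfl⟩
  obtain ⟨S1, hS1⟩ : ∃ S1 : Finset Fˣ, S1 =
    Finset.univ.filter (fun b : Fˣ => ∃ α β : Fˣ, α ≠ β ∧ (α : F) + β = 1 ∧ α * β = b) := ⟨_, rfl⟩
  have hcount : 2 * (S1.card : ℂ) + 3 = q := by
    have h := split_count h2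
    rw [hq, hS1]
    exact_mod_cast h
  have hb0 : ∀ b : Fˣ, (b : F) * 4 = 1 → b ∉ S1 := by
    intro b hb h
    rw [hS1, Finset.mem_filter] at h
    obtain ⟨-, α, β, hne, hs, hp⟩ := h
    apply hne
    have h5 : ((α : F) - β) ^ 2 = 0 := by
      have h6 : (α : F) * β = b := by rw [← hp, Units.val_mul]
      linear_combination (α + β + 1) * hs - 4 * h6 - hb
    exact Units.ext (sub_eq_zero.1 (pow_eq_zero_iff two_ne_zero |>.1 h5))
  have hval : ∀ b : Fˣ, (th (Sum.inl b) 1) ^ 2 = (q - 1) ^ 2 + (if b ∈ S1 then 4 * q else 0) +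
      (if b = Units.mk0 (4⁻¹ : F) (inv_ne_zero h4) then 1 - (q - 1) ^ 2 else 0) := by
    intro b
    have hiff : b = Units.mk0 (4⁻¹ : F) (inv_ne_zero h4) ↔ (b : F) * 4 = 1 := by
      constructor
      · rintro rfl
        rw [Units.val_mk0, inv_mul_cancel₀ h4]
      · intro h
        apply Units.ext
        rw [Units.val_mk0]
        exact eq_inv_of_mul_eq_one_left h
    by_cases hb : (b : F) * 4 = 1
    · rw [if_neg (hb0 b hb), if_pos (hiff.2 hb), th1 b hb]
      ring
    · rw [if_neg (fun h => hb (hiff.1 h))]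
      rcases hdegX b hb with ⟨h, α, β, hαβ⟩ | ⟨h, h'⟩
      · rw [if_pos, h, ← hq]
        · ring
        · rw [hS1, Finset.mem_filter]
          exact ⟨Finset.mem_univ _, α, β, hαβ⟩
      · rw [if_neg, h, ← hq]
        · ring
        · rw [hS1, Finset.mem_filter]
          rintro ⟨-, α, β, -, hs, hp⟩
          exact h' α β hs hp
  have hsumL : ∑ b : Fˣ, (th (Sum.inl b) 1) ^ 2 = (q - 1) * (q - 1) ^ 2 + S1.card * (4 * q) +
      (1 - (q - 1) ^ 2) := by
    simp only [hval]
    rw [Finset.sum_add_distrib, Finset.sum_add_distrib, Finset.sum_const, Finset.card_univ,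
      nsmul_eq_mul, card_units', ← hq, Finset.sum_ite_eq' Finset.univ, if_pos (Finset.mem_univ _)]
    congr 2
    rw [Finset.sum_ite_mem, Finset.univ_inter, Finset.sum_const, nsmul_eq_mul]
  have hhalf : ∀ c, X0 c 1 = 2 * θ c 1 := by
    intro c
    have h := hθs c 1
    rw [hcj1, hgl1] at h
    rw [h]
    ring
  have hθt : 2 * θ true 1 = q + 1 := by
    rw [← hhalf]
    rcases X_deg (hX0 true) with ⟨h, -⟩ | ⟨-, h⟩
    · rw [h, hq]
    · exfalso
      refine h 1 (-1) ?_ ?_
      · simp
      · simp [hb]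
  have hθf : 2 * θ false 1 = q - 1 := by
    rw [← hhalf]
    rcases X_deg (hX0 false) with ⟨-, α, β, -, hs, hp⟩ | ⟨h, -⟩
    · exfalso
      apply hν
      refine ⟨α, ?_⟩
      have h5 : α * β = -ν := hp
      have h6 : β = -α := by
        apply Units.ext
        rw [Units.val_neg]
        exact eq_neg_of_add_eq_zero_right hs
      rw [h6, mul_neg, neg_inj] at h5
      exact h5.symm
    · rw [h, hq]
  have hsumR : ∑ c : Bool × Bool, (th (Sum.inr c) 1) ^ 2 = q ^ 2 + 1 := by
    rw [Fintype.sum_prod_type, Fintype.sum_bool, Fintype.sum_bool, Fintype.sum_bool]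
    simp only [thT, thF, hcj1]
    have e1 : θ true 1 = (q + 1) / 2 := by rw [← hθt]; ring
    have e2 : θ false 1 = (q - 1) / 2 := by rw [← hθf]; ring
    rw [e1, e2]
    ring
  have hsurj : ∀ χ ∈ IrrP p SL(2, F), ∃ i, th i = χ := by
    rintro χ ⟨hχ, n, hn, hpn⟩
    have hStd : (fun s : SL(2, F) => St F (Matrix.SpecialLinearGroup.toGL s)) 1 =
        (Fintype.card F : ℂ) := by
      change St F (Matrix.SpecialLinearGroup.toGL 1) = _
      rw [hgl1, St_one]
    have hStne : ∀ χ' ∈ IrrP p SL(2, F),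
        (fun s : SL(2, F) => St F (Matrix.SpecialLinearGroup.toGL s)) ≠ χ' := by
      rintro χ' ⟨-, n', hn', hpn'⟩ rfl
      rw [hStd] at hn'
      have h5 : Fintype.card F = n' := by exact_mod_cast hn'
      rw [← h5] at hpn'
      exact hpn' (sm_dvd F p)
    obtain ⟨i, hi⟩ := complete_of_sum
      (fun j : Option (Ix F) => match j with
        | none => fun s : SL(2, F) => St F (Matrix.SpecialLinearGroup.toGL s)
        | some i => th i) (by
        rintro (_ | i)
        · exact StS_irr D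
        · exact hirr0 i) (by
        rintro (_ | i) (_ | j) h
        · rfl
        · exact absurd h (hStne _ (hirr j))
        · exact absurd h.symm (hStne _ (hirr i))
        · exact congrArg some (hinj h)) (by
        rw [Fintype.sum_option, Fintype.sum_sum_type]
        change (St F (Matrix.SpecialLinearGroup.toGL 1)) ^ 2 +
          (∑ b : Fˣ, (th (Sum.inl b) 1) ^ 2 + ∑ c : Bool × Bool, (th (Sum.inr c) 1) ^ 2) = _
        rw [hsumL, hsumR, hgl1, St_one, card_SL, ← hq]
        have e3 : (S1.card : ℂ) = (q - 3) / 2 := by rw [← hcount]; ring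
        rw [e3]
        ring) hχ
    rcases i with _ | i
    · exact absurd hi (hStne χ ⟨hχ, n, hn, hpn⟩)
    · exact ⟨i, hi⟩
  -- the action
  have hfu : ∀ (f : F ≃+* F) (b : Fˣ), ((Fu f b : Fˣ) : F) * 4 = 1 ↔ (b : F) * 4 = 1 := by
    intro f b
    rw [Fu_val]
    constructor
    · intro h
      apply f.injective
      rw [map_mul, map_one, map_ofNat]
      exact h
    · intro h
      have h5 := congrArg f h
      rw [map_mul, map_one, map_ofNat] at h5
      exact h5
  have hgal : ∀ (f : F ≃+* F) (b : Fˣ), (b : F) * 4 ≠ 1 →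
      (fun g => XL b (fG f g)) = XL (Fu f b) := by
    intro f b hb
    have h5 := X_gal (hXL b hb) f (hψf f)
    rw [map_one] at h5
    exact X_unique hψ h5 (hXL (Fu f b) fun h => hb ((hfu f b).1 h))
  have hact : ∀ g f i s, th i (act g f s) = th (tw g f i) s := by
    rintro g f (b | ⟨c, e⟩) s
    · change th (Sum.inl b) (act g f s) = th (Sum.inl (Fu f b)) s
      by_cases hb : (b : F) * 4 = 1
      · rw [th1 b hb, th1 _ ((hfu f b).2 hb)]
      · rw [thX b hb, thX _ fun h => hb ((hfu f b).1 h)]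
        change XL b (Matrix.SpecialLinearGroup.toGL (act g f s)) = _
        rw [toGL_act, Irr.isClass (X_irr hψ (hXL b hb))]
        exact congrFun (hgal f b hb) _
    · change th (Sum.inr (c, e)) (act g f s) = th (Sum.inr (c, e == sqd g)) s
      cases e with
      | true =>
        rw [thT, hθact]
        cases hg : sqd g with
        | true =>
          rw [if_pos rfl]
          exact (congrFun (thT c) s).symm
        | false =>
          rw [if_neg (by simp)]
          exact (congrFun (thF c) s).symm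
      | false =>
        rw [thF]
        change θ c (cj (up ν 1 0) (act g f s)) = _
        have h5 : cj (up ν 1 0) (act g f s) = act (up ν 1 0 * g) f s := by
          rw [act_apply, act_apply, cj_mul]
        rw [h5, hθact, sqd_mul h2, sqd_nu hν]
        cases hg : sqd g with
        | true =>
          rw [if_neg (by simp)]
          exact (congrFun (thF c) s).symm
        | false =>
          rw [if_pos (by simp)]
          exact (congrFun (thT c) s).symm
  have hcen : cj (up ν 1 0) (dd (-1)) = dd (-1) := by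
    apply Matrix.SpecialLinearGroup.toGL_injective
    rw [toGL_cj, toGL_dd]
    have h5 : up (-1 : Fˣ) (-1)⁻¹ (0 : F) = sc (-1) := by
      rw [sc, inv_neg, inv_one]
    rw [h5, ← sc_comm, mul_inv_cancel_right]
  exact ⟨{
    th := th
    irr := hirr
    inj := hinj
    surj := hsurj
    act := hact
    ext := by
      intro b hb
      refine ⟨XL b, X_irr hψ (hXL b hb), fun s => congrFun (thX b hb) s, fun z g => X_cen (hXL b hb) z g,
        ?_, ?_⟩
      · intro f hf g
        have h5 := congrFun (hgal f b hb) g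
        rw [hf] at h5
        exact h5
      · have h5 := X_whi hψ (hXL b hb) (r := 1) one_ne_zero
        simpa only [one_mul] using h5
    one := fun b hb s => by rw [th1 b hb]
    degl := hdegl
    degr := hdegr
    whi := by
      intro c
      rw [thT]
      exact hθw c
    cen := by
      rintro ⟨c, e⟩ s
      cases e with
      | true =>
        rw [thT]
        exact hθc c s
      | false =>
        rw [thF]
        change θ c (cj (up ν 1 0) (dd (-1) * s)) = _ * θ c (cj (up ν 1 0) s)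
        rw [map_mul, hcen]
        exact hθc c _ }⟩

end Pool.Agent.Helper55.PL
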