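import Pool.Agent.Helper55.PL.SLevel

/-!
# PL-18: the characters of degree `q + 1`, `q - 1`, `q` of `SL₂(F)`

Proofs.
`SL_irr`: `SX` with `a = a' = 1`: the only `z` is `1`, so the norm is `1` (`INC.irr_of_norm_one`, `S_nat`,
`S_class`).
`St_irr`: `St = prn 1 1 - 1` is an irreducible character of `GL₂(F)`: its coefficients are integers
(`prn_nat`; `1 = dt 1` is irreducible), `B St St = 2 - 1 - 1 + 1 = 1` (`prn_prn`, `prn_dt`, `dt_dt`),
`St 1 = q` (`prn_sc` with `z = 1`) (`irr_of_int`).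
`StS_irr`: by `S0` the norm of the restriction is `∑_z B St (dt (Q z) St)` with
`dt (Q z) St = prn (Q z) (Q z) - dt (Q z)` (`prn_tw`), and for `Q z ≠ 1` all four terms are `0`, for `z = 1`
they give `1`.
-/

open Matrix
open scoped MatrixGroups Classical

set_option linter.unusedSectionVars false

namespace Pool.Agent.Helper55.PL

open Pool.Agent.Helper42.INC Pool.Agent.Helper7.MK

variable {F E : Type} [Field F] [Fintype F] [DecidableEq F] [Field E] [Fintype E] [DecidableEq E]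
  [Algebra F E] {D : CD F E} {hE : Module.finrank F E = 2} {ψ : AddChar F ℂ}

theorem SL_irr (hψ : ψ ≠ 1) {b : Fˣ} {X : GL (Fin 2) F → ℂ} (hX : IsX D hE ψ 1 b X) :
    (fun s : SL(2, F) => X (Matrix.SpecialLinearGroup.toGL s)) ∈ Irr SL(2, F) := by
  refine irr_of_norm_one _ (S_class (Irr.isClass (X_irr hψ hX)))
    (fun χ hχ => S_nat (X_irr hψ hX) hχ) ?_
  rw [SX hψ hX hX]
  have h1 : (Finset.univ.filter (fun z : Fˣ => (z : F) * 1 = 1 ∧ z ^ 2 * b = b)).card = 1 := by
    rw [Finset.card_eq_one]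
    refine ⟨1, ?_⟩
    ext z
    rw [Finset.mem_filter, Finset.mem_singleton, mul_one]
    constructor
    · rintro ⟨_, h, _⟩
      exact Units.ext h
    · rintro rfl
      exact ⟨Finset.mem_univ _, rfl, by rw [one_pow, one_mul]⟩
  rw [h1, Nat.cast_one]

/-- the Steinberg character -/
noncomputable def St (F : Type) [Field F] [Fintype F] [DecidableEq F] (g : GL (Fin 2) F) : ℂ :=
  prn 1 1 g - 1

private theorem stlm_eq : St F = prn 1 1 - dt 1 := by
  funext g
  have h : g.val.det ≠ 0 := ((Matrix.isUnit_iff_isUnit_det g.val).1 g.isUnit).ne_zero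
  change prn 1 1 g - 1 = prn 1 1 g - (1 : MulChar F ℂ) g.val.det
  rw [MulChar.one_apply h.isUnit]

private theorem stlm_one : St F 1 = Fintype.card F := by
  have h : (1 : GL (Fin 2) F) = sc (1 : Fˣ) := by
    apply Units.ext
    rw [sc, up_val]
    ext i j
    fin_cases i <;> fin_cases j <;> simp
  change prn 1 1 1 - 1 = _
  rw [h, prn_sc, Units.val_one, map_one]
  ring

theorem St_irr : St F ∈ Irr (GL (Fin 2) F) := by
  have h1 : B (prn 1 1 - dt 1 : GL (Fin 2) F → ℂ) (prn 1 1 - dt 1) = 1 := by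
    rw [B_sub_left, B_symm (prn 1 1), B_symm (dt 1), B_sub_left, B_sub_left, prn_prn, prn_dt,
      dt_dt, B_symm (dt 1), prn_dt, if_pos ⟨rfl, rfl⟩, if_pos rfl]
    ring
  rw [stlm_eq]
  refine irr_of_int ?_ ?_ h1 (d := Fintype.card F) ?_
  · exact (prn_class 1 1).sub (Irr.isClass (dt_irr 1))
  · intro χ hχ
    obtain ⟨n, hn⟩ := prn_nat (1 : MulChar F ℂ) 1 hχ
    obtain ⟨m, hm⟩ := B_nat (isChar_irr (dt_irr (1 : MulChar F ℂ))) (isChar_irr hχ)
    refine ⟨(n : ℤ) - m, ?_⟩
    rw [B_sub_left, hn, hm]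
    push_cast
    ring
  · rw [← stlm_eq]
    exact stlm_one

theorem StS_irr (D : CD F E) :
    (fun s : SL(2, F) => St F (Matrix.SpecialLinearGroup.toGL s)) ∈ Irr SL(2, F) := by
  refine irr_of_norm_one _ (S_class (Irr.isClass St_irr)) (fun χ hχ => S_nat St_irr hχ) ?_
  rw [S0 D (St F) (St F)]
  have h1 : ∀ z : Fˣ, B (St F) (fun g => dt (D.Q z) g * St F g) = if z = 1 then 1 else 0 := by
    intro z
    have h2 : (fun g => dt (D.Q z) g * St F g) = prn (D.Q z) (D.Q z) - dt (D.Q z) := by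
      funext g
      have h3 := prn_tw (D.Q z) 1 1 g
      rw [mul_one] at h3
      change dt (D.Q z) g * (prn 1 1 g - 1) = prn (D.Q z) (D.Q z) g - dt (D.Q z) g
      rw [mul_sub, h3, mul_one]
    rw [h2, stlm_eq, B_sub_left, B_symm (prn 1 1), B_symm (dt 1), B_sub_left, B_sub_left, prn_prn,
      prn_dt, dt_dt, B_symm (dt (D.Q z)), prn_dt]
    by_cases hz : z = 1
    · rw [if_pos hz, hz, map_one, if_pos ⟨rfl, rfl⟩, if_pos rfl]
      ring
    · have hQ : D.Q z ≠ 1 := fun h => hz (D.Q_inj (h.trans (map_one D.Q).symm))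
      rw [if_neg hz, if_neg (fun h => hQ h.1), if_neg (fun h => hQ h.1.symm), if_neg hQ]
      ring
  rw [Finset.sum_congr rfl (fun z _ => h1 z), Finset.sum_ite_eq' Finset.univ (1 : Fˣ),
    if_pos (Finset.mem_univ _)]

theorem St_one : St F 1 = Fintype.card F := by
  exact stlm_one

end Pool.Agent.Helper55.PL
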