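import Pool.Agent.Helper55.PL.IntA
import Pool.Agent.Helper57.PL.Rep

/-!
# PL-28: intertwiners normalised on a Whittaker line

`G` is a finite group with an action `a : A →* MulAut G` of a group `A`, `ρ` an irreducible
representation of `G` whose character is invariant under `A`; `j : U →* G` a homomorphism from a finite
commutative group with `a x (j u) = j (τ x u)`, `ψ` a linear character of `U` with `ψ (τ x u) = ψ u`
which occurs in `ρ ∘ j` exactly once.

Proofs.
`whit_line`: let `e = |U|⁻¹ ∑_u ψ(u⁻¹) ρ(j u)`. It is idempotent (`∑_{u, v} ψ(u⁻¹ v⁻¹) ρ(j (u v))`), its trace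
is `1` by hypothesis, so it has rank one (`LinearMap.IsIdempotentElem...trace = finrank of the range`,
e.g. `LinearMap.IsProj.trace` / `LinearMap.trace_eq_...`), and its range is the space of the `v` with
`ρ (j u) v = ψ u • v` (such a `v` is `e v`; and `ρ (j u) (e v) = ψ u • e v`).
`exists_inter`: for `x : A` the representation `g ↦ ρ (a x g)` is irreducible with the same character, so it
is isomorphic to `ρ` (`INC.B_irr` and its proof; `Representation` orthogonality: if they were not isomorphic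
then `B χ χ = 0`, but it is `1`); so there is a bijective `T` with `T ρ(g) = ρ(a x g) T`.
`exists_W`: take `v ≠ 0` on the line. `T v` satisfies
`ρ(j u) T v = T ρ(a x⁻¹ (j u)) v`, and `a x⁻¹ (j u) = j (u')` with `τ x u' = u`, `ψ u' = ψ u`; so `T v` is on the
line, `T v = c • v`, `c ≠ 0`, and `W x = c⁻¹ • T` fixes `v`. `W x` is the only intertwiner with `W x v = v`:
two of them differ by a scalar (Schur: `(W x)⁻¹ W'` commutes with `ρ`; `IsIrreducible`; or: their difference
is an intertwiner which kills `v ≠ 0`, and its kernel is an invariant subspace, so it is `0`,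
`INC.isIrreducible_iff`). So `W (x y) = W x * W y` and `W 1 = 1`.
-/

open scoped Classical

set_option linter.unusedSectionVars false

namespace Pool.Agent.Helper55.PL

open Pool.Agent.Helper42.INC Pool.Agent.Helper7.MK

variable {G A U : Type} [Group G] [Finite G] [Group A] [CommGroup U] [Fintype U]
  {V : Type} [AddCommGroup V] [Module ℂ V] [FiniteDimensional ℂ V]

open Matrix in
/-- the matrices of a representation -/
private noncomputable def wt_mat (ρ : Representation ℂ G V) :
    G →* Matrix (Fin (Module.finrank ℂ V)) (Fin (Module.finrank ℂ V)) ℂ :=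
  (LinearMap.toMatrixAlgEquiv (Module.finBasis ℂ V)).toMulEquiv.toMonoidHom.comp ρ

private theorem wt_mat_apply (ρ : Representation ℂ G V) (g : G) :
    wt_mat ρ g = LinearMap.toMatrixAlgEquiv (Module.finBasis ℂ V) (ρ g) := rfl

private theorem wt_trace (ρ : Representation ℂ G V) (g : G) :
    (wt_mat ρ g).trace = ρ.character g :=
  (LinearMap.trace_eq_matrix_trace ℂ (Module.finBasis ℂ V) (ρ g)).symm

private theorem wt_vec (ρ : Representation ℂ G V) (g : G) (v : V) :
    (wt_mat ρ g).mulVec ((Module.finBasis ℂ V).repr v) = (Module.finBasis ℂ V).repr (ρ g v) := by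
  rw [wt_mat_apply]
  exact LinearMap.toMatrix_mulVec_repr (Module.finBasis ℂ V) (Module.finBasis ℂ V) (ρ g) v

private theorem wt_exists (ρ : Representation ℂ G V) (j : U →* G) (ψ : U →* ℂ)
    (h1 : ∑ u : U, ρ.character (j u) * ψ u⁻¹ = Fintype.card U) :
    ∃ v : Fin (Module.finrank ℂ V) → ℂ, v ≠ 0 ∧ (∀ u, (wt_mat ρ (j u)).mulVec v = ψ u • v) ∧
      ∀ w : Fin (Module.finrank ℂ V) → ℂ, (∀ u, (wt_mat ρ (j u)).mulVec w = ψ u • w) →
        ∃ c : ℂ, w = c • v := by
  have hψ : ∀ u, ((MonoidHom.toHomUnits ψ u : ℂˣ) : ℂ) = ψ u := fun u => rfl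
  have h2 : B (fun u => ((wt_mat ρ).comp j u).trace)
      (fun u => ((MonoidHom.toHomUnits ψ u : ℂˣ) : ℂ)) = 1 := by
    rw [B_eq]
    have h3 : ∑ u : U, ((wt_mat ρ).comp j u).trace *
        ((MonoidHom.toHomUnits ψ u⁻¹ : ℂˣ) : ℂ) = Fintype.card U := by
      rw [← h1]
      refine Finset.sum_congr rfl fun u _ => ?_
      rw [hψ, MonoidHom.comp_apply, wt_trace]
    rw [h3, Nat.card_eq_fintype_card]
    exact inv_mul_cancel₀ (by exact_mod_cast Fintype.card_ne_zero)
  exact Pool.Agent.Helper57.PL.Rep.exists_vec ((wt_mat ρ).comp j) (MonoidHom.toHomUnits ψ) h2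

theorem whit_line (ρ : Representation ℂ G V) (j : U →* G) (ψ : U →* ℂ)
    (h1 : ∑ u : U, ρ.character (j u) * ψ u⁻¹ = Fintype.card U) :
    ∃ v : V, v ≠ 0 ∧ (∀ u, ρ (j u) v = ψ u • v) ∧
      ∀ w : V, (∀ u, ρ (j u) w = ψ u • w) → ∃ c : ℂ, w = c • v := by
  obtain ⟨v, hv0, hv, huniq⟩ := wt_exists ρ j ψ h1
  set b := Module.finBasis ℂ V with hb
  have hbv : (b.repr (b.equivFun.symm v) : Fin (Module.finrank ℂ V) → ℂ) = v := by
    have h2 := b.equivFun.apply_symm_apply v
    rwa [Module.Basis.equivFun_apply] at h2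
  have hinj : ∀ x y : V, (b.repr x : Fin (Module.finrank ℂ V) → ℂ) = b.repr y → x = y := by
    intro x y h2
    apply b.equivFun.injective
    rw [Module.Basis.equivFun_apply, Module.Basis.equivFun_apply, h2]
  refine ⟨b.equivFun.symm v, ?_, ?_, ?_⟩
  · intro h0
    apply hv0
    rw [← hbv, h0, map_zero]
    rfl
  · intro u
    apply hinj
    rw [← wt_vec, ← hb, hbv, hv, map_smul, Finsupp.coe_smul, hbv]
  · intro w hw
    obtain ⟨c, hc⟩ := huniq (b.repr w) (fun u => by
      rw [hb, wt_vec, hw, map_smul, Finsupp.coe_smul])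
    refine ⟨c, ?_⟩
    apply hinj
    rw [hc, map_smul, Finsupp.coe_smul, hbv]

theorem exists_inter (σ : MulAut G) (ρ : Representation ℂ G V) (hρ : ρ.IsIrreducible)
    (hχ : ∀ g, ρ.character (σ g) = ρ.character g) :
    ∃ T : V ≃ₗ[ℂ] V, ∀ g v, T (ρ g v) = ρ (σ g) (T v) := by
  let ρ' : Representation ℂ G V := MonoidHom.comp ρ σ.toMonoidHom
  obtain ⟨e⟩ := Pool.Agent.Helper57.PL.Rep.gl_iso _ ρ ρ' rfl (by
    funext g
    exact (hχ g).symm)
  exact ⟨e.toLinearEquiv, fun g v =>
    Representation.IntertwiningMap.isIntertwining _ _ e.toIntertwiningMap g v⟩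

theorem exists_W (a : A →* MulAut G) (ρ : Representation ℂ G V) (hρ : ρ.IsIrreducible)
    (hχ : ∀ x g, ρ.character (a x g) = ρ.character g) (j : U →* G) (τ : A → U ≃ U)
    (hτ : ∀ x u, a x (j u) = j (τ x u)) (ψ : U →* ℂ) (hψ : ∀ x u, ψ (τ x u) = ψ u)
    (h1 : ∑ u : U, ρ.character (j u) * ψ u⁻¹ = Fintype.card U) :
    ∃ W : A →* (V →ₗ[ℂ] V), ∀ x g, W x * ρ g = ρ (a x g) * W x := by
  obtain ⟨v, hv0, hv, huniq⟩ := wt_exists ρ j ψ h1
  obtain ⟨W, hW, -⟩ := Pool.Agent.Helper57.PL.Rep.exists_W a (wt_mat ρ) (by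
      have h2 : (fun g => (wt_mat ρ g).trace) = ρ.character := funext (wt_trace ρ)
      rw [h2]
      exact ⟨V, _, _, inferInstance, ρ, hρ, rfl⟩)
    (fun x g => by rw [wt_trace, wt_trace, hχ]) j ψ
    (fun x u => ⟨τ x u, (hτ x u).symm, hψ x u⟩) v hv0 hv huniq
  refine ⟨(LinearMap.toMatrixAlgEquiv
    (Module.finBasis ℂ V)).symm.toMulEquiv.toMonoidHom.comp W, fun x g => ?_⟩
  apply (LinearMap.toMatrixAlgEquiv (Module.finBasis ℂ V)).injective
  rw [map_mul, map_mul]
  have h3 : LinearMap.toMatrixAlgEquiv (Module.finBasis ℂ V)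
      (((LinearMap.toMatrixAlgEquiv
        (Module.finBasis ℂ V)).symm.toMulEquiv.toMonoidHom.comp W) x) = W x :=
    (LinearMap.toMatrixAlgEquiv (Module.finBasis ℂ V)).apply_symm_apply (W x)
  rw [h3]
  exact hW x g

end Pool.Agent.Helper55.PL
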