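import Pool.Agent.Helper55.PL.OrthA
import Pool.Agent.Helper55.PL.OrthB
import Pool.Agent.Helper55.PL.EmbA

/-!
# PL-12: the characters which belong to polynomials, orthogonality

`IsX D hE ψ a b X` (Chars): `X = prn (Q α) (Q β)` with `α ≠ β` in `Fˣ` the roots of `x² - a x + b`, or
`X = csp (P ζ)` with `ζ ∉ F` a root (`ζ^q ≠ ζ`).

Proofs. `P_pow`: `P ζ ^ q = P (ζ ^ q)` since `P` is a homomorphism. `X_irr`: `prn_irr` (`Q` injective),
`csp_irr` (`P` injective).
`X_B`: prn, prn: `prn_prn`: `{α, β} = {α', β'}` iff sums and products agree (`α' = α` or `α' = β`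
because `(α' - α) (α' - β) = 0`). csp, csp: `csp_csp`, `P` injective and `tr_nu`
(conversely `trace_pow`, `nu_pow`). Mixed: `0` by `prn_csp` (and `INC.B_symm`), and `(a, b) ≠ (a', b')`:
otherwise `(ζ - α) (ζ - β) = ζ² - tr(ζ) ζ + N(ζ) = 0` (`trace_eq`, `norm_eq`), so `ζ = iu α` or `iu β`,
and `ζ^q = ζ` (`fix_iff`).
`X_dt`: `prn_dt` (`Q α ≠ Q β`), `csp_dt`. `X_unique`: irreducible and `B = 1`.
`X_nat`: `INC.B_char` style, from `X_irr`.
-/

open Matrix
open scoped MatrixGroups Classical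

set_option linter.unusedSectionVars false

namespace Pool.Agent.Helper55.PL

open Pool.Agent.Helper42.INC Pool.Agent.Helper7.MK

variable {F E : Type} [Field F] [Fintype F] [DecidableEq F] [Field E] [Fintype E] [DecidableEq E]
  [Algebra F E] {D : CD F E} {hE : Module.finrank F E = 2} {ψ : AddChar F ℂ}

private theorem P_pow (D : CD F E) (ζ : Eˣ) (n : ℕ) : D.P ζ ^ n = D.P (ζ ^ n) := (map_pow _ _ _).symm

private theorem mixed {a : F} {b : Fˣ} {α β : Fˣ} (hE : Module.finrank F E = 2)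
    (ha : (α : F) + β = a) (hb : α * β = b) {ζ : Eˣ} (hζ : ζ ^ Fintype.card F ≠ ζ)
    (ha' : Algebra.trace F E (ζ : E) = a) (hb' : nu F E ζ = b) : False := by
  have h1 := trace_eq (F := F) (E := E) hE (ζ : E)
  have h2 := norm_eq (F := F) (E := E) hE (ζ : E)
  have h3 : Algebra.norm F (ζ : E) = (b : F) := by
    rw [← nu_val, hb']
  have h4 : ((ζ : E) - algebraMap F E α) * ((ζ : E) - algebraMap F E β) = 0 := by
    have h5 : algebraMap F E a = (ζ : E) + (ζ : E) ^ Fintype.card F := by rw [← h1, ha']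
    have h6 : algebraMap F E (b : F) = (ζ : E) * (ζ : E) ^ Fintype.card F := by rw [← h2, h3]
    rw [← ha, map_add] at h5
    rw [← hb, Units.val_mul, map_mul] at h6
    linear_combination (-(ζ : E)) * h5 + h6
  rcases mul_eq_zero.1 h4 with h | h
  · exact hζ ((fix_iff hE ζ).2 ⟨α, Units.ext (by rw [iu_val]; exact (sub_eq_zero.1 h).symm)⟩)
  · exact hζ ((fix_iff hE ζ).2 ⟨β, Units.ext (by rw [iu_val]; exact (sub_eq_zero.1 h).symm)⟩)

theorem X_irr (hψ : ψ ≠ 1) {a : F} {b : Fˣ} {X : GL (Fin 2) F → ℂ} (hX : IsX D hE ψ a b X) :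
    X ∈ Irr (GL (Fin 2) F) := by
  rcases hX with ⟨α, β, hne, -, -, rfl⟩ | ⟨ζ, hζ, -, -, rfl⟩
  · exact prn_irr fun h => hne (D.Q_inj h)
  · exact csp_irr hE hψ fun h => hζ (D.P_inj (by rw [← P_pow]; exact h))

theorem X_B (hψ : ψ ≠ 1) {a a' : F} {b b' : Fˣ} {X X' : GL (Fin 2) F → ℂ}
    (hX : IsX D hE ψ a b X) (hX' : IsX D hE ψ a' b' X') :
    B X X' = if a = a' ∧ b = b' then 1 else 0 := by
  rcases hX with ⟨α, β, hne, ha, hb, rfl⟩ | ⟨ζ, hζ, ha, hb, rfl⟩ <;>
    rcases hX' with ⟨α', β', hne', ha', hb', rfl⟩ | ⟨ζ', hζ', ha', hb', rfl⟩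
  · rw [prn_prn]
    by_cases h : a = a' ∧ b = b'
    · rw [if_pos h]
      obtain ⟨h1, h2⟩ := h
      rw [← ha, ← ha'] at h1
      have h2' : (α : F) * β = α' * β' := by
        rw [← Units.val_mul, ← Units.val_mul, hb, hb', h2]
      have h3 : ((α' : F) - α) * (α' - β) = 0 := by
        linear_combination (-(α' : F)) * h1 + h2'
      rcases mul_eq_zero.1 h3 with h | h
      · have h4 : α' = α := Units.ext (sub_eq_zero.1 h)
        have h5 : β' = β := Units.ext (by rw [h4] at h1; exact (add_left_cancel h1).symm)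
        rw [h4, h5, if_pos ⟨rfl, rfl⟩, if_neg (fun h => hne (D.Q_inj h.1)), add_zero]
      · have h4 : α' = β := Units.ext (sub_eq_zero.1 h)
        have h5 : β' = α := Units.ext (by
          rw [h4, add_comm] at h1
          exact (add_left_cancel h1).symm)
        rw [h4, h5, if_neg (fun h => hne (D.Q_inj h.1)), if_pos ⟨rfl, rfl⟩, zero_add]
    · rw [if_neg h, if_neg, if_neg, add_zero]
      · rintro ⟨h1, h2⟩
        obtain rfl := D.Q_inj h1
        obtain rfl := D.Q_inj h2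
        exact h ⟨by rw [← ha, ← ha', add_comm], by rw [← hb, ← hb', mul_comm]⟩
      · rintro ⟨h1, h2⟩
        obtain rfl := D.Q_inj h1
        obtain rfl := D.Q_inj h2
        exact h ⟨by rw [← ha, ← ha'], by rw [← hb, ← hb']⟩
  · rw [prn_csp hE hψ, if_neg]
    rintro ⟨rfl, rfl⟩
    exact mixed hE ha hb hζ' ha' hb'
  · rw [B_symm, prn_csp hE hψ, if_neg]
    rintro ⟨rfl, rfl⟩
    exact mixed hE ha' hb' hζ ha hb
  · rw [csp_csp hE hψ]
    have hq : ∀ ζ ζ' : Eˣ, D.P ζ ^ Fintype.card F = D.P ζ' → ζ ^ Fintype.card F = ζ' :=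
      fun ζ ζ' h => D.P_inj (by rw [← P_pow]; exact h)
    by_cases h : a = a' ∧ b = b'
    · rw [if_pos h]
      obtain ⟨h1, h2⟩ := h
      rcases tr_nu (F := F) hE (ζ := ζ) (ζ' := ζ') (by rw [ha, ha', h1]) (by rw [hb, hb', h2])
        with h | h
      · rw [h, if_pos rfl, if_neg (fun h' => hζ (hq _ _ h')), add_zero]
      · rw [h, if_neg (fun h' => hζ (D.P_inj h').symm), if_pos (P_pow D ζ _), zero_add]
    · rw [if_neg h, if_neg, if_neg, add_zero]
      · intro h1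
        obtain rfl := hq _ _ h1
        exact h ⟨by rw [← ha, ← ha', trace_pow hE], by rw [← hb, ← hb', nu_pow hE]⟩
      · intro h1
        obtain rfl := D.P_inj h1
        exact h ⟨by rw [← ha, ← ha'], by rw [← hb, ← hb']⟩

theorem X_dt (hψ : ψ ≠ 1) {a : F} {b : Fˣ} {X : GL (Fin 2) F → ℂ} (hX : IsX D hE ψ a b X)
    (β : MulChar F ℂ) : B X (dt β) = 0 := by
  rcases hX with ⟨α, β', hne, -, -, rfl⟩ | ⟨ζ, hζ, -, -, rfl⟩
  · rw [prn_dt, if_neg]
    rintro ⟨h1, h2⟩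
    exact hne (D.Q_inj (h1.trans h2.symm))
  · exact csp_dt hE hψ (fun h => hζ (D.P_inj (by rw [← P_pow]; exact h))) β

theorem X_unique (hψ : ψ ≠ 1) {a : F} {b : Fˣ} {X X' : GL (Fin 2) F → ℂ}
    (hX : IsX D hE ψ a b X) (hX' : IsX D hE ψ a b X') : X = X' := by
  refine irr_eq (X_irr hψ hX) (X_irr hψ hX') ?_
  rw [X_B hψ hX hX', if_pos ⟨rfl, rfl⟩]
  exact one_ne_zero

end Pool.Agent.Helper55.PL
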