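import Pool.Agent.Helper55.PL.IndA
import Pool.Agent.Helper55.PL.EmbB
import Pool.Agent.Helper55.PL.Cards

/-!
# PL-08: values of the characters induced from the group of the `z x(u)`

Proofs. `whi_char`: a linear character (`isChar_lin` in IntA, or directly: the representation on `ℂ`).
`zu_sc`: `ind_central` with `zu (z, 1) = sc z`, `zu_inj`, `|GL| / |ZU| = q² - 1`.
`zu_un`: `ind_val`: `zu (z', u') = up z' z' (z' u')` is conjugate to `up z z u` iff `z' = z`, `u' ≠ 0`
(`isConj_un`), the sum is `ω z ∑_{u' ≠ 0} ψ u' = - ω z` (`sum_psi` with `r = 1`), and the centralizer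
and the group of the `z x(u)` have the same order (`cn_un`, `card_zu`).
`zu_sp`, `zu_el`: `ind_none` with `isConj_sp`, `emb_not_up`.
-/

open Matrix
open scoped MatrixGroups

set_option linter.unusedSectionVars false

namespace Pool.Agent.Helper55.PL

open Pool.Agent.Helper42.INC Pool.Agent.Helper7.MK

variable {F : Type} [Field F] [Fintype F] [DecidableEq F] {ψ : AddChar F ℂ}

theorem whi_char (ψ : AddChar F ℂ) (ω : MulChar F ℂ) : IsChar (whi ψ ω) := by
  have hmul : ∀ a b : Fˣ × Multiplicative F, whi ψ ω (a * b) = whi ψ ω a * whi ψ ω b := by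
    intro a b
    simp only [whi, Prod.fst_mul, Prod.snd_mul, toAdd_mul, Units.val_mul, map_mul,
      AddChar.map_add_eq_mul]
    ring
  have hone : whi ψ ω 1 = 1 := by
    simp [whi]
  refine ⟨ℂ, inferInstance, inferInstance, inferInstance,
    { toFun := fun a => whi ψ ω a • (LinearMap.id : ℂ →ₗ[ℂ] ℂ)
      map_one' := by
        rw [hone, one_smul]
        rfl
      map_mul' := by
        intro a b
        rw [hmul]
        ext
        simp [mul_comm] }, ?_⟩
  funext a
  change whi ψ ω a = LinearMap.trace ℂ ℂ (whi ψ ω a • (LinearMap.id : ℂ →ₗ[ℂ] ℂ))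
  rw [map_smul, LinearMap.trace_id, Module.finrank_self]
  simp

theorem zu_sc (ω : MulChar F ℂ) (z : Fˣ) :
    indHom (zu (F := F)) (whi ψ ω) (sc z) = ((Fintype.card F : ℂ) ^ 2 - 1) * ω z := by
  have h1 : zu (F := F) (z, 1) = sc z := by
    rw [zu_apply, sc]
    simp
  have hq : (Fintype.card F : ℂ) ≠ 0 := by
    exact_mod_cast (Fintype.card_pos (α := F)).ne'
  have hq1 : (Fintype.card F : ℂ) - 1 ≠ 0 := by
    have h2 := card_pos1 (F := F)
    rw [sub_ne_zero]
    exact_mod_cast h2.ne'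
  rw [← h1, ind_central _ zu_inj _ (by
    intro y
    rw [h1, sc_comm]), card_GL, card_zu]
  have h3 : whi ψ ω (z, 1) = ω z := by
    simp [whi]
  rw [h3]
  field_simp
  ring

private theorem sum_aux (hψ : ψ ≠ 1) (ω : MulChar F ℂ) (z : Fˣ)
    (p : Fˣ × Multiplicative F → Prop) (hp : ∀ z' v, p (z', v) ↔ z' = z ∧ v ≠ 1)
    {inst : DecidablePred p} :
    ∑ γ : Fˣ × Multiplicative F, @ite ℂ (p γ) (inst γ) (whi ψ ω γ) 0 = -ω z := by
  rw [Fintype.sum_prod_type, Finset.sum_eq_single z]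
  · have h2 : ∀ v : Multiplicative F, @ite ℂ _ (inst (z, v)) (whi ψ ω (z, v)) 0 =
        ω z * ψ v.toAdd - if v = 1 then ω z else 0 := by
      intro v
      by_cases hv : v = 1
      · rw [if_neg (by
          rw [hp]
          exact fun h => h.2 hv), hv]
        simp
      · rw [if_pos ((hp _ _).2 ⟨rfl, hv⟩), if_neg hv, sub_zero, whi]
    rw [Finset.sum_congr rfl fun v _ => h2 v, Finset.sum_sub_distrib,
      Finset.sum_ite_eq', if_pos (Finset.mem_univ _), ← Finset.mul_sum]
    have h4 : ∑ v : Multiplicative F, ψ v.toAdd = 0 := by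
      have h5 := sum_psi hψ (r := 1) one_ne_zero
      rw [← h5]
      exact Fintype.sum_equiv Multiplicative.toAdd _ _ (fun v => by rw [one_mul])
    rw [h4, mul_zero, zero_sub]
  · intro z' _ hz'
    apply Finset.sum_eq_zero
    intro v _
    rw [if_neg]
    rw [hp]
    exact fun h => hz' h.1
  · intro h
    exact absurd (Finset.mem_univ _) h

theorem zu_un (hψ : ψ ≠ 1) (ω : MulChar F ℂ) (z : Fˣ) {u : F} (hu : u ≠ 0) :
    indHom (zu (F := F)) (whi ψ ω) (up z z u) = - ω z := by
  have hq : (Fintype.card F : ℂ) ≠ 0 := by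
    exact_mod_cast (Fintype.card_pos (α := F)).ne'
  have hq1 : (Fintype.card F : ℂ) - 1 ≠ 0 := by
    have h2 := card_pos1 (F := F)
    rw [sub_ne_zero]
    exact_mod_cast h2.ne'
  rw [ind_val, cn_un hu, card_zu]
  generalize hS : (∑ γ : Fˣ × Multiplicative F, _ : ℂ) = S
  suffices h1 : S = -ω z by
    rw [h1]
    field_simp
  rw [← hS]
  have h2 := sum_aux hψ ω z (fun γ => IsConj ((zu (F := F)) γ) (up z z u)) (by
    intro z' v
    have hc := isConj_un (z := z) (x' := z') (y' := z') (u' := (z' : F) * v.toAdd) hu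
    have hiff : (z' = z ∧ z' = z ∧ (z' : F) * v.toAdd ≠ 0) ↔ z' = z ∧ v ≠ 1 := by
      constructor
      · rintro ⟨h1, -, h2⟩
        refine ⟨h1, fun h => h2 ?_⟩
        rw [h, toAdd_one, mul_zero]
      · rintro ⟨h1, h2⟩
        refine ⟨h1, h1, mul_ne_zero z'.ne_zero fun h => h2 ?_⟩
        rw [← ofAdd_toAdd v, h, ofAdd_zero]
    rw [zu_apply]
    exact hc.trans hiff) (inst := fun γ => Classical.propDecidable _)
  refine Eq.trans ?_ h2
  refine Finset.sum_congr rfl fun γ _ => ?_
  congr 1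

theorem zu_sp (ω : MulChar F ℂ) {x y : Fˣ} (h : x ≠ y) (u : F) :
    indHom (zu (F := F)) (whi ψ ω) (up x y u) = 0 := by
  apply ind_none
  rintro ⟨z', v⟩ hc
  rw [zu_apply, isConj_sp h] at hc
  rcases hc with ⟨h1, h2⟩ | ⟨h1, h2⟩
  · exact h (h1.symm.trans h2)
  · exact h (h2.symm.trans h1)

theorem zu_el {E : Type} [Field E] [Fintype E] [DecidableEq E] [Algebra F E]
    (hE : Module.finrank F E = 2) (ω : MulChar F ℂ) {ζ : Eˣ} (h : ζ ^ Fintype.card F ≠ ζ) :
    indHom (zu (F := F)) (whi ψ ω) (emb hE ζ) = 0 := by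
  apply ind_none
  rintro ⟨z', v⟩ hc
  rw [zu_apply] at hc
  exact emb_not_up hE h _ _ _ hc.symm

end Pool.Agent.Helper55.PL
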